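import Mathlib

/-!
Survival probabilities of Gaussian random walks in `[-1,1]`: log-concavity in the number of steps.
-/

set_option autoImplicit false

namespace Pool.Agent.X129.ExitKernel

open MeasureTheory ProbabilityTheory Set Filter Topology
open scoped NNReal ENNReal

noncomputable section

variable {v : ℝ≥0}

/-- survival probability of `n` steps, started from `x` -/
def F (v : ℝ≥0) : ℕ → ℝ → ℝ
  | 0, _ => 1
  | n + 1, x => ∫ z, (Icc (-1 : ℝ) 1).indicator (F v n) (x + z) ∂(gaussianReal 0 v)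

def g (v : ℝ≥0) (n : ℕ) : ℝ → ℝ := (Icc (-1 : ℝ) 1).indicator (F v n)

lemma F_zero (x : ℝ) : F v 0 x = 1 := rfl

lemma F_succ (n : ℕ) (x : ℝ) : F v (n + 1) x = ∫ z, g v n (x + z) ∂(gaussianReal 0 v) := rfl

lemma F_props (n : ℕ) : (∀ x, 0 ≤ F v n x) ∧ (∀ x, F v n x ≤ 1) ∧ Measurable (F v n) ∧
    (∀ x, F v n (-x) = F v n x) := by
  induction n with
  | zero => exact ⟨fun x => zero_le_one, fun x => le_rfl, measurable_const, fun x => rfl⟩
  | succ n ih =>
    obtain ⟨h0, h1, hm, he⟩ := ih
    have gm : Measurable (g v n) := hm.indicator measurableSet_Icc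
    have g0 : ∀ x, 0 ≤ g v n x := fun x => indicator_nonneg (fun y _ => h0 y) x
    have g1 : ∀ x, g v n x ≤ 1 := fun x => indicator_le' (fun y _ => h1 y) (fun y _ => zero_le_one) x
    have ge : ∀ x, g v n (-x) = g v n x := by
      intro x
      unfold g
      by_cases hx : x ∈ Icc (-1 : ℝ) 1
      · have hx' : -x ∈ Icc (-1 : ℝ) 1 := ⟨by linarith [hx.2], by linarith [hx.1]⟩
        rw [indicator_of_mem hx, indicator_of_mem hx', he]
      · have hx' : -x ∉ Icc (-1 : ℝ) 1 := fun h => hx ⟨by linarith [h.2], by linarith [h.1]⟩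
        rw [indicator_of_notMem hx, indicator_of_notMem hx']
    refine ⟨fun x => ?_, fun x => ?_, ?_, fun x => ?_⟩
    · rw [F_succ]; exact integral_nonneg fun z => g0 _
    · rw [F_succ]
      have : ∫ z, g v n (x + z) ∂(gaussianReal 0 v) ≤ ∫ z, (1 : ℝ) ∂(gaussianReal 0 v) := by
        apply integral_mono_of_nonneg (Eventually.of_forall fun z => g0 _) (integrable_const _)
          (Eventually.of_forall fun z => g1 _)
      simpa using this
    · have : Measurable (fun x => ∫ z, g v n (x + z) ∂(gaussianReal 0 v)) := by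
        apply StronglyMeasurable.measurable
        exact StronglyMeasurable.integral_prod_right' (f := fun p : ℝ × ℝ => g v n (p.1 + p.2))
          (gm.comp (measurable_fst.add measurable_snd)).stronglyMeasurable
      exact this
    · rw [F_succ, F_succ]
      have h3 : gaussianReal 0 v = (gaussianReal 0 v).map (fun z => -z) := by
        rw [gaussianReal_map_neg, neg_zero]
      conv_rhs => rw [h3]
      rw [integral_map (by fun_prop)]
      · congr 1
        funext z
        rw [← ge]
        congr 1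
        ring
      · exact ((gm.comp (measurable_const.add measurable_id)).aestronglyMeasurable)

lemma F_nonneg (n : ℕ) (x : ℝ) : 0 ≤ F v n x := (F_props n).1 x
lemma F_le_one (n : ℕ) (x : ℝ) : F v n x ≤ 1 := (F_props n).2.1 x
lemma F_meas (n : ℕ) : Measurable (F v n) := (F_props n).2.2.1
lemma F_even (n : ℕ) (x : ℝ) : F v n (-x) = F v n x := (F_props n).2.2.2 x

lemma g_nonneg (n : ℕ) (x : ℝ) : 0 ≤ g v n x := indicator_nonneg (fun y _ => F_nonneg n y) x
lemma g_le_one (n : ℕ) (x : ℝ) : g v n x ≤ 1 :=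
  indicator_le' (fun y _ => F_le_one n y) (fun y _ => zero_le_one) x
lemma g_meas (n : ℕ) : Measurable (g v n) := (F_meas n).indicator measurableSet_Icc
lemma g_even (n : ℕ) (x : ℝ) : g v n (-x) = g v n x := by
  unfold g
  by_cases hx : x ∈ Icc (-1 : ℝ) 1
  · have hx' : -x ∈ Icc (-1 : ℝ) 1 := ⟨by linarith [hx.2], by linarith [hx.1]⟩
    rw [indicator_of_mem hx, indicator_of_mem hx', F_even]
  · have hx' : -x ∉ Icc (-1 : ℝ) 1 := fun h => hx ⟨by linarith [h.2], by linarith [h.1]⟩
    rw [indicator_of_notMem hx, indicator_of_notMem hx']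

/-- density -/
def φ (v : ℝ≥0) (x : ℝ) : ℝ := gaussianPDFReal 0 v x

lemma φ_nonneg (x : ℝ) : 0 ≤ φ v x := gaussianPDFReal_nonneg 0 v x
lemma φ_pos (hv : v ≠ 0) (x : ℝ) : 0 < φ v x := gaussianPDFReal_pos 0 v x hv
lemma φ_meas : Measurable (φ v) := measurable_gaussianPDFReal 0 v
lemma φ_int : Integrable (φ v) := integrable_gaussianPDFReal 0 v
lemma φ_even (x : ℝ) : φ v (-x) = φ v x := by
  unfold φ gaussianPDFReal
  simp

lemma int_shift (hv : v ≠ 0) (f : ℝ → ℝ) (x : ℝ) :
    ∫ z, f (x + z) ∂(gaussianReal 0 v) = ∫ y, φ v (y - x) * f y := by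
  rw [integral_gaussianReal_eq_integral_smul hv]
  rw [← integral_add_left_eq_self (fun y => φ v (y - x) * f y) x]
  congr 1
  funext z
  rw [smul_eq_mul, add_sub_cancel_left]
  rfl

/-- folded kernel -/
def K (v : ℝ≥0) (x y : ℝ) : ℝ := φ v (y - x) + φ v (y + x)

lemma K_nonneg (x y : ℝ) : 0 ≤ K v x y := add_nonneg (φ_nonneg _) (φ_nonneg _)

lemma K_meas (x : ℝ) : Measurable (K v x) :=
  (φ_meas.comp (measurable_id.sub_const x)).add (φ_meas.comp (measurable_id.add_const x))

lemma K_int (x : ℝ) : Integrable (K v x) :=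
  (φ_int.comp_sub_right x).add (φ_int.comp_add_right x)

/-- the operator on functions on `[0, ∞)` -/
def T (v : ℝ≥0) (h : ℝ → ℝ) (x : ℝ) : ℝ := ∫ y in Ici (0 : ℝ), K v x y * h y

lemma fold (hv : v ≠ 0) (h : ℝ → ℝ) (hm : Measurable h) (hb : ∃ C, ∀ x, |h x| ≤ C)
    (he : ∀ x, h (-x) = h x) (x : ℝ) :
    ∫ y, φ v (y - x) * h y = T v h x := by
  obtain ⟨C, hC⟩ := hb
  have hI : Integrable (fun y => φ v (y - x) * h y) := by
    have := (φ_int (v := v)).comp_sub_right x
    refine this.mul_bdd hm.aestronglyMeasurable (c := C) (Eventually.of_forall fun y => ?_)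
    rw [Real.norm_eq_abs]; exact hC y
  have hI2 : Integrable (fun y => φ v (y + x) * h y) := by
    have := (φ_int (v := v)).comp_add_right x
    refine this.mul_bdd hm.aestronglyMeasurable (c := C) (Eventually.of_forall fun y => ?_)
    rw [Real.norm_eq_abs]; exact hC y
  have h1 : ∫ y, φ v (y - x) * h y =
      (∫ y in Ici (0:ℝ), φ v (y - x) * h y) + ∫ y in (Ici (0:ℝ))ᶜ, φ v (y - x) * h y :=
    (integral_add_compl measurableSet_Ici hI).symm
  have h2 : ∫ y in (Ici (0:ℝ))ᶜ, φ v (y - x) * h y = ∫ y in Ici (0:ℝ), φ v (y + x) * h y := by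
    rw [compl_Ici, integral_Ici_eq_integral_Ioi, ← integral_Iic_eq_integral_Iio]
    have h3 := integral_comp_neg_Ioi (0:ℝ) (fun y => φ v (y - x) * h y)
    rw [neg_zero] at h3
    rw [← h3]
    congr 1
    funext y
    rw [he, ← φ_even (y + x)]
    congr 2
    ring
  rw [h1, h2, ← integral_add hI.integrableOn hI2.integrableOn]
  unfold T K
  congr 1
  funext y
  ring

lemma F_eq_T (hv : v ≠ 0) (n : ℕ) (x : ℝ) : F v (n + 1) x = T v (g v n) x := by
  rw [F_succ, int_shift hv, fold hv (g v n) (g_meas n) ⟨1, fun x => ?_⟩ (g_even n)]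
  rw [abs_of_nonneg (g_nonneg n x)]
  exact g_le_one n x

lemma T_one (hv : v ≠ 0) (x : ℝ) : T v (fun _ => 1) x = 1 := by
  rw [← fold hv (fun _ => 1) measurable_const ⟨1, fun x => by simp⟩ (fun _ => rfl)]
  rw [← int_shift hv]
  simp

/-- total positivity of order two of the folded kernel -/
lemma tp2 {x x' y y' : ℝ} (hx : 0 ≤ x) (hxx : x ≤ x') (hy : 0 ≤ y) (hyy : y ≤ y') :
    K v x y' * K v x' y ≤ K v x y * K v x' y' := by
  have key : ∀ s t : ℝ, K v s t = (Real.sqrt (2 * Real.pi * v))⁻¹ *
      Real.exp (-(s ^ 2 + t ^ 2) / (2 * v)) * (2 * Real.cosh (s * t / v)) := by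
    intro s t
    unfold K φ gaussianPDFReal
    rw [Real.cosh_eq]
    rcases eq_or_ne v 0 with hv | hv
    · subst hv; simp
    · have hv' : (v : ℝ) ≠ 0 := by exact_mod_cast hv
      have e1 : Real.exp (-(t - s - 0) ^ 2 / (2 * v)) =
          Real.exp (-(s ^ 2 + t ^ 2) / (2 * v)) * Real.exp (s * t / v) := by
        rw [← Real.exp_add]; congr 1; field_simp; ring
      have e2 : Real.exp (-(t + s - 0) ^ 2 / (2 * v)) =
          Real.exp (-(s ^ 2 + t ^ 2) / (2 * v)) * Real.exp (-(s * t / v)) := by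
        rw [← Real.exp_add]; congr 1; field_simp; ring
      rw [e1, e2]; ring
  rw [key, key, key, key]
  set c := (Real.sqrt (2 * Real.pi * v))⁻¹ with hc
  have hc0 : 0 ≤ c := by positivity
  have hexp : Real.exp (-(x ^ 2 + y' ^ 2) / (2 * v)) * Real.exp (-(x' ^ 2 + y ^ 2) / (2 * v)) =
      Real.exp (-(x ^ 2 + y ^ 2) / (2 * v)) * Real.exp (-(x' ^ 2 + y' ^ 2) / (2 * v)) := by
    rw [← Real.exp_add, ← Real.exp_add]; congr 1; ring
  have hcosh : Real.cosh (x * y' / v) * Real.cosh (x' * y / v) ≤
      Real.cosh (x * y / v) * Real.cosh (x' * y' / v) := by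
    have prod : ∀ a b : ℝ, Real.cosh a * Real.cosh b =
        (Real.cosh (a + b) + Real.cosh (a - b)) / 2 := by
      intro a b
      rw [Real.cosh_add, Real.cosh_sub]; ring
    rw [prod, prod]
    have hv0 : (0:ℝ) ≤ v := v.2
    have m1 : Real.cosh (x * y' / v + x' * y / v) ≤ Real.cosh (x * y / v + x' * y' / v) := by
      rw [Real.cosh_le_cosh, ← add_div, ← add_div, abs_div, abs_div]
      apply div_le_div_of_nonneg_right _ (abs_nonneg _)
      have h1 : 0 ≤ x * y' + x' * y := by
        have : 0 ≤ x' := hx.trans hxx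
        have : 0 ≤ y' := hy.trans hyy
        positivity
      have h2 : x * y' + x' * y ≤ x * y + x' * y' := by nlinarith
      rw [abs_of_nonneg h1, abs_of_nonneg (h1.trans h2)]
      exact h2
    have m2 : Real.cosh (x * y' / v - x' * y / v) ≤ Real.cosh (x * y / v - x' * y' / v) := by
      rw [Real.cosh_le_cosh, ← sub_div, ← sub_div, abs_div, abs_div]
      apply div_le_div_of_nonneg_right _ (abs_nonneg _)
      have hx' : 0 ≤ x' := hx.trans hxx
      have hy' : 0 ≤ y' := hy.trans hyy
      rw [abs_le]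
      have h3 : |x * y - x' * y'| = x' * y' - x * y := by
        rw [abs_sub_comm, abs_of_nonneg]
        nlinarith [mul_le_mul hxx hyy hy hx']
      rw [h3]
      constructor
      · nlinarith [mul_nonneg hx hy', mul_nonneg hx hy, mul_le_mul_of_nonneg_left hyy hx']
      · nlinarith [mul_nonneg hx' hy, mul_nonneg hx hy, mul_le_mul_of_nonneg_right hxx hy']
    linarith
  have h0 : 0 ≤ c * c * (Real.exp (-(x ^ 2 + y ^ 2) / (2 * v)) *
      Real.exp (-(x' ^ 2 + y' ^ 2) / (2 * v))) * 4 := by positivity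
  calc c * Real.exp (-(x ^ 2 + y' ^ 2) / (2 * v)) * (2 * Real.cosh (x * y' / v)) *
        (c * Real.exp (-(x' ^ 2 + y ^ 2) / (2 * v)) * (2 * Real.cosh (x' * y / v)))
      = c * c * (Real.exp (-(x ^ 2 + y' ^ 2) / (2 * v)) * Real.exp (-(x' ^ 2 + y ^ 2) / (2 * v))) *
          4 * (Real.cosh (x * y' / v) * Real.cosh (x' * y / v)) := by ring
    _ = c * c * (Real.exp (-(x ^ 2 + y ^ 2) / (2 * v)) * Real.exp (-(x' ^ 2 + y' ^ 2) / (2 * v))) *
          4 * (Real.cosh (x * y' / v) * Real.cosh (x' * y / v)) := by rw [hexp]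
    _ ≤ c * c * (Real.exp (-(x ^ 2 + y ^ 2) / (2 * v)) * Real.exp (-(x' ^ 2 + y' ^ 2) / (2 * v))) *
          4 * (Real.cosh (x * y / v) * Real.cosh (x' * y' / v)) :=
        mul_le_mul_of_nonneg_left hcosh h0
    _ = _ := by ring

/-- basic composition -/
lemma comp_ineq {x x' : ℝ} (hx : 0 ≤ x) (hxx : x ≤ x') (f h : ℝ → ℝ) (fm : Measurable f)
    (hm : Measurable h) (fb : ∀ y, |f y| ≤ 1) (hb : ∀ y, |h y| ≤ 1)
    (hfh : ∀ y y', 0 ≤ y → y ≤ y' → h y' * f y ≤ h y * f y') :
    T v h x' * T v f x ≤ T v h x * T v f x' := by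
  have I : ∀ (s : ℝ) (k : ℝ → ℝ), Measurable k → (∀ y, |k y| ≤ 1) →
      Integrable (fun y => K v s y * k y) (volume.restrict (Ici 0)) := by
    intro s k km kb
    refine ((K_int (v := v) s).integrableOn (s := Ici 0)).mul_bdd km.aestronglyMeasurable (c := 1)
      (Eventually.of_forall fun y => ?_)
    rw [Real.norm_eq_abs]; exact kb y
  set μ := volume.restrict (Ici (0:ℝ)) with hμ
  have iA := I x h hm hb
  have iB := I x' f fm fb
  have iC := I x f fm fb
  have iE := I x' h hm hb
  have hpos : 0 ≤ ∫ z : ℝ × ℝ, (K v x z.1 * K v x' z.2 - K v x z.2 * K v x' z.1) *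
      (h z.1 * f z.2 - h z.2 * f z.1) ∂(μ.prod μ) := by
    apply integral_nonneg_of_ae
    have hae : ∀ᵐ z : ℝ × ℝ ∂(μ.prod μ), 0 ≤ z.1 ∧ 0 ≤ z.2 := by
      rw [hμ, Measure.prod_restrict, ae_restrict_iff' (measurableSet_Ici.prod measurableSet_Ici)]
      exact Eventually.of_forall fun z hz => hz
    filter_upwards [hae] with z hz
    simp only [Pi.zero_apply]
    rcases le_total z.1 z.2 with h1 | h1
    · apply mul_nonneg
      · linarith [tp2 (v := v) hx hxx hz.1 h1]
      · linarith [hfh z.1 z.2 hz.1 h1]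
    · apply mul_nonneg_of_nonpos_of_nonpos
      · linarith [tp2 (v := v) hx hxx hz.2 h1]
      · linarith [hfh z.2 z.1 hz.2 h1]
  have heq : ∫ z : ℝ × ℝ, (K v x z.1 * K v x' z.2 - K v x z.2 * K v x' z.1) *
      (h z.1 * f z.2 - h z.2 * f z.1) ∂(μ.prod μ) =
      2 * (T v h x * T v f x' - T v h x' * T v f x) := by
    have p1 := integral_prod_mul (μ := μ) (ν := μ) (fun y => K v x y * h y) (fun y => K v x' y * f y)
    have p2 := integral_prod_mul (μ := μ) (ν := μ) (fun y => K v x y * f y) (fun y => K v x' y * h y)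
    have p3 := integral_prod_mul (μ := μ) (ν := μ) (fun y => K v x' y * h y) (fun y => K v x y * f y)
    have p4 := integral_prod_mul (μ := μ) (ν := μ) (fun y => K v x' y * f y) (fun y => K v x y * h y)
    have q1 : Integrable (fun z : ℝ × ℝ => (K v x z.1 * h z.1) * (K v x' z.2 * f z.2)) (μ.prod μ) :=
      iA.mul_prod iB
    have q2 : Integrable (fun z : ℝ × ℝ => (K v x z.1 * f z.1) * (K v x' z.2 * h z.2)) (μ.prod μ) :=
      iC.mul_prod iE
    have q3 : Integrable (fun z : ℝ × ℝ => (K v x' z.1 * h z.1) * (K v x z.2 * f z.2)) (μ.prod μ) :=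
      iE.mul_prod iC
    have q4 : Integrable (fun z : ℝ × ℝ => (K v x' z.1 * f z.1) * (K v x z.2 * h z.2)) (μ.prod μ) :=
      iB.mul_prod iA
    have : (fun z : ℝ × ℝ => (K v x z.1 * K v x' z.2 - K v x z.2 * K v x' z.1) *
        (h z.1 * f z.2 - h z.2 * f z.1)) = fun z =>
        (((K v x z.1 * h z.1) * (K v x' z.2 * f z.2) - (K v x z.1 * f z.1) * (K v x' z.2 * h z.2)) -
        (K v x' z.1 * h z.1) * (K v x z.2 * f z.2)) + (K v x' z.1 * f z.1) * (K v x z.2 * h z.2) := by
      funext z; ring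
    have q12 : Integrable (fun z : ℝ × ℝ => (K v x z.1 * h z.1) * (K v x' z.2 * f z.2) -
        (K v x z.1 * f z.1) * (K v x' z.2 * h z.2)) (μ.prod μ) := q1.sub q2
    have q123 : Integrable (fun z : ℝ × ℝ => ((K v x z.1 * h z.1) * (K v x' z.2 * f z.2) -
        (K v x z.1 * f z.1) * (K v x' z.2 * h z.2)) - (K v x' z.1 * h z.1) * (K v x z.2 * f z.2))
        (μ.prod μ) := q12.sub q3
    rw [this, integral_add q123 q4, integral_sub q12 q3, integral_sub q1 q2, p1, p2, p3, p4]
    have t1 : T v h x = ∫ y, K v x y * h y ∂μ := rfl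
    have t2 : T v f x = ∫ y, K v x y * f y ∂μ := rfl
    have t3 : T v h x' = ∫ y, K v x' y * h y ∂μ := rfl
    have t4 : T v f x' = ∫ y, K v x' y * f y ∂μ := rfl
    rw [t1, t2, t3, t4]
    ring
  linarith

lemma ratio (hv : v ≠ 0) (n : ℕ) : ∀ x x' : ℝ, 0 ≤ x → x ≤ x' →
    F v (n + 1) x' * F v n x ≤ F v (n + 1) x * F v n x' := by
  induction n with
  | zero =>
    intro x x' hx hxx
    have := comp_ineq (v := v) hx hxx (fun _ => 1) (g v 0) measurable_const (g_meas 0)
      (fun y => by simp) (fun y => by rw [abs_of_nonneg (g_nonneg 0 y)]; exact g_le_one 0 y) ?_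
    · rw [T_one hv, T_one hv, ← F_eq_T hv, ← F_eq_T hv] at this
      simpa [F_zero] using this
    · intro y y' hy hyy
      rw [mul_one, mul_one]
      unfold g
      by_cases h1 : y' ∈ Icc (-1:ℝ) 1
      · have h2 : y ∈ Icc (-1:ℝ) 1 := ⟨by linarith, by linarith [h1.2]⟩
        rw [indicator_of_mem h1, indicator_of_mem h2, F_zero, F_zero]
      · rw [indicator_of_notMem h1]
        exact indicator_nonneg (fun z _ => F_nonneg 0 z) y
  | succ n ih =>
    intro x x' hx hxx
    have := comp_ineq (v := v) hx hxx (g v n) (g v (n + 1)) (g_meas n) (g_meas (n + 1))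
      (fun y => by rw [abs_of_nonneg (g_nonneg n y)]; exact g_le_one n y)
      (fun y => by rw [abs_of_nonneg (g_nonneg (n + 1) y)]; exact g_le_one (n + 1) y) ?_
    · rw [← F_eq_T hv, ← F_eq_T hv, ← F_eq_T hv, ← F_eq_T hv] at this
      exact this
    · intro y y' hy hyy
      unfold g
      by_cases h1 : y' ∈ Icc (-1:ℝ) 1
      · have h2 : y ∈ Icc (-1:ℝ) 1 := ⟨by linarith, by linarith [h1.2]⟩
        rw [indicator_of_mem h1, indicator_of_mem h2, indicator_of_mem h1, indicator_of_mem h2]
        exact ih y y' hy hyy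
      · rw [indicator_of_notMem h1, indicator_of_notMem h1, zero_mul, mul_zero]

lemma F_pos (hv : v ≠ 0) (n : ℕ) (x : ℝ) : 0 < F v n x := by
  induction n generalizing x with
  | zero => exact zero_lt_one
  | succ n ih =>
    rw [F_succ, int_shift hv]
    have hnn : ∀ y, 0 ≤ φ v (y - x) * g v n y := fun y => mul_nonneg (φ_nonneg _) (g_nonneg n y)
    have hI : Integrable (fun y => φ v (y - x) * g v n y) := by
      refine ((φ_int (v := v)).comp_sub_right x).mul_bdd (g_meas n).aestronglyMeasurable (c := 1)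
        (Eventually.of_forall fun y => ?_)
      rw [Real.norm_eq_abs, abs_of_nonneg (g_nonneg n y)]; exact g_le_one n y
    rw [integral_pos_iff_support_of_nonneg hnn hI]
    have hsub : Icc (-1:ℝ) 1 ⊆ Function.support (fun y => φ v (y - x) * g v n y) := by
      intro y hy
      rw [Function.mem_support]
      have h1 : g v n y = F v n y := indicator_of_mem hy _
      rw [h1]
      exact (mul_pos (φ_pos hv _) (ih y)).ne'
    refine lt_of_lt_of_le ?_ (measure_mono hsub)
    rw [Real.volume_Icc]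
    norm_num

lemma logconc (hv : v ≠ 0) (n : ℕ) : F v (n + 2) 0 * F v n 0 ≤ F v (n + 1) 0 ^ 2 := by
  have I : ∀ m, Integrable (fun z => g v m (0 + z)) (gaussianReal 0 v) := by
    intro m
    refine Integrable.of_bound ((g_meas m).comp (measurable_const.add measurable_id)).aestronglyMeasurable 1
      (Eventually.of_forall fun y => ?_)
    rw [Real.norm_eq_abs, abs_of_nonneg (g_nonneg m _)]; exact g_le_one m _
  have e1 : F v (n + 2) 0 * F v n 0 = ∫ z, g v (n + 1) (0 + z) * F v n 0 ∂(gaussianReal 0 v) := by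
    rw [F_succ (n + 1), integral_mul_const]
  have e2 : F v (n + 1) 0 ^ 2 = ∫ z, F v (n + 1) 0 * g v n (0 + z) ∂(gaussianReal 0 v) := by
    rw [integral_const_mul, ← F_succ, sq]
  rw [e1, e2]
  apply integral_mono ((I (n + 1)).mul_const _) ((I n).const_mul _)
  intro z
  show g v (n + 1) (0 + z) * F v n 0 ≤ F v (n + 1) 0 * g v n (0 + z)
  rw [zero_add]
  unfold g
  by_cases h1 : z ∈ Icc (-1:ℝ) 1
  · rw [indicator_of_mem h1, indicator_of_mem h1]
    rcases le_total 0 z with h2 | h2
    · exact ratio hv n 0 z le_rfl h2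
    · have := ratio hv n 0 (-z) le_rfl (by linarith)
      rwa [F_even, F_even] at this
  · rw [indicator_of_notMem h1, indicator_of_notMem h1, zero_mul, mul_zero]

lemma F_anti_step (hv : v ≠ 0) (n : ℕ) : F v (n + 1) 0 ≤ F v n 0 := by
  have key : ∀ n, ∀ x, F v (n + 1) x ≤ F v n x := by
    intro n
    induction n with
    | zero => intro x; exact F_le_one 1 x
    | succ n ih =>
      intro x
      rw [F_succ (n + 1), F_succ n]
      have I : ∀ m, Integrable (fun z => g v m (x + z)) (gaussianReal 0 v) := by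
        intro m
        refine Integrable.of_bound
          ((g_meas m).comp (measurable_const.add measurable_id)).aestronglyMeasurable 1
          (Eventually.of_forall fun y => ?_)
        rw [Real.norm_eq_abs, abs_of_nonneg (g_nonneg m _)]; exact g_le_one m _
      apply integral_mono (I (n + 1)) (I n)
      intro z
      show g v (n + 1) (x + z) ≤ g v n (x + z)
      exact indicator_le_indicator (ih _)
  exact key n 0

/-- supporting line -/
lemma tangent (hv : v ≠ 0) (M : ℕ) : ∃ s : ℝ, s ≤ 0 ∧ ∀ m : ℕ,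
    Real.log (F v m 0) ≤ Real.log (F v M 0) + s * ((m : ℝ) - M) := by
  obtain ⟨b, hb⟩ : ∃ b : ℕ → ℝ, b = fun n => Real.log (F v n 0) := ⟨_, rfl⟩
  have hconc : ∀ n, b (n + 2) + b n ≤ 2 * b (n + 1) := by
    intro n
    rw [hb]
    simp only
    rw [← Real.log_mul (F_pos hv _ _).ne' (F_pos hv _ _).ne']
    have h2 : 2 * Real.log (F v (n + 1) 0) = Real.log (F v (n + 1) 0 ^ 2) := by
      rw [Real.log_pow]; norm_num
    rw [h2]
    exact Real.log_le_log (mul_pos (F_pos hv _ _) (F_pos hv _ _)) (logconc hv n)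
  have hdiff : ∀ m n : ℕ, m ≤ n → b (n + 1) - b n ≤ b (m + 1) - b m := by
    intro m n hmn
    induction n, hmn using Nat.le_induction with
    | base => exact le_rfl
    | succ n hn ih =>
      have := hconc n
      have e : n + 1 + 1 = n + 2 := rfl
      rw [e]
      linarith
  refine ⟨b (M + 1) - b M, ?_, ?_⟩
  · rw [hb]
    simp only
    have := Real.log_le_log (F_pos hv (M + 1) 0) (F_anti_step hv M)
    linarith
  · intro m
    have goal : b m ≤ b M + (b (M + 1) - b M) * ((m : ℝ) - M) := by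
      rcases le_total M m with h | h
      · induction m, h using Nat.le_induction with
        | base => simp
        | succ m hm ih =>
          have := hdiff M m hm
          push_cast
          nlinarith
      · obtain ⟨k, rfl⟩ := Nat.exists_eq_add_of_le h
        have : ∀ j, j ≤ k → b (m + k - j) ≥ b m + (b (m + k + 1) - b (m + k)) * ((k : ℝ) - j) := by
          intro j hj
          obtain ⟨i, rfl⟩ := Nat.exists_eq_add_of_le hj
          have : m + (j + i) - j = m + i := by omega
          rw [this]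
          clear this hj h
          have h5 : ∀ i', i' ≤ j + i → b (m + i') ≥ b m + (b (m + (j + i) + 1) - b (m + (j + i))) * (i' : ℝ) := by
            intro i' hi'
            induction i' with
            | zero => simp
            | succ i' ih' =>
              have h6 := ih' (by omega)
              have h7 := hdiff (m + i') (m + (j + i)) (by omega)
              have e : m + (i' + 1) = m + i' + 1 := rfl
              rw [e]
              push_cast
              nlinarith
          have := h5 i (by omega)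
          push_cast
          push_cast at this
          nlinarith
        have h8 := this 0 (Nat.zero_le _)
        rw [Nat.sub_zero] at h8
        push_cast
        push_cast at h8
        nlinarith
    have hb' : ∀ n, Real.log (F v n 0) = b n := fun n => by rw [hb]
    rw [hb', hb']
    exact goal

end

end Pool.Agent.X129.ExitKernel
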