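import Mathlib
import Pool.Agent.X129.ExitKernel

/-!
Survival probabilities of Brownian motion in an interval: discretisation and small time bounds.
-/

set_option autoImplicit false
set_option linter.unusedVariables false

namespace Pool.Agent.X129.ExitBM

open MeasureTheory ProbabilityTheory Set Filter Topology Pool.Agent.X129.ExitKernel
open scoped NNReal ENNReal

noncomputable section

/-! ### small time bounds -/

lemma half (s : ℝ≥0) : 1 / 2 ≤ (gaussianReal 0 s).real (Ici 0) := by
  have h1 : (gaussianReal 0 s).real (Iic 0) = (gaussianReal 0 s).real (Ici 0) := by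
    have h3 : (gaussianReal 0 s).map (fun z => -z) = gaussianReal 0 s := by
      rw [gaussianReal_map_neg, neg_zero]
    conv_lhs => rw [← h3]
    rw [map_measureReal_apply (by fun_prop) measurableSet_Iic]
    congr 1
    ext z
    simp
  have h2 : (1 : ℝ) ≤ (gaussianReal 0 s).real (Iic 0) + (gaussianReal 0 s).real (Ici 0) := by
    have := measureReal_union_le (μ := gaussianReal 0 s) (Iic 0) (Ici 0)
    rw [Iic_union_Ici] at this
    simpa using this
  linarith

def G (v : ℝ≥0) (n : ℕ) (x : ℝ) : ℝ := (gaussianReal 0 (n * v)).real {z | 1 ≤ |x + z|}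

lemma G_big (v : ℝ≥0) (n : ℕ) {x : ℝ} (hx : 1 < |x|) : 1 / 2 ≤ G v n x := by
  unfold G
  rcases le_total 0 x with h | h
  · rw [abs_of_nonneg h] at hx
    refine (half (n * v)).trans (measureReal_mono ?_ (measure_ne_top _ _))
    intro z hz
    rw [mem_Ici] at hz
    rw [mem_ofPred_eq, abs_of_nonneg (by linarith)]
    linarith
  · rw [abs_of_nonpos h] at hx
    have h1 : (gaussianReal 0 (n * v)).real (Iic 0) = (gaussianReal 0 (n * v)).real (Ici 0) := by
      have h3 : (gaussianReal 0 (n * v)).map (fun z => -z) = gaussianReal 0 (n * v) := by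
        rw [gaussianReal_map_neg, neg_zero]
      conv_lhs => rw [← h3]
      rw [map_measureReal_apply (by fun_prop) measurableSet_Iic]
      congr 1
      ext z
      simp
    refine (half (n * v)).trans ?_
    rw [← h1]
    refine measureReal_mono ?_ (measure_ne_top _ _)
    intro z hz
    rw [mem_Iic] at hz
    rw [mem_ofPred_eq, abs_of_nonpos (by linarith)]
    linarith

lemma setm (x : ℝ) : MeasurableSet {z : ℝ | 1 ≤ |x + z|} :=
  measurableSet_le measurable_const (by fun_prop)

lemma G_conv (v : ℝ≥0) (n : ℕ) (x : ℝ) :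
    ∫ z, G v n (x + z) ∂(gaussianReal 0 v) = G v (n + 1) x := by
  have h1 : gaussianReal 0 (((n + 1 : ℕ) : ℝ≥0) * v) =
      (gaussianReal 0 v).conv (gaussianReal 0 (n * v)) := by
    rw [gaussianReal_conv_gaussianReal]
    congr 1
    · simp
    · push_cast; ring
  unfold G
  rw [h1]
  rw [measureReal_def, ← lintegral_indicator_one (setm x), Measure.lintegral_conv
    ((measurable_one).indicator (setm x))]
  have h2 : ∀ z : ℝ, ∫⁻ y, ({z | 1 ≤ |x + z|} : Set ℝ).indicator (1 : ℝ → ℝ≥0∞) (z + y)
      ∂(gaussianReal 0 (n * v)) = gaussianReal 0 (n * v) {w | 1 ≤ |x + z + w|} := by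
    intro z
    rw [← lintegral_indicator_one (setm (x + z))]
    congr 1
    funext y
    simp only [indicator, mem_ofPred_eq, add_assoc, Pi.one_apply]
  simp_rw [h2]
  rw [← integral_toReal]
  · rfl
  · have hms : MeasurableSet {p : ℝ × ℝ | 1 ≤ |x + p.1 + p.2|} :=
      measurableSet_le measurable_const (by fun_prop)
    exact (measurable_measure_prodMk_left (ν := gaussianReal 0 (n * v)) hms).aemeasurable
  · exact Eventually.of_forall fun z => measure_lt_top _ _

lemma escape (v : ℝ≥0) (n : ℕ) : ∀ x : ℝ, 1 - F v n x ≤ 2 * G v n x := by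
  induction n with
  | zero =>
    intro x
    rw [F_zero, sub_self]
    exact mul_nonneg zero_le_two measureReal_nonneg
  | succ n ih =>
    intro x
    rw [← G_conv, ← integral_const_mul, F_succ]
    have I1 : Integrable (fun z => g v n (x + z)) (gaussianReal 0 v) := by
      refine Integrable.of_bound
        ((g_meas n).comp (measurable_const.add measurable_id)).aestronglyMeasurable 1
        (Eventually.of_forall fun y => ?_)
      rw [Real.norm_eq_abs, abs_of_nonneg (g_nonneg n _)]; exact g_le_one n _
    have hms : MeasurableSet {p : ℝ × ℝ | 1 ≤ |x + p.1 + p.2|} :=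
      measurableSet_le measurable_const (by fun_prop)
    have I2 : Integrable (fun z => G v n (x + z)) (gaussianReal 0 v) := by
      refine Integrable.of_bound (C := 1) ?_ (Eventually.of_forall fun y => ?_)
      · exact ((measurable_measure_prodMk_left (ν := gaussianReal 0 (n * v)) hms).ennreal_toReal).aestronglyMeasurable
      · rw [Real.norm_eq_abs, abs_of_nonneg (show 0 ≤ G v n (x + y) from measureReal_nonneg)]
        exact measureReal_le_one
    have h1 : (1 : ℝ) - ∫ z, g v n (x + z) ∂(gaussianReal 0 v) =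
        ∫ z, (1 - g v n (x + z)) ∂(gaussianReal 0 v) := by
      rw [integral_sub (integrable_const _) I1]; simp
    rw [h1]
    apply integral_mono ((integrable_const _).sub I1) (I2.const_mul 2)
    intro z
    show 1 - g v n (x + z) ≤ 2 * G v n (x + z)
    by_cases h : x + z ∈ Icc (-1 : ℝ) 1
    · have : g v n (x + z) = F v n (x + z) := indicator_of_mem h _
      rw [this]; exact ih _
    · have : g v n (x + z) = 0 := indicator_of_notMem h _
      rw [this]
      have h2 : 1 < |x + z| := by
        by_contra hc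
        push Not at hc
        exact h (abs_le.mp hc)
      have := G_big v n h2
      linarith

lemma tail (s : ℝ≥0) : (gaussianReal 0 s).real {z | 1 ≤ z} ≤ Real.exp (-(1 / (2 * s))) := by
  have hint : ∀ t : ℝ, Integrable (fun ω => Real.exp (t * id ω)) (gaussianReal 0 s) :=
    fun t => integrable_exp_mul_gaussianReal t
  rcases eq_or_ne s 0 with h | h
  · subst h
    rw [gaussianReal_zero_var]
    have : (Measure.dirac (0:ℝ)).real {z | 1 ≤ z} = 0 := by
      change (Measure.dirac (0:ℝ)).real (Ici 1) = 0
      rw [measureReal_def, Measure.dirac_apply' _ measurableSet_Ici]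
      simp
    rw [this]
    exact (Real.exp_pos _).le
  · have hs : (0 : ℝ) < s := by positivity
    have h1 := measure_ge_le_exp_mul_mgf (μ := gaussianReal 0 s) (X := id) (t := 1 / s) 1
      (by positivity) (hint _)
    have h2 : mgf id (gaussianReal 0 s) (1 / s) = Real.exp (0 * (1 / s) + s * (1 / s) ^ 2 / 2) := by
      apply mgf_gaussianReal
      simp
    rw [h2, ← Real.exp_add] at h1
    refine h1.trans (Real.exp_le_exp.mpr ?_)
    apply le_of_eq
    field_simp
    ring

lemma small_time (v : ℝ≥0) (n : ℕ) : 1 - F v n 0 ≤ 32 * (n * v) ^ 2 := by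
  refine (escape v n 0).trans ?_
  have h1 : G v n 0 ≤ 2 * Real.exp (-(1 / (2 * (n * v)))) := by
    unfold G
    have hsub : {z : ℝ | 1 ≤ |0 + z|} ⊆ {z | 1 ≤ z} ∪ {z | 1 ≤ -z} := by
      intro z hz
      rw [mem_ofPred_eq, zero_add, le_abs] at hz
      exact hz
    have h3 : (gaussianReal 0 (n * v)).real {z | 1 ≤ -z} = (gaussianReal 0 (n * v)).real {z | 1 ≤ z} := by
      have h3 : (gaussianReal 0 (n * v)).map (fun z => -z) = gaussianReal 0 (n * v) := by
        rw [gaussianReal_map_neg, neg_zero]
      conv_rhs => rw [← h3]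
      change _ = (Measure.map (fun z => -z) (gaussianReal 0 (n * v))).real (Ici 1)
      rw [map_measureReal_apply (by fun_prop) measurableSet_Ici]
      rfl
    have h4 := tail (n * v)
    calc (gaussianReal 0 (n * v)).real {z | 1 ≤ |0 + z|} ≤ _ :=
          measureReal_mono hsub (measure_ne_top _ _)
      _ ≤ _ := measureReal_union_le _ _
      _ ≤ _ := by
        rw [h3]
        push_cast at h4
        linarith
  rcases eq_or_ne ((n : ℝ) * v) 0 with h | h
  · rw [h] at h1 ⊢
    unfold G at *
    have h5 : ((n : ℝ≥0) * v) = 0 := by exact_mod_cast h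
    rw [h5, gaussianReal_zero_var, measureReal_def, Measure.dirac_apply' _ (setm 0)]
    simp
  · have hy : 0 < (n : ℝ) * v := lt_of_le_of_ne (by positivity) (Ne.symm h)
    obtain ⟨y, hyd⟩ : ∃ y, y = 1 / (2 * ((n : ℝ) * v)) := ⟨_, rfl⟩
    have hy0 : 0 < y := by rw [hyd]; positivity
    rw [← hyd] at h1
    have h6 : y ^ 2 / 2 ≤ Real.exp y := by
      have := Real.quadratic_le_exp_of_nonneg hy0.le
      nlinarith
    have h7 : Real.exp (-y) ≤ 2 / y ^ 2 := by
      rw [Real.exp_neg, ← one_div, div_le_div_iff₀ (Real.exp_pos _) (by positivity)]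
      linarith
    have h8 : 2 / y ^ 2 = 8 * ((n : ℝ) * v) ^ 2 := by
      rw [hyd]; field_simp; ring
    rw [h8] at h7
    linarith

lemma F_one_lt {v : ℝ≥0} (hv : v ≠ 0) : F v 1 0 < 1 := by
  have e : F v 1 0 = (gaussianReal 0 v).real (Icc (-1) 1) := by
    rw [F_succ]
    have : (fun z => g v 0 (0 + z)) = (Icc (-1 : ℝ) 1).indicator 1 := by
      funext z
      rw [zero_add]
      rfl
    rw [this, integral_indicator_one measurableSet_Icc]
  rw [e]
  have h1 : 0 < (gaussianReal 0 v).real (Ioi 1) := by
    rw [measureReal_def, ENNReal.toReal_pos_iff]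
    refine ⟨?_, measure_lt_top _ _⟩
    rw [pos_iff_ne_zero]
    intro h
    have := gaussianReal_absolutelyContinuous' 0 hv h
    simp at this
  have h2 : (gaussianReal 0 v).real (Icc (-1) 1) + (gaussianReal 0 v).real (Ioi 1) ≤ 1 := by
    rw [← measureReal_union _ measurableSet_Ioi]
    · exact measureReal_le_one
    · rw [Set.disjoint_left]
      intro z hz hz'
      exact absurd hz.2 (not_le.mpr hz')
  linarith

/-! ### Brownian motion at discrete times -/

variable {Ω : Type*} {mΩ : MeasurableSpace Ω} {P : Measure Ω}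

lemma walk {δ : ℝ≥0} (n : ℕ) : ∀ (B : ℝ≥0 → Ω → ℝ), IsPreBrownianReal B P → ∀ x : ℝ,
    P {ω | ∀ j : ℕ, 1 ≤ j → j ≤ n → |x + B (j * δ) ω| ≤ 1} = ENNReal.ofReal (F δ n x) := by
  induction n with
  | zero =>
    intro B hB x
    have : IsProbabilityMeasure P := hB.isGaussianProcess.isProbabilityMeasure
    have : {ω | ∀ j : ℕ, 1 ≤ j → j ≤ 0 → |x + B (j * δ) ω| ≤ 1} = univ := by
      ext ω
      simp only [mem_ofPred_eq, mem_univ, iff_true]
      intro j h1 h2
      omega
    rw [this, F_zero]
    simp
  | succ n ih =>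
    intro B hB x
    have : IsProbabilityMeasure P := hB.isGaussianProcess.isProbabilityMeasure
    obtain ⟨X, hXd⟩ : ∃ X : ℝ≥0 → Ω → ℝ, X = fun t ω => B (δ + t) ω - B δ ω := ⟨_, rfl⟩
    have hX : IsPreBrownianReal X P := by rw [hXd]; exact hB.shift δ
    have hind : IndepFun (fun ω t => X t ω) (fun ω (t : Set.Iic δ) => B t ω) P := by
      rw [hXd]; exact hB.indepFun_shift δ
    obtain ⟨Y, hY⟩ : ∃ Y : Ω → ℕ → ℝ, Y = fun ω j => X ((j + 1 : ℕ) * δ) ω := ⟨_, rfl⟩
    have hYm : AEMeasurable Y P := by
      rw [hY]; exact aemeasurable_pi_lambda _ fun j => hX.aemeasurable _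
    have hBm : AEMeasurable (B δ) P := hB.aemeasurable δ
    have hind2 : IndepFun Y (B δ) P := by
      have h1 : Measurable (fun (y : ℝ≥0 → ℝ) (j : ℕ) => y ((j + 1 : ℕ) * δ)) :=
        measurable_pi_lambda _ fun j => measurable_pi_apply _
      have h2 : Measurable (fun (y : Set.Iic δ → ℝ) => y ⟨δ, Set.mem_Iic.mpr le_rfl⟩) :=
        measurable_pi_apply (⟨δ, Set.mem_Iic.mpr le_rfl⟩ : Set.Iic δ)
      have := hind.comp h1 h2
      rw [hY]
      exact this
    obtain ⟨S, hS⟩ : ∃ S : Set ((ℕ → ℝ) × ℝ), S = {p | |x + p.2| ≤ 1 ∧ ∀ j < n, |x + p.2 + p.1 j| ≤ 1} :=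
      ⟨_, rfl⟩
    have hSm : MeasurableSet S := by
      have e : S = {p : (ℕ → ℝ) × ℝ | |x + p.2| ≤ 1} ∩
          ⋂ (j : ℕ) (_ : j < n), {p : (ℕ → ℝ) × ℝ | |x + p.2 + p.1 j| ≤ 1} := by
        rw [hS]; ext p; simp
      rw [e]
      apply MeasurableSet.inter
      · exact measurableSet_le (by fun_prop) measurable_const
      · refine MeasurableSet.iInter fun j => MeasurableSet.iInter fun _ => ?_
        exact measurableSet_le (by fun_prop) measurable_const
    have hev : {ω | ∀ j : ℕ, 1 ≤ j → j ≤ n + 1 → |x + B (j * δ) ω| ≤ 1} =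
        {ω | (Y ω, B δ ω) ∈ S} := by
      ext ω
      rw [hS, hY, hXd]
      simp only [mem_ofPred_eq]
      constructor
      · intro h
        refine ⟨?_, fun j hj => ?_⟩
        · have := h 1 le_rfl (by omega)
          simpa using this
        · have := h (j + 2) (by omega) (by omega)
          have e : δ + ((j + 1 : ℕ) : ℝ≥0) * δ = ((j + 2 : ℕ) : ℝ≥0) * δ := by push_cast; ring
          rw [e]
          have e2 : x + B δ ω + (B (((j + 2 : ℕ) : ℝ≥0) * δ) ω - B δ ω) =
            x + B (((j + 2 : ℕ) : ℝ≥0) * δ) ω := by ring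
          rw [e2]
          exact this
      · rintro ⟨h1, h2⟩ j hj1 hj2
        rcases Nat.lt_or_ge j 2 with h | h
        · have : j = 1 := by omega
          subst this
          simpa using h1
        · obtain ⟨i, rfl⟩ := Nat.exists_eq_add_of_le' h
          have := h2 i (by omega)
          have e : δ + ((i + 1 : ℕ) : ℝ≥0) * δ = ((i + 2 : ℕ) : ℝ≥0) * δ := by push_cast; ring
          rw [e] at this
          have e2 : x + B δ ω + (B (((i + 2 : ℕ) : ℝ≥0) * δ) ω - B δ ω) =
            x + B (((i + 2 : ℕ) : ℝ≥0) * δ) ω := by ring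
          rwa [e2] at this
    rw [hev]
    have h1 : P {ω | (Y ω, B δ ω) ∈ S} = (P.map (fun ω => (Y ω, B δ ω))) S := by
      rw [Measure.map_apply_of_aemeasurable (hYm.prodMk hBm) hSm]
      rfl
    rw [h1, (indepFun_iff_map_prod_eq_prod_map_map hYm hBm).mp hind2, Measure.prod_apply_symm hSm,
      (hB.hasLaw_eval δ).map_eq]
    have h2 : ∀ z : ℝ, (P.map Y) ((fun y => (y, z)) ⁻¹' S) = ENNReal.ofReal (g δ n (x + z)) := by
      intro z
      rw [Measure.map_apply_of_aemeasurable hYm (hSm.preimage measurable_prodMk_right)]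
      by_cases hz : x + z ∈ Icc (-1 : ℝ) 1
      · have e1 : g δ n (x + z) = F δ n (x + z) := indicator_of_mem hz _
        rw [e1, ← ih X hX (x + z)]
        congr 1
        ext ω
        rw [hS, hY]
        simp only [mem_preimage, mem_ofPred_eq]
        constructor
        · rintro ⟨_, h⟩ j hj1 hj2
          obtain ⟨i, rfl⟩ := Nat.exists_eq_add_of_le' hj1
          exact h i (by omega)
        · intro h
          exact ⟨abs_le.mpr hz, fun j hj => h (j + 1) (by omega) (by omega)⟩
      · have e1 : g δ n (x + z) = 0 := indicator_of_notMem hz _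
        rw [e1, ENNReal.ofReal_zero]
        have : Y ⁻¹' ((fun y => (y, z)) ⁻¹' S) = ∅ := by
          ext ω
          rw [hS]
          simp only [mem_preimage, mem_ofPred_eq, mem_empty_iff_false, iff_false]
          rintro ⟨h, -⟩
          exact hz (abs_le.mp h)
        rw [this, measure_empty]
    simp_rw [h2]
    rw [F_succ, ofReal_integral_eq_lintegral_ofReal]
    · refine Integrable.of_bound
        ((g_meas n).comp (measurable_const.add measurable_id)).aestronglyMeasurable 1
        (Eventually.of_forall fun y => ?_)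
      rw [Real.norm_eq_abs, abs_of_nonneg (g_nonneg n _)]; exact g_le_one n _
    · exact Eventually.of_forall fun z => g_nonneg n _

end

end Pool.Agent.X129.ExitBM
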