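import Mathlib
import Pool.Agent.X129.ExitBM

/-!
Survival probabilities of Brownian motion in `[-1,1]`, continuous time: log-concavity.
-/

set_option autoImplicit false
set_option linter.unusedVariables false

namespace Pool.Agent.X129.ExitCont

open MeasureTheory ProbabilityTheory Set Filter Topology Pool.Agent.X129.ExitKernel
  Pool.Agent.X129.ExitBM
open scoped NNReal ENNReal

noncomputable section

variable {Ω : Type*} {mΩ : MeasurableSpace Ω} {P : Measure Ω}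

/-- the path stays in `[-a, a]` up to time `t` -/
def C (B : ℝ≥0 → Ω → ℝ) (a : ℝ) (t : ℝ≥0) : Set Ω := {ω | ∀ s : ℝ≥0, s ≤ t → |B s ω| ≤ a}

def E (B : ℝ≥0 → Ω → ℝ) (u : ℝ≥0) (j : ℕ) : Set Ω :=
  {ω | ∀ i : ℕ, 1 ≤ i → i ≤ 2 ^ j - 1 → |B (i * (u / 2 ^ j)) ω| ≤ 1}

lemma E_null {B : ℝ≥0 → Ω → ℝ} (hB : IsPreBrownianReal B P) (u : ℝ≥0) (j : ℕ) :
    NullMeasurableSet (E B u j) P := by
  have e : E B u j = ⋂ (i : ℕ) (_ : 1 ≤ i) (_ : i ≤ 2 ^ j - 1), {ω | |B (i * (u / 2 ^ j)) ω| ≤ 1} := by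
    unfold E; ext ω; simp
  rw [e]
  refine NullMeasurableSet.iInter fun i => NullMeasurableSet.iInter fun _ =>
    NullMeasurableSet.iInter fun _ => ?_
  exact nullMeasurableSet_le ((hB.aemeasurable _).abs) aemeasurable_const

lemma E_anti {B : ℝ≥0 → Ω → ℝ} (u : ℝ≥0) : Antitone (E B u) := by
  apply antitone_nat_of_succ_le
  intro j ω hω i hi1 hi2
  have := hω (2 * i) (by omega) (by rw [pow_succ]; omega)
  have e : ((2 * i : ℕ) : ℝ≥0) * (u / 2 ^ (j + 1)) = (i : ℝ≥0) * (u / 2 ^ j) := by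
    push_cast; rw [pow_succ]; field_simp
  rwa [e] at this

lemma dyadic (u s : ℝ≥0) (hu : u ≠ 0) (hs : s ≤ u) :
    ∃ i : ℕ → ℕ, (∀ j, i j ≤ 2 ^ j - 1) ∧ Tendsto (fun j => (i j : ℝ≥0) * (u / 2 ^ j)) atTop (𝓝 s) := by
  have hu0 : (0:ℝ) < u := by positivity
  refine ⟨fun j => min ⌊(s : ℝ) / u * 2 ^ j⌋₊ (2 ^ j - 1), fun j => min_le_right _ _, ?_⟩
  have hb : ∀ j : ℕ, dist ((((min ⌊(s : ℝ) / u * 2 ^ j⌋₊ (2 ^ j - 1) : ℕ) : ℝ≥0) * (u / 2 ^ j) : ℝ≥0)) s ≤
      u / 2 ^ j := by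
    intro j
    obtain ⟨y, hy⟩ : ∃ y, y = (s : ℝ) / u * 2 ^ j := ⟨_, rfl⟩
    have hy0 : 0 ≤ y := by rw [hy]; positivity
    have hy1 : y ≤ 2 ^ j := by
      rw [hy]
      have : (s : ℝ) / u ≤ 1 := by rw [div_le_one hu0]; exact_mod_cast hs
      have h2 : (0:ℝ) < 2 ^ j := by positivity
      nlinarith
    rw [← hy]
    have hN : (1:ℝ) ≤ 2 ^ j := one_le_pow₀ (by norm_num)
    have hcast : (((2 ^ j - 1 : ℕ)) : ℝ) = 2 ^ j - 1 := by
      rw [Nat.cast_sub (Nat.one_le_two_pow)]; push_cast; ring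
    have hi : 0 ≤ y - ((min ⌊y⌋₊ (2 ^ j - 1) : ℕ) : ℝ) ∧ y - ((min ⌊y⌋₊ (2 ^ j - 1) : ℕ) : ℝ) ≤ 1 := by
      have f1 := Nat.floor_le hy0
      have f2 := Nat.lt_floor_add_one y
      rcases min_cases ⌊y⌋₊ (2 ^ j - 1) with ⟨h, _⟩ | ⟨h, h'⟩
      · rw [h]; constructor <;> linarith
      · rw [h, hcast]
        have h3 : ((2 ^ j - 1 : ℕ) : ℝ) ≤ (⌊y⌋₊ : ℝ) := by exact_mod_cast h'.le
        rw [hcast] at h3
        constructor <;> linarith
    obtain ⟨m, hm⟩ : ∃ m : ℕ, m = min ⌊y⌋₊ (2 ^ j - 1) := ⟨_, rfl⟩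
    rw [← hm] at hi ⊢
    rw [NNReal.dist_eq]
    push_cast
    have e1 : (s : ℝ) = y * (u / 2 ^ j) := by rw [hy]; field_simp
    rw [e1, ← sub_mul, abs_mul, abs_of_nonneg (by positivity : (0:ℝ) ≤ u / 2 ^ j)]
    have : |(m : ℝ) - y| ≤ 1 := by rw [abs_le]; constructor <;> linarith [hi.1, hi.2]
    have h2 : (0:ℝ) ≤ u / 2 ^ j := by positivity
    nlinarith
  rw [tendsto_iff_dist_tendsto_zero]
  refine squeeze_zero (fun _ => dist_nonneg) hb ?_
  have h1 : Tendsto (fun j : ℕ => (u : ℝ) * (1 / 2) ^ j) atTop (𝓝 (u * 0)) :=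
    (tendsto_pow_atTop_nhds_zero_of_lt_one (by norm_num) (by norm_num)).const_mul _
  rw [mul_zero] at h1
  refine h1.congr fun j => ?_
  rw [one_div, inv_pow]
  rfl

lemma E_inter {B : ℝ≥0 → Ω → ℝ} (hB : IsBrownianReal B P) {u : ℝ≥0} (hu : u ≠ 0) :
    (⋂ j, E B u j) =ᵐ[P] C B 1 u := by
  filter_upwards [hB.cont, hB.toIsPreBrownianReal.eval_zero_ae_eq_zero] with ω hc h0
  apply propext
  constructor
  · intro h s hs
    have h' : ∀ j, ω ∈ E B u j := by
      intro j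
      exact mem_iInter.mp h j
    obtain ⟨i, hi1, hi2⟩ := dyadic u s hu hs
    have h3 : Tendsto (fun j => |B ((i j : ℝ≥0) * (u / 2 ^ j)) ω|) atTop (𝓝 |B s ω|) :=
      ((hc.tendsto s).comp hi2).abs
    refine le_of_tendsto h3 (Eventually.of_forall fun j => ?_)
    rcases Nat.eq_zero_or_pos (i j) with h4 | h4
    · simp only [h4, Nat.cast_zero, zero_mul, h0, abs_zero]
      exact zero_le_one
    · exact h' j (i j) h4 (hi1 j)
  · intro h
    have : ω ∈ ⋂ j, E B u j := by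
      refine mem_iInter.mpr fun j i hi1 hi2 => h _ ?_
      have h2 : (i : ℝ≥0) ≤ 2 ^ j := by
        have : i ≤ 2 ^ j := by omega
        exact_mod_cast this
      calc (i : ℝ≥0) * (u / 2 ^ j) ≤ 2 ^ j * (u / 2 ^ j) := mul_le_mul_left h2 _
        _ = u := by field_simp
    exact this

lemma E_prob {B : ℝ≥0 → Ω → ℝ} (hB : IsPreBrownianReal B P) (u : ℝ≥0) (j : ℕ) :
    P (E B u j) = ENNReal.ofReal (F (u / 2 ^ j) (2 ^ j - 1) 0) := by
  rw [← walk (δ := u / 2 ^ j) (2 ^ j - 1) B hB 0]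
  congr 1
  ext ω
  simp [E]

lemma surv_lim {B : ℝ≥0 → Ω → ℝ} (hB : IsBrownianReal B P) {u : ℝ≥0} (hu : u ≠ 0) :
    Tendsto (fun j : ℕ => ENNReal.ofReal (F (u / 2 ^ j) (2 ^ j - 1) 0)) atTop (𝓝 (P (C B 1 u))) := by
  have : IsProbabilityMeasure P := hB.toIsPreBrownianReal.isGaussianProcess.isProbabilityMeasure
  rw [← measure_congr (E_inter hB hu)]
  simp_rw [← E_prob hB.toIsPreBrownianReal]
  exact tendsto_measure_iInter_atTop (fun j => E_null hB.toIsPreBrownianReal u j) (E_anti u)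
    ⟨0, measure_ne_top _ _⟩

lemma surv_limR {B : ℝ≥0 → Ω → ℝ} (hB : IsBrownianReal B P) {u : ℝ≥0} (hu : u ≠ 0) :
    Tendsto (fun j : ℕ => F (u / 2 ^ j) (2 ^ j - 1) 0) atTop (𝓝 (P.real (C B 1 u))) := by
  have : IsProbabilityMeasure P := hB.toIsPreBrownianReal.isGaussianProcess.isProbabilityMeasure
  have h := (ENNReal.tendsto_toReal (measure_ne_top P _)).comp (surv_lim hB hu)
  refine h.congr fun j => ?_
  exact ENNReal.toReal_ofReal (F_nonneg _ _)

/-- the survival function as a function of real time -/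
def q (P : Measure Ω) (B : ℝ≥0 → Ω → ℝ) (t : ℝ) : ℝ := P.real (C B 1 t.toNNReal)

lemma uniq {Ω' : Type*} {mΩ' : MeasurableSpace Ω'} {P' : Measure Ω'}
    {B : ℝ≥0 → Ω → ℝ} (hB : IsBrownianReal B P) {B' : ℝ≥0 → Ω' → ℝ} (hB' : IsBrownianReal B' P')
    (u : ℝ≥0) : P (C B 1 u) = P' (C B' 1 u) := by
  rcases eq_or_ne u 0 with h | h
  · subst h
    have key : ∀ {Ω : Type _} {mΩ : MeasurableSpace Ω} {P : Measure Ω} {B : ℝ≥0 → Ω → ℝ},
        IsBrownianReal B P → P (C B 1 0) = 1 := by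
      intro Ω mΩ P B hB
      have : IsProbabilityMeasure P := hB.toIsPreBrownianReal.isGaussianProcess.isProbabilityMeasure
      have h1 : C B 1 0 =ᵐ[P] univ := by
        filter_upwards [hB.toIsPreBrownianReal.eval_zero_ae_eq_zero] with ω h0
        apply propext
        constructor
        · intro _; trivial
        · intro _ s hs
          have : s = 0 := le_antisymm hs zero_le
          rw [this, h0, abs_zero]
          exact zero_le_one
      rw [measure_congr h1, measure_univ]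
    rw [key hB]
    have : IsProbabilityMeasure P' := hB'.toIsPreBrownianReal.isGaussianProcess.isProbabilityMeasure
    have h1 : C B' 1 0 =ᵐ[P'] univ := by
      filter_upwards [hB'.toIsPreBrownianReal.eval_zero_ae_eq_zero] with ω h0
      apply propext
      constructor
      · intro _; trivial
      · intro _ s hs
        have : s = 0 := le_antisymm hs zero_le
        rw [this, h0, abs_zero]
        exact zero_le_one
    rw [measure_congr h1, measure_univ]
  · exact tendsto_nhds_unique (surv_lim hB h) (surv_lim hB' h)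

lemma scale {B : ℝ≥0 → Ω → ℝ} (hB : IsBrownianReal B P) {a : ℝ} (ha : 0 < a) (t : ℝ) (ht : 0 ≤ t) :
    P (C B a t.toNNReal) = ENNReal.ofReal (q P B (t / a ^ 2)) := by
  have : IsProbabilityMeasure P := hB.toIsPreBrownianReal.isGaussianProcess.isProbabilityMeasure
  obtain ⟨c, hc⟩ : ∃ c : ℝ≥0, c = (a ^ 2).toNNReal := ⟨_, rfl⟩
  have hcr : (c : ℝ) = a ^ 2 := by rw [hc]; exact Real.coe_toNNReal _ (by positivity)
  have hc0 : c ≠ 0 := by
    intro h
    rw [h] at hcr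
    have : 0 < a ^ 2 := by positivity
    simp at hcr
    linarith
  have h1 := uniq hB (hB.smul hc0) (t / a ^ 2).toNNReal
  unfold q
  rw [measureReal_def, h1, ENNReal.ofReal_toReal (measure_ne_top _ _)]
  congr 1
  have hsq : √(c : ℝ) = a := by rw [hcr]; exact Real.sqrt_sq ha.le
  ext ω
  unfold C
  simp only [mem_ofPred_eq]
  constructor
  · intro h s hs
    rw [hsq, abs_mul, abs_inv, abs_of_pos ha, inv_mul_le_iff₀ ha, mul_one]
    apply h
    rw [← NNReal.coe_le_coe] at hs ⊢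
    rw [Real.coe_toNNReal _ (by positivity)] at hs
    rw [Real.coe_toNNReal _ ht, NNReal.coe_mul, hcr]
    rw [le_div_iff₀ (by positivity)] at hs
    linarith
  · intro h s hs
    have h2 := h (s / c) (by
      rw [← NNReal.coe_le_coe] at hs ⊢
      rw [Real.coe_toNNReal _ ht] at hs
      rw [Real.coe_toNNReal _ (by positivity), NNReal.coe_div, hcr]
      gcongr)
    rw [mul_div_cancel₀ _ hc0] at h2
    rw [hsq, abs_mul, abs_inv, abs_of_pos ha, inv_mul_le_iff₀ ha, mul_one] at h2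
    exact h2

variable {B : ℝ≥0 → Ω → ℝ} (hB : IsBrownianReal B P)
include hB

lemma q_nonneg (t : ℝ) : 0 ≤ q P B t := measureReal_nonneg

lemma q_le_one (t : ℝ) : q P B t ≤ 1 := by
  have : IsProbabilityMeasure P := hB.toIsPreBrownianReal.isGaussianProcess.isProbabilityMeasure
  exact measureReal_le_one

lemma q_anti : Antitone (q P B) := by
  have : IsProbabilityMeasure P := hB.toIsPreBrownianReal.isGaussianProcess.isProbabilityMeasure
  intro s t hst
  apply measureReal_mono _ (measure_ne_top _ _)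
  intro ω h r hr
  exact h r (hr.trans (Real.toNNReal_le_toNNReal hst))

lemma q_le_F {t : ℝ} {δ : ℝ≥0} {m : ℕ} (h : (m : ℝ) * δ ≤ t) : q P B t ≤ F δ m 0 := by
  have : IsProbabilityMeasure P := hB.toIsPreBrownianReal.isGaussianProcess.isProbabilityMeasure
  have h1 := walk (δ := δ) m B hB.toIsPreBrownianReal 0
  have h2 : P.real {ω | ∀ j : ℕ, 1 ≤ j → j ≤ m → |0 + B (j * δ) ω| ≤ 1} = F δ m 0 := by
    rw [measureReal_def, h1, ENNReal.toReal_ofReal (F_nonneg _ _)]
  rw [← h2]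
  apply measureReal_mono _ (measure_ne_top _ _)
  intro ω hω j _ hj
  rw [zero_add]
  apply hω
  rw [← NNReal.coe_le_coe, Real.coe_toNNReal', NNReal.coe_mul, NNReal.coe_natCast]
  apply le_max_of_le_left
  refine le_trans ?_ h
  have : (j : ℝ) ≤ m := by exact_mod_cast hj
  exact mul_le_mul_of_nonneg_right this δ.2

lemma q_lt_one {t : ℝ} (ht : 0 < t) : q P B t < 1 := by
  have h1 := q_le_F hB (t := t) (δ := t.toNNReal) (m := 1)
    (by rw [Real.coe_toNNReal _ ht.le]; simp)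
  refine h1.trans_lt (F_one_lt ?_)
  intro h
  rw [Real.toNNReal_eq_zero] at h
  linarith

lemma q_small {t : ℝ} (ht : 0 < t) : 1 - q P B t ≤ 32 * t ^ 2 := by
  have hu : t.toNNReal ≠ 0 := by
    intro h
    rw [Real.toNNReal_eq_zero] at h
    linarith
  have h1 := surv_limR hB hu
  have h2 : Tendsto (fun j : ℕ => 1 - F (t.toNNReal / 2 ^ j) (2 ^ j - 1) 0) atTop
      (𝓝 (1 - q P B t)) := h1.const_sub 1
  refine le_of_tendsto h2 (Eventually.of_forall fun j => ?_)
  refine (small_time _ _).trans ?_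
  have hN : (1:ℝ) ≤ 2 ^ j := one_le_pow₀ (by norm_num)
  have hcast : (((2 ^ j - 1 : ℕ)) : ℝ) = 2 ^ j - 1 := by
    rw [Nat.cast_sub (Nat.one_le_two_pow)]; push_cast; ring
  rw [hcast, NNReal.coe_div, Real.coe_toNNReal _ ht.le]
  push_cast
  have h3 : (2 ^ j - 1) * (t / 2 ^ j) ≤ t := by
    rw [mul_div_assoc', div_le_iff₀ (by positivity)]
    nlinarith
  have h4 : 0 ≤ (2 ^ j - 1) * (t / 2 ^ j) := by
    have : (0:ℝ) ≤ 2 ^ j - 1 := by linarith
    positivity
  nlinarith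

/-- log-concavity of the survival function -/
lemma jensen {ι : Type*} [Fintype ι] (w : ι → ℝ) (hw : ∀ i, 0 ≤ w i) (hw1 : ∑ i, w i = 1)
    (u : ι → ℝ) (hu : ∀ i, 0 ≤ u i) (hpos : 0 < ∑ i, w i * u i) :
    ∏ i, q P B (u i) ^ (w i) ≤ q P B (∑ i, w i * u i) := by
  obtain ⟨m, hm⟩ : ∃ m, m = ∑ i, w i * u i := ⟨_, rfl⟩
  rw [← hm] at hpos ⊢
  have hmn : m.toNNReal ≠ 0 := by
    intro h
    rw [Real.toNNReal_eq_zero] at h
    linarith
  have h1 := surv_limR hB hmn
  refine ge_of_tendsto h1 (Eventually.of_forall fun j => ?_)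
  obtain ⟨δ, hδ⟩ : ∃ δ : ℝ≥0, δ = m.toNNReal / 2 ^ j := ⟨_, rfl⟩
  have hδr : (δ : ℝ) = m / 2 ^ j := by
    rw [hδ, NNReal.coe_div, Real.coe_toNNReal _ hpos.le]; push_cast; ring
  have hδ0 : (0:ℝ) < δ := by rw [hδr]; positivity
  have hδne : δ ≠ 0 := by
    intro h; rw [h] at hδ0; simp at hδ0
  rw [← hδ]
  have hcast : (((2 ^ j - 1 : ℕ)) : ℝ) = 2 ^ j - 1 := by
    rw [Nat.cast_sub (Nat.one_le_two_pow)]; push_cast; ring
  obtain ⟨s, hs0, hs⟩ := tangent hδne (2 ^ j - 1)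
  have hq : ∀ i, q P B (u i) ≤ F δ ⌊u i / δ⌋₊ 0 := by
    intro i
    apply q_le_F hB
    have := Nat.floor_le (div_nonneg (hu i) hδ0.le)
    rwa [le_div_iff₀ hδ0] at this
  calc ∏ i, q P B (u i) ^ (w i) ≤ ∏ i, F δ ⌊u i / δ⌋₊ 0 ^ (w i) := by
        apply Finset.prod_le_prod (fun i _ => Real.rpow_nonneg (q_nonneg hB _) _)
        intro i _
        exact Real.rpow_le_rpow (q_nonneg hB _) (hq i) (hw i)
    _ = Real.exp (∑ i, w i * Real.log (F δ ⌊u i / δ⌋₊ 0)) := by
        rw [Real.exp_sum]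
        apply Finset.prod_congr rfl
        intro i _
        rw [Real.rpow_def_of_pos (F_pos hδne _ _), mul_comm]
    _ ≤ Real.exp (Real.log (F δ (2 ^ j - 1) 0)) := by
        apply Real.exp_le_exp.mpr
        calc ∑ i, w i * Real.log (F δ ⌊u i / δ⌋₊ 0) ≤
            ∑ i, w i * (Real.log (F δ (2 ^ j - 1) 0) + s * ((⌊u i / δ⌋₊ : ℝ) - ((2 ^ j - 1 : ℕ) : ℝ))) := by
              apply Finset.sum_le_sum
              intro i _
              exact mul_le_mul_of_nonneg_left (hs _) (hw i)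
          _ = Real.log (F δ (2 ^ j - 1) 0) + s * ((∑ i, w i * (⌊u i / δ⌋₊ : ℝ)) - ((2 ^ j - 1 : ℕ) : ℝ)) := by
              have e : ∀ i, w i * (Real.log (F δ (2 ^ j - 1) 0) + s * ((⌊u i / δ⌋₊ : ℝ) - ((2 ^ j - 1 : ℕ) : ℝ))) =
                w i * (Real.log (F δ (2 ^ j - 1) 0) - s * ((2 ^ j - 1 : ℕ) : ℝ)) +
                  s * (w i * (⌊u i / δ⌋₊ : ℝ)) := fun i => by ring
              simp_rw [e]
              rw [Finset.sum_add_distrib, ← Finset.sum_mul, hw1, ← Finset.mul_sum]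
              ring
          _ ≤ Real.log (F δ (2 ^ j - 1) 0) := by
              have h5 : ((2 ^ j - 1 : ℕ) : ℝ) ≤ ∑ i, w i * (⌊u i / δ⌋₊ : ℝ) := by
                rw [hcast]
                calc (2:ℝ) ^ j - 1 = ∑ i, w i * (u i / δ - 1) := by
                      have e : ∀ i, w i * (u i / δ - 1) = (w i * u i) / δ - w i := fun i => by ring
                      simp_rw [e]
                      rw [Finset.sum_sub_distrib, ← Finset.sum_div, hw1, ← hm, hδr]
                      field_simp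
                  _ ≤ _ := by
                      apply Finset.sum_le_sum
                      intro i _
                      apply mul_le_mul_of_nonneg_left _ (hw i)
                      have := Nat.lt_floor_add_one (u i / δ)
                      linarith
              nlinarith
    _ = F δ (2 ^ j - 1) 0 := Real.exp_log (F_pos hδne _ _)

end

end Pool.Agent.X129.ExitCont
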