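import Mathlib

/-!
Mellin transforms of products of a log-concave survival function.
-/

set_option autoImplicit false
set_option linter.unusedVariables false

namespace Pool.Agent.X129.ExitPsi

open MeasureTheory Set Filter Topology
open scoped NNReal ENNReal

noncomputable section

structure Surv (q : ℝ → ℝ) : Prop where
  nonneg : ∀ t, 0 ≤ q t
  le_one : ∀ t, q t ≤ 1
  anti : Antitone q
  zero : q 0 = 1
  lt_one : ∀ t, 0 < t → q t < 1
  small : ∀ t, 0 < t → 1 - q t ≤ 32 * t ^ 2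
  jensen : ∀ (n : ℕ) (w u : Fin n → ℝ), (∀ i, 0 ≤ w i) → ∑ i, w i = 1 → (∀ i, 0 ≤ u i) →
    0 < ∑ i, w i * u i → ∏ i, q (u i) ^ (w i) ≤ q (∑ i, w i * u i)

/-! ### rigidity -/

lemma rigid {ℓ : ℝ → ℝ} {b : ℝ} (hb : 0 < b) (hconv : ConvexOn ℝ (Ioo 0 b) ℓ)
    (hmono : ∀ s t, 0 < s → s ≤ t → t < b → ℓ s ≤ ℓ t)
    (hpos : ∀ s, 0 < s → s < b → 0 < ℓ s) (hsmall : ∀ s, 0 < s → s < b → ℓ s ≤ 64 * s ^ 2)
    {α β T : ℝ} (hα : 0 < α) (hαβ : α < β) (hT : 0 < T) (hβT : β * T ≤ b)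
    (heq : ∀ t, 0 < t → t < T → ℓ (α * t) + ℓ (β * t) = 2 * ℓ ((α + β) / 2 * t)) : False := by
  obtain ⟨ρ, hρ⟩ : ∃ ρ, ρ = β / α := ⟨_, rfl⟩
  obtain ⟨κ, hκ⟩ : ∃ κ, κ = (1 + ρ) / 2 := ⟨_, rfl⟩
  have hρ1 : 1 < ρ := by rw [hρ, lt_div_iff₀ hα]; linarith
  have hκ1 : 1 < κ := by rw [hκ]; linarith
  have hρκ : ρ = 2 * κ - 1 := by rw [hκ]; ring
  have heq' : ∀ τ, 0 < τ → τ < α * T → ℓ τ + ℓ (ρ * τ) = 2 * ℓ (κ * τ) := by
    intro τ h1 h2
    have := heq (τ / α) (by positivity) (by rw [div_lt_iff₀ hα]; linarith)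
    have e1 : α * (τ / α) = τ := by field_simp
    have e2 : β * (τ / α) = ρ * τ := by rw [hρ]; field_simp
    have e3 : (α + β) / 2 * (τ / α) = κ * τ := by rw [hκ, hρ]; field_simp
    rwa [e1, e2, e3] at this
  have hb' : ∀ τ, τ < α * T → ρ * τ < b := by
    intro τ h
    have : ρ * τ < ρ * (α * T) := mul_lt_mul_of_pos_left h (by linarith)
    have e : ρ * (α * T) = β * T := by rw [hρ]; field_simp
    rw [e] at this
    linarith
  -- main step
  have step : ∀ τ, 0 < τ → κ * τ < α * T →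
      ℓ (κ * (κ * τ)) - ℓ (κ * τ) ≤ κ * (ℓ (κ * τ) - ℓ τ) := by
    intro τ h1 h2
    have h3 : τ < κ * τ := by nlinarith
    have e1 := heq' τ h1 (h3.trans h2)
    have e2 := heq' (κ * τ) (by positivity) h2
    have hZb := hb' (κ * τ) h2
    have hZM : κ * (κ * τ) < ρ * (κ * τ) := by
      have : κ < ρ := by linarith
      exact mul_lt_mul_of_pos_right this (by positivity)
    have hYM : ρ * τ ≤ κ * (κ * τ) := by
      have : ρ ≤ κ * κ := by nlinarith [sq_nonneg (κ - 1)]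
      nlinarith
    obtain ⟨Δ, hΔ⟩ : ∃ Δ, Δ = ℓ (κ * (κ * τ)) - ℓ (κ * τ) := ⟨_, rfl⟩
    rcases hYM.lt_or_eq with hlt | heqM
    · have hs := hconv.slope_mono_adjacent (x := ρ * τ) (y := κ * (κ * τ)) (z := ρ * (κ * τ))
        ⟨by positivity, by linarith⟩ ⟨by positivity, hZb⟩ hlt hZM
      have e3 : ρ * (κ * τ) - κ * (κ * τ) = κ * (κ - 1) * τ := by rw [hρκ]; ring
      have e4 : ℓ (ρ * (κ * τ)) - ℓ (κ * (κ * τ)) = Δ := by rw [hΔ]; linarith
      rw [e3, e4, div_le_div_iff₀ (by linarith) (by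
        have : 0 < κ - 1 := by linarith
        positivity)] at hs
      -- (ℓ M - ℓ Y) * (κ(κ-1)τ) ≤ Δ (M - Y)
      have e5 : ℓ (κ * (κ * τ)) - ℓ (ρ * τ) = Δ - (ℓ (κ * τ) - ℓ τ) := by rw [hΔ]; linarith
      rw [e5] at hs
      have e6 : κ * (κ * τ) - ρ * τ = (κ - 1) ^ 2 * τ := by rw [hρκ]; ring
      rw [e6] at hs
      rw [← hΔ]
      have h7 : 0 < (κ - 1) * τ := mul_pos (by linarith) h1
      have h8 : (κ - 1) * τ * (κ * (Δ - (ℓ (κ * τ) - ℓ τ))) ≤ (κ - 1) * τ * (Δ * (κ - 1)) := by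
        calc (κ - 1) * τ * (κ * (Δ - (ℓ (κ * τ) - ℓ τ))) =
            (Δ - (ℓ (κ * τ) - ℓ τ)) * (κ * (κ - 1) * τ) := by ring
          _ ≤ Δ * ((κ - 1) ^ 2 * τ) := hs
          _ = _ := by ring
      have h9 := le_of_mul_le_mul_left h8 h7
      nlinarith
    · exfalso
      have : ρ = κ * κ := by
        have h5 : ρ * τ = (κ * κ) * τ := by rw [heqM]; ring
        exact mul_right_cancel₀ h1.ne' h5
      nlinarith [mul_pos (sub_pos.mpr hκ1) (sub_pos.mpr hκ1)]
  -- iterate downwards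
  have hΔ0 : ∀ τ, 0 < τ → κ * τ < α * T → ℓ (κ * τ) ≤ ℓ τ := by
    intro τ h1 h2
    have hit : ∀ n : ℕ, ℓ (κ * τ) - ℓ τ ≤ κ ^ n * (ℓ (κ * (τ / κ ^ n)) - ℓ (τ / κ ^ n)) := by
      intro n
      induction n with
      | zero => simp
      | succ n ih =>
        refine ih.trans ?_
        have hpw : 0 < κ ^ (n + 1) := by positivity
        have h3 : 0 < τ / κ ^ (n + 1) := by positivity
        have e : κ * (τ / κ ^ (n + 1)) = τ / κ ^ n := by rw [pow_succ]; field_simp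
        have h5 : τ / κ ^ n ≤ τ := div_le_self h1.le (one_le_pow₀ hκ1.le)
        have h6 : κ * (τ / κ ^ (n + 1)) < α * T := by
          rw [e]
          have : τ < κ * τ := by nlinarith
          linarith
        have h4 := step (τ / κ ^ (n + 1)) h3 h6
        rw [e] at h4
        rw [e, pow_succ, mul_assoc]
        exact mul_le_mul_of_nonneg_left h4 (by positivity)
    have hlim : Tendsto (fun n : ℕ => 64 * (κ * τ) ^ 2 * (1 / κ) ^ n) atTop (𝓝 0) := by
      have := (tendsto_pow_atTop_nhds_zero_of_lt_one (r := 1 / κ) (by positivity)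
        (by rw [div_lt_one (by linarith)]; exact hκ1)).const_mul (64 * (κ * τ) ^ 2)
      rwa [mul_zero] at this
    have : ℓ (κ * τ) - ℓ τ ≤ 0 := by
      refine ge_of_tendsto hlim (Eventually.of_forall fun n => ?_)
      refine (hit n).trans ?_
      have hpw : 0 < κ ^ n := by positivity
      have h5 : τ / κ ^ n ≤ τ := div_le_self h1.le (one_le_pow₀ hκ1.le)
      have h5' : 0 < τ / κ ^ n := by positivity
      have hlt : κ * (τ / κ ^ n) < b := by
        have h7 : κ * (τ / κ ^ n) ≤ κ * τ := mul_le_mul_of_nonneg_left h5 (by linarith)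
        have h8 := hb' (κ * τ) h2
        have h9 : κ * τ < ρ * (κ * τ) := by
          have : 0 < κ * τ := by positivity
          nlinarith
        linarith
      have hlt2 : τ / κ ^ n < b := by
        have : τ / κ ^ n ≤ κ * (τ / κ ^ n) := by nlinarith
        linarith
      have h10 := hsmall (κ * (τ / κ ^ n)) (by positivity) hlt
      have h11 := hpos (τ / κ ^ n) h5' hlt2
      calc κ ^ n * (ℓ (κ * (τ / κ ^ n)) - ℓ (τ / κ ^ n)) ≤ κ ^ n * (64 * (κ * (τ / κ ^ n)) ^ 2) :=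
            mul_le_mul_of_nonneg_left (by linarith) hpw.le
        _ = 64 * (κ * τ) ^ 2 * (1 / κ) ^ n := by
            rw [one_div, inv_pow]; field_simp
    linarith
  -- conclude
  obtain ⟨τ, hτ1, hτ2⟩ : ∃ τ, 0 < τ ∧ κ * τ < α * T := by
    refine ⟨α * T / (2 * κ), by positivity, ?_⟩
    have : κ * (α * T / (2 * κ)) = α * T / 2 := by field_simp
    rw [this]
    have : 0 < α * T := by positivity
    linarith
  have hτκ : τ < κ * τ := by nlinarith
  have hτb : τ < b := by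
    have h8 := hb' (κ * τ) hτ2
    have h9 : κ * τ < ρ * (κ * τ) := by
      have : 0 < κ * τ := by positivity
      nlinarith
    linarith
  have hdown : ∀ n : ℕ, ℓ τ ≤ ℓ (τ / κ ^ n) := by
    intro n
    induction n with
    | zero => simp
    | succ n ih =>
      refine ih.trans ?_
      have e : κ * (τ / κ ^ (n + 1)) = τ / κ ^ n := by rw [pow_succ]; field_simp
      have h5 : τ / κ ^ n ≤ τ := div_le_self hτ1.le (one_le_pow₀ hκ1.le)
      have := hΔ0 (τ / κ ^ (n + 1)) (by positivity) (by rw [e]; linarith)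
      rwa [e] at this
  have hlim : Tendsto (fun n : ℕ => 64 * (τ * (1 / κ) ^ n) ^ 2) atTop (𝓝 0) := by
    have h1 := (tendsto_pow_atTop_nhds_zero_of_lt_one (r := 1 / κ) (by positivity)
      (by rw [div_lt_one (by linarith)]; exact hκ1)).const_mul τ
    have h2 := (h1.pow 2).const_mul 64
    simpa using h2
  have : ℓ τ ≤ 0 := by
    refine ge_of_tendsto hlim (Eventually.of_forall fun n => ?_)
    refine (hdown n).trans ?_
    have h5 : τ / κ ^ n ≤ τ := div_le_self hτ1.le (one_le_pow₀ hκ1.le)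
    have h6 := hsmall (τ / κ ^ n) (by positivity) (by linarith)
    refine h6.trans (le_of_eq ?_)
    rw [one_div, inv_pow]; field_simp
  linarith [hpos τ hτ1 hτb]

/-! ### the functional -/

def Ψ (q : ℝ → ℝ) (p : ℝ) {d : ℕ} (c : Fin d → ℝ) : ℝ :=
  ∫ t in Ioi (0 : ℝ), (∏ k, q (c k * t)) * t ^ (p - 1)

variable {q : ℝ → ℝ} (hq : Surv q)
include hq

lemma decay : ∃ ρ : ℝ, 0 < ρ ∧ ρ < 1 ∧ ∀ T, 0 ≤ T → q T ≤ ρ ^ (T - 1) := by
  refine ⟨max (q 1) (1 / 2), lt_max_of_lt_right (by norm_num),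
    max_lt (hq.lt_one 1 one_pos) (by norm_num), ?_⟩
  intro T hT
  set ρ := max (q 1) (1 / 2) with hρ
  have hρ0 : 0 < ρ := lt_max_of_lt_right (by norm_num)
  have hρ1 : ρ < 1 := max_lt (hq.lt_one 1 one_pos) (by norm_num)
  rcases le_or_gt T 1 with h | h
  · refine (hq.le_one T).trans ?_
    exact Real.one_le_rpow_of_pos_of_le_one_of_nonpos hρ0 hρ1.le (by linarith)
  · have hT0 : 0 < T := by linarith
    have hj := hq.jensen 2 ![1 / T, 1 - 1 / T] ![T, 0] (by
        intro i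
        fin_cases i
        · simp; positivity
        · simp
          exact inv_le_one_of_one_le₀ h.le) (by simp) (by
        intro i
        fin_cases i
        · simp; linarith
        · simp) (by simp [Fin.sum_univ_two]; field_simp; exact one_pos)
    have e : ∑ i, (![1 / T, 1 - 1 / T] : Fin 2 → ℝ) i * (![T, 0] : Fin 2 → ℝ) i = 1 := by
      simp [Fin.sum_univ_two]; field_simp
    rw [e] at hj
    simp only [Fin.prod_univ_two, Matrix.cons_val_zero, Matrix.cons_val_one, hq.zero,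
      Real.one_rpow, mul_one] at hj
    have h2 : q T ≤ q 1 ^ T := by
      have := Real.rpow_le_rpow (Real.rpow_nonneg (hq.nonneg T) _) hj hT0.le
      rwa [← Real.rpow_mul (hq.nonneg T), one_div, inv_mul_cancel₀ hT0.ne', Real.rpow_one] at this
    calc q T ≤ q 1 ^ T := h2
      _ ≤ ρ ^ T := Real.rpow_le_rpow (hq.nonneg 1) (le_max_left _ _) hT0.le
      _ ≤ ρ ^ (T - 1) := Real.rpow_le_rpow_of_exponent_ge hρ0 hρ1.le (by linarith)

lemma q_meas : Measurable q := hq.anti.measurable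

lemma prod_meas {d : ℕ} (c : Fin d → ℝ) : Measurable (fun t => ∏ k, q (c k * t)) :=
  Finset.measurable_prod _ fun k _ => (q_meas hq).comp (measurable_const.mul measurable_id)

lemma Ψ_int {d : ℕ} (k₀ : Fin d) {c : Fin d → ℝ} (hc : ∀ k, 0 < c k) {p : ℝ} (hp : 0 < p) :
    IntegrableOn (fun t => (∏ k, q (c k * t)) * t ^ (p - 1)) (Ioi 0) := by
  obtain ⟨ρ, h0, h1, hd⟩ := decay hq
  have hκ : 0 < -(c k₀ * Real.log ρ) := by
    have := Real.log_neg h0 h1
    have := hc k₀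
    nlinarith
  have hI := (integrableOn_rpow_mul_exp_neg_mul_rpow (s := p - 1) (p := 1)
    (b := -(c k₀ * Real.log ρ)) (by linarith) one_pos hκ).const_mul ρ⁻¹
  refine Integrable.mono' hI ?_ ?_
  · apply AEStronglyMeasurable.mul
    · exact (prod_meas hq c).aestronglyMeasurable
    · exact (measurable_id.pow_const _).aestronglyMeasurable
  · rw [ae_restrict_iff' measurableSet_Ioi]
    refine Eventually.of_forall fun t ht => ?_
    have ht0 : 0 < t := ht
    have hP0 : 0 ≤ ∏ k, q (c k * t) := Finset.prod_nonneg fun k _ => hq.nonneg _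
    rw [Real.norm_eq_abs, abs_of_nonneg (mul_nonneg hP0 (Real.rpow_nonneg ht0.le _))]
    have hP1 : ∏ k, q (c k * t) ≤ q (c k₀ * t) := by
      rw [← Finset.mul_prod_erase Finset.univ _ (Finset.mem_univ k₀)]
      have : ∏ k ∈ Finset.univ.erase k₀, q (c k * t) ≤ 1 :=
        Finset.prod_le_one (fun k _ => hq.nonneg _) (fun k _ => hq.le_one _)
      nlinarith [hq.nonneg (c k₀ * t)]
    have h3 := hd (c k₀ * t) (mul_nonneg (hc k₀).le ht0.le)
    have h4 : ρ ^ (c k₀ * t - 1) = ρ⁻¹ * Real.exp (- -(c k₀ * Real.log ρ) * t ^ (1:ℝ)) := by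
      rw [Real.rpow_sub h0, Real.rpow_one, Real.rpow_one, Real.rpow_def_of_pos h0, div_eq_inv_mul]
      congr 2
      ring
    rw [h4] at h3
    calc (∏ k, q (c k * t)) * t ^ (p - 1) ≤
        (ρ⁻¹ * Real.exp (- -(c k₀ * Real.log ρ) * t ^ (1:ℝ))) * t ^ (p - 1) :=
          mul_le_mul_of_nonneg_right (hP1.trans h3) (Real.rpow_nonneg ht0.le _)
      _ = ρ⁻¹ * (t ^ (p - 1) * Real.exp (- -(c k₀ * Real.log ρ) * t ^ (1:ℝ))) := by ring

omit hq in
lemma Ψ_scale {d : ℕ} (c : Fin d → ℝ) (p : ℝ) {s : ℝ} (hs : 0 < s) :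
    Ψ q p (fun k => s * c k) = s ^ (-p) * Ψ q p c := by
  unfold Ψ
  have h1 := integral_comp_mul_left_Ioi (fun t => (∏ k, q (c k * t)) * t ^ (p - 1)) 0 hs
  rw [mul_zero, smul_eq_mul] at h1
  have h2 : ∫ t in Ioi (0:ℝ), (∏ k, q (s * c k * t)) * t ^ (p - 1) =
      s ^ (-(p - 1)) * ∫ t in Ioi (0:ℝ), (∏ k, q (c k * (s * t))) * (s * t) ^ (p - 1) := by
    rw [← integral_const_mul]
    apply setIntegral_congr_fun measurableSet_Ioi
    intro t ht
    have ht0 : (0:ℝ) < t := ht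
    show (∏ k, q (s * c k * t)) * t ^ (p - 1) =
      s ^ (-(p - 1)) * ((∏ k, q (c k * (s * t))) * (s * t) ^ (p - 1))
    rw [Real.mul_rpow hs.le ht0.le, Real.rpow_neg hs.le]
    have h4 : ∏ k, q (s * c k * t) = ∏ k, q (c k * (s * t)) :=
      Finset.prod_congr rfl fun k _ => by congr 1; ring
    rw [h4]
    have h3 : s ^ (p - 1) ≠ 0 := (Real.rpow_pos_of_pos hs _).ne'
    obtain ⟨X, hX⟩ : ∃ X, X = ∏ k, q (c k * (s * t)) := ⟨_, rfl⟩
    rw [← hX]
    field_simp
  rw [h2, h1, ← mul_assoc]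
  congr 1
  rw [← Real.rpow_neg_one s, ← Real.rpow_add hs]
  congr 1
  ring

lemma prod_le {d : ℕ} (hd : 0 < d) {c : Fin d → ℝ} (hc : ∀ k, 0 < c k) (hs : ∑ k, c k = d) {t : ℝ}
    (ht : 0 < t) : ∏ k, q (c k * t) ≤ ∏ _k : Fin d, q (1 * t) := by
  have hd0 : (0:ℝ) < d := by exact_mod_cast hd
  have e : ∑ i : Fin d, (1 / (d:ℝ)) * (c i * t) = t := by
    rw [← Finset.mul_sum, ← Finset.sum_mul, hs]; field_simp
  have hj := hq.jensen d (fun _ => 1 / d) (fun k => c k * t) (fun i => by positivity)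
    (by simp; field_simp) (fun i => (mul_pos (hc i) ht).le) (by rw [e]; exact ht)
  rw [e] at hj
  have h2 : (∏ i, q (c i * t) ^ (1 / (d:ℝ))) ^ d ≤ q t ^ d :=
    pow_le_pow_left₀ (Finset.prod_nonneg fun i _ => Real.rpow_nonneg (hq.nonneg _) _) hj d
  rw [← Finset.prod_pow] at h2
  have h3 : ∀ i, (q (c i * t) ^ (1 / (d:ℝ))) ^ d = q (c i * t) := by
    intro i
    rw [one_div]
    exact Real.rpow_inv_natCast_pow (hq.nonneg _) hd.ne'
  simp_rw [h3] at h2
  simpa using h2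

lemma Ψ_le {d : ℕ} (hd : 0 < d) {c : Fin d → ℝ} (hc : ∀ k, 0 < c k) (hs : ∑ k, c k = d) {p : ℝ}
    (hp : 0 < p) : Ψ q p c ≤ Ψ q p (fun _ : Fin d => (1:ℝ)) := by
  apply setIntegral_mono_on (Ψ_int hq ⟨0, hd⟩ hc hp) (Ψ_int hq ⟨0, hd⟩ (fun _ => one_pos) hp)
    measurableSet_Ioi
  intro t ht
  exact mul_le_mul_of_nonneg_right (prod_le hq hd hc hs ht) (Real.rpow_nonneg (le_of_lt ht) _)

lemma q_pos {s : ℝ} (h0 : 0 < s) (h1 : s ≤ 1 / 8) : 1 / 2 ≤ q s := by
  have := hq.small s h0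
  nlinarith

lemma ell_props : ConvexOn ℝ (Ioo 0 (1 / 8)) (fun s => -Real.log (q s)) ∧
    (∀ s t, 0 < s → s ≤ t → t < 1 / 8 → -Real.log (q s) ≤ -Real.log (q t)) ∧
    (∀ s, 0 < s → s < 1 / 8 → 0 < -Real.log (q s)) ∧
    (∀ s, 0 < s → s < 1 / 8 → -Real.log (q s) ≤ 64 * s ^ 2) := by
  refine ⟨⟨convex_Ioo _ _, ?_⟩, ?_, ?_, ?_⟩
  · intro x hx y hy a b ha hb hab
    have hx' := q_pos hq hx.1 hx.2.le
    have hy' := q_pos hq hy.1 hy.2.le
    have hm : a • x + b • y ∈ Ioo (0:ℝ) (1/8) := (convex_Ioo _ _) hx hy ha hb hab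
    have hj := hq.jensen 2 ![a, b] ![x, y] (by
        intro i; fin_cases i
        · simpa using ha
        · simpa using hb) (by simpa using hab) (by
        intro i; fin_cases i
        · simpa using hx.1.le
        · simpa using hy.1.le) (by simpa [Fin.sum_univ_two] using hm.1)
    simp only [Fin.prod_univ_two, Matrix.cons_val_zero, Matrix.cons_val_one, Fin.sum_univ_two] at hj
    simp only [smul_eq_mul]
    have h1 : 0 < q x ^ a * q y ^ b := by
      apply mul_pos <;> apply Real.rpow_pos_of_pos <;> linarith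
    have h2 := Real.log_le_log h1 hj
    rw [Real.log_mul (Real.rpow_pos_of_pos (by linarith) _).ne'
      (Real.rpow_pos_of_pos (by linarith) _).ne', Real.log_rpow (by linarith),
      Real.log_rpow (by linarith)] at h2
    linarith
  · intro s t h0 hst ht
    have := Real.log_le_log (by linarith [q_pos hq (h0.trans_le hst) ht.le]) (hq.anti hst)
    linarith
  · intro s h0 h1
    have := Real.log_neg (by linarith [q_pos hq h0 h1.le]) (hq.lt_one s h0)
    linarith
  · intro s h0 h1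
    have h2 := q_pos hq h0 h1.le
    have h3 := hq.small s h0
    have h4 := Real.log_le_sub_one_of_pos (x := 1 / q s) (by positivity)
    rw [one_div, Real.log_inv] at h4
    have h5 : (q s)⁻¹ - 1 ≤ 2 * (1 - q s) := by
      have h6 : (q s)⁻¹ ≤ 2 := by
        rw [inv_le_comm₀ (by linarith) (by norm_num)]; linarith
      have h7 : (q s)⁻¹ - 1 = (q s)⁻¹ * (1 - q s) := by
        rw [mul_sub, inv_mul_cancel₀ (by linarith)]; ring
      rw [h7]
      exact mul_le_mul_of_nonneg_right h6 (by linarith [hq.le_one s])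
    linarith

lemma Ψ_lt {d : ℕ} (hd : 0 < d) {c : Fin d → ℝ} (hc : ∀ k, 0 < c k) (hs : ∑ k, c k = d) {p : ℝ}
    (hp : 0 < p) {i j : Fin d} (hij : c i < c j) : Ψ q p c < Ψ q p (fun _ : Fin d => (1:ℝ)) := by
  refine lt_of_le_of_ne (Ψ_le hq hd hc hs hp) ?_
  intro heq
  have hd1 : (1:ℝ) ≤ d := by exact_mod_cast hd
  have hcd : ∀ k, c k ≤ d := by
    intro k
    rw [← hs]
    exact Finset.single_le_sum (fun k _ => (hc k).le) (Finset.mem_univ k)
  -- equality almost everywhere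
  have hae : ∀ᵐ t ∂(volume.restrict (Ioi (0:ℝ))), (∏ k, q (c k * t)) * t ^ (p - 1) =
      (∏ _k : Fin d, q (1 * t)) * t ^ (p - 1) := by
    have hle : (fun t => (∏ k, q (c k * t)) * t ^ (p - 1)) ≤ᵐ[volume.restrict (Ioi (0:ℝ))]
        (fun t => (∏ _k : Fin d, q (1 * t)) * t ^ (p - 1)) := by
      rw [Filter.EventuallyLE, ae_restrict_iff' measurableSet_Ioi]
      refine Eventually.of_forall fun t ht => ?_
      exact mul_le_mul_of_nonneg_right (prod_le hq hd hc hs ht) (Real.rpow_nonneg (le_of_lt ht) _)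
    exact (integral_eq_iff_of_ae_le (Ψ_int hq ⟨0, hd⟩ hc hp)
      (Ψ_int hq ⟨0, hd⟩ (fun _ => one_pos) hp) hle).mp heq
  have hne : i ≠ j := fun h => by rw [h] at hij; exact lt_irrefl _ hij
  obtain ⟨m, hm⟩ : ∃ m, m = (c i + c j) / 2 := ⟨_, rfl⟩
  have hm0 : 0 < m := by rw [hm]; have := hc i; have := hc j; linarith
  obtain ⟨ℓ, hℓ⟩ : ∃ ℓ : ℝ → ℝ, ℓ = fun s => -Real.log (q s) := ⟨_, rfl⟩
  obtain ⟨p1, p2, p3, p4⟩ := ell_props hq
  rw [← hℓ] at p1
  obtain ⟨T, hT⟩ : ∃ T : ℝ, T = 1 / (8 * d) := ⟨_, rfl⟩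
  have hT0 : 0 < T := by rw [hT]; positivity
  have hdT : d * T = 1 / 8 := by rw [hT]; field_simp
  have hcT : ∀ x t : ℝ, 0 < x → x ≤ d → 0 < t → t < T → 0 < x * t ∧ x * t < 1 / 8 := by
    intro x t hx hxd ht htT
    refine ⟨by positivity, ?_⟩
    calc x * t ≤ d * t := mul_le_mul_of_nonneg_right hxd ht.le
      _ < d * T := mul_lt_mul_of_pos_left htT (by linarith)
      _ = 1 / 8 := hdT
  have hmd : m ≤ d := by rw [hm]; have := hcd i; have := hcd j; linarith
  -- two point equality almost everywhere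
  have hae2 : ∀ᵐ t ∂(volume.restrict (Ioo 0 T)), ℓ (c i * t) + ℓ (c j * t) = 2 * ℓ (m * t) := by
    have h1 : ∀ᵐ t ∂(volume.restrict (Ioo 0 T)), (∏ k, q (c k * t)) * t ^ (p - 1) =
        (∏ _k : Fin d, q (1 * t)) * t ^ (p - 1) :=
      ae_restrict_of_ae_restrict_of_subset Ioo_subset_Ioi_self hae
    rw [ae_restrict_iff' measurableSet_Ioo] at h1 ⊢
    filter_upwards [h1] with t ht htT
    have ht0 : 0 < t := htT.1
    have e1 : (∏ k, q (c k * t)) = ∏ _k : Fin d, q (1 * t) :=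
      mul_right_cancel₀ (Real.rpow_pos_of_pos ht0 _).ne' (ht htT)
    have hposk : ∀ k, 0 < q (c k * t) := fun k => by
      have := hcT (c k) t (hc k) (hcd k) ht0 htT.2
      linarith [q_pos hq this.1 this.2.le]
    have hposm : 0 < q (m * t) := by
      have := hcT m t hm0 hmd ht0 htT.2
      linarith [q_pos hq this.1 this.2.le]
    -- replaced family
    obtain ⟨c', hc'⟩ : ∃ c' : Fin d → ℝ, c' = fun k => if k = i ∨ k = j then m else c k := ⟨_, rfl⟩
    have hc'0 : ∀ k, 0 < c' k := by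
      intro k; rw [hc']; simp only; split_ifs
      · exact hm0
      · exact hc k
    have hji : j ∈ Finset.univ.erase i := Finset.mem_erase.mpr ⟨hne.symm, Finset.mem_univ _⟩
    have hsplit_sum : ∀ f : Fin d → ℝ, ∑ k, f k = f i + (f j + ∑ k ∈ (Finset.univ.erase i).erase j, f k) := by
      intro f
      rw [← Finset.add_sum_erase Finset.univ f (Finset.mem_univ i), ← Finset.add_sum_erase _ f hji]
    have hsplit_prod : ∀ f : Fin d → ℝ, ∏ k, f k = f i * (f j * ∏ k ∈ (Finset.univ.erase i).erase j, f k) := by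
      intro f
      rw [← Finset.mul_prod_erase Finset.univ f (Finset.mem_univ i), ← Finset.mul_prod_erase _ f hji]
    have hrest : ∀ k ∈ (Finset.univ.erase i).erase j, c' k = c k := by
      intro k hk
      rw [Finset.mem_erase, Finset.mem_erase] at hk
      rw [hc']
      simp only
      rw [if_neg]
      rintro (h | h)
      · exact hk.2.1 h
      · exact hk.1 h
    have hci : c' i = m := by rw [hc']; simp
    have hcj : c' j = m := by rw [hc']; simp
    have hs' : ∑ k, c' k = d := by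
      rw [hsplit_sum, hci, hcj, Finset.sum_congr rfl hrest, ← hs, hsplit_sum c, hm]
      ring
    have h2 := prod_le hq hd hc'0 hs' ht0
    rw [← e1, hsplit_prod, hsplit_prod (fun k => q (c k * t)), hci, hcj] at h2
    have h3 : ∏ k ∈ (Finset.univ.erase i).erase j, q (c' k * t) =
        ∏ k ∈ (Finset.univ.erase i).erase j, q (c k * t) :=
      Finset.prod_congr rfl fun k hk => by rw [hrest k hk]
    rw [h3] at h2
    have hR : 0 < ∏ k ∈ (Finset.univ.erase i).erase j, q (c k * t) :=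
      Finset.prod_pos fun k _ => hposk k
    have h4 : q (m * t) * q (m * t) ≤ q (c i * t) * q (c j * t) := by
      have : q (m * t) * q (m * t) * ∏ k ∈ (Finset.univ.erase i).erase j, q (c k * t) ≤
          q (c i * t) * q (c j * t) * ∏ k ∈ (Finset.univ.erase i).erase j, q (c k * t) := by
        linarith
      exact le_of_mul_le_mul_right this hR
    -- reverse inequality by convexity
    have hi8 := hcT (c i) t (hc i) (hcd i) ht0 htT.2
    have hj8 := hcT (c j) t (hc j) (hcd j) ht0 htT.2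
    have hx8 : c i * t ∈ Ioo (0:ℝ) (1 / 8) := ⟨hi8.1, hi8.2⟩
    have hy8 : c j * t ∈ Ioo (0:ℝ) (1 / 8) := ⟨hj8.1, hj8.2⟩
    have ha : (0:ℝ) ≤ 1 / 2 := by norm_num
    have hab : (1 / 2 : ℝ) + 1 / 2 = 1 := by norm_num
    have h5 := (show ConvexOn ℝ (Ioo 0 (1 / 8)) ℓ from p1).2 hx8 hy8 ha ha hab
    have e5 : (1 / 2 : ℝ) • (c i * t) + (1 / 2 : ℝ) • (c j * t) = m * t := by
      rw [hm, smul_eq_mul, smul_eq_mul]; ring
    rw [e5, smul_eq_mul, smul_eq_mul] at h5
    have h6 := Real.log_le_log (mul_pos hposm hposm) h4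
    rw [Real.log_mul hposm.ne' hposm.ne', Real.log_mul (hposk i).ne' (hposk j).ne'] at h6
    rw [hℓ] at h5 ⊢
    simp only at h5 ⊢
    linarith
  have hcont : ContinuousOn ℓ (Ioo 0 (1 / 8)) := p1.continuousOn isOpen_Ioo
  have hcomp : ∀ x : ℝ, 0 < x → x ≤ d → ContinuousOn (fun t => ℓ (x * t)) (Ioo 0 T) := by
    intro x hx hxd
    apply hcont.comp (by fun_prop)
    intro t ht
    exact hcT x t hx hxd ht.1 ht.2
  have hall : EqOn (fun t => ℓ (c i * t) + ℓ (c j * t)) (fun t => 2 * ℓ (m * t)) (Ioo 0 T) :=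
    Measure.eqOn_open_of_ae_eq hae2 isOpen_Ioo ((hcomp _ (hc i) (hcd i)).add (hcomp _ (hc j) (hcd j)))
      ((hcomp m hm0 hmd).const_smul (2:ℝ))
  refine rigid (ℓ := ℓ) (b := 1 / 8) (by norm_num) p1 ?_ ?_ ?_ (hc i) hij hT0 ?_ ?_
  · rw [hℓ]; exact p2
  · rw [hℓ]; exact p3
  · rw [hℓ]; exact p4
  · calc c j * T ≤ d * T := mul_le_mul_of_nonneg_right (hcd j) hT0.le
      _ = 1 / 8 := hdT
  · intro t h1 h2
    have := hall ⟨h1, h2⟩
    rw [hm] at this
    exact this

end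

end Pool.Agent.X129.ExitPsi
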