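import Mathlib
import Pool.Agent.H988R2.Gauss
import Pool.Agent.Helper38.FE.ClsA

/-!
Exponential form of the Maurey-Pisier path inequality for the standard Gaussian measure.
-/

set_option autoImplicit false

noncomputable section

namespace Pool.Agent.X129.GaussPath

open MeasureTheory ProbabilityTheory
open scoped RealInnerProductSpace ENNReal Topology

/-- `E e^{⟪a, Y⟫} = e^{‖a‖²/2}` -/
theorem mgf_inner (I : Type) [Fintype I] (a : EuclideanSpace ℝ I) :
    Integrable (fun x : EuclideanSpace ℝ I => Real.exp ⟪x, a⟫) (stdGaussian (EuclideanSpace ℝ I)) ∧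
    ∫ x, Real.exp ⟪x, a⟫ ∂(stdGaussian (EuclideanSpace ℝ I)) = Real.exp (‖a‖ ^ 2 / 2) := by
  have h := Pool.Agent.H988R2.integral_stdGaussian_add I (fun _ => 1) a
  simp only [mul_one, integral_const, probReal_univ, one_smul, smul_eq_mul] at h
  have h2 : ∫ x, Real.exp ⟪x, a⟫ ∂(stdGaussian (EuclideanSpace ℝ I)) = Real.exp (‖a‖ ^ 2 / 2) := by
    have h3 : Real.exp (‖a‖ ^ 2 / 2) * Real.exp (-‖a‖ ^ 2 / 2) = 1 := by
      rw [← Real.exp_add]; simp [neg_div]
    calc ∫ x, Real.exp ⟪x, a⟫ ∂(stdGaussian (EuclideanSpace ℝ I))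
        = (Real.exp (‖a‖ ^ 2 / 2) * Real.exp (-‖a‖ ^ 2 / 2)) *
          ∫ x, Real.exp ⟪x, a⟫ ∂(stdGaussian (EuclideanSpace ℝ I)) := by rw [h3, one_mul]
      _ = Real.exp (‖a‖ ^ 2 / 2) := by rw [mul_assoc, ← h, mul_one]
  refine ⟨?_, h2⟩
  by_contra hcon
  rw [integral_undef hcon] at h2
  exact (Real.exp_pos _).ne h2

theorem lmgf_inner (I : Type) [Fintype I] (a : EuclideanSpace ℝ I) :
    ∫⁻ x, ENNReal.ofReal (Real.exp ⟪x, a⟫) ∂(stdGaussian (EuclideanSpace ℝ I)) =
      ENNReal.ofReal (Real.exp (‖a‖ ^ 2 / 2)) := by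
  rw [← (mgf_inner I a).2, ofReal_integral_eq_lintegral_ofReal (mgf_inner I a).1
    (Filter.Eventually.of_forall fun x => (Real.exp_pos _).le)]

theorem lmgf_dual (I : Type) [Fintype I] (L : EuclideanSpace ℝ I →L[ℝ] ℝ) :
    ∫⁻ x, ENNReal.ofReal (Real.exp (L x)) ∂(stdGaussian (EuclideanSpace ℝ I)) =
      ENNReal.ofReal (Real.exp (‖L‖ ^ 2 / 2)) := by
  obtain ⟨a, ha⟩ : ∃ a, a = (InnerProductSpace.toDual ℝ (EuclideanSpace ℝ I)).symm L := ⟨_, rfl⟩
  have h1 : ∀ x, L x = ⟪x, a⟫ := by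
    intro x
    rw [real_inner_comm, ha, InnerProductSpace.toDual_symm_apply]
  have h2 : ‖L‖ = ‖a‖ := by rw [ha]; simp
  simp_rw [h1, h2]
  exact lmgf_inner I a

/-- pointwise path inequality -/
theorem path_pt {I : Type} [Fintype I] (u : EuclideanSpace ℝ I → ℝ) (hu : ContDiff ℝ 1 u)
    (x y : EuclideanSpace ℝ I) :
    ENNReal.ofReal (Real.exp (u y - u x)) ≤
      ∫⁻ t in Set.Ioc (0:ℝ) 1, ENNReal.ofReal (Real.exp
        ((Real.pi / 2) * fderiv ℝ u (Real.cos (Real.pi / 2 * t) • x + Real.sin (Real.pi / 2 * t) • y)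
        ((-Real.sin (Real.pi / 2 * t)) • x + Real.cos (Real.pi / 2 * t) • y))) := by
  obtain ⟨D, hD⟩ : ∃ D : ℝ → ℝ, D = fun t => (Real.pi / 2) *
    fderiv ℝ u (Real.cos (Real.pi / 2 * t) • x + Real.sin (Real.pi / 2 * t) • y)
        ((-Real.sin (Real.pi / 2 * t)) • x + Real.cos (Real.pi / 2 * t) • y) := ⟨_, rfl⟩
  have hlin : ∀ t : ℝ, HasDerivAt (fun t : ℝ => Real.pi / 2 * t) (Real.pi / 2) t := by
    intro t
    simpa using (hasDerivAt_id t).const_mul (Real.pi / 2)
  have hder : ∀ t : ℝ, HasDerivAt (fun t : ℝ => u (Real.cos (Real.pi / 2 * t) • x +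
      Real.sin (Real.pi / 2 * t) • y)) (D t) t := by
    intro t
    have hX : HasDerivAt (fun t : ℝ => Real.cos (Real.pi / 2 * t) • x +
        Real.sin (Real.pi / 2 * t) • y)
        ((-Real.sin (Real.pi / 2 * t) * (Real.pi / 2)) • x +
          (Real.cos (Real.pi / 2 * t) * (Real.pi / 2)) • y) t :=
      (((Real.hasDerivAt_cos _).comp t (hlin t)).smul_const x).add
        (((Real.hasDerivAt_sin _).comp t (hlin t)).smul_const y)
    have hG := (hu.differentiable (by norm_num) (Real.cos (Real.pi / 2 * t) • x +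
        Real.sin (Real.pi / 2 * t) • y)).hasFDerivAt
    have h3 := hG.comp_hasDerivAt t hX
    have e : (-Real.sin (Real.pi / 2 * t) * (Real.pi / 2)) • x +
          (Real.cos (Real.pi / 2 * t) * (Real.pi / 2)) • y = (Real.pi / 2) •
          ((-Real.sin (Real.pi / 2 * t)) • x + Real.cos (Real.pi / 2 * t) • y) := by
      rw [smul_add, smul_smul, smul_smul]; congr 2 <;> ring
    rw [e, map_smul, smul_eq_mul] at h3
    rw [hD]
    exact h3
  have hcont : Continuous D := by
    rw [hD]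
    have h0 : Continuous (fderiv ℝ u) := hu.continuous_fderiv (by norm_num)
    have h1 : Continuous (fun t : ℝ => Real.cos (Real.pi / 2 * t) • x +
      Real.sin (Real.pi / 2 * t) • y) := by fun_prop
    have h2 : Continuous (fun t : ℝ => (-Real.sin (Real.pi / 2 * t)) • x +
      Real.cos (Real.pi / 2 * t) • y) := by fun_prop
    exact continuous_const.mul ((h0.comp h1).clm_apply h2)
  have hFTC := intervalIntegral.integral_eq_sub_of_hasDerivAt (a := 0) (b := 1)
    (fun t _ => hder t) (hcont.intervalIntegrable _ _)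
  simp only [mul_one, Real.cos_pi_div_two, Real.sin_pi_div_two, mul_zero, Real.cos_zero,
    Real.sin_zero, zero_smul, one_smul, zero_add, add_zero] at hFTC
  rw [← hFTC, intervalIntegral.integral_of_le zero_le_one]
  have : IsProbabilityMeasure (volume.restrict (Set.Ioc (0:ℝ) 1)) :=
    ⟨by rw [Measure.restrict_apply MeasurableSet.univ]; simp⟩
  have hi1 : Integrable D (volume.restrict (Set.Ioc (0:ℝ) 1)) :=
    (hcont.integrableOn_Icc (a := 0) (b := 1)).mono_set Set.Ioc_subset_Icc_self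
  have hi2 : Integrable (Real.exp ∘ D) (volume.restrict (Set.Ioc (0:ℝ) 1)) :=
    ((Real.continuous_exp.comp hcont).integrableOn_Icc (a := 0) (b := 1)).mono_set
      Set.Ioc_subset_Icc_self
  have hJ := convexOn_exp.map_integral_le Real.continuous_exp.continuousOn isClosed_univ
    (μ := volume.restrict (Set.Ioc (0:ℝ) 1)) (f := D)
    (Filter.Eventually.of_forall fun _ => Set.mem_univ _) hi1 hi2
  refine (ENNReal.ofReal_le_ofReal hJ).trans ?_
  have h5 := ofReal_integral_eq_lintegral_ofReal hi2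
    (Filter.Eventually.of_forall fun x => (Real.exp_pos _).le)
  simp only [Function.comp_apply] at h5
  rw [h5, hD]

/-- `E exp(u(Y) - u(X)) ≤ E exp(π²/8 ‖Du(X)‖²)` -/
theorem path_ineq {I : Type} [Fintype I] (u : EuclideanSpace ℝ I → ℝ) (hu : ContDiff ℝ 1 u) :
    ∫⁻ x, ∫⁻ y, ENNReal.ofReal (Real.exp (u y - u x)) ∂(stdGaussian (EuclideanSpace ℝ I))
        ∂(stdGaussian (EuclideanSpace ℝ I)) ≤
      ∫⁻ x, ENNReal.ofReal (Real.exp (Real.pi ^ 2 / 8 * ‖fderiv ℝ u x‖ ^ 2))
        ∂(stdGaussian (EuclideanSpace ℝ I)) := by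
  obtain ⟨Φ, hΦ⟩ : ∃ Φ : EuclideanSpace ℝ I × EuclideanSpace ℝ I → ℝ≥0∞, Φ = fun p =>
    ENNReal.ofReal (Real.exp ((Real.pi / 2) * fderiv ℝ u p.1 p.2)) := ⟨_, rfl⟩
  have hc0 : Continuous (fderiv ℝ u) := hu.continuous_fderiv (by norm_num)
  have hΦm : Measurable Φ := by
    rw [hΦ]
    apply Measurable.ennreal_ofReal
    apply Continuous.measurable
    apply Real.continuous_exp.comp
    exact continuous_const.mul ((hc0.comp continuous_fst).clm_apply continuous_snd)
  have hjoint : Measurable (fun q : (EuclideanSpace ℝ I × EuclideanSpace ℝ I) × ℝ =>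
      Φ (Real.cos (Real.pi / 2 * q.2) • q.1.1 + Real.sin (Real.pi / 2 * q.2) • q.1.2,
        (-Real.sin (Real.pi / 2 * q.2)) • q.1.1 + Real.cos (Real.pi / 2 * q.2) • q.1.2)) := by
    apply hΦm.comp
    apply Continuous.measurable
    fun_prop
  calc ∫⁻ x, ∫⁻ y, ENNReal.ofReal (Real.exp (u y - u x)) ∂(stdGaussian (EuclideanSpace ℝ I))
        ∂(stdGaussian (EuclideanSpace ℝ I))
      = ∫⁻ p, ENNReal.ofReal (Real.exp (u p.2 - u p.1))
          ∂((stdGaussian (EuclideanSpace ℝ I)).prod (stdGaussian (EuclideanSpace ℝ I))) := by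
        rw [lintegral_prod]
        apply AEMeasurable.ennreal_ofReal
        apply Continuous.aemeasurable
        have := hu.continuous
        fun_prop
    _ ≤ ∫⁻ p : EuclideanSpace ℝ I × EuclideanSpace ℝ I, (∫⁻ t in Set.Ioc (0:ℝ) 1,
          Φ (Real.cos (Real.pi / 2 * t) • p.1 + Real.sin (Real.pi / 2 * t) • p.2,
            (-Real.sin (Real.pi / 2 * t)) • p.1 + Real.cos (Real.pi / 2 * t) • p.2))
          ∂((stdGaussian (EuclideanSpace ℝ I)).prod (stdGaussian (EuclideanSpace ℝ I))) := by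
        apply lintegral_mono
        intro p
        have := path_pt u hu p.1 p.2
        rw [hΦ]
        exact this
    _ = ∫⁻ t in Set.Ioc (0:ℝ) 1, (∫⁻ p : EuclideanSpace ℝ I × EuclideanSpace ℝ I,
          Φ (Real.cos (Real.pi / 2 * t) • p.1 + Real.sin (Real.pi / 2 * t) • p.2,
            (-Real.sin (Real.pi / 2 * t)) • p.1 + Real.cos (Real.pi / 2 * t) • p.2)
          ∂((stdGaussian (EuclideanSpace ℝ I)).prod (stdGaussian (EuclideanSpace ℝ I)))) := by
        rw [lintegral_lintegral_swap]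
        exact hjoint.aemeasurable
    _ = ∫⁻ _t in Set.Ioc (0:ℝ) 1, (∫⁻ p, Φ p
          ∂((stdGaussian (EuclideanSpace ℝ I)).prod (stdGaussian (EuclideanSpace ℝ I)))) := by
        apply lintegral_congr
        intro t
        exact (Pool.Agent.Helper38.FE.refl1_mp I (Real.cos (Real.pi / 2 * t))
          (Real.sin (Real.pi / 2 * t)) (Real.cos_sq_add_sin_sq _)).2.lintegral_comp hΦm
    _ = ∫⁻ p, Φ p
          ∂((stdGaussian (EuclideanSpace ℝ I)).prod (stdGaussian (EuclideanSpace ℝ I))) := by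
        rw [lintegral_const, Measure.restrict_apply MeasurableSet.univ]
        simp
    _ = ∫⁻ x, ∫⁻ y, Φ (x, y) ∂(stdGaussian (EuclideanSpace ℝ I))
          ∂(stdGaussian (EuclideanSpace ℝ I)) := lintegral_prod _ hΦm.aemeasurable
    _ = _ := by
        apply lintegral_congr
        intro x
        have h1 := lmgf_dual I ((Real.pi / 2) • fderiv ℝ u x)
        rw [hΦ]
        simp only [_root_.smul_apply, smul_eq_mul] at h1
        rw [h1, norm_smul, mul_pow, Real.norm_eq_abs, sq_abs]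
        congr 2
        ring

end Pool.Agent.X129.GaussPath
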