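import Mathlib
import Pool.Agent.X129.GaussPath

/-!
Comparison of the chi-square type functional with the Hellinger type functional for Lipschitz
log-ratios under the Gaussian measure.
-/

set_option autoImplicit false
set_option linter.unusedVariables false

noncomputable section

namespace Pool.Agent.X129.GaussMix

open MeasureTheory ProbabilityTheory
open scoped RealInnerProductSpace ENNReal Topology

/-! ### Scalar facts -/

def G (s : ℝ) : ℝ := Real.sqrt (1 + s ^ 2) - 1

def hp (s : ℝ) : ℝ := (Real.exp (s / 2) - 1) ^ 2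

lemma hp_nonneg (s : ℝ) : 0 ≤ hp s := sq_nonneg _

lemma G_nonneg (s : ℝ) : 0 ≤ G s := by
  unfold G
  have : 1 ≤ Real.sqrt (1 + s ^ 2) := by
    rw [Real.one_le_sqrt]; nlinarith [sq_nonneg s]
  linarith

lemma G_le_abs (s : ℝ) : G s ≤ |s| := by
  unfold G
  have : Real.sqrt (1 + s ^ 2) ≤ 1 + |s| := by
    rw [Real.sqrt_le_left (by positivity)]
    nlinarith [abs_nonneg s, sq_abs s]
  linarith

lemma abs_le_G (s : ℝ) : |s| ≤ G s + 1 := by
  unfold G
  have : |s| ≤ Real.sqrt (1 + s ^ 2) := Real.abs_le_sqrt (by linarith)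
  linarith

lemma G_le_sq (s : ℝ) : 2 * G s ≤ s ^ 2 := by
  unfold G
  have : Real.sqrt (1 + s ^ 2) ≤ 1 + s ^ 2 / 2 := by
    rw [Real.sqrt_le_left (by positivity)]
    nlinarith [sq_nonneg (s ^ 2)]
  linarith

lemma G_hasDeriv (s : ℝ) : HasDerivAt G (s / Real.sqrt (1 + s ^ 2)) s := by
  unfold G
  have h1 : HasDerivAt (fun s : ℝ => 1 + s ^ 2) (2 * s) s := by
    simpa using (hasDerivAt_pow 2 s).const_add 1
  have h2 := h1.sqrt (by positivity)
  have h3 := h2.sub_const 1
  refine h3.congr_deriv ?_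
  field_simp

lemma G_contDiff : ContDiff ℝ 1 G := by
  unfold G
  apply ContDiff.sub _ contDiff_const
  apply ContDiff.sqrt
  · fun_prop
  · intro x; positivity

lemma exp_neg_bd {v : ℝ} (hv : 0 ≤ v) : v / (1 + v) ≤ 1 - Real.exp (-v) := by
  have h1 : 1 + v ≤ Real.exp v := by linarith [Real.add_one_le_exp v]
  have h2 : Real.exp (-v) ≤ 1 / (1 + v) := by
    rw [Real.exp_neg, one_div]
    exact inv_anti₀ (by positivity) h1
  have h3 : v / (1 + v) = 1 - 1 / (1 + v) := by field_simp; ring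
  linarith

lemma hp_pos_bd {s : ℝ} (hs : 0 ≤ s) : s ^ 2 / 4 ≤ hp s := by
  unfold hp
  have h1 := Real.add_one_le_exp (s / 2)
  nlinarith

lemma hp_neg_bd {v : ℝ} (hv : 0 ≤ v) : (v / (1 + v)) ^ 2 ≤ hp (-(2 * v)) := by
  unfold hp
  have h1 := exp_neg_bd hv
  have e : -(2 * v) / 2 = -v := by ring
  rw [e]
  have h2 : 0 ≤ v / (1 + v) := by positivity
  nlinarith

lemma F1 (s : ℝ) : s ^ 2 / (1 + s ^ 2) ≤ 5 * hp s := by
  rcases le_total 0 s with hs | hs
  · have h1 := hp_pos_bd hs
    have h2 : s ^ 2 / (1 + s ^ 2) ≤ s ^ 2 := div_le_self (sq_nonneg s) (by nlinarith [sq_nonneg s])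
    have := hp_nonneg s
    linarith
  · obtain ⟨v, rfl⟩ : ∃ v, s = -(2 * v) := ⟨-s / 2, by ring⟩
    have hv : 0 ≤ v := by linarith
    have h1 := hp_neg_bd hv
    refine le_trans ?_ (mul_le_mul_of_nonneg_left h1 (by norm_num))
    rw [div_pow, ← mul_div_assoc, div_le_div_iff₀ (by positivity) (by positivity)]
    have h2 : 0 ≤ v ^ 2 * (1 - 4 * v) ^ 2 := by positivity
    nlinarith

lemma F2 (s : ℝ) : 1 - Real.exp (-(2 * G s)) ≤ 9 * hp s := by
  have h0 : 1 - Real.exp (-(2 * G s)) ≤ s ^ 2 := by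
    have h1 := Real.add_one_le_exp (-(2 * G s))
    have h2 := G_le_sq s
    linarith
  have h00 : 1 - Real.exp (-(2 * G s)) ≤ 1 := by linarith [Real.exp_pos (-(2 * G s))]
  rcases le_total 0 s with hs | hs
  · have h1 := hp_pos_bd hs
    have := hp_nonneg s
    linarith
  · obtain ⟨v, rfl⟩ : ∃ v, s = -(2 * v) := ⟨-s / 2, by ring⟩
    have hv : 0 ≤ v := by linarith
    have h1 := hp_neg_bd hv
    rcases le_total v (1 / 2) with h | h
    · have h2 : v * (2 / 3) ≤ v / (1 + v) := by
        rw [le_div_iff₀ (by positivity)]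
        nlinarith
      have h3 : (v * (2 / 3)) ^ 2 ≤ (v / (1 + v)) ^ 2 := pow_le_pow_left₀ (by positivity) h2 2
      nlinarith
    · have h2 : 1 / 3 ≤ v / (1 + v) := by
        rw [le_div_iff₀ (by positivity)]
        linarith
      have h3 : (1 / 3 : ℝ) ^ 2 ≤ (v / (1 + v)) ^ 2 := pow_le_pow_left₀ (by norm_num) h2 2
      linarith

lemma exp_one_sq : Real.exp 2 ≤ 7.5 := by
  have h := Real.exp_one_lt_d9
  have h2 : Real.exp 2 = Real.exp 1 ^ 2 := by rw [← Real.exp_nat_mul]; norm_num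
  rw [h2]
  nlinarith [Real.exp_pos 1]

lemma F3 (s : ℝ) : (Real.exp s - 1) ^ 2 ≤ 9 * hp s + 15 * (Real.exp (2 * G s) - 1) := by
  have hG := G_nonneg s
  rcases le_total s 1 with hs | hs
  · have h1 : Real.exp s = Real.exp (s / 2) ^ 2 := by rw [← Real.exp_nat_mul]; congr 1; push_cast; ring
    have h2 : Real.exp (s / 2) ≤ 2 := by
      have h3 : Real.exp (s / 2) ≤ Real.exp (1 / 2) := Real.exp_le_exp.mpr (by linarith)
      have h4 : Real.exp (1 / 2) ^ 2 = Real.exp 1 := by rw [← Real.exp_nat_mul]; norm_num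
      have h5 := Real.exp_one_lt_d9
      have h6 : Real.exp (1 / 2) ≤ 2 := by nlinarith [Real.exp_pos (1 / 2 : ℝ)]
      linarith
    have h3 : (Real.exp s - 1) ^ 2 = hp s * (Real.exp (s / 2) + 1) ^ 2 := by
      unfold hp; rw [h1]; ring
    have h4 : (Real.exp (s / 2) + 1) ^ 2 ≤ 9 := by nlinarith [Real.exp_pos (s / 2)]
    have h5 : 1 ≤ Real.exp (2 * G s) := Real.one_le_exp (by linarith)
    rw [h3]
    have := mul_le_mul_of_nonneg_left h4 (hp_nonneg s)
    linarith
  · have h1 : 2 / 5 ≤ G s := by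
      unfold G
      have : 7 / 5 ≤ Real.sqrt (1 + s ^ 2) := by
        apply Real.le_sqrt_of_sq_le
        nlinarith
      linarith
    have h2 : 2 ≤ Real.exp (2 * G s) := by
      have h3 := Real.quadratic_le_exp_of_nonneg (show (0:ℝ) ≤ 4 / 5 by norm_num)
      have h4 : Real.exp (4 / 5) ≤ Real.exp (2 * G s) := Real.exp_le_exp.mpr (by linarith)
      norm_num at h3
      linarith
    have h3 : Real.exp (2 * s) ≤ 7.5 * Real.exp (2 * G s) := by
      have h4 := abs_le_G s
      rw [abs_of_nonneg (by linarith)] at h4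
      have h5 : Real.exp (2 * s) ≤ Real.exp (2 + 2 * G s) := Real.exp_le_exp.mpr (by linarith)
      rw [Real.exp_add] at h5
      have h6 := exp_one_sq
      have := mul_le_mul_of_nonneg_right h6 (Real.exp_pos (2 * G s)).le
      linarith
    have h4 : (Real.exp s - 1) ^ 2 ≤ Real.exp (2 * s) := by
      have h5 : Real.exp (2 * s) = Real.exp s ^ 2 := by rw [← Real.exp_nat_mul]; norm_num
      have h6 : 1 ≤ Real.exp s := Real.one_le_exp (by linarith)
      rw [h5]; nlinarith
    have := hp_nonneg s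
    nlinarith

lemma exp_sub_one_le {x : ℝ} : Real.exp x ≤ 1 + x * Real.exp x := by
  have h := Real.add_one_le_exp (-x)
  have h1 : Real.exp x * Real.exp (-x) = 1 := by rw [← Real.exp_add]; simp
  nlinarith [Real.exp_pos x, mul_le_mul_of_nonneg_left h (Real.exp_pos x).le]

/-! ### The comparison under the Gaussian measure -/

section core

variable {I : Type} [Fintype I]

def K (M : ℝ) : ℝ := 100 * M ^ 2 * Real.exp (20 * M ^ 2)

lemma K_nonneg (M : ℝ) : 0 ≤ K M := by unfold K; positivity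

/-- constant of the comparison -/
def CC (M B : ℝ) : ℝ := 9 + 15 * (2 * K M + 18 + 18 * B)

theorem core (r : EuclideanSpace ℝ I → ℝ) (hr : ContDiff ℝ 1 r) {M B : ℝ}
    (hM : 0 ≤ M) (hD : ∀ x, ‖fderiv ℝ r x‖ ≤ 2 * M)
    (hint : Integrable (fun x => Real.exp (2 * |r x|)) (stdGaussian (EuclideanSpace ℝ I)))
    (hB : ∫ x, Real.exp (2 * |r x|) ∂(stdGaussian (EuclideanSpace ℝ I)) ≤ B) :
    Integrable (fun x => (Real.exp (r x) - 1) ^ 2) (stdGaussian (EuclideanSpace ℝ I)) ∧
    Integrable (fun x => hp (r x)) (stdGaussian (EuclideanSpace ℝ I)) ∧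
    ∫ x, (Real.exp (r x) - 1) ^ 2 ∂(stdGaussian (EuclideanSpace ℝ I)) ≤
      CC M B * ∫ x, hp (r x) ∂(stdGaussian (EuclideanSpace ℝ I)) := by
  obtain ⟨γ, hγ⟩ : ∃ γ : Measure (EuclideanSpace ℝ I), γ = stdGaussian (EuclideanSpace ℝ I) :=
    ⟨_, rfl⟩
  have hprob : IsProbabilityMeasure γ := by rw [hγ]; infer_instance
  have hpath := Pool.Agent.X129.GaussPath.path_ineq (fun x => 2 * G (r x))
    (contDiff_const.mul (G_contDiff.comp hr))
  rw [← hγ] at hint hB hpath ⊢
  have hrc : Continuous r := hr.continuous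
  have hGc : Continuous G := G_contDiff.continuous
  have hint1 : Integrable (fun x => Real.exp (2 * |r x|) + 1) γ := hint.add (integrable_const _)
  have hib : ∀ φ : ℝ → ℝ, Continuous φ → (∀ s, |φ s| ≤ Real.exp (2 * |s|) + 1) →
      Integrable (fun x => φ (r x)) γ := by
    intro φ hφ hb
    refine hint1.mono' (hφ.comp hrc).aestronglyMeasurable (Filter.Eventually.of_forall fun x => ?_)
    rw [Real.norm_eq_abs]; exact hb _
  have e1 : ∀ s : ℝ, Real.exp s ≤ Real.exp (2 * |s|) := fun s =>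
    Real.exp_le_exp.mpr (by have := le_abs_self s; have := abs_nonneg s; linarith)
  have iA : Integrable (fun x => (Real.exp (r x) - 1) ^ 2) γ := by
    refine hib (fun s => (Real.exp s - 1) ^ 2) (by fun_prop) (fun s => ?_)
    rw [abs_of_nonneg (sq_nonneg _)]
    have h1 : Real.exp (2 * s) = Real.exp s ^ 2 := by rw [← Real.exp_nat_mul]; norm_num
    have h2 : Real.exp (2 * s) ≤ Real.exp (2 * |s|) := Real.exp_le_exp.mpr (by linarith [le_abs_self s])
    nlinarith [Real.exp_pos s]
  have iH : Integrable (fun x => hp (r x)) γ := by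
    refine hib hp (by unfold hp; fun_prop) (fun s => ?_)
    rw [abs_of_nonneg (hp_nonneg s)]
    unfold hp
    have h1 : Real.exp s = Real.exp (s / 2) ^ 2 := by rw [← Real.exp_nat_mul]; congr 1; push_cast; ring
    nlinarith [Real.exp_pos (s / 2), e1 s]
  have iU : Integrable (fun x => Real.exp (2 * G (r x))) γ := by
    refine hib (fun s => Real.exp (2 * G s)) (by fun_prop) (fun s => ?_)
    rw [abs_of_nonneg (Real.exp_pos _).le]
    have : Real.exp (2 * G s) ≤ Real.exp (2 * |s|) :=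
      Real.exp_le_exp.mpr (by linarith [G_le_abs s])
    linarith
  have iV : Integrable (fun x => Real.exp (-(2 * G (r x)))) γ := by
    refine hib (fun s => Real.exp (-(2 * G s))) (by fun_prop) (fun s => ?_)
    rw [abs_of_nonneg (Real.exp_pos _).le]
    have h1 : Real.exp (-(2 * G s)) ≤ 1 := by
      rw [Real.exp_le_one_iff]; linarith [G_nonneg s]
    linarith [Real.exp_pos (2 * |s|)]
  refine ⟨iA, iH, ?_⟩
  -- derivative bound
  have hfd : ∀ x, Real.exp (Real.pi ^ 2 / 8 * ‖fderiv ℝ (fun x => 2 * G (r x)) x‖ ^ 2) ≤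
      1 + K M * hp (r x) := by
    intro x
    have h1 : HasFDerivAt (fun x => 2 * G (r x))
        ((2 : ℝ) • ((r x / Real.sqrt (1 + r x ^ 2)) • fderiv ℝ r x)) x := by
      have h2 := (hr.differentiable (by norm_num) x).hasFDerivAt
      have h3 := (G_hasDeriv (r x)).comp_hasFDerivAt x h2
      exact h3.const_mul 2
    rw [h1.fderiv, norm_smul, norm_smul]
    have h2 : (‖(2:ℝ)‖ * (‖r x / Real.sqrt (1 + r x ^ 2)‖ * ‖fderiv ℝ r x‖)) ^ 2 =
        4 * (r x ^ 2 / (1 + r x ^ 2)) * ‖fderiv ℝ r x‖ ^ 2 := by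
      rw [mul_pow, mul_pow, Real.norm_eq_abs, Real.norm_eq_abs, sq_abs, sq_abs, div_pow,
        Real.sq_sqrt (by positivity)]
      ring
    rw [h2]
    obtain ⟨ρ, hρ⟩ : ∃ ρ, ρ = r x ^ 2 / (1 + r x ^ 2) := ⟨_, rfl⟩
    rw [← hρ]
    have hρ0 : 0 ≤ ρ := by rw [hρ]; positivity
    have hρ1 : ρ ≤ 1 := by
      rw [hρ, div_le_one (by positivity)]; linarith
    have hρ5 : ρ ≤ 5 * hp (r x) := by rw [hρ]; exact F1 _
    have h3 : ‖fderiv ℝ r x‖ ^ 2 ≤ 4 * M ^ 2 := by
      have := pow_le_pow_left₀ (norm_nonneg _) (hD x) 2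
      nlinarith
    have hpi : Real.pi ^ 2 ≤ 10 := by
      have h4 := Real.pi_lt_d2
      have h5 := Real.pi_pos
      nlinarith
    have h4 : Real.pi ^ 2 / 8 * (4 * ρ * ‖fderiv ℝ r x‖ ^ 2) ≤ 20 * M ^ 2 * ρ := by
      have h5 : 4 * ρ * ‖fderiv ℝ r x‖ ^ 2 ≤ 4 * ρ * (4 * M ^ 2) :=
        mul_le_mul_of_nonneg_left h3 (by positivity)
      have h6 : Real.pi ^ 2 / 8 * (4 * ρ * ‖fderiv ℝ r x‖ ^ 2) ≤
          10 / 8 * (4 * ρ * (4 * M ^ 2)) :=
        mul_le_mul (by linarith) h5 (by positivity) (by norm_num)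
      linarith
    refine (Real.exp_le_exp.mpr h4).trans ?_
    refine exp_sub_one_le.trans ?_
    have h5 : Real.exp (20 * M ^ 2 * ρ) ≤ Real.exp (20 * M ^ 2) := by
      apply Real.exp_le_exp.mpr
      have : 0 ≤ 20 * M ^ 2 := by positivity
      nlinarith
    have h6 : 20 * M ^ 2 * ρ * Real.exp (20 * M ^ 2 * ρ) ≤
        20 * M ^ 2 * (5 * hp (r x)) * Real.exp (20 * M ^ 2) :=
      mul_le_mul (mul_le_mul_of_nonneg_left hρ5 (by positivity)) h5 (Real.exp_pos _).le
        (by have := hp_nonneg (r x); positivity)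
    unfold K
    nlinarith
  obtain ⟨a, ha⟩ : ∃ a, a = ∫ x, Real.exp (2 * G (r x)) ∂γ := ⟨_, rfl⟩
  obtain ⟨b, hb⟩ : ∃ b, b = ∫ x, Real.exp (-(2 * G (r x))) ∂γ := ⟨_, rfl⟩
  obtain ⟨H, hH⟩ : ∃ H, H = ∫ x, hp (r x) ∂γ := ⟨_, rfl⟩
  have hH0 : 0 ≤ H := by rw [hH]; exact integral_nonneg fun x => hp_nonneg _
  have hb0 : 0 ≤ b := by rw [hb]; exact integral_nonneg fun x => (Real.exp_pos _).le
  have hab : a * b ≤ 1 + K M * H := by
    have h1 : ∫⁻ x, ∫⁻ y, ENNReal.ofReal (Real.exp (2 * G (r y) - 2 * G (r x))) ∂γ ∂γ =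
        ENNReal.ofReal (a * b) := by
      have h2 : ∀ x y, ENNReal.ofReal (Real.exp (2 * G (r y) - 2 * G (r x))) =
          ENNReal.ofReal (Real.exp (-(2 * G (r x)))) * ENNReal.ofReal (Real.exp (2 * G (r y))) := by
        intro x y
        rw [← ENNReal.ofReal_mul (Real.exp_pos _).le, ← Real.exp_add]
        congr 2; ring
      simp_rw [h2]
      have hm1 : Measurable (fun y => ENNReal.ofReal (Real.exp (2 * G (r y)))) := by
        apply Measurable.ennreal_ofReal; apply Continuous.measurable; fun_prop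
      have hm2 : Measurable (fun y => ENNReal.ofReal (Real.exp (-(2 * G (r y))))) := by
        apply Measurable.ennreal_ofReal; apply Continuous.measurable; fun_prop
      simp_rw [lintegral_const_mul _ hm1]
      rw [lintegral_mul_const _ hm2,
        ← ofReal_integral_eq_lintegral_ofReal iU (Filter.Eventually.of_forall fun _ =>
          (Real.exp_pos _).le),
        ← ofReal_integral_eq_lintegral_ofReal iV (Filter.Eventually.of_forall fun _ =>
          (Real.exp_pos _).le), ← ha, ← hb, ← ENNReal.ofReal_mul hb0, mul_comm]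
    have h3 : ∫⁻ x, ENNReal.ofReal (Real.exp (Real.pi ^ 2 / 8 *
        ‖fderiv ℝ (fun x => 2 * G (r x)) x‖ ^ 2)) ∂γ ≤ ENNReal.ofReal (1 + K M * H) := by
      have h4 : ENNReal.ofReal (1 + K M * H) = ∫⁻ x, ENNReal.ofReal (1 + K M * hp (r x)) ∂γ := by
        rw [← ofReal_integral_eq_lintegral_ofReal]
        · congr 1
          rw [integral_add (integrable_const _) (iH.const_mul _), integral_const_mul, ← hH]
          simp
        · exact (integrable_const _).add (iH.const_mul _)
        · exact Filter.Eventually.of_forall fun x => by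
            have := K_nonneg M; have := hp_nonneg (r x); positivity
      rw [h4]
      exact lintegral_mono fun x => ENNReal.ofReal_le_ofReal (hfd x)
    rw [h1] at hpath
    have h5 := hpath.trans h3
    exact (ENNReal.ofReal_le_ofReal_iff (by have := K_nonneg M; positivity)).mp h5
  have hbH : 1 - b ≤ 9 * H := by
    have h1 : ∫ x, (1 - Real.exp (-(2 * G (r x)))) ∂γ ≤ ∫ x, 9 * hp (r x) ∂γ :=
      integral_mono ((integrable_const _).sub iV) (iH.const_mul _) (fun x => F2 _)
    rw [integral_sub (integrable_const _) iV, integral_const_mul, ← hb, ← hH] at h1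
    simpa using h1
  have haB : a ≤ B := by
    refine le_trans ?_ hB
    rw [ha]
    exact integral_mono iU hint (fun x => Real.exp_le_exp.mpr (by
      have := G_le_abs (r x); linarith))
  have ha1 : 1 ≤ a := by
    rw [ha]
    have h1 : ∫ x, (1 : ℝ) ∂γ ≤ ∫ x, Real.exp (2 * G (r x)) ∂γ :=
      integral_mono (integrable_const _) iU (fun x => Real.one_le_exp (by
        have := G_nonneg (r x); linarith))
    simpa using h1
  have hT : a - 1 ≤ (2 * K M + 18 + 18 * B) * H := by
    have hK := K_nonneg M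
    rcases le_total (1 - b) (1 / 2) with h | h
    · have h2 : 1 / 2 ≤ b := by linarith
      have h3 : (a - 1) * b ≤ K M * H + 9 * H := by nlinarith
      have h4 : (a - 1) * (1 / 2) ≤ (a - 1) * b := mul_le_mul_of_nonneg_left h2 (by linarith)
      have h5 : 0 ≤ 18 * B * H := by
        have : 0 ≤ B := by linarith
        positivity
      nlinarith
    · have h2 : 1 / 18 ≤ H := by linarith
      have h3 : 0 ≤ B := by linarith
      have h4 : B * 1 ≤ B * (18 * H) := mul_le_mul_of_nonneg_left (by linarith) h3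
      have h5 : 0 ≤ K M * H := by positivity
      nlinarith
  have hfin : ∫ x, (Real.exp (r x) - 1) ^ 2 ∂γ ≤ 9 * H + 15 * (a - 1) := by
    have h1 : ∫ x, (Real.exp (r x) - 1) ^ 2 ∂γ ≤
        ∫ x, (9 * hp (r x) + 15 * (Real.exp (2 * G (r x)) - 1)) ∂γ :=
      integral_mono iA ((iH.const_mul _).add ((iU.sub (integrable_const _)).const_mul _))
        (fun x => F3 _)
    have i2 : Integrable (fun x => Real.exp (2 * G (r x)) - 1) γ := iU.sub (integrable_const _)
    rw [integral_add (iH.const_mul _) (i2.const_mul _), integral_const_mul, integral_const_mul,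
      integral_sub iU (integrable_const _), ← hH, ← ha] at h1
    simpa using h1
  rw [← hH]
  unfold CC
  nlinarith

end core

end Pool.Agent.X129.GaussMix
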