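import Mathlib

namespace Pool.Agent.X129.CramerSymm

open MeasureTheory ProbabilityTheory Complex
open scoped NNReal ENNReal

/-! ### Part A: entire functions without zeros and of order two -/

lemma log_entire (F : ℂ → ℂ) (hF : Differentiable ℂ F) (hne : ∀ z, F z ≠ 0) (h0 : F 0 = 1) :
    ∃ h : ℂ → ℂ, Differentiable ℂ h ∧ h 0 = 0 ∧ ∀ z, F z = cexp (h z) := by
  have hd : Differentiable ℂ (fun z => deriv F z / F z) :=
    hF.deriv.div hF hne
  obtain ⟨H, hH⟩ := hd.isExactOn_univ
  have hH' : ∀ z, HasDerivAt H (deriv F z / F z) z := fun z => hH z (Set.mem_univ z)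
  refine ⟨fun z => H z - H 0, ?_, by simp, ?_⟩
  · intro z
    exact ((hH' z).differentiableAt).sub_const _
  · have hG : ∀ z, HasDerivAt (fun z => F z * cexp (-(H z - H 0))) 0 z := by
      intro z
      have h1 : HasDerivAt (fun z => cexp (-(H z - H 0)))
          (cexp (-(H z - H 0)) * (-(deriv F z / F z))) z :=
        (((hH' z).sub_const _).neg).cexp
      have h2 : HasDerivAt (fun z => F z * cexp (-(H z - H 0)))
          (deriv F z * cexp (-(H z - H 0)) + F z * (cexp (-(H z - H 0)) * (-(deriv F z / F z)))) z :=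
        (hF z).hasDerivAt.mul h1
      refine h2.congr_deriv ?_
      have := hne z
      field_simp
      ring
    have hconst := is_const_of_deriv_eq_zero (fun z => (hG z).differentiableAt)
      (fun z => (hG z).deriv)
    intro z
    have h3 := hconst z 0
    simp only [sub_self, neg_zero, Complex.exp_zero, mul_one, h0] at h3
    rw [Complex.exp_neg] at h3
    have h4 := Complex.exp_ne_zero (H z - H 0)
    field_simp at h3
    exact h3

lemma quadratic_of_growth (h : ℂ → ℂ) (hd : Differentiable ℂ h) (h0 : h 0 = 0) (B : ℝ)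
    (hB : 0 ≤ B) (hre : ∀ z, (h z).re ≤ B * ‖z‖ ^ 2) :
    ∃ α β : ℂ, ∀ z, h z = α * z + β * z ^ 2 := by
  have hbd : ∀ z, ‖h z‖ ≤ 2 * (B * (2 * ‖z‖ + 1) ^ 2 + 1) := by
    intro z
    have hR : (0 : ℝ) < 2 * ‖z‖ + 1 := by positivity
    have hM : (0 : ℝ) < B * (2 * ‖z‖ + 1) ^ 2 + 1 := by positivity
    have := borelCaratheodory_zero (f := h) (M := B * (2 * ‖z‖ + 1) ^ 2 + 1)
      (R := 2 * ‖z‖ + 1) (z := z) hM hd.differentiableOn ?_ hR ?_ h0
    · refine this.trans ?_
      rw [div_le_iff₀ (by linarith [norm_nonneg z])]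
      nlinarith [norm_nonneg z, hM]
    · intro w hw
      have hw' : ‖w‖ < 2 * ‖z‖ + 1 := by simpa using hw
      have : (h w).re ≤ B * (2 * ‖z‖ + 1) ^ 2 :=
        (hre w).trans (mul_le_mul_of_nonneg_left
          (pow_le_pow_left₀ (norm_nonneg _) hw'.le 2) hB)
      simp only [Set.mem_ofPred_eq]
      linarith
    · simp only [Metric.mem_ball, dist_zero_right]
      linarith [norm_nonneg z]
  have h3 : ∀ c, iteratedDeriv 3 h c = 0 := by
    intro c
    by_contra hne
    have hpos : 0 < ‖iteratedDeriv 3 h c‖ := norm_pos_iff.2 hne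
    set K : ℝ := 2 * (B * (2 * ‖c‖ + 3) ^ 2 + 1) with hK
    have hKpos : 0 < K := by positivity
    have key : ∀ R : ℝ, 1 ≤ R → ‖iteratedDeriv 3 h c‖ ≤ 6 * K / R := by
      intro R hR
      have hR0 : 0 < R := by linarith
      have := norm_iteratedDeriv_le_of_forall_mem_sphere_norm_le (f := h) (c := c) (R := R)
        (C := K * R ^ 2) 3 hR0 hd.diffContOnCl ?_
      · refine this.trans (le_of_eq ?_)
        have : ((Nat.factorial 3 : ℕ) : ℝ) = 6 := by norm_num [Nat.factorial]
        rw [this]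
        field_simp
      · intro z hz
        have hz' : ‖z‖ ≤ ‖c‖ + R := by
          have h1 : ‖z - c‖ = R := by simpa [dist_eq_norm] using hz
          calc ‖z‖ = ‖c + (z - c)‖ := by ring_nf
            _ ≤ ‖c‖ + ‖z - c‖ := norm_add_le _ _
            _ = ‖c‖ + R := by rw [h1]
        refine (hbd z).trans ?_
        have h4 : 2 * ‖z‖ + 1 ≤ (2 * ‖c‖ + 3) * R := by
          nlinarith [norm_nonneg c, norm_nonneg z]
        have h5 : (2 * ‖z‖ + 1) ^ 2 ≤ ((2 * ‖c‖ + 3) * R) ^ 2 :=
          pow_le_pow_left₀ (by positivity) h4 2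
        have h6 : (1 : ℝ) ≤ R ^ 2 := one_le_pow₀ hR
        rw [hK]
        nlinarith [mul_le_mul_of_nonneg_left h5 hB]
    have h7 := key (6 * K / ‖iteratedDeriv 3 h c‖ + 1) (by
      have : 0 ≤ 6 * K / ‖iteratedDeriv 3 h c‖ := by positivity
      linarith)
    rw [le_div_iff₀ (by positivity)] at h7
    rw [mul_add, mul_div_cancel₀ _ hpos.ne'] at h7
    linarith
  have hd1 : Differentiable ℂ (deriv h) := hd.deriv
  have hd2 : Differentiable ℂ (deriv (deriv h)) := hd1.deriv
  have h3' : ∀ c, deriv (deriv (deriv h)) c = 0 := by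
    intro c
    have := h3 c
    rw [iteratedDeriv_succ, iteratedDeriv_succ, iteratedDeriv_one] at this
    exact this
  have hc2 := is_const_of_deriv_eq_zero hd2 h3'
  set β : ℂ := deriv (deriv h) 0 / 2 with hβ
  have hc1 : ∀ z, deriv h z = deriv h 0 + 2 * β * z := by
    have hder : ∀ z, HasDerivAt (fun z => deriv h z - 2 * β * z) 0 z := by
      intro z
      have h1 : HasDerivAt (fun z => deriv h z - 2 * β * z) (deriv (deriv h) z - 2 * β * 1) z :=
        (hd1 z).hasDerivAt.sub ((hasDerivAt_id z).const_mul (2 * β))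
      refine h1.congr_deriv ?_
      rw [hc2 z 0, hβ]
      ring
    have := is_const_of_deriv_eq_zero (fun z => (hder z).differentiableAt)
      (fun z => (hder z).deriv)
    intro z
    have h2 := this z 0
    simp only [mul_zero, sub_zero] at h2
    linear_combination h2
  refine ⟨deriv h 0, β, ?_⟩
  have hder : ∀ z, HasDerivAt (fun z => h z - (deriv h 0 * z + β * z ^ 2)) 0 z := by
    intro z
    have h1 : HasDerivAt (fun z => h z - (deriv h 0 * z + β * z ^ 2))
        (deriv h z - (deriv h 0 * 1 + β * (((2 : ℕ) : ℂ) * z ^ (2 - 1)))) z :=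
      (hd z).hasDerivAt.sub (((hasDerivAt_id z).const_mul (deriv h 0)).add
        ((hasDerivAt_pow 2 z).const_mul β))
    refine h1.congr_deriv ?_
    rw [hc1 z]
    push_cast
    ring
  have := is_const_of_deriv_eq_zero (fun z => (hder z).differentiableAt)
    (fun z => (hder z).deriv)
  intro z
  have h2 := this z 0
  simp only [h0, mul_zero, ne_eq, OfNat.ofNat_ne_zero, not_false_eq_true, zero_pow, add_zero,
    sub_self] at h2
  linear_combination h2

lemma entire_quadratic (F : ℂ → ℂ) (hF : Differentiable ℂ F) (hne : ∀ z, F z ≠ 0)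
    (h0 : F 0 = 1) (B : ℝ) (hB : 0 ≤ B) (hb : ∀ z, ‖F z‖ ≤ Real.exp (B * ‖z‖ ^ 2)) :
    ∃ α β : ℂ, ∀ z, F z = cexp (α * z + β * z ^ 2) := by
  obtain ⟨h, hd, hh0, hF'⟩ := log_entire F hF hne h0
  obtain ⟨α, β, hq⟩ := quadratic_of_growth h hd hh0 B hB (fun z => by
    have := hb z
    rw [hF' z, Complex.norm_exp, Real.exp_le_exp] at this
    exact this)
  exact ⟨α, β, fun z => by rw [hF' z, hq z]⟩

lemma exp_eq_one_zero (c : ℂ) (h : ∀ s : ℝ, 0 ≤ s → cexp (c * s) = 1) : c = 0 := by
  have h' : ∀ s : ℝ, cexp (c * s) = 1 := by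
    intro s
    rcases le_total 0 s with hs | hs
    · exact h s hs
    · have := h (-s) (by linarith)
      have h2 : cexp (c * s) * cexp (c * ((-s : ℝ) : ℂ)) = 1 := by
        rw [← Complex.exp_add]
        push_cast
        ring_nf
        simp
      rw [this, mul_one] at h2
      exact h2
  have h1 : HasDerivAt (fun s : ℝ => cexp (c * s)) (cexp (c * (0 : ℝ)) * c) 0 := by
    have : HasDerivAt (fun s : ℝ => c * (s : ℂ)) c 0 := by
      simpa using ((hasDerivAt_id (0 : ℝ)).ofReal_comp).const_mul c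
    exact this.cexp
  have h2 : HasDerivAt (fun s : ℝ => cexp (c * s)) 0 0 := by
    have : (fun s : ℝ => cexp (c * s)) = fun _ => 1 := funext h'
    rw [this]
    exact hasDerivAt_const _ _
  have := h1.unique h2
  simpa using this

/-! ### Part B: Cramér's theorem for real characteristic functions -/

lemma integrable_exp_of_conv {ν₁ ν₂ : Measure ℝ} [IsProbabilityMeasure ν₁]
    [IsProbabilityMeasure ν₂] {v : ℝ≥0} (h : ν₁ ∗ ν₂ = gaussianReal 0 v) (t : ℝ) :
    Integrable (fun x => Real.exp (t * x)) ν₁ ∧ Integrable (fun x => Real.exp (t * x)) ν₂ := by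
  have hg := integrable_exp_mul_gaussianReal (μ := 0) (v := v) t
  have hfin : ∫⁻ x, ENNReal.ofReal (Real.exp (t * x)) ∂(gaussianReal 0 v) < ∞ := by
    have := hg.lintegral_lt_top
    exact this
  rw [← h, Measure.lintegral_conv (by fun_prop)] at hfin
  have hprod : ∫⁻ x, ∫⁻ y, ENNReal.ofReal (Real.exp (t * (x + y))) ∂ν₂ ∂ν₁
      = (∫⁻ x, ENNReal.ofReal (Real.exp (t * x)) ∂ν₁) *
        (∫⁻ y, ENNReal.ofReal (Real.exp (t * y)) ∂ν₂) := by
    rw [← lintegral_mul_const _ (by fun_prop)]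
    refine lintegral_congr fun x => ?_
    rw [← lintegral_const_mul _ (by fun_prop)]
    refine lintegral_congr fun y => ?_
    rw [← ENNReal.ofReal_mul (Real.exp_pos _).le, ← Real.exp_add]
    ring_nf
  rw [hprod] at hfin
  have hpos : ∀ ν : Measure ℝ, IsProbabilityMeasure ν →
      ∫⁻ x, ENNReal.ofReal (Real.exp (t * x)) ∂ν ≠ 0 := by
    intro ν hν h0
    rw [lintegral_eq_zero_iff (by fun_prop)] at h0
    have : ∀ᵐ x ∂ν, False := by
      filter_upwards [h0] with x hx
      simp only [Pi.zero_apply, ENNReal.ofReal_eq_zero] at hx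
      exact absurd hx (not_le.2 (Real.exp_pos _))
    rw [Filter.eventually_false_iff_eq_bot, ae_eq_bot] at this
    exact (IsProbabilityMeasure.ne_zero ν) this
  have key : ∀ ν : Measure ℝ, ∫⁻ x, ENNReal.ofReal (Real.exp (t * x)) ∂ν < ∞ →
      Integrable (fun x => Real.exp (t * x)) ν := by
    intro ν hν
    refine ⟨by fun_prop, ?_⟩
    rw [hasFiniteIntegral_iff_ofReal (Filter.Eventually.of_forall fun x => (Real.exp_pos _).le)]
    exact hν
  refine ⟨key _ ?_, key _ ?_⟩
  · rw [lt_top_iff_ne_top]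
    intro htop
    rw [htop, ENNReal.top_mul (hpos ν₂ inferInstance)] at hfin
    exact lt_irrefl _ hfin
  · rw [lt_top_iff_ne_top]
    intro htop
    rw [htop, ENNReal.mul_top (hpos ν₁ inferInstance)] at hfin
    exact lt_irrefl _ hfin

lemma map_neg_eq_of_real {ν : Measure ℝ} [IsProbabilityMeasure ν] {g : ℝ → ℝ}
    (hg : ∀ ξ, charFun ν ξ = (g ξ : ℂ)) : ν.map (fun x => -x) = ν := by
  have : IsProbabilityMeasure (ν.map (fun x => -x)) :=
    Measure.isProbabilityMeasure_map (by fun_prop)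
  refine Measure.ext_of_charFun ?_
  ext ξ
  have h1 : charFun (ν.map (fun x => -x)) ξ = charFun ν (-ξ) := by
    have := charFun_map_mul (μ := ν) (-1) ξ
    simpa using this
  rw [h1, charFun_neg, hg ξ]
  simp

lemma one_le_mgf {ν : Measure ℝ} [IsProbabilityMeasure ν] (hs : ν.map (fun x => -x) = ν)
    (hi : ∀ t : ℝ, Integrable (fun x => Real.exp (t * x)) ν) (t : ℝ) :
    1 ≤ ∫ x, Real.exp (t * x) ∂ν := by
  have h1 : ∫ x, Real.exp (t * x) ∂ν = ∫ x, Real.exp (-t * x) ∂ν := by
    conv_lhs => rw [← hs]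
    rw [integral_map (by fun_prop) (by fun_prop)]
    simp
  have h2 : ∫ x, (Real.exp (t * x) + Real.exp (-t * x)) / 2 ∂ν = ∫ x, Real.exp (t * x) ∂ν := by
    rw [integral_div, integral_add (hi t) (hi (-t)), ← h1]
    ring
  rw [← h2]
  have h3 : ∫ _x : ℝ, (1 : ℝ) ∂ν = 1 := by simp
  rw [← h3]
  refine integral_mono (integrable_const _) (((hi t).add (hi (-t))).div_const 2) fun x => ?_
  have := Real.one_le_cosh (t * x)
  rw [Real.cosh_eq] at this
  simpa using this

/-- **Cramér's theorem** when both characteristic functions are real: if `ν₁ ∗ ν₂` is a centred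
Gaussian law, then `ν₁` is a centred Gaussian law. -/
theorem cramer_real {ν₁ ν₂ : Measure ℝ} [IsProbabilityMeasure ν₁] [IsProbabilityMeasure ν₂]
    {v : ℝ≥0} (h : ν₁ ∗ ν₂ = gaussianReal 0 v) {g₁ g₂ : ℝ → ℝ}
    (h₁ : ∀ ξ, charFun ν₁ ξ = (g₁ ξ : ℂ)) (h₂ : ∀ ξ, charFun ν₂ ξ = (g₂ ξ : ℂ)) :
    ∃ κ : ℝ, 0 ≤ κ ∧ ∀ ξ, g₁ ξ = Real.exp (-(κ * ξ ^ 2)) := by
  have hi₁ : ∀ t : ℝ, Integrable (fun x => Real.exp (t * x)) ν₁ :=
    fun t => (integrable_exp_of_conv h t).1
  have hi₂ : ∀ t : ℝ, Integrable (fun x => Real.exp (t * x)) ν₂ :=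
    fun t => (integrable_exp_of_conv h t).2
  have hs₂ := map_neg_eq_of_real h₂
  -- the product formula
  have hint : ∀ z : ℂ, Integrable (fun x : ℝ => cexp (z * x)) (gaussianReal 0 v) := by
    intro z
    refine ((integrable_exp_mul_gaussianReal (μ := 0) (v := v) z.re)).mono' (by fun_prop) ?_
    refine Filter.Eventually.of_forall fun x => ?_
    rw [Complex.norm_exp]
    simp
  have hprod : ∀ z : ℂ, complexMGF id ν₁ z * complexMGF id ν₂ z = cexp (v * z ^ 2 / 2) := by
    intro z
    have h3 := complexMGF_id_gaussianReal (μ := 0) (v := v) z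
    rw [← h] at h3
    have h4 := hint z
    rw [← h] at h4
    have h5 : complexMGF id (ν₁ ∗ ν₂) z = ∫ x, ∫ y, cexp (z * ((x + y : ℝ) : ℂ)) ∂ν₂ ∂ν₁ := by
      rw [complexMGF]
      simp only [id]
      exact integral_conv h4
    rw [h5] at h3
    have h6 : ∫ x, ∫ y, cexp (z * ((x + y : ℝ) : ℂ)) ∂ν₂ ∂ν₁
        = complexMGF id ν₁ z * complexMGF id ν₂ z := by
      simp only [complexMGF, id]
      rw [← integral_mul_const]
      refine integral_congr_ae (Filter.Eventually.of_forall fun x => ?_)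
      simp only
      rw [← integral_const_mul]
      refine integral_congr_ae (Filter.Eventually.of_forall fun y => ?_)
      simp only
      rw [← Complex.exp_add]
      push_cast
      ring_nf
    rw [← h6, h3]
    simp
  have hne : ∀ z, complexMGF id ν₁ z ≠ 0 := by
    intro z h0
    have := hprod z
    rw [h0, zero_mul] at this
    exact Complex.exp_ne_zero _ this.symm
  have hset : integrableExpSet id ν₁ = Set.univ := by
    ext t
    simpa [integrableExpSet] using hi₁ t
  have hdiff : Differentiable ℂ (complexMGF id ν₁) := by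
    have := differentiableOn_complexMGF (X := id) (μ := ν₁)
    rw [hset] at this
    simpa [differentiableOn_univ] using this
  have hzero : complexMGF id ν₁ 0 = 1 := by
    simp [complexMGF]
  -- growth
  have hgrow : ∀ z, ‖complexMGF id ν₁ z‖ ≤ Real.exp ((v : ℝ) / 2 * ‖z‖ ^ 2) := by
    intro z
    have h3 : ‖complexMGF id ν₁ z‖ ≤ mgf id ν₁ z.re := norm_complexMGF_le_mgf
    have h4 : mgf id ν₁ z.re * mgf id ν₂ z.re = Real.exp ((v : ℝ) * z.re ^ 2 / 2) := by
      have := hprod (z.re : ℂ)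
      rw [complexMGF_ofReal, complexMGF_ofReal] at this
      exact_mod_cast this
    have h5 : 1 ≤ mgf id ν₂ z.re := by
      simp only [mgf, id]
      exact one_le_mgf hs₂ hi₂ z.re
    have h6 : 0 ≤ mgf id ν₁ z.re := mgf_nonneg
    have h7 : mgf id ν₁ z.re ≤ Real.exp ((v : ℝ) * z.re ^ 2 / 2) := by
      rw [← h4]
      nlinarith
    refine h3.trans (h7.trans (Real.exp_le_exp.2 ?_))
    have h8 : z.re ^ 2 ≤ ‖z‖ ^ 2 := by
      rw [← sq_abs z.re]
      exact pow_le_pow_left₀ (abs_nonneg _) (Complex.abs_re_le_norm z) 2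
    have h9 : (0 : ℝ) ≤ v := v.2
    nlinarith
  obtain ⟨α, β, hq⟩ := entire_quadratic _ hdiff hne hzero ((v : ℝ) / 2) (by positivity) hgrow
  have hchar : ∀ ξ : ℝ, cexp (α * (ξ * I) + β * (ξ * I) ^ 2) = (g₁ ξ : ℂ) := by
    intro ξ
    rw [← hq, complexMGF_id_mul_I, h₁]
  have heven : ∀ ξ : ℝ, g₁ (-ξ) = g₁ ξ := by
    intro ξ
    have := charFun_neg (μ := ν₁) ξ
    rw [h₁, h₁, Complex.conj_ofReal] at this
    exact_mod_cast this
  -- the linear coefficient vanishes
  have hα : α = 0 := by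
    have : 2 * α * I = 0 := by
      refine exp_eq_one_zero _ fun s _ => ?_
      have h3 := hchar s
      have h4 := hchar (-s)
      rw [heven s, ← h3] at h4
      have h5 : cexp (2 * α * I * s) = cexp (α * (s * I) + β * (s * I) ^ 2) *
          (cexp (α * (((-s : ℝ) : ℂ) * I) + β * (((-s : ℝ) : ℂ) * I) ^ 2))⁻¹ := by
        rw [← Complex.exp_neg, ← Complex.exp_add]
        push_cast
        ring_nf
      rw [h5, h4]
      exact mul_inv_cancel₀ (Complex.exp_ne_zero _)
    simpa using this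
  have hchar' : ∀ ξ : ℝ, cexp (-(β * ξ ^ 2)) = (g₁ ξ : ℂ) := by
    intro ξ
    rw [← hchar ξ, hα]
    congr 1
    rw [mul_pow, I_sq]
    ring
  -- `β` is real
  have hβ : β = (β.re : ℂ) := by
    have h0 : (starRingEnd ℂ) β - β = 0 := by
      refine exp_eq_one_zero _ fun s hs => ?_
      have h3 := hchar' (Real.sqrt s)
      have h3s : ((Real.sqrt s : ℝ) : ℂ) ^ 2 = (s : ℂ) := by
        rw [← Complex.ofReal_pow, Real.sq_sqrt hs]
      rw [h3s] at h3
      have h4 := congrArg (starRingEnd ℂ) h3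
      rw [Complex.conj_ofReal, ← h3, ← Complex.exp_conj, map_neg, map_mul,
        Complex.conj_ofReal] at h4
      have h5 : cexp (((starRingEnd ℂ) β - β) * s)
          = cexp (-(β * s)) * (cexp (-((starRingEnd ℂ) β * s)))⁻¹ := by
        rw [← Complex.exp_neg, ← Complex.exp_add]
        ring_nf
      rw [h5, h4]
      exact mul_inv_cancel₀ (Complex.exp_ne_zero _)
    exact (Complex.conj_eq_iff_re.1 (sub_eq_zero.1 h0)).symm
  have hreal : ∀ ξ : ℝ, g₁ ξ = Real.exp (-(β.re * ξ ^ 2)) := by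
    intro ξ
    have := hchar' ξ
    rw [hβ] at this
    exact_mod_cast this.symm
  refine ⟨β.re, ?_, hreal⟩
  have h3 : ‖charFun ν₁ 1‖ ≤ 1 := norm_charFun_le_one 1
  rw [h₁, hreal 1, Complex.norm_real, Real.norm_eq_abs, abs_of_pos (Real.exp_pos _)] at h3
  have := Real.exp_le_one_iff.1 h3
  linarith

end Pool.Agent.X129.CramerSymm
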