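import Mathlib
import Pool.Agent.X129.CramerSymm

namespace Pool.Agent.X129.AtomReduce

open MeasureTheory ProbabilityTheory Complex Filter
open scoped NNReal ENNReal Topology

/-- Swapping a Gaussian average of a characteristic function. -/
lemma integral_charFun_gaussian {μ : Measure ℝ} [IsProbabilityMeasure μ] (v : ℝ≥0) :
    ∫ ξ, charFun μ ξ ∂(gaussianReal 0 v) = ∫ x, cexp (-(v * (x : ℂ) ^ 2 / 2)) ∂μ := by
  have h1 : ∀ ξ, charFun μ ξ = ∫ x, cexp (ξ * x * I) ∂μ := fun ξ => charFun_apply_real ξ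
  have hint : Integrable (Function.uncurry fun (ξ x : ℝ) => cexp (ξ * x * I))
      ((gaussianReal 0 v).prod μ) := by
    refine (integrable_const (1 : ℝ)).mono' (by fun_prop) (Eventually.of_forall fun p => ?_)
    simp only [Function.uncurry]
    rw [show (p.1 : ℂ) * p.2 * I = ((p.1 * p.2 : ℝ) : ℂ) * I by push_cast; ring,
      Complex.norm_exp_ofReal_mul_I]
  calc ∫ ξ, charFun μ ξ ∂(gaussianReal 0 v)
      = ∫ ξ, ∫ x, cexp (ξ * x * I) ∂μ ∂(gaussianReal 0 v) := by simp_rw [h1]
    _ = ∫ x, ∫ ξ, cexp (ξ * x * I) ∂(gaussianReal 0 v) ∂μ := integral_integral_swap hint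
    _ = ∫ x, cexp (-(v * (x : ℂ) ^ 2 / 2)) ∂μ := by
        refine integral_congr_ae (Eventually.of_forall fun x => ?_)
        simp only
        have h2 := charFun_gaussianReal (μ := 0) (v := v) x
        rw [charFun_apply_real] at h2
        calc ∫ ξ, cexp (ξ * x * I) ∂(gaussianReal 0 v)
            = ∫ ξ, cexp (x * ξ * I) ∂(gaussianReal 0 v) := by
              refine integral_congr_ae (Eventually.of_forall fun ξ => ?_)
              simp only
              ring_nf
          _ = _ := by rw [h2]; congr 1; push_cast; ring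

/-- If the characteristic function of `μ` is real and bounded below by `l`, then the atom of `μ`
at `0` has mass at least `l`. -/
lemma le_atom {μ : Measure ℝ} [IsProbabilityMeasure μ] {f : ℝ → ℝ} {l : ℝ}
    (hf : ∀ ξ, charFun μ ξ = (f ξ : ℂ)) (hl : ∀ ξ, l ≤ f ξ) : l ≤ μ.real {0} := by
  have hcont : Continuous f := by
    have h1 : Continuous (fun ξ => (charFun μ ξ).re) := Complex.continuous_re.comp (by fun_prop)
    have h2 : f = fun ξ => (charFun μ ξ).re := by
      ext ξ
      rw [hf ξ, Complex.ofReal_re]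
    rw [h2]
    exact h1
  have hbd : ∀ ξ, |f ξ| ≤ 1 := by
    intro ξ
    have := norm_charFun_le_one (μ := μ) ξ
    rwa [hf ξ, Complex.norm_real, Real.norm_eq_abs] at this
  have hfi : ∀ v : ℝ≥0, Integrable f (gaussianReal 0 v) := fun v =>
    (integrable_const (1 : ℝ)).mono' hcont.aestronglyMeasurable
      (Eventually.of_forall fun ξ => by rw [Real.norm_eq_abs]; exact hbd ξ)
  have hreal : ∀ v : ℝ≥0, ∫ ξ, f ξ ∂(gaussianReal 0 v) = ∫ x, Real.exp (-(v * x ^ 2 / 2)) ∂μ := by
    intro v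
    have h1 := integral_charFun_gaussian (μ := μ) v
    simp_rw [hf] at h1
    rw [integral_complex_ofReal] at h1
    have h2 : ∫ x, cexp (-(v * (x : ℂ) ^ 2 / 2)) ∂μ
        = ((∫ x, Real.exp (-(v * x ^ 2 / 2)) ∂μ : ℝ) : ℂ) := by
      rw [← integral_complex_ofReal]
      refine integral_congr_ae (Eventually.of_forall fun x => ?_)
      simp only
      push_cast
      rfl
    rw [h2] at h1
    exact_mod_cast h1
  have hge : ∀ n : ℕ, l ≤ ∫ x, Real.exp (-((n : ℝ≥0) * x ^ 2 / 2)) ∂μ := by
    intro n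
    rw [← hreal]
    have h3 : ∫ _ξ : ℝ, l ∂(gaussianReal 0 (n : ℝ≥0)) = l := by simp
    rw [← h3]
    exact integral_mono (integrable_const _) (hfi _) hl
  have hlim : Tendsto (fun n : ℕ => ∫ x, Real.exp (-((n : ℝ≥0) * x ^ 2 / 2)) ∂μ) atTop
      (𝓝 (∫ x, Set.indicator {(0 : ℝ)} (fun _ => (1 : ℝ)) x ∂μ)) := by
    refine tendsto_integral_of_dominated_convergence (fun _ => (1 : ℝ)) (fun n => ?_)
      (integrable_const _) (fun n => Eventually.of_forall fun x => ?_)
      (Eventually.of_forall fun x => ?_)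
    · fun_prop
    · rw [Real.norm_eq_abs, abs_of_pos (Real.exp_pos _), Real.exp_le_one_iff]
      have : (0 : ℝ) ≤ ((n : ℝ≥0) : ℝ) * x ^ 2 / 2 := by positivity
      linarith
    · by_cases hx : x = 0
      · subst hx
        simp
      · have h0 : Set.indicator {(0 : ℝ)} (fun _ => (1 : ℝ)) x = 0 := by
          simp [hx]
        rw [h0]
        have hx2 : 0 < x ^ 2 / 2 := by positivity
        have h4 : Tendsto (fun n : ℕ => ((n : ℝ) * (x ^ 2 / 2))) atTop atTop :=
          Tendsto.atTop_mul_const hx2 tendsto_natCast_atTop_atTop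
        have h5 := Real.tendsto_exp_neg_atTop_nhds_zero.comp h4
        refine h5.congr fun n => ?_
        simp only [Function.comp]
        congr 1
        push_cast
        ring
  have h6 : ∫ x, Set.indicator {(0 : ℝ)} (fun _ => (1 : ℝ)) x ∂μ = μ.real {0} := by
    rw [integral_indicator (measurableSet_singleton 0)]
    simp [Measure.real]
  rw [h6] at hlim
  exact ge_of_tendsto' hlim hge

/-- Removing an atom of mass `l` at the origin: if the characteristic function `f` of `μ` is real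
and at least `l`, then `(f - l) / (1 - l)` is again a characteristic function. -/
lemma exists_reduced {μ : Measure ℝ} [IsProbabilityMeasure μ] {f : ℝ → ℝ} {l : ℝ} (hl1 : l < 1)
    (hf : ∀ ξ, charFun μ ξ = (f ξ : ℂ)) (hl : ∀ ξ, l ≤ f ξ) :
    ∃ ν : Measure ℝ, IsProbabilityMeasure ν ∧
      ∀ ξ, charFun ν ξ = (((f ξ - l) / (1 - l) : ℝ) : ℂ) := by
  have hatom := le_atom hf hl
  set r : ℝ := μ.real {0} - l with hr
  have hr0 : 0 ≤ r := by linarith
  set c : ℝ := (1 - l)⁻¹ with hc
  have hc0 : 0 ≤ c := inv_nonneg.2 (by linarith)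
  set ν : Measure ℝ := (ENNReal.ofReal c) •
    (μ.restrict {0}ᶜ + (ENNReal.ofReal r) • Measure.dirac 0) with hν
  have hfin : IsFiniteMeasure ν := by
    rw [hν]
    have : IsFiniteMeasure (μ.restrict {(0 : ℝ)}ᶜ + (ENNReal.ofReal r) • Measure.dirac 0) := by
      have h2 : IsFiniteMeasure ((ENNReal.ofReal r) • (Measure.dirac (0 : ℝ))) :=
        Measure.smul_finite _ ENNReal.ofReal_ne_top
      infer_instance
    exact Measure.smul_finite _ ENNReal.ofReal_ne_top
  have hbdd : ∀ (m : Measure ℝ) [IsFiniteMeasure m] (ξ : ℝ),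
      Integrable (fun x : ℝ => cexp (ξ * x * I)) m := by
    intro m _ ξ
    refine (integrable_const (1 : ℝ)).mono' (by fun_prop) (Eventually.of_forall fun x => ?_)
    rw [show (ξ : ℂ) * x * I = ((ξ * x : ℝ) : ℂ) * I by push_cast; ring,
      Complex.norm_exp_ofReal_mul_I]
  have hchar : ∀ ξ, charFun ν ξ = (((f ξ - l) / (1 - l) : ℝ) : ℂ) := by
    intro ξ
    have h2 : IsFiniteMeasure ((ENNReal.ofReal r) • (Measure.dirac (0 : ℝ))) :=
      Measure.smul_finite _ ENNReal.ofReal_ne_top
    have h3 : (f ξ : ℂ) = (∫ x in {(0 : ℝ)}, cexp (ξ * x * I) ∂μ)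
        + ∫ x in {(0 : ℝ)}ᶜ, cexp (ξ * x * I) ∂μ := by
      rw [← hf ξ, charFun_apply_real]
      exact (integral_add_compl (measurableSet_singleton 0) (hbdd μ ξ)).symm
    have h4 : ∫ x in {(0 : ℝ)}, cexp (ξ * x * I) ∂μ = (μ.real {0} : ℂ) := by
      rw [integral_singleton]
      simp
    rw [charFun_apply_real, hν, integral_smul_measure, integral_add_measure (hbdd _ ξ) (hbdd _ ξ),
      integral_smul_measure, integral_dirac, ENNReal.toReal_ofReal hc0, ENNReal.toReal_ofReal hr0]
    have h5 : ∫ x in {(0 : ℝ)}ᶜ, cexp (ξ * x * I) ∂μ = (f ξ : ℂ) - (μ.real {0} : ℂ) := by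
      rw [h3, h4]
      ring
    rw [h5, hr, hc]
    simp only [Complex.ofReal_zero, mul_zero, zero_mul, Complex.exp_zero, Complex.real_smul,
      mul_one]
    push_cast
    rw [div_eq_mul_inv]
    ring
  refine ⟨ν, ⟨?_⟩, hchar⟩
  have h0 := hchar 0
  rw [charFun_zero] at h0
  have hf0 : f 0 = 1 := by
    have := hf 0
    rw [charFun_zero] at this
    have h1 : μ.real Set.univ = 1 := by simp
    rw [h1] at this
    exact_mod_cast this.symm
  rw [hf0, div_self (by linarith : (1 : ℝ) - l ≠ 0)] at h0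
  have h1 : ν.real Set.univ = 1 := by exact_mod_cast h0
  rw [Measure.real, ENNReal.toReal_eq_one_iff] at h1
  exact h1

end Pool.Agent.X129.AtomReduce
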