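import Mathlib

/-!
Analytic part of the uniqueness of the aggregate strategy in Population Lotto games.
-/

set_option autoImplicit false

namespace Pool.Agent.X129.LottoODE

open Set Filter Topology MeasureTheory

noncomputable section

/-- locally affine implies affine -/
lemma affine_of_local {G : ℝ → ℝ} {u v : ℝ} (huv : u < v) (hc : ContinuousOn G (Icc u v))
    (hloc : ∀ t ∈ Ioo u v, ∃ x₁ x₂ a c : ℝ, x₁ < t ∧ t < x₂ ∧ ∀ x ∈ Icc x₁ x₂, G x = a + c * x) :
    ∃ a c : ℝ, ∀ x ∈ Icc u v, G x = a + c * x := by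
  have hev : ∀ t ∈ Ioo u v, ∃ a c : ℝ, G =ᶠ[𝓝 t] (fun x => a + c * x) := by
    intro t ht
    obtain ⟨x₁, x₂, a, c, h1, h2, h3⟩ := hloc t ht
    exact ⟨a, c, Filter.mem_of_superset (Icc_mem_nhds h1 h2) h3⟩
  have hder : ∀ t ∈ Ioo u v, ∃ c : ℝ, HasDerivAt G c t ∧ deriv G =ᶠ[𝓝 t] (fun _ => c) := by
    intro t ht
    obtain ⟨a, c, h⟩ := hev t ht
    have hlin : ∀ s : ℝ, HasDerivAt (fun x : ℝ => a + c * x) c s := by
      intro s
      have := ((hasDerivAt_id s).const_mul c).const_add a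
      simpa using this
    refine ⟨c, (hlin t).congr_of_eventuallyEq h, ?_⟩
    filter_upwards [h.eventuallyEq_nhds] with s hs
    exact ((hlin s).congr_of_eventuallyEq hs).deriv
  have hopen : IsOpen (Ioo u v) := isOpen_Ioo
  have hpre : IsPreconnected (Ioo u v) := isPreconnected_Ioo
  have h1 : ∀ x ∈ Ioo u v, ∀ y ∈ Ioo u v, deriv G x = deriv G y := by
    intro x hx y hy
    refine hopen.is_const_of_deriv_eq_zero hpre (f := deriv G) ?_ ?_ hx hy
    · intro t ht
      obtain ⟨c, _, h⟩ := hder t ht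
      exact ((differentiableAt_const c).congr_of_eventuallyEq h).differentiableWithinAt
    · intro t ht
      obtain ⟨c, _, h⟩ := hder t ht
      rw [h.deriv_eq]
      simp
  set m := (u + v) / 2 with hm
  have hmmem : m ∈ Ioo u v := ⟨by rw [hm]; linarith, by rw [hm]; linarith⟩
  set c := deriv G m with hcdef
  have hG : ∀ t ∈ Ioo u v, HasDerivAt G c t := by
    intro t ht
    obtain ⟨c', h, _⟩ := hder t ht
    have : c' = c := by rw [← h.deriv, hcdef]; exact h1 t ht m hmmem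
    rw [← this]; exact h
  have h2 : ∀ x ∈ Ioo u v, ∀ y ∈ Ioo u v, G x - c * x = G y - c * y := by
    intro x hx y hy
    have hd : ∀ t ∈ Ioo u v, HasDerivAt (fun t => G t - c * t) 0 t := by
      intro t ht
      have h := (hG t ht).sub ((hasDerivAt_id t).const_mul c)
      have e : c - c * 1 = 0 := by ring
      rw [e] at h
      exact h
    exact hopen.is_const_of_deriv_eq_zero hpre (f := fun t => G t - c * t)
      (fun t ht => (hd t ht).differentiableAt.differentiableWithinAt)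
      (fun t ht => (hd t ht).deriv) hx hy
  refine ⟨G m - c * m, c, ?_⟩
  have h3 : EqOn G (fun x => G m - c * m + c * x) (Ioo u v) := by
    intro x hx
    have := h2 x hx m hmmem
    simp only
    linarith
  have h4 : EqOn G (fun x => G m - c * m + c * x) (Icc u v) := by
    have hcl : Icc u v ⊆ closure (Ioo u v) := by rw [closure_Ioo huv.ne]
    exact h3.of_subset_closure hc (by fun_prop) Ioo_subset_Icc_self hcl
  exact h4

/-- integral of a concave function dominates the trapezoid -/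
lemma concave_trap {d : ℝ → ℝ} {u v : ℝ} (huv : u < v) (hc : ContinuousOn d (Icc u v))
    (hconc : ConcaveOn ℝ (Icc u v) d) :
    (v - u) * ((d u + d v) / 2) ≤ ∫ x in u..v, d x := by
  have h1 : ∀ x ∈ Icc u v, d u + (d v - d u) / (v - u) * (x - u) ≤ d x := by
    intro x hx
    have hvu : 0 < v - u := by linarith
    have hw1 : 0 ≤ (v - x) / (v - u) := div_nonneg (by linarith [hx.2]) hvu.le
    have hw2 : 0 ≤ (x - u) / (v - u) := div_nonneg (by linarith [hx.1]) hvu.le
    have hsum : (v - x) / (v - u) + (x - u) / (v - u) = 1 := by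
      rw [← add_div]; rw [div_eq_one_iff_eq hvu.ne']; ring
    have h2 := hconc.2 (left_mem_Icc.mpr huv.le) (right_mem_Icc.mpr huv.le) hw1 hw2 hsum
    simp only [smul_eq_mul] at h2
    have h3 : (v - x) / (v - u) * u + (x - u) / (v - u) * v = x := by
      field_simp; ring
    rw [h3] at h2
    have h4 : (v - x) / (v - u) * d u + (x - u) / (v - u) * d v = d u + (d v - d u) / (v - u) * (x - u) := by
      field_simp; ring
    rw [h4] at h2
    exact h2
  have hcont : Continuous (fun x : ℝ => d u + (d v - d u) / (v - u) * (x - u)) := by fun_prop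
  have h5 : ∫ x in u..v, (d u + (d v - d u) / (v - u) * (x - u)) ≤ ∫ x in u..v, d x := by
    apply intervalIntegral.integral_mono_on huv.le (hcont.intervalIntegrable _ _)
    · exact (hc.mono (by rw [uIcc_of_le huv.le])).intervalIntegrable
    · exact h1
  refine le_trans (le_of_eq ?_) h5
  rw [intervalIntegral.integral_add (by simp) (by exact (by fun_prop : Continuous (fun x : ℝ => (d v - d u) / (v - u) * (x - u))).intervalIntegrable _ _),
    intervalIntegral.integral_const_mul,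
    intervalIntegral.integral_sub (by simp) (by simp), integral_id]
  simp only [intervalIntegral.integral_const, smul_eq_mul]
  have hvu : v - u ≠ 0 := by linarith
  field_simp
  ring

lemma int_nonpos {f : ℝ → ℝ} {a b : ℝ} (hab : a ≤ b) (hf : Continuous f)
    (h : ∀ x ∈ Icc a b, f x ≤ 0) : ∫ x in a..b, f x ≤ 0 := by
  have h0 : IntervalIntegrable (fun _ : ℝ => (0 : ℝ)) volume a b := continuous_const.intervalIntegrable _ _
  have h1 := intervalIntegral.integral_mono_on (g := fun _ => (0 : ℝ)) hab (hf.intervalIntegrable a b)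
    h0 h
  rw [intervalIntegral.integral_zero] at h1
  exact h1

/-- The properties of an equilibrium distribution function. -/
structure Good (QB : ℝ → ℝ) (G : ℝ → ℝ) : Prop where
  mono : Monotone G
  cont : Continuous G
  zero : G 0 = 0
  le_one : ∀ x, G x ≤ 1
  lim : Tendsto G atTop (𝓝 1)
  conc : ConcaveOn ℝ (Ici 0) G
  le_QB : ∀ t, 0 ≤ t → ∫ s in (0 : ℝ)..t, (1 - G s) ≤ QB t
  aff : ∀ t, 0 < t → ∫ s in (0 : ℝ)..t, (1 - G s) < QB t →
    ∃ x₁ x₂ a c : ℝ, 0 ≤ x₁ ∧ x₁ < t ∧ t < x₂ ∧ ∀ x ∈ Icc x₁ x₂, G x = a + c * x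

section uniq

variable {QB G₁ G₂ : ℝ → ℝ}

/-- difference of potentials -/
def DD (G₁ G₂ : ℝ → ℝ) (t : ℝ) : ℝ := ∫ s in (0 : ℝ)..t, (G₂ s - G₁ s)

lemma DD_deriv (h₁ : Good QB G₁) (h₂ : Good QB G₂) (t : ℝ) :
    HasDerivAt (DD G₁ G₂) (G₂ t - G₁ t) t := by
  have hc : Continuous (fun s => G₂ s - G₁ s) := h₂.cont.sub h₁.cont
  exact intervalIntegral.integral_hasDerivAt_right (hc.intervalIntegrable _ _)
    (hc.stronglyMeasurableAtFilter _ _) hc.continuousAt

lemma DD_cont (h₁ : Good QB G₁) (h₂ : Good QB G₂) : Continuous (DD G₁ G₂) :=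
  continuous_iff_continuousAt.mpr (fun t => (DD_deriv h₁ h₂ t).continuousAt)

lemma DD_eq (h₁ : Good QB G₁) (h₂ : Good QB G₂) (t : ℝ) :
    DD G₁ G₂ t = (∫ s in (0 : ℝ)..t, (1 - G₁ s)) - ∫ s in (0 : ℝ)..t, (1 - G₂ s) := by
  unfold DD
  rw [← intervalIntegral.integral_sub]
  · congr 1; ext s; ring
  · exact (continuous_const.sub h₁.cont).intervalIntegrable _ _
  · exact (continuous_const.sub h₂.cont).intervalIntegrable _ _

lemma DD_swap (t : ℝ) : DD G₂ G₁ t = - DD G₁ G₂ t := by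
  unfold DD
  rw [← intervalIntegral.integral_neg]
  congr 1; ext s; ring

lemma DD_zero : DD G₁ G₂ 0 = 0 := by simp [DD]

lemma DD_sub (h₁ : Good QB G₁) (h₂ : Good QB G₂) (u v : ℝ) :
    DD G₁ G₂ v - DD G₁ G₂ u = ∫ s in u..v, (G₂ s - G₁ s) := by
  unfold DD
  have hc : Continuous (fun s => G₂ s - G₁ s) := h₂.cont.sub h₁.cont
  rw [intervalIntegral.integral_interval_sub_left (hc.intervalIntegrable _ _) (hc.intervalIntegrable _ _)]

/-- G₁ is affine on an interval where D < 0 -/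
lemma affine_neg (h₁ : Good QB G₁) (h₂ : Good QB G₂) {u v : ℝ} (hu : 0 ≤ u) (huv : u < v)
    (hneg : ∀ t ∈ Ioo u v, DD G₁ G₂ t < 0) : ∃ a c : ℝ, ∀ x ∈ Icc u v, G₁ x = a + c * x := by
  apply affine_of_local huv h₁.cont.continuousOn
  intro t ht
  have ht0 : 0 < t := lt_of_le_of_lt hu ht.1
  have h3 := hneg t ht
  rw [DD_eq h₁ h₂] at h3
  have h4 := h₂.le_QB t ht0.le
  obtain ⟨x₁, x₂, a, c, _, hx1, hx2, h5⟩ := h₁.aff t ht0 (by linarith)
  exact ⟨x₁, x₂, a, c, hx1, hx2, h5⟩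

lemma descend (h₁ : Good QB G₁) (h₂ : Good QB G₂) {v : ℝ} (hv : 0 ≤ v) (hDv : DD G₁ G₂ v = 0)
    (hd : 0 < G₂ v - G₁ v) : ∃ u, 0 ≤ u ∧ u < v ∧ DD G₁ G₂ u = 0 ∧
      G₂ u - G₁ u ≤ -(G₂ v - G₁ v) := by
  have hv0 : 0 < v := by
    rcases eq_or_lt_of_le hv with h | h
    · rw [← h, h₁.zero, h₂.zero] at hd; simp at hd
    · exact h
  -- D < 0 to the left of v
  have hleft : ∃ w, w < v ∧ 0 ≤ w ∧ ∀ t ∈ Ioo w v, DD G₁ G₂ t < 0 := by
    have h3 := (hasDerivAt_iff_tendsto_slope.mp (DD_deriv h₁ h₂ v))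
    have h4 : ∀ᶠ t in 𝓝[≠] v, 0 < slope (DD G₁ G₂) v t := h3.eventually (lt_mem_nhds hd)
    rw [eventually_nhdsWithin_iff] at h4
    obtain ⟨l, r, ⟨hl, hr⟩, h5⟩ := mem_nhds_iff_exists_Ioo_subset.mp h4
    refine ⟨max l 0, max_lt hl hv0, le_max_right _ _, fun t ht => ?_⟩
    have ht1 : l < t := lt_of_le_of_lt (le_max_left _ _) ht.1
    have h6 := h5 (⟨ht1, ht.2.trans hr⟩ : t ∈ Ioo l r) (by exact ht.2.ne)
    rw [slope_def_field, hDv, sub_zero] at h6
    have h7 : t - v < 0 := by linarith [ht.2]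
    by_contra hcon
    push Not at hcon
    have := div_nonpos_of_nonneg_of_nonpos hcon h7.le
    linarith
  obtain ⟨w, hwv, hw0, hw⟩ := hleft
  set A : Set ℝ := Icc 0 w ∩ (DD G₁ G₂) ⁻¹' (Ici 0) with hA
  have hAcomp : IsCompact A := isCompact_Icc.inter_right (isClosed_Ici.preimage (DD_cont h₁ h₂))
  have hAne : A.Nonempty := ⟨0, ⟨le_rfl, hw0⟩, by simp [DD_zero]⟩
  obtain ⟨u, hu, humax⟩ := hAcomp.exists_isGreatest hAne
  have huv : u < v := lt_of_le_of_lt hu.1.2 hwv
  have hneg : ∀ t ∈ Ioo u v, DD G₁ G₂ t < 0 := by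
    intro t ht
    by_contra hcon
    push Not at hcon
    by_cases htw : t ≤ w
    · have := humax (⟨⟨hu.1.1.trans ht.1.le, htw⟩, hcon⟩ : t ∈ A)
      linarith [ht.1]
    · push Not at htw
      have := hw t ⟨htw, ht.2⟩
      linarith
  have hDu : DD G₁ G₂ u = 0 := by
    apply le_antisymm _ hu.2
    have h3 : u ∈ closure (Ioo u v) := by
      rw [closure_Ioo huv.ne]; exact left_mem_Icc.mpr huv.le
    have h4 : closure (Ioo u v) ⊆ (DD G₁ G₂) ⁻¹' (Iic 0) := by
      apply closure_minimal (fun t ht => (hneg t ht).le) (isClosed_Iic.preimage (DD_cont h₁ h₂))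
    exact h4 h3
  refine ⟨u, hu.1.1, huv, hDu, ?_⟩
  obtain ⟨a, c, hac⟩ := affine_neg h₁ h₂ hu.1.1 huv hneg
  have hconc : ConcaveOn ℝ (Icc u v) (fun x => G₂ x - G₁ x) := by
    have h3 : ConcaveOn ℝ (Icc u v) G₂ := h₂.conc.subset (fun x hx => hu.1.1.trans hx.1) (convex_Icc u v)
    have h4 : ConvexOn ℝ (Icc u v) G₁ := by
      refine ⟨convex_Icc u v, fun x hx y hy p q hp hq hpq => ?_⟩
      simp only [smul_eq_mul]
      have hxy : p * x + q * y ∈ Icc u v := by
        have := (convex_Icc u v) hx hy hp hq hpq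
        simpa using this
      rw [hac _ hx, hac _ hy, hac _ hxy]
      have : q = 1 - p := by linarith
      subst this
      apply le_of_eq
      ring
    exact h3.sub h4
  have h5 := concave_trap (d := fun x => G₂ x - G₁ x) huv (h₂.cont.sub h₁.cont).continuousOn hconc
  rw [← DD_sub h₁ h₂, hDv, hDu, sub_zero] at h5
  have h6 : 0 < v - u := by linarith
  by_contra hcon
  push Not at hcon
  have : 0 < (v - u) * ((G₂ u - G₁ u + (G₂ v - G₁ v)) / 2) := by
    apply mul_pos h6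
    linarith
  linarith

lemma no_nonzero (h₁ : Good QB G₁) (h₂ : Good QB G₂) {v : ℝ} (hv : 0 ≤ v) (hDv : DD G₁ G₂ v = 0) :
    G₂ v - G₁ v = 0 := by
  by_contra hne
  have hp : 0 < |G₂ v - G₁ v| := abs_pos.mpr hne
  set A : Set ℝ := Icc 0 v ∩ ((DD G₁ G₂) ⁻¹' {0} ∩ (fun t => |G₂ t - G₁ t|) ⁻¹' (Ici |G₂ v - G₁ v|)) with hA
  have hAcomp : IsCompact A := by
    apply isCompact_Icc.inter_right
    apply IsClosed.inter
    · exact isClosed_singleton.preimage (DD_cont h₁ h₂)
    · exact isClosed_Ici.preimage ((h₂.cont.sub h₁.cont).abs)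
  have hAne : A.Nonempty := ⟨v, ⟨hv, le_rfl⟩, hDv, le_refl (|G₂ v - G₁ v|)⟩
  obtain ⟨s, hs, hsmin⟩ := hAcomp.exists_isLeast hAne
  have hsD : DD G₁ G₂ s = 0 := hs.2.1
  have hsd : |G₂ v - G₁ v| ≤ |G₂ s - G₁ s| := hs.2.2
  have hsne : G₂ s - G₁ s ≠ 0 := by
    intro h0
    rw [h0, abs_zero] at hsd
    linarith
  rcases lt_or_gt_of_ne hsne with h | h
  · have hD' : DD G₂ G₁ s = 0 := by rw [DD_swap, hsD, neg_zero]
    obtain ⟨u, hu0, hus, hDu, hdu⟩ := descend h₂ h₁ hs.1.1 hD' (by linarith)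
    have hDu' : DD G₁ G₂ u = 0 := by rw [DD_swap, hDu, neg_zero]
    have hmem : u ∈ A := by
      refine ⟨⟨hu0, (hus.le.trans hs.1.2)⟩, hDu', ?_⟩
      refine hsd.trans ?_
      change |G₂ s - G₁ s| ≤ |G₂ u - G₁ u|
      rw [abs_of_neg h]
      exact le_trans (by linarith) (le_abs_self _)
    have := hsmin hmem
    linarith
  · obtain ⟨u, hu0, hus, hDu, hdu⟩ := descend h₁ h₂ hs.1.1 hsD h
    have hmem : u ∈ A := by
      refine ⟨⟨hu0, (hus.le.trans hs.1.2)⟩, hDu, ?_⟩
      refine hsd.trans ?_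
      change |G₂ s - G₁ s| ≤ |G₂ u - G₁ u|
      rw [abs_of_pos h]
      exact le_trans (by linarith) (neg_le_abs _)
    have := hsmin hmem
    linarith

lemma DD_nonpos (h₁ : Good QB G₁) (h₂ : Good QB G₂) {t₀ : ℝ} (ht₀ : 0 ≤ t₀) : DD G₁ G₂ t₀ ≤ 0 := by
  by_contra hcon
  push Not at hcon
  have hcont := DD_cont h₁ h₂
  set A : Set ℝ := Icc 0 t₀ ∩ (DD G₁ G₂) ⁻¹' (Iic 0) with hA
  have hAcomp : IsCompact A := isCompact_Icc.inter_right (isClosed_Iic.preimage hcont)
  have hAne : A.Nonempty := ⟨0, ⟨le_rfl, ht₀⟩, by simp [DD_zero]⟩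
  obtain ⟨l, hl, hlmax⟩ := hAcomp.exists_isGreatest hAne
  have hl0 : 0 ≤ l := hl.1.1
  have hlt : l < t₀ := by
    rcases eq_or_lt_of_le hl.1.2 with h | h
    · have : DD G₁ G₂ l ≤ 0 := hl.2
      rw [h] at this; linarith
    · exact h
  have hpos1 : ∀ t ∈ Ioc l t₀, 0 < DD G₁ G₂ t := by
    intro t ht
    by_contra h
    push Not at h
    have := hlmax (⟨⟨hl0.trans ht.1.le, ht.2⟩, h⟩ : t ∈ A)
    linarith [ht.1]
  have hDl : DD G₁ G₂ l = 0 := by
    apply le_antisymm hl.2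
    have h3 : l ∈ closure (Ioo l t₀) := by
      rw [closure_Ioo hlt.ne]; exact left_mem_Icc.mpr hlt.le
    have h4 : closure (Ioo l t₀) ⊆ (DD G₁ G₂) ⁻¹' (Ici 0) := by
      apply closure_minimal (fun t ht => (hpos1 t ⟨ht.1, ht.2.le⟩).le) (isClosed_Ici.preimage hcont)
    exact h4 h3
  have hdl := no_nonzero h₁ h₂ hl0 hDl
  have hswapneg : ∀ t, 0 < DD G₁ G₂ t → DD G₂ G₁ t < 0 := by
    intro t ht; rw [DD_swap]; linarith
  by_cases hex : ∃ r₀, t₀ ≤ r₀ ∧ DD G₁ G₂ r₀ ≤ 0
  · obtain ⟨r₀, hr₀, hDr₀⟩ := hex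
    set B : Set ℝ := Icc t₀ r₀ ∩ (DD G₁ G₂) ⁻¹' (Iic 0) with hB
    have hBcomp : IsCompact B := isCompact_Icc.inter_right (isClosed_Iic.preimage hcont)
    have hBne : B.Nonempty := ⟨r₀, ⟨hr₀, le_rfl⟩, hDr₀⟩
    obtain ⟨r, hr, hrmin⟩ := hBcomp.exists_isLeast hBne
    have htr : t₀ < r := by
      rcases eq_or_lt_of_le hr.1.1 with h | h
      · have : DD G₁ G₂ r ≤ 0 := hr.2
        rw [← h] at this; linarith
      · exact h
    have hpos2 : ∀ t ∈ Ioo l r, 0 < DD G₁ G₂ t := by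
      intro t ht
      by_cases h : t ≤ t₀
      · exact hpos1 t ⟨ht.1, h⟩
      · push Not at h
        by_contra hc
        push Not at hc
        have := hrmin (⟨⟨h.le, ht.2.le.trans hr.1.2⟩, hc⟩ : t ∈ B)
        linarith [ht.2]
    have hlr : l < r := hlt.trans htr
    have hDr : DD G₁ G₂ r = 0 := by
      apply le_antisymm hr.2
      have h3 : r ∈ closure (Ioo l r) := by
        rw [closure_Ioo hlr.ne]; exact right_mem_Icc.mpr hlr.le
      have h4 : closure (Ioo l r) ⊆ (DD G₁ G₂) ⁻¹' (Ici 0) := by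
        apply closure_minimal (fun t ht => (hpos2 t ht).le) (isClosed_Ici.preimage hcont)
      exact h4 h3
    have hdr := no_nonzero h₁ h₂ (hl0.trans hlr.le) hDr
    obtain ⟨a, c, hac⟩ := affine_neg h₂ h₁ hl0 hlr (fun t ht => hswapneg t (hpos2 t ht))
    -- d ≤ 0 on [l,r]
    have hd : ∀ x ∈ Icc l r, G₂ x - G₁ x ≤ 0 := by
      intro x hx
      have hvu : 0 < r - l := by linarith
      have hw1 : 0 ≤ (r - x) / (r - l) := div_nonneg (by linarith [hx.2]) hvu.le
      have hw2 : 0 ≤ (x - l) / (r - l) := div_nonneg (by linarith [hx.1]) hvu.le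
      have hsum : (r - x) / (r - l) + (x - l) / (r - l) = 1 := by
        rw [← add_div]; rw [div_eq_one_iff_eq hvu.ne']; ring
      have h2 := h₁.conc.2 (show l ∈ Ici 0 from hl0) (show r ∈ Ici 0 from hl0.trans hlr.le) hw1 hw2 hsum
      simp only [smul_eq_mul] at h2
      have h3 : (r - x) / (r - l) * l + (x - l) / (r - l) * r = x := by
        field_simp; ring
      rw [h3] at h2
      have e1 : G₁ l = a + c * l := by
        rw [← hac l (left_mem_Icc.mpr hlr.le)]; linarith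
      have e2 : G₁ r = a + c * r := by
        rw [← hac r (right_mem_Icc.mpr hlr.le)]; linarith
      rw [e1, e2] at h2
      have h4 : (r - x) / (r - l) * (a + c * l) + (x - l) / (r - l) * (a + c * r) = a + c * x := by
        field_simp; ring
      rw [h4] at h2
      rw [hac x hx]
      linarith
    have h5 : DD G₁ G₂ t₀ - DD G₁ G₂ l ≤ 0 := by
      rw [DD_sub h₁ h₂]
      apply int_nonpos hlt.le (h₂.cont.sub h₁.cont)
      intro s hs
      exact hd s ⟨hs.1, hs.2.trans htr.le⟩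
    linarith
  · push Not at hex
    have hpos2 : ∀ t, l < t → 0 < DD G₁ G₂ t := by
      intro t ht
      by_cases h : t ≤ t₀
      · exact hpos1 t ⟨ht, h⟩
      · push Not at h
        exact hex t h.le
    -- G₂ is affine on [l, l+n]
    have haff : ∀ T, l < T → ∃ a c : ℝ, ∀ x ∈ Icc l T, G₂ x = a + c * x := by
      intro T hT
      exact affine_neg h₂ h₁ hl0 hT (fun t ht => hswapneg t (hpos2 t ht.1))
    -- so G₂ is constant on [l, ∞)
    have hconst : ∀ x, l ≤ x → G₂ x = G₂ l := by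
      intro x hx
      rcases eq_or_lt_of_le hx with h | h
      · rw [h]
      · by_contra hne
        have hmono := h₂.mono hx
        have hlt2 : G₂ l < G₂ x := lt_of_le_of_ne hmono (Ne.symm hne)
        set δ := G₂ x - G₂ l with hδ
        have hδ0 : 0 < δ := by linarith
        obtain ⟨n, hn⟩ := exists_nat_gt ((1 - G₂ l + 1) / δ)
        have hn1 : 1 < (n : ℝ) + 1 := by
          have h6 : 0 ≤ (1 - G₂ l + 1) / δ := div_nonneg (by linarith [h₂.le_one l]) hδ0.le
          linarith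
        set T := l + ((n : ℝ) + 1) * (x - l) with hT
        have hxT : x ≤ T := by nlinarith
        obtain ⟨a, c, hac⟩ := haff T (by linarith)
        have e1 := hac l ⟨le_rfl, by linarith⟩
        have e2 := hac x ⟨hx, hxT⟩
        have e3 := hac T ⟨by linarith, le_rfl⟩
        have hc : c * (x - l) = δ := by rw [hδ, e1, e2]; ring
        have e4 : G₂ T = G₂ l + ((n : ℝ) + 1) * δ := by
          rw [e3, e1, hT, ← hc]; ring
        have h7 := h₂.le_one T
        rw [div_lt_iff₀ hδ0] at hn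
        nlinarith
    have hG2l : G₂ l = 1 := by
      have h8 : Tendsto G₂ atTop (𝓝 (G₂ l)) := by
        apply tendsto_const_nhds.congr'
        filter_upwards [eventually_ge_atTop l] with x hx
        exact (hconst x hx).symm
      exact tendsto_nhds_unique h8 h₂.lim
    have hG1l : G₁ l = 1 := by linarith
    have h9 : DD G₁ G₂ t₀ - DD G₁ G₂ l ≤ 0 := by
      rw [DD_sub h₁ h₂]
      apply int_nonpos hlt.le (h₂.cont.sub h₁.cont)
      intro s hs
      have := h₁.mono hs.1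
      change G₂ s - G₁ s ≤ 0
      rw [hconst s hs.1, hG2l]
      linarith
    linarith

theorem uniq (h₁ : Good QB G₁) (h₂ : Good QB G₂) {x : ℝ} (hx : 0 ≤ x) : G₁ x = G₂ x := by
  have h3 : DD G₁ G₂ x = 0 := by
    apply le_antisymm (DD_nonpos h₁ h₂ hx)
    have := DD_nonpos h₂ h₁ hx
    rw [DD_swap] at this
    linarith
  have := no_nonzero h₁ h₂ hx h3
  linarith

end uniq

end

end Pool.Agent.X129.LottoODE
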