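import Mathlib

/-!
Abstract tilting bound for a discrete Gaussian type measure on a countable abelian group.
-/

set_option autoImplicit false

namespace Pool.Agent.X129.TiltBound

open scoped BigOperators

variable {G : Type*} [AddCommGroup G]

omit [AddCommGroup G] in
lemma hs_eq {f f' : G → ℝ} {a a' : ℝ} (h : HasSum f a) (hf : ∀ g, f' g = f g) (ha : a' = a) :
    HasSum f' a' := by
  have : f' = f := funext hf
  rw [this, ha]
  exact h

/-- shift by `u` -/
lemma hasSum_shift {f : G → ℝ} {s : ℝ} (h : HasSum f s) (u : G) :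
    HasSum (fun g => f (g - u)) s := by
  have := (Equiv.subRight u).hasSum_iff (f := f) (a := s)
  exact this.mpr h

lemma tilt_lower_bound {ι : Type*} [Fintype ι] (β : ℝ) (B : G → G → ℝ)
    (hadd : ∀ x y z, B (x + y) z = B x z + B y z) (hsymm : ∀ x y, B x y = B y x)
    (l : G → ℝ) (hl : ∀ x y, l (x + y) = l x + l y)
    (hZ : Summable (fun g => Real.exp (-β * B g g)))
    (hV : Summable (fun g => (l g) ^ 2 * Real.exp (-β * B g g)))
    (u : ι → G) (c : ℝ) :
    (2 * c * (∑ i, l (u i)) - c ^ 2 * (∑ i, ∑ j, (Real.exp (2 * β * B (u i) (u j)) - 1))) *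
      (∑' g, Real.exp (-β * B g g)) ≤ ∑' g, (l g) ^ 2 * Real.exp (-β * B g g) := by
  classical
  set W : G → ℝ := fun g => Real.exp (-β * B g g) with hW
  set Z : ℝ := ∑' g, W g with hZdef
  set V : ℝ := ∑' g, (l g) ^ 2 * W g with hVdef
  have hZs : HasSum W Z := hZ.hasSum
  have hVs : HasSum (fun g => (l g) ^ 2 * W g) V := hV.hasSum
  have hWpos : ∀ g, 0 < W g := fun g => Real.exp_pos _
  have hl0 : l 0 = 0 := by
    have := hl 0 0
    simp at this
    exact this
  have hlneg : ∀ x, l (-x) = - l x := by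
    intro x
    have := hl x (-x)
    rw [add_neg_cancel, hl0] at this
    linarith
  have hB0 : ∀ z, B 0 z = 0 := by
    intro z
    have := hadd 0 0 z
    simp at this
    exact this
  have hBneg : ∀ x z, B (-x) z = - B x z := by
    intro x z
    have := hadd x (-x) z
    rw [add_neg_cancel, hB0] at this
    linarith
  have hBneg' : ∀ x z, B x (-z) = - B x z := by
    intro x z
    rw [hsymm, hBneg, hsymm]
  have hadd' : ∀ x y z, B x (y + z) = B x y + B x z := by
    intro x y z
    rw [hsymm, hadd, hsymm y, hsymm z]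
  have hWneg : ∀ g, W (-g) = W g := by
    intro g
    simp only [hW]
    rw [hBneg, hBneg', neg_neg]
  -- summability of l W
  have hlW : Summable (fun g => l g * W g) := by
    apply Summable.of_norm_bounded (g := fun g => (l g) ^ 2 * W g + W g) (hV.add hZ)
    intro g
    rw [norm_mul, Real.norm_of_nonneg (hWpos g).le, Real.norm_eq_abs]
    have h1 : |l g| ≤ (l g) ^ 2 + 1 := by
      rw [← sq_abs]
      nlinarith [abs_nonneg (l g), sq_nonneg (|l g| - 1)]
    have := mul_le_mul_of_nonneg_right h1 (hWpos g).le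
    linarith
  have hlW0 : HasSum (fun g => l g * W g) 0 := by
    have h1 := hlW.hasSum
    have h2 : HasSum (fun g => l (-g) * W (-g)) (∑' g, l g * W g) :=
      ((Equiv.neg G).hasSum_iff (f := fun g => l g * W g)).mpr h1
    have h3 : HasSum (fun g => l g * W g) (-(∑' g, l g * W g)) := by
      refine hs_eq h2.neg (fun g => ?_) rfl
      rw [hlneg, hWneg]
      ring
    have h4 := h1.unique h3
    have h5 : (∑' g, l g * W g) = 0 := by linarith
    rw [h5] at h1
    exact h1
  have hlWu : ∀ v, HasSum (fun g => l g * W (g - v)) (l v * Z) := by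
    intro v
    have h1 := hasSum_shift hlW0 v
    have h2 := (hasSum_shift hZs v).mul_left (l v)
    have h3 := h1.add h2
    rw [zero_add] at h3
    refine hs_eq h3 (fun g => ?_) rfl
    have : l g = l (g - v) + l v := by
      rw [← hl]; congr 1; abel
    rw [this]; ring
  have hWWid : ∀ g a b, W (g - a) * W (g - b) = W g * (Real.exp (2 * β * B a b) * W (g - (a + b))) := by
    intro g a b
    simp only [hW]
    rw [← Real.exp_add, ← Real.exp_add, ← Real.exp_add]
    congr 1
    simp only [sub_eq_add_neg, hadd, hadd', hBneg, hBneg', neg_add]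
    rw [hsymm a g, hsymm b g, hsymm b a]
    ring
  -- the function F W
  set F : G → ℝ := fun g => (∑ i, W (g - u i)) / W g - Fintype.card ι with hF
  have hFW : ∀ g, F g * W g = (∑ i, W (g - u i)) - Fintype.card ι * W g := by
    intro g
    simp only [hF]
    have := (hWpos g).ne'
    field_simp
  have hsum1 : HasSum (fun g => l g * (F g * W g)) ((∑ i, l (u i)) * Z) := by
    have h1 : HasSum (fun g => ∑ i, l g * W (g - u i)) (∑ i, l (u i) * Z) :=
      hasSum_sum (fun i _ => hlWu (u i))
    have h2 := hlW0.mul_left (Fintype.card ι : ℝ)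
    have h3 := h1.sub h2
    rw [mul_zero, sub_zero, ← Finset.sum_mul] at h3
    refine hs_eq h3 (fun g => ?_) rfl
    rw [hFW, mul_sub, Finset.mul_sum]
    ring
  have hF2W : ∀ g, F g ^ 2 * W g = (∑ i, ∑ j, Real.exp (2 * β * B (u i) (u j)) * W (g - (u i + u j)))
      - 2 * Fintype.card ι * (∑ i, W (g - u i)) + (Fintype.card ι : ℝ) ^ 2 * W g := by
    intro g
    have hne := (hWpos g).ne'
    have h1 : F g ^ 2 * W g * W g = (F g * W g) ^ 2 := by ring
    have h2 : (∑ i, W (g - u i)) ^ 2 = W g * (∑ i, ∑ j, Real.exp (2 * β * B (u i) (u j)) * W (g - (u i + u j))) := by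
      rw [sq, Finset.sum_mul_sum, Finset.mul_sum]
      refine Finset.sum_congr rfl (fun i _ => ?_)
      rw [Finset.mul_sum]
      exact Finset.sum_congr rfl (fun j _ => hWWid g (u i) (u j))
    apply mul_right_cancel₀ hne
    rw [h1, hFW, sub_sq, h2]
    ring
  have hsum2 : HasSum (fun g => F g ^ 2 * W g)
      ((∑ i, ∑ j, (Real.exp (2 * β * B (u i) (u j)) - 1)) * Z) := by
    have h1 : HasSum (fun g => ∑ i, ∑ j, Real.exp (2 * β * B (u i) (u j)) * W (g - (u i + u j)))
        (∑ i, ∑ j, Real.exp (2 * β * B (u i) (u j)) * Z) :=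
      hasSum_sum (fun i _ => hasSum_sum (fun j _ => (hasSum_shift hZs (u i + u j)).mul_left _))
    have h2 : HasSum (fun g => ∑ i, W (g - u i)) (∑ _i : ι, Z) :=
      hasSum_sum (fun i _ => hasSum_shift hZs (u i))
    have h3 := (h1.sub (h2.mul_left (2 * (Fintype.card ι : ℝ)))).add
      (hZs.mul_left ((Fintype.card ι : ℝ) ^ 2))
    refine hs_eq h3 (fun g => ?_) ?_
    · exact hF2W g
    · simp only [Finset.sum_sub_distrib, Finset.sum_const, Finset.card_univ, nsmul_eq_mul,
        ← Finset.sum_mul]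
      ring
  have hfin : HasSum (fun g => (l g - c * F g) ^ 2 * W g)
      (V - 2 * c * ((∑ i, l (u i)) * Z) + c ^ 2 * ((∑ i, ∑ j, (Real.exp (2 * β * B (u i) (u j)) - 1)) * Z)) := by
    have h3 := (hVs.sub (hsum1.mul_left (2 * c))).add (hsum2.mul_left (c ^ 2))
    refine hs_eq h3 (fun g => ?_) rfl
    ring
  have hnn : 0 ≤ (V - 2 * c * ((∑ i, l (u i)) * Z) + c ^ 2 * ((∑ i, ∑ j, (Real.exp (2 * β * B (u i) (u j)) - 1)) * Z)) :=
    hfin.nonneg (fun g => mul_nonneg (sq_nonneg _) (hWpos g).le)
  nlinarith [hnn]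

end Pool.Agent.X129.TiltBound
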