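import Mathlib
import Pool.Agent.X129.TiltBound

/-!
The long-range discrete Gaussian chain: energy estimates and delocalisation.
-/

set_option autoImplicit false

namespace Pool.Agent.X129.Chain

open scoped BigOperators
open Filter Topology

noncomputable section

/-- coupling -/
def cw (α : ℝ) (d : ℤ) : ℝ := ((|d| : ℤ) : ℝ) ^ (-α)

lemma cw_nonneg (α : ℝ) (d : ℤ) : 0 ≤ cw α d := Real.rpow_nonneg (by positivity) _

lemma cw_zero {α : ℝ} (hα : 0 < α) : cw α 0 = 0 := by
  unfold cw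
  simp [Real.zero_rpow (by linarith : -α ≠ 0)]

lemma cw_summable {α : ℝ} (hα : 1 < α) : Summable (cw α) := by
  have := Real.summable_abs_int_rpow hα
  refine this.congr (fun n => ?_)
  unfold cw
  rw [Int.cast_abs]

lemma cw_mul_summable {α : ℝ} (hα : 2 < α) : Summable (fun d : ℤ => cw α d * (2 * |(d : ℝ)|)) := by
  have h := (Real.summable_abs_int_rpow (b := α - 1) (by linarith)).mul_left 2
  refine h.congr (fun n => ?_)
  unfold cw
  rcases eq_or_ne n 0 with hn | hn
  · subst hn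
    simp [Real.zero_rpow (by linarith : -α ≠ 0), Real.zero_rpow (by linarith : 1 - α ≠ 0)]
  · rw [Int.cast_abs]
    have hpos : 0 < |(n : ℝ)| := by positivity
    have : |(n : ℝ)| ^ (-(α - 1)) = |(n : ℝ)| ^ (-α) * |(n : ℝ)| := by
      rw [show -(α - 1) = -α + 1 by ring, Real.rpow_add hpos, Real.rpow_one]
    rw [this]; ring

/-- the term of the bilinear form -/
def bt (α : ℝ) (u v : ℤ → ℤ) (p : ℤ × ℤ) : ℝ :=
  cw α (p.1 - p.2) * (((u p.1 : ℝ) - u p.2) * ((v p.1 : ℝ) - v p.2))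

/-- bilinear form -/
def bf (α : ℝ) (u v : ℤ → ℤ) : ℝ := ∑' p : ℤ × ℤ, bt α u v p

/-- the configuration group -/
def XN (N : ℕ) : AddSubgroup (ℤ → ℤ) where
  carrier := {φ | ∀ x : ℤ, (N : ℤ) < |x| → φ x = 0}
  add_mem' := by
    intro a b ha hb x hx
    simp only [Pi.add_apply, ha x hx, hb x hx, add_zero]
  zero_mem' := by
    intro x hx
    rfl
  neg_mem' := by
    intro a ha x hx
    simp only [Pi.neg_apply, ha x hx, neg_zero]

/-- the shear -/
def shear : ℤ × ℤ ≃ ℤ × ℤ where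
  toFun q := (q.2, q.2 - q.1)
  invFun p := (p.1 - p.2, p.1)
  left_inv q := by ext <;> simp
  right_inv p := by ext <;> simp

/-- indicator -/
def ind (N : ℕ) (x : ℤ) : ℝ := if |x| ≤ N then 1 else 0

lemma ind_nonneg (N : ℕ) (x : ℤ) : 0 ≤ ind N x := by unfold ind; split_ifs <;> norm_num

lemma ind_summable (N : ℕ) : Summable (ind N) := by
  apply summable_of_ne_finset_zero (s := Finset.Icc (-(N : ℤ)) N)
  intro b hb
  unfold ind
  rw [if_neg]
  intro h
  apply hb
  rw [Finset.mem_Icc]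
  exact abs_le.mp h

lemma summable1 {α : ℝ} (hα : 1 < α) (N : ℕ) :
    Summable (fun p : ℤ × ℤ => cw α (p.1 - p.2) * ind N p.1) := by
  rw [← shear.summable_iff]
  have h := Summable.mul_of_nonneg (cw_summable hα) (ind_summable N) (cw_nonneg α) (ind_nonneg N)
  refine h.congr (fun q => ?_)
  simp [shear]

lemma summable2 {α : ℝ} (hα : 1 < α) (N : ℕ) :
    Summable (fun p : ℤ × ℤ => cw α (p.1 - p.2) * ind N p.2) := by
  rw [← (Equiv.prodComm ℤ ℤ).summable_iff]
  refine (summable1 hα N).congr (fun q => ?_)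
  simp only [Function.comp, Equiv.prodComm_apply, Prod.fst_swap, Prod.snd_swap]
  congr 1
  unfold cw
  rw [abs_sub_comm]

lemma bound_exists {N : ℕ} {u : ℤ → ℤ} (hu : u ∈ XN N) :
    ∃ M : ℝ, 0 ≤ M ∧ ∀ x, |(u x : ℝ)| ≤ M * ind N x := by
  refine ⟨∑ x ∈ Finset.Icc (-(N : ℤ)) N, |(u x : ℝ)|, Finset.sum_nonneg (fun _ _ => abs_nonneg _), ?_⟩
  intro x
  unfold ind
  split_ifs with h
  · rw [mul_one]
    have hx : x ∈ Finset.Icc (-(N : ℤ)) N := by
      rw [Finset.mem_Icc]; exact abs_le.mp h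
    exact Finset.single_le_sum (f := fun x => |(u x : ℝ)|) (fun _ _ => abs_nonneg _) hx
  · have : u x = 0 := hu x (not_le.mp h)
    simp [this]

lemma bt_summable {α : ℝ} (hα : 1 < α) {N : ℕ} {u v : ℤ → ℤ} (hu : u ∈ XN N) (hv : v ∈ XN N) :
    Summable (bt α u v) := by
  obtain ⟨M, hM0, hM⟩ := bound_exists hu
  obtain ⟨M', hM0', hM'⟩ := bound_exists hv
  have hind1 : ∀ x, ind N x ≤ 1 := by intro x; unfold ind; split_ifs <;> norm_num
  have h := ((summable1 hα N).add (summable2 hα N)).mul_left (M * (2 * M'))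
  refine Summable.of_norm_bounded h (fun p => ?_)
  unfold bt
  rw [norm_mul, norm_mul, Real.norm_of_nonneg (cw_nonneg _ _), Real.norm_eq_abs, Real.norm_eq_abs]
  have h1 : |(u p.1 : ℝ) - u p.2| ≤ M * (ind N p.1 + ind N p.2) := by
    calc |(u p.1 : ℝ) - u p.2| ≤ |(u p.1 : ℝ)| + |(u p.2 : ℝ)| := abs_sub _ _
      _ ≤ M * ind N p.1 + M * ind N p.2 := add_le_add (hM _) (hM _)
      _ = _ := by ring
  have h2 : |(v p.1 : ℝ) - v p.2| ≤ 2 * M' := by
    calc |(v p.1 : ℝ) - v p.2| ≤ |(v p.1 : ℝ)| + |(v p.2 : ℝ)| := abs_sub _ _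
      _ ≤ M' * ind N p.1 + M' * ind N p.2 := add_le_add (hM' _) (hM' _)
      _ ≤ M' * 1 + M' * 1 := by
          gcongr <;> exact hind1 _
      _ = _ := by ring
  have h3 : |(u p.1 : ℝ) - u p.2| * |(v p.1 : ℝ) - v p.2| ≤
      (M * (ind N p.1 + ind N p.2)) * (2 * M') :=
    mul_le_mul h1 h2 (abs_nonneg _) (mul_nonneg hM0 (add_nonneg (ind_nonneg _ _) (ind_nonneg _ _)))
  calc cw α (p.1 - p.2) * (|(u p.1 : ℝ) - u p.2| * |(v p.1 : ℝ) - v p.2|)
      ≤ cw α (p.1 - p.2) * ((M * (ind N p.1 + ind N p.2)) * (2 * M')) :=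
        mul_le_mul_of_nonneg_left h3 (cw_nonneg _ _)
    _ = _ := by ring

lemma bf_add {α : ℝ} (hα : 1 < α) {N : ℕ} {u v w : ℤ → ℤ} (hu : u ∈ XN N) (hv : v ∈ XN N)
    (hw : w ∈ XN N) : bf α (u + v) w = bf α u w + bf α v w := by
  unfold bf
  rw [← (bt_summable hα hu hw).tsum_add (bt_summable hα hv hw)]
  refine tsum_congr (fun p => ?_)
  unfold bt
  simp only [Pi.add_apply, Int.cast_add]
  ring

lemma bf_symm (α : ℝ) (u v : ℤ → ℤ) : bf α u v = bf α v u := by
  unfold bf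
  refine tsum_congr (fun p => ?_)
  unfold bt
  ring

lemma bt_nonneg (α : ℝ) (u : ℤ → ℤ) (p : ℤ × ℤ) : 0 ≤ bt α u u p :=
  mul_nonneg (cw_nonneg _ _) (mul_self_nonneg _)

/-- coercivity constant -/
def cc (α : ℝ) (N : ℕ) : ℝ := (2 * N + 1 : ℝ) ^ (-α)

lemma cc_pos (α : ℝ) (N : ℕ) : 0 < cc α N := Real.rpow_pos_of_pos (by positivity) _

lemma coercive {α : ℝ} (hα : 1 < α) {N : ℕ} {u : ℤ → ℤ} (hu : u ∈ XN N) :
    cc α N * ∑ x ∈ Finset.Icc (-(N : ℤ)) N, (u x : ℝ) ^ 2 ≤ bf α u u := by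
  have hinj : Function.Injective (fun x : ℤ => ((x, (N : ℤ) + 1) : ℤ × ℤ)) := by
    intro a b h
    simpa using h
  have h1 : ∑ p ∈ (Finset.Icc (-(N : ℤ)) N).map ⟨_, hinj⟩, bt α u u p ≤ bf α u u :=
    (bt_summable hα hu hu).sum_le_tsum _ (fun p _ => bt_nonneg α u p)
  refine le_trans ?_ h1
  rw [Finset.sum_map, Finset.mul_sum]
  refine Finset.sum_le_sum (fun x hx => ?_)
  rw [Finset.mem_Icc] at hx
  simp only [Function.Embedding.coeFn_mk, bt]
  have hz : u ((N : ℤ) + 1) = 0 := by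
    apply hu
    rw [abs_of_nonneg (by positivity)]
    omega
  rw [hz, Int.cast_zero, sub_zero]
  have hcw : cc α N ≤ cw α (x - (N + 1)) := by
    unfold cc cw
    have h2 : (1 : ℤ) ≤ |x - ((N : ℤ) + 1)| := by
      rw [abs_of_nonpos (by omega)]; omega
    have h3 : |x - ((N : ℤ) + 1)| ≤ 2 * N + 1 := by
      rw [abs_of_nonpos (by omega)]; omega
    have h2' : (1 : ℝ) ≤ ((|x - ((N : ℤ) + 1)| : ℤ) : ℝ) := by exact_mod_cast h2
    have h3' : ((|x - ((N : ℤ) + 1)| : ℤ) : ℝ) ≤ 2 * N + 1 := by exact_mod_cast h3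
    exact Real.rpow_le_rpow_of_nonpos (by linarith) h3' (by linarith)
  calc cc α N * (u x : ℝ) ^ 2 ≤ cw α (x - (N + 1)) * (u x : ℝ) ^ 2 :=
        mul_le_mul_of_nonneg_right hcw (sq_nonneg _)
    _ = _ := by ring

lemma summable_pi_prod {ι : Type*} [Fintype ι] [DecidableEq ι] (g : ℤ → ℝ) (hg : ∀ n, 0 ≤ g n)
    (hs : Summable g) : Summable fun j : ι → ℤ => ∏ i, g (j i) := by
  classical
  apply summable_of_sum_le (c := (∑' n, g n) ^ (Fintype.card ι))
  · intro j
    exact Finset.prod_nonneg fun i _ => hg _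
  · intro u
    have hsub : u ⊆ Fintype.piFinset (fun i => u.image (fun j => j i)) := by
      intro j hj
      rw [Fintype.mem_piFinset]
      intro i
      exact Finset.mem_image_of_mem (fun j : ι → ℤ => j i) hj
    calc ∑ j ∈ u, ∏ i, g (j i)
        ≤ ∑ j ∈ Fintype.piFinset (fun i => u.image (fun j => j i)), ∏ i, g (j i) :=
          Finset.sum_le_sum_of_subset_of_nonneg hsub
            (fun j _ _ => Finset.prod_nonneg fun i _ => hg _)
      _ = ∏ i : ι, ∑ n ∈ u.image (fun j => j i), g n := (Finset.prod_univ_sum _ _).symm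
      _ ≤ ∏ _i : ι, ∑' n, g n :=
          Finset.prod_le_prod (fun i _ => Finset.sum_nonneg fun n _ => hg n)
            (fun i _ => hs.sum_le_tsum _ (fun n _ => hg n))
      _ = (∑' n, g n) ^ (Fintype.card ι) := by simp

lemma gauss_summable {s : ℝ} (hs : 0 < s) : Summable (fun n : ℤ => Real.exp (-s * (n : ℝ) ^ 2)) := by
  have h1 : Summable (fun n : ℕ => Real.exp (-s * (n : ℝ) ^ 2)) := by
    have h0 : Summable (fun n : ℕ => Real.exp (n * (-s))) :=
      Real.summable_exp_nat_mul_iff.mpr (by linarith)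
    refine Summable.of_nonneg_of_le (fun n => (Real.exp_pos _).le) (fun n => ?_) h0
    apply Real.exp_le_exp.mpr
    rcases Nat.eq_zero_or_pos n with h | h
    · subst h; simp
    · have : (1 : ℝ) ≤ n := by exact_mod_cast h
      nlinarith [mul_le_mul_of_nonneg_left (mul_le_mul_of_nonneg_left this (by positivity : (0:ℝ) ≤ n)) hs.le]
  apply Summable.of_nat_of_neg
  · simpa using h1
  · simpa using h1

lemma gauss_pi_summable {s : ℝ} (hs : 0 < s) (N : ℕ) :
    Summable (fun φ : XN N => Real.exp (-s * ∑ x ∈ Finset.Icc (-(N : ℤ)) N, ((φ : ℤ → ℤ) x : ℝ) ^ 2)) := by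
  classical
  have h := summable_pi_prod (ι := Finset.Icc (-(N : ℤ)) N) _ (fun n => (Real.exp_pos _).le) (gauss_summable hs)
  have hinj : Function.Injective (fun (φ : XN N) (i : Finset.Icc (-(N : ℤ)) N) => (φ : ℤ → ℤ) i) := by
    intro a b hab
    apply Subtype.ext
    funext x
    by_cases hx : (N : ℤ) < |x|
    · rw [a.2 x hx, b.2 x hx]
    · have hx' : x ∈ Finset.Icc (-(N : ℤ)) N := by
        rw [Finset.mem_Icc]; exact abs_le.mp (not_lt.mp hx)
      exact congrFun hab ⟨x, hx'⟩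
  have h2 := h.comp_injective hinj
  refine h2.congr (fun φ => ?_)
  simp only [Function.comp]
  rw [← Real.exp_sum, Finset.mul_sum]
  congr 1
  exact Finset.sum_coe_sort (Finset.Icc (-(N : ℤ)) N) (fun x => -s * ((φ : ℤ → ℤ) x : ℝ) ^ 2)

lemma Z_summable {α β : ℝ} (hα : 1 < α) (hβ : 0 < β) (N : ℕ) :
    Summable (fun φ : XN N => Real.exp (-β * bf α φ φ)) := by
  refine Summable.of_nonneg_of_le (fun _ => (Real.exp_pos _).le) (fun φ => ?_)
    (gauss_pi_summable (mul_pos hβ (cc_pos α N)) N)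
  apply Real.exp_le_exp.mpr
  have := mul_le_mul_of_nonneg_left (coercive hα φ.2) hβ.le
  nlinarith [this]

lemma sq_mul_exp_le {s t : ℝ} (hs : 0 < s) :
    t * Real.exp (-s * t) ≤ (2 / s) * Real.exp (-(s / 2) * t) := by
  have h1 : (s / 2) * t ≤ Real.exp ((s / 2) * t) := by
    have := Real.add_one_le_exp ((s / 2) * t)
    linarith
  have h2 : Real.exp (-s * t) = Real.exp (-(s / 2) * t) * Real.exp (-((s / 2) * t)) := by
    rw [← Real.exp_add]; congr 1; ring
  rw [h2]
  have h3 : t * Real.exp (-((s / 2) * t)) ≤ 2 / s := by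
    rw [Real.exp_neg, ← div_eq_mul_inv, div_le_div_iff₀ (Real.exp_pos _) hs]
    nlinarith
  calc t * (Real.exp (-(s / 2) * t) * Real.exp (-((s / 2) * t)))
      = (t * Real.exp (-((s / 2) * t))) * Real.exp (-(s / 2) * t) := by ring
    _ ≤ _ := mul_le_mul_of_nonneg_right h3 (Real.exp_pos _).le

lemma V_summable {α β : ℝ} (hα : 1 < α) (hβ : 0 < β) (N : ℕ) :
    Summable (fun φ : XN N => (((φ : ℤ → ℤ) 0 : ℤ) : ℝ) ^ 2 * Real.exp (-β * bf α φ φ)) := by
  set s := β * cc α N with hs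
  have hspos : 0 < s := mul_pos hβ (cc_pos α N)
  refine Summable.of_nonneg_of_le (fun _ => mul_nonneg (sq_nonneg _) (Real.exp_pos _).le) (fun φ => ?_)
    ((gauss_pi_summable (half_pos hspos) N).mul_left (2 / s))
  set t := ∑ x ∈ Finset.Icc (-(N : ℤ)) N, ((φ : ℤ → ℤ) x : ℝ) ^ 2
  have ht0 : (((φ : ℤ → ℤ) 0 : ℤ) : ℝ) ^ 2 ≤ t := by
    have h0 : (0 : ℤ) ∈ Finset.Icc (-(N : ℤ)) N := by
      rw [Finset.mem_Icc]; constructor <;> simp
    exact Finset.single_le_sum (f := fun x => ((φ : ℤ → ℤ) x : ℝ) ^ 2) (fun _ _ => sq_nonneg _) h0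
  have htnn : 0 ≤ t := le_trans (sq_nonneg _) ht0
  calc (((φ : ℤ → ℤ) 0 : ℤ) : ℝ) ^ 2 * Real.exp (-β * bf α φ φ) ≤ t * Real.exp (-s * t) := by
        apply mul_le_mul ht0 _ (Real.exp_pos _).le htnn
        apply Real.exp_le_exp.mpr
        have := mul_le_mul_of_nonneg_left (coercive hα φ.2) hβ.le
        rw [hs]
        nlinarith [this]
    _ ≤ _ := sq_mul_exp_le hspos

/-- box indicator -/
def box (a : ℕ) : ℤ → ℤ := fun x => if |x| ≤ a then 1 else 0

lemma box_mem {a N : ℕ} (h : a ≤ N) : box a ∈ XN N := by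
  intro x hx
  unfold box
  rw [if_neg]
  intro h'
  have : (a : ℤ) ≤ N := by exact_mod_cast h
  linarith

lemma box_zero (a : ℕ) : box a 0 = 1 := by simp [box]

/-- tail -/
def TT (α : ℝ) (n : ℕ) : ℝ := ∑' d : ℤ, cw α d * (if (n : ℤ) < |d| then 2 * |(d : ℝ)| else 0)

lemma TT_term_le (α : ℝ) (n : ℕ) (d : ℤ) :
    cw α d * (if (n : ℤ) < |d| then 2 * |(d : ℝ)| else 0) ≤ cw α d * (2 * |(d : ℝ)|) := by
  apply mul_le_mul_of_nonneg_left _ (cw_nonneg _ _)
  split_ifs
  · exact le_rfl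
  · positivity

lemma TT_term_nonneg (α : ℝ) (n : ℕ) (d : ℤ) :
    0 ≤ cw α d * (if (n : ℤ) < |d| then 2 * |(d : ℝ)| else 0) := by
  apply mul_nonneg (cw_nonneg _ _)
  split_ifs <;> positivity

lemma TT_summable {α : ℝ} (hα : 2 < α) (n : ℕ) :
    Summable (fun d : ℤ => cw α d * (if (n : ℤ) < |d| then 2 * |(d : ℝ)| else 0)) :=
  Summable.of_nonneg_of_le (TT_term_nonneg α n) (TT_term_le α n) (cw_mul_summable hα)

lemma TT_tendsto {α : ℝ} (hα : 2 < α) : Tendsto (TT α) atTop (𝓝 0) := by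
  have h := tendsto_tsum_of_dominated_convergence (𝓕 := atTop)
    (f := fun (n : ℕ) (d : ℤ) => cw α d * (if (n : ℤ) < |d| then 2 * |(d : ℝ)| else 0))
    (g := fun _ => (0 : ℝ)) (bound := fun d => cw α d * (2 * |(d : ℝ)|)) (cw_mul_summable hα)
    (by
      intro d
      apply tendsto_const_nhds.congr'
      filter_upwards [eventually_ge_atTop d.natAbs] with n hn
      rw [if_neg, mul_zero]
      have : |d| = (d.natAbs : ℤ) := Int.abs_eq_natAbs d
      rw [this]
      push Not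
      exact_mod_cast hn)
    (by
      filter_upwards with n d
      rw [Real.norm_of_nonneg (TT_term_nonneg α n d)]
      exact TT_term_le α n d)
  rw [tsum_zero] at h
  exact h

lemma inner_bound {a b : ℕ} (hab : a ≤ b) (d : ℤ) :
    ∑' x : ℤ, (((box a x : ℝ) - box a (x - d)) * ((box b x : ℝ) - box b (x - d))) ≤
      (if ((b - a : ℕ) : ℤ) < |d| then 2 * |(d : ℝ)| else 0) := by
  classical
  have hab' : (a : ℤ) ≤ b := by exact_mod_cast hab
  set S : Finset ℤ := (Finset.Ico (-(a : ℤ)) (d - b) ∪ Finset.Ioc (b : ℤ) (d + a)) ∪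
    (Finset.Ioc ((b : ℤ) + d) a ∪ Finset.Ico (d - a) (-(b : ℤ))) with hS
  have hterm : ∀ x : ℤ, (((box a x : ℝ) - box a (x - d)) * ((box b x : ℝ) - box b (x - d))) ≤
      if x ∈ S then 1 else 0 := by
    intro x
    by_cases hx : x ∈ S
    · rw [if_pos hx]
      unfold box
      split_ifs <;> norm_num
    · rw [if_neg hx]
      simp only [hS, Finset.mem_union, Finset.mem_Ico, Finset.mem_Ioc] at hx
      push Not at hx
      obtain ⟨⟨h1, h2⟩, h3, h4⟩ := hx
      unfold box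
      by_cases c1 : |x| ≤ (a : ℤ) <;> by_cases c2 : |x - d| ≤ (a : ℤ) <;>
        by_cases c3 : |x| ≤ (b : ℤ) <;> by_cases c4 : |x - d| ≤ (b : ℤ) <;>
        simp only [c1, c2, c3, c4, if_true, if_false] <;> norm_num
      · exfalso
        rw [abs_le] at c1
        rw [abs_le] at c4
        omega
      · exfalso
        rw [abs_le] at c2
        rw [abs_le] at c3
        omega
  have hle : ∑' x : ℤ, (((box a x : ℝ) - box a (x - d)) * ((box b x : ℝ) - box b (x - d))) ≤
      ∑' x : ℤ, (if x ∈ S then (1 : ℝ) else 0) := by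
    by_cases hs : Summable (fun x : ℤ => (((box a x : ℝ) - box a (x - d)) * ((box b x : ℝ) - box b (x - d))))
    · refine hs.tsum_le_tsum hterm ?_
      exact summable_of_ne_finset_zero (s := S) (fun x hx => if_neg hx)
    · rw [tsum_eq_zero_of_not_summable hs]
      exact tsum_nonneg (fun x => by split_ifs <;> norm_num)
  refine le_trans hle ?_
  rw [tsum_eq_sum (s := S) (fun x hx => if_neg hx)]
  have hsum : ∑ x ∈ S, (if x ∈ S then (1 : ℝ) else 0) = (S.card : ℝ) := by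
    rw [Finset.sum_congr rfl (fun x hx => if_pos hx)]
    simp
  rw [hsum]
  have hcard : S.card ≤ ((d - b + a).toNat + (d + a - b).toNat) + ((a - b - d).toNat + (-b - d + a).toNat) := by
    rw [hS]
    refine le_trans (Finset.card_union_le _ _) (add_le_add ?_ ?_)
    · refine le_trans (Finset.card_union_le _ _) (add_le_add ?_ ?_)
      · rw [Int.card_Ico]; omega
      · rw [Int.card_Ioc]
    · refine le_trans (Finset.card_union_le _ _) (add_le_add ?_ ?_)
      · rw [Int.card_Ioc]; omega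
      · rw [Int.card_Ico]; omega
  split_ifs with hd
  · have : (S.card : ℤ) ≤ 2 * |d| := by
      rcases abs_cases d with ⟨h, _⟩ | ⟨h, _⟩ <;> rw [h] <;> omega
    have h2 : ((S.card : ℤ) : ℝ) ≤ ((2 * |d| : ℤ) : ℝ) := by exact_mod_cast this
    push_cast at h2
    exact h2
  · have : S.card = 0 := by
      rcases abs_cases d with ⟨h, _⟩ | ⟨h, _⟩ <;> rw [h] at hd <;> omega
    rw [this]; simp

lemma bf_box_le {α : ℝ} (hα : 2 < α) {a b : ℕ} (hab : a ≤ b) :
    bf α (box a) (box b) ≤ TT α (b - a) := by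
  have hα1 : 1 < α := by linarith
  have hs := bt_summable hα1 (box_mem hab) (box_mem (le_refl b))
  have hs' : Summable (fun q : ℤ × ℤ => bt α (box a) (box b) (shear q)) := by
    have := shear.summable_iff.mpr hs
    exact this
  have h1 : bf α (box a) (box b) = ∑' d : ℤ, ∑' x : ℤ, bt α (box a) (box b) (shear (d, x)) := by
    unfold bf
    rw [← shear.tsum_eq (bt α (box a) (box b))]
    exact hs'.tsum_prod
  rw [h1]
  unfold TT
  refine hs'.prod.tsum_le_tsum (fun d => ?_) (TT_summable hα (b - a))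
  have h2 : ∀ x : ℤ, bt α (box a) (box b) (shear (d, x)) =
      cw α d * (((box a x : ℝ) - box a (x - d)) * ((box b x : ℝ) - box b (x - d))) := by
    intro x
    simp only [bt, shear, Equiv.coe_fn_mk]
    rw [show x - (x - d) = d by ring]
  rw [tsum_congr h2, tsum_mul_left]
  exact mul_le_mul_of_nonneg_left (inner_bound hab d) (cw_nonneg _ _)

lemma TT_antitone {α : ℝ} (hα : 2 < α) {m n : ℕ} (h : m ≤ n) : TT α n ≤ TT α m := by
  unfold TT
  refine (TT_summable hα n).tsum_le_tsum (fun d => ?_) (TT_summable hα m)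
  apply mul_le_mul_of_nonneg_left _ (cw_nonneg _ _)
  have hmn : (m : ℤ) ≤ n := by exact_mod_cast h
  split_ifs with h1 h2 h2
  · exact le_rfl
  · exact absurd (lt_of_le_of_lt hmn h1) h2
  · positivity
  · exact le_rfl

lemma TT_nonneg (α : ℝ) (n : ℕ) : 0 ≤ TT α n := tsum_nonneg (TT_term_nonneg α n)

/-- key bound for a family of nested boxes -/
lemma variance_bound {α β : ℝ} (hα : 2 < α) (hβ : 0 < β) (m n : ℕ) (hm : 0 < m)
    (hn : Real.exp (2 * β * TT α n) - 1 ≤ 1 / m) (N : ℕ) (hN : m * n ≤ N) :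
    (m : ℝ) * Real.exp (-(2 * β * TT α 0)) * (∑' φ : XN N, Real.exp (-β * bf α φ φ)) ≤
      ∑' φ : XN N, (((φ : ℤ → ℤ) 0 : ℤ) : ℝ) ^ 2 * Real.exp (-β * bf α φ φ) := by
  have hα1 : 1 < α := by linarith
  have hmem : ∀ i : Fin m, (i : ℕ) * n ≤ N := fun i =>
    le_trans (Nat.mul_le_mul_right n i.2.le) hN
  set u : Fin m → XN N := fun i => ⟨box ((i : ℕ) * n), box_mem (hmem i)⟩ with hu
  set K : ℝ := Real.exp (2 * β * TT α 0) with hK
  have hKpos : 0 < K := Real.exp_pos _
  have hb := Pool.Agent.X129.TiltBound.tilt_lower_bound (G := XN N) β (fun φ ψ => bf α φ ψ)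
    (fun x y z => by
      simp only [AddSubgroup.coe_add]
      exact bf_add hα1 x.2 y.2 z.2)
    (fun x y => bf_symm α _ _) (fun φ => (((φ : ℤ → ℤ) 0 : ℤ) : ℝ))
    (fun x y => by simp)
    (Z_summable hα1 hβ N) (V_summable hα1 hβ N) u (1 / K)
  have hZ0 : 0 ≤ (∑' φ : XN N, Real.exp (-β * bf α φ φ)) := tsum_nonneg (fun _ => (Real.exp_pos _).le)
  refine le_trans (mul_le_mul_of_nonneg_right ?_ hZ0) hb
  have hl : ∑ i : Fin m, (((u i : ℤ → ℤ) 0 : ℤ) : ℝ) = m := by
    simp [hu, box_zero]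
  rw [hl]
  have hBle : ∀ i j : Fin m, bf α (u i) (u j) ≤ if i = j then TT α 0 else TT α n := by
    have aux : ∀ i j : Fin m, i < j → bf α (u i) (u j) ≤ TT α n := by
      intro i j hij
      have hij' : (i : ℕ) * n ≤ (j : ℕ) * n := Nat.mul_le_mul_right n hij.le
      refine le_trans (bf_box_le hα hij') (TT_antitone hα ?_)
      have : (i : ℕ) + 1 ≤ j := hij
      have h2 : ((i : ℕ) + 1) * n ≤ j * n := Nat.mul_le_mul_right n this
      rw [add_mul, one_mul] at h2
      omega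
    intro i j
    split_ifs with hij
    · subst hij
      have := bf_box_le hα (le_refl ((i : ℕ) * n))
      rw [Nat.sub_self] at this
      exact this
    · rcases lt_or_gt_of_ne hij with h | h
      · exact aux i j h
      · rw [bf_symm]; exact aux j i h
  have hrow : ∀ i : Fin m, ∑ j : Fin m, (Real.exp (2 * β * bf α (u i) (u j)) - 1) ≤ K := by
    intro i
    have h1 : ∀ j : Fin m, Real.exp (2 * β * bf α (u i) (u j)) - 1 ≤
        (if i = j then K - 1 else 0) + 1 / m := by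
      intro j
      have h2 := hBle i j
      have hm' : (0 : ℝ) < m := by exact_mod_cast hm
      split_ifs at h2 ⊢ with hij
      · have : Real.exp (2 * β * bf α (u i) (u j)) ≤ K :=
          Real.exp_le_exp.mpr (mul_le_mul_of_nonneg_left h2 (by linarith))
        have h3 : 0 ≤ 1 / (m : ℝ) := by positivity
        linarith
      · have : Real.exp (2 * β * bf α (u i) (u j)) ≤ Real.exp (2 * β * TT α n) :=
          Real.exp_le_exp.mpr (mul_le_mul_of_nonneg_left h2 (by linarith))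
        linarith
    refine le_trans (Finset.sum_le_sum (fun j _ => h1 j)) ?_
    rw [Finset.sum_add_distrib, Finset.sum_ite_eq Finset.univ i]
    simp only [Finset.mem_univ, if_true, Finset.sum_const, Finset.card_univ, Fintype.card_fin,
      nsmul_eq_mul]
    have hm' : (m : ℝ) ≠ 0 := by exact_mod_cast hm.ne'
    field_simp
    linarith
  have hD : ∑ i : Fin m, ∑ j : Fin m, (Real.exp (2 * β * bf α (u i) (u j)) - 1) ≤ m * K := by
    refine le_trans (Finset.sum_le_sum (fun i _ => hrow i)) ?_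
    simp
  have h4 : (1 / K) ^ 2 * ∑ i : Fin m, ∑ j : Fin m, (Real.exp (2 * β * bf α (u i) (u j)) - 1) ≤
      (1 / K) ^ 2 * (m * K) := mul_le_mul_of_nonneg_left hD (sq_nonneg _)
  have h5 : (1 / K) ^ 2 * (m * K) = m / K := by field_simp
  have h6 : Real.exp (-(2 * β * TT α 0)) = 1 / K := by
    rw [hK, Real.exp_neg, one_div]
  rw [h6]
  rw [h5] at h4
  have h7 : 2 * (1 / K) * (m : ℝ) = 2 * (m / K) := by ring
  have h8 : (m : ℝ) * (1 / K) = m / K := by ring
  rw [h7, h8]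
  linarith

theorem delocalised {α β : ℝ} (hα : 2 < α) (hβ : 0 < β) :
    Tendsto (fun N : ℕ => (∑' φ : XN N, (((φ : ℤ → ℤ) 0 : ℤ) : ℝ) ^ 2 * Real.exp (-β * bf α φ φ)) /
      (∑' φ : XN N, Real.exp (-β * bf α φ φ))) atTop atTop := by
  rw [tendsto_atTop]
  intro M
  have hα1 : 1 < α := by linarith
  obtain ⟨m, hm⟩ := exists_nat_gt (M * Real.exp (2 * β * TT α 0))
  have hmp : (0 : ℝ) < ((m + 1 : ℕ) : ℝ) := by positivity
  have ht : Tendsto (fun n => Real.exp (2 * β * TT α n) - 1) atTop (𝓝 0) := by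
    have h1 := (TT_tendsto hα).const_mul (2 * β)
    rw [mul_zero] at h1
    have h2 := ((Real.continuous_exp.tendsto 0).comp h1).sub_const 1
    simpa using h2
  obtain ⟨n, hn⟩ := (ht.eventually (gt_mem_nhds (show (0 : ℝ) < 1 / ((m + 1 : ℕ) : ℝ) by positivity))).exists
  filter_upwards [eventually_ge_atTop ((m + 1) * n)] with N hN
  have hb := variance_bound hα hβ (m + 1) n (Nat.succ_pos m) hn.le N hN
  have hZpos : 0 < (∑' φ : XN N, Real.exp (-β * bf α φ φ)) := by
    have hs := Z_summable hα1 hβ N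
    exact hs.tsum_pos (fun _ => (Real.exp_pos _).le) 0 (Real.exp_pos _)
  rw [le_div_iff₀ hZpos]
  refine le_trans (mul_le_mul_of_nonneg_right ?_ hZpos.le) hb
  rw [Real.exp_neg, ← div_eq_mul_inv, le_div_iff₀ (Real.exp_pos _)]
  push_cast
  linarith

end

end Pool.Agent.X129.Chain
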