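import Mathlib

/-!
Arrangements of orthogonal circles: definitions and the lemma that the image of a quarter disc
under a Moebius map is a triangular face.
-/

namespace Pool.Agent.X129.OrthCirc

open Complex Metric Set

/-- A circle in the plane `ℂ`: centre and positive radius. -/
structure Circ where
  c : ℂ
  r : ℝ
  pos : 0 < r

/-- The points of a circle. -/
def Circ.pts (C : Circ) : Set ℂ := {z | ‖z - C.c‖ = C.r}

/-- Two circles intersect orthogonally: they have exactly two common points, and at each of them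
the radii (hence the tangents) are perpendicular. -/
def Orth (C D : Circ) : Prop :=
  (∃ z w : ℂ, z ≠ w ∧ C.pts ∩ D.pts = {z, w}) ∧
    ∀ z ∈ C.pts ∩ D.pts, ((z - C.c) * (starRingEnd ℂ) (z - D.c)).re = 0

/-- An arrangement of orthogonal circles, as a family: any two different members are disjoint or
intersect orthogonally. -/
def IsArrangement {ι : Type} (A : ι → Circ) : Prop :=
  ∀ i j, i ≠ j → Disjoint (A i).pts (A j).pts ∨ Orth (A i) (A j)

/-- The union of the circles. -/
def union {ι : Type} (A : ι → Circ) : Set ℂ := ⋃ i, (A i).pts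

/-- The faces: connected components of the complement of the union of the circles. -/
def IsFace {ι : Type} (A : ι → Circ) (F : Set ℂ) : Prop :=
  ∃ z, z ∉ union A ∧ F = connectedComponentIn (union A)ᶜ z

/-- `S` is a simple arc from `x` to `y`. -/
def IsArc (S : Set ℂ) (x y : ℂ) : Prop :=
  ∃ γ : ℝ → ℂ, ContinuousOn γ (Icc 0 1) ∧ InjOn γ (Icc 0 1) ∧ γ 0 = x ∧ γ 1 = y ∧
    γ '' Icc 0 1 = S

/-- The boundary of `F` consists of exactly three arcs of three different circles of the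
arrangement, joined at three points. -/
def IsTriangular {ι : Type} (A : ι → Circ) (F : Set ℂ) : Prop :=
  ∃ (i j k : ι) (x y z : ℂ) (S T U : Set ℂ), i ≠ j ∧ j ≠ k ∧ i ≠ k ∧
    S ⊆ (A i).pts ∧ T ⊆ (A j).pts ∧ U ⊆ (A k).pts ∧
    IsArc S y z ∧ IsArc T z x ∧ IsArc U x y ∧
    S ∩ T = {z} ∧ T ∩ U = {x} ∧ S ∩ U = {y} ∧ frontier F = S ∪ T ∪ U

/-- The open quarter disc. -/
def Q : Set ℂ := {ζ | ‖ζ‖ < 1 ∧ 0 < ζ.re ∧ 0 < ζ.im}

/-- The closed quarter disc. -/
def K : Set ℂ := {ζ | ‖ζ‖ ≤ 1 ∧ 0 ≤ ζ.re ∧ 0 ≤ ζ.im}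

lemma Q_sub_K : Q ⊆ K := fun _ h => ⟨h.1.le, h.2.1.le, h.2.2.le⟩

lemma isOpen_Q : IsOpen Q := by
  have h1 : IsOpen {ζ : ℂ | ‖ζ‖ < 1} := isOpen_lt continuous_norm continuous_const
  have h2 : IsOpen {ζ : ℂ | 0 < ζ.re} := isOpen_lt continuous_const continuous_re
  have h3 : IsOpen {ζ : ℂ | 0 < ζ.im} := isOpen_lt continuous_const continuous_im
  exact h1.inter (h2.inter h3)

lemma isClosed_K : IsClosed K := by
  have h1 : IsClosed {ζ : ℂ | ‖ζ‖ ≤ 1} := isClosed_le continuous_norm continuous_const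
  have h2 : IsClosed {ζ : ℂ | 0 ≤ ζ.re} := isClosed_le continuous_const continuous_re
  have h3 : IsClosed {ζ : ℂ | 0 ≤ ζ.im} := isClosed_le continuous_const continuous_im
  exact h1.inter (h2.inter h3)

lemma isCompact_K : IsCompact K := by
  refine (isCompact_closedBall (0 : ℂ) 1).of_isClosed_subset isClosed_K ?_
  intro ζ h
  simpa using h.1

lemma convex_Q : Convex ℝ Q := by
  have h1 : Convex ℝ {ζ : ℂ | ‖ζ‖ < 1} := by
    have : {ζ : ℂ | ‖ζ‖ < 1} = ball 0 1 := by
      ext ζ; simp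
    rw [this]; exact convex_ball _ _
  have h2 : Convex ℝ {ζ : ℂ | 0 < ζ.re} := convex_halfSpace_re_gt 0
  have h3 : Convex ℝ {ζ : ℂ | 0 < ζ.im} := convex_halfSpace_im_gt 0
  exact h1.inter (h2.inter h3)

/-- A point of the quarter disc. -/
noncomputable def q0 : ℂ := ⟨1 / 4, 1 / 4⟩

lemma norm_q0 : ‖q0‖ < 1 := by
  have : ‖q0‖ ^ 2 = 1 / 8 := by
    rw [Complex.sq_norm, Complex.normSq_apply]
    norm_num [q0]
  nlinarith [norm_nonneg q0]

lemma q0_mem : q0 ∈ Q := ⟨norm_q0, by norm_num [q0], by norm_num [q0]⟩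

lemma K_sub_closure : K ⊆ closure Q := by
  intro ζ hζ
  have h1 : ζ ∈ closure (openSegment ℝ ζ q0) := by
    rw [closure_openSegment]
    exact left_mem_segment ℝ ζ q0
  refine closure_mono ?_ h1
  rintro w ⟨a, b, ha, hb, hab, rfl⟩
  refine ⟨?_, ?_, ?_⟩
  · calc ‖a • ζ + b • q0‖ ≤ ‖a • ζ‖ + ‖b • q0‖ := norm_add_le _ _
      _ = a * ‖ζ‖ + b * ‖q0‖ := by
        rw [norm_smul, norm_smul, Real.norm_of_nonneg ha.le, Real.norm_of_nonneg hb.le]
      _ < 1 := by nlinarith [hζ.1, norm_q0, norm_nonneg ζ]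
  · simp only [add_re, real_smul, mul_re, ofReal_re, ofReal_im, zero_mul, sub_zero]
    have : (0 : ℝ) < q0.re := q0_mem.2.1
    nlinarith [hζ.2.1]
  · simp only [add_im, real_smul, mul_im, ofReal_re, ofReal_im, zero_mul, add_zero]
    have : (0 : ℝ) < q0.im := q0_mem.2.2
    nlinarith [hζ.2.2]

/-- The Moebius map. -/
noncomputable def mob (a b c d : ℂ) (ζ : ℂ) : ℂ := (a * ζ + b) / (c * ζ + d)

section mob

variable {a b c d : ℂ} (hdet : a * d - b * c ≠ 0) (hden : ∀ ζ : ℂ, ‖ζ‖ ≤ 1 → c * ζ + d ≠ 0)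

include hden in
lemma mob_cont : ContinuousOn (mob a b c d) K := by
  unfold mob
  refine ContinuousOn.div (by fun_prop) (by fun_prop) fun ζ hζ => hden ζ hζ.1

include hdet hden in
lemma mob_inj : InjOn (mob a b c d) {ζ | ‖ζ‖ ≤ 1} := by
  intro x hx y hy h
  unfold mob at h
  rw [div_eq_div_iff (hden x hx) (hden y hy)] at h
  have : (a * d - b * c) * (x - y) = 0 := by linear_combination h
  rcases mul_eq_zero.1 this with h1 | h1
  · exact absurd h1 hdet
  · exact sub_eq_zero.1 h1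

include hdet hden in
lemma mob_injK : InjOn (mob a b c d) K := (mob_inj hdet hden).mono fun _ h => h.1

include hdet hden in
lemma isOpen_mobQ : IsOpen (mob a b c d '' Q) := by
  have he : mob a b c d '' Q = {z : ℂ | a - c * z ≠ 0} ∩
      (fun z : ℂ => (d * z - b) / (a - c * z)) ⁻¹' Q := by
    ext z
    constructor
    · rintro ⟨ζ, hζ, rfl⟩
      have h0 := hden ζ hζ.1.le
      have h1 : a - c * mob a b c d ζ = (a * d - b * c) / (c * ζ + d) := by
        unfold mob; field_simp; ring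
      have h2 : d * mob a b c d ζ - b = (a * d - b * c) * ζ / (c * ζ + d) := by
        unfold mob
        rw [eq_div_iff h0, sub_mul, mul_assoc, div_mul_cancel₀ _ h0]
        ring
      refine ⟨?_, ?_⟩
      · change a - c * mob a b c d ζ ≠ 0
        rw [h1]; exact div_ne_zero hdet h0
      · change (d * mob a b c d ζ - b) / (a - c * mob a b c d ζ) ∈ Q
        rw [h1, h2]
        have : (a * d - b * c) * ζ / (c * ζ + d) / ((a * d - b * c) / (c * ζ + d)) = ζ := by
          field_simp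
        rw [this]; exact hζ
    · rintro ⟨h1, h2⟩
      have h1' : a - c * z ≠ 0 := h1
      refine ⟨_, h2, ?_⟩
      have h0 := hden _ (h2.1.le : ‖(d * z - b) / (a - c * z)‖ ≤ 1)
      have e1 : c * ((d * z - b) / (a - c * z)) + d = (a * d - b * c) / (a - c * z) := by
        field_simp; ring
      have e2 : a * ((d * z - b) / (a - c * z)) + b = (a * d - b * c) * z / (a - c * z) := by
        rw [eq_div_iff h1', add_mul, mul_assoc, div_mul_cancel₀ _ h1']
        ring
      unfold mob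
      rw [e1, e2]
      field_simp
  rw [he]
  have ho : IsOpen {z : ℂ | a - c * z ≠ 0} := isOpen_ne_fun (by fun_prop) continuous_const
  refine ContinuousOn.isOpen_inter_preimage ?_ ho isOpen_Q
  exact ContinuousOn.div (by fun_prop) (by fun_prop) fun z hz => hz

include hdet hden in
lemma frontier_mobQ : frontier (mob a b c d '' Q) = mob a b c d '' (K \ Q) := by
  have hcl : closure (mob a b c d '' Q) = mob a b c d '' K := by
    apply Subset.antisymm
    · have hc : IsClosed (mob a b c d '' K) :=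
        (isCompact_K.image_of_continuousOn (mob_cont hden)).isClosed
      exact closure_minimal (image_mono Q_sub_K) hc
    · have hKe : closure Q ⊆ K := closure_minimal Q_sub_K isClosed_K
      have h1 : mob a b c d '' closure Q ⊆ closure (mob a b c d '' Q) :=
        ContinuousOn.image_closure ((mob_cont hden).mono hKe)
      exact (image_mono K_sub_closure).trans h1
  rw [frontier, hcl, (isOpen_mobQ hdet hden).interior_eq,
    (mob_injK hdet hden).image_sdiff_subset Q_sub_K]

end mob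

/-- The circular arc from `I` to `1`, parametrised. -/
noncomputable def arcPar (t : ℝ) : ℂ := ((t : ℂ) + (1 - t) * I) / (‖(t : ℂ) + (1 - t) * I‖ : ℝ)

lemma arc_re (t : ℝ) : ((t : ℂ) + (1 - t) * I).re = t := by simp
lemma arc_im (t : ℝ) : ((t : ℂ) + (1 - t) * I).im = 1 - t := by simp

lemma arc_ne (t : ℝ) : ((t : ℂ) + (1 - t) * I) ≠ 0 := by
  intro h
  have h1 := congrArg Complex.re h
  have h2 := congrArg Complex.im h
  rw [arc_re] at h1
  rw [arc_im] at h2
  simp at h1 h2
  linarith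

lemma arcPar_norm (t : ℝ) : ‖arcPar t‖ = 1 := by
  unfold arcPar
  rw [norm_div, Complex.norm_real, norm_norm, div_self (norm_ne_zero_iff.2 (arc_ne t))]

lemma arcPar_re (t : ℝ) : (arcPar t).re = t / ‖(t : ℂ) + (1 - t) * I‖ := by
  unfold arcPar
  rw [Complex.div_ofReal_re, arc_re]

lemma arcPar_im (t : ℝ) : (arcPar t).im = (1 - t) / ‖(t : ℂ) + (1 - t) * I‖ := by
  unfold arcPar
  rw [Complex.div_ofReal_im, arc_im]

lemma arcPar_cont : Continuous arcPar := by
  unfold arcPar
  refine Continuous.div (by fun_prop) (by fun_prop) fun t => ?_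
  exact_mod_cast norm_ne_zero_iff.2 (arc_ne t)

lemma arcPar_inj : Function.Injective arcPar := by
  intro s t h
  have hs := norm_pos_iff.2 (arc_ne s)
  have ht := norm_pos_iff.2 (arc_ne t)
  have h1 := congrArg Complex.re h
  have h2 := congrArg Complex.im h
  rw [arcPar_re, arcPar_re, div_eq_div_iff hs.ne' ht.ne'] at h1
  rw [arcPar_im, arcPar_im, div_eq_div_iff hs.ne' ht.ne'] at h2
  have h3 : ‖(t : ℂ) + (1 - t) * I‖ = ‖(s : ℂ) + (1 - s) * I‖ := by linarith
  rw [h3] at h1
  exact mul_right_cancel₀ hs.ne' h1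

lemma arcPar_zero : arcPar 0 = I := by
  apply Complex.ext
  · rw [arcPar_re]; simp
  · rw [arcPar_im]; simp

lemma arcPar_one : arcPar 1 = 1 := by
  apply Complex.ext
  · rw [arcPar_re]; simp
  · rw [arcPar_im]; simp

lemma arcPar_surj {ζ : ℂ} (h : ‖ζ‖ = 1) (hr : 0 ≤ ζ.re) (hi : 0 ≤ ζ.im) :
    ∃ t ∈ Icc (0 : ℝ) 1, arcPar t = ζ := by
  have hsum : 0 < ζ.re + ζ.im := by
    have h2 : ‖ζ‖ ^ 2 = ζ.re * ζ.re + ζ.im * ζ.im := by
      rw [Complex.sq_norm, Complex.normSq_apply]
    rw [h] at h2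
    by_contra hc
    have e1 : ζ.re = 0 := by linarith
    have e2 : ζ.im = 0 := by linarith
    rw [e1, e2] at h2
    norm_num at h2
  set t := ζ.re / (ζ.re + ζ.im) with ht
  have ht1 : 1 - t = ζ.im / (ζ.re + ζ.im) := by
    rw [ht]; field_simp; ring
  have e : ((t : ℂ) + (1 - t) * I) = ζ / ((ζ.re + ζ.im : ℝ) : ℂ) := by
    apply Complex.ext
    · rw [arc_re, Complex.div_ofReal_re]
    · rw [arc_im, Complex.div_ofReal_im, ht1]
  have en : ‖(t : ℂ) + (1 - t) * I‖ = 1 / (ζ.re + ζ.im) := by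
    rw [e, norm_div, h, Complex.norm_real, Real.norm_of_nonneg hsum.le]
  refine ⟨t, ⟨by positivity, ?_⟩, ?_⟩
  · rw [ht, div_le_one hsum]; linarith
  · apply Complex.ext
    · rw [arcPar_re, en, ht]; field_simp
    · rw [arcPar_im, en, ht1]; field_simp

/-- The main lemma: the image of the open quarter disc under a Moebius map is a triangular face
if its three sides lie on three different circles and it misses all circles. -/
theorem face_of_mob {ι : Type} (A : ι → Circ) {a b c d : ℂ}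
    (hdet : a * d - b * c ≠ 0) (hden : ∀ ζ : ℂ, ‖ζ‖ ≤ 1 → c * ζ + d ≠ 0)
    {i j k : ι} (hij : i ≠ j) (hjk : j ≠ k) (hik : i ≠ k)
    (h1 : ∀ t : ℝ, t ∈ Icc (0 : ℝ) 1 → mob a b c d t ∈ (A i).pts)
    (h2 : ∀ t : ℝ, t ∈ Icc (0 : ℝ) 1 → mob a b c d (t * I) ∈ (A j).pts)
    (h3 : ∀ ζ : ℂ, ‖ζ‖ = 1 → mob a b c d ζ ∈ (A k).pts)
    (h4 : ∀ ζ ∈ Q, mob a b c d ζ ∉ union A) :
    IsFace A (mob a b c d '' Q) ∧ IsTriangular A (mob a b c d '' Q) := by
  set M := mob a b c d with hM
  have hinj : InjOn M {ζ | ‖ζ‖ ≤ 1} := mob_inj hdet hden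
  have hinjK : InjOn M K := mob_injK hdet hden
  have hcont : ContinuousOn M K := mob_cont hden
  -- the three sides in the zeta plane
  set S0 : Set ℂ := (fun t : ℝ => (t : ℂ)) '' Icc 0 1 with hS0
  set T0 : Set ℂ := (fun t : ℝ => (t : ℂ) * I) '' Icc 0 1 with hT0
  set U0 : Set ℂ := arcPar '' Icc 0 1 with hU0
  have hS0K : S0 ⊆ K := by
    rintro _ ⟨t, ht, rfl⟩
    refine ⟨?_, by simpa using ht.1, by simp⟩
    simp only [Complex.norm_real, Real.norm_of_nonneg ht.1]
    exact ht.2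
  have hT0K : T0 ⊆ K := by
    rintro _ ⟨t, ht, rfl⟩
    refine ⟨?_, by simp, by simpa using ht.1⟩
    simp only [norm_mul, Complex.norm_real, Complex.norm_I, mul_one, Real.norm_of_nonneg ht.1]
    exact ht.2
  have hU0K : U0 ⊆ K := by
    rintro _ ⟨t, ht, rfl⟩
    refine ⟨(arcPar_norm t).le, ?_, ?_⟩
    · rw [arcPar_re]; exact div_nonneg ht.1 (norm_nonneg _)
    · rw [arcPar_im]; exact div_nonneg (by linarith [ht.2]) (norm_nonneg _)
  have hKQ : K \ Q = S0 ∪ T0 ∪ U0 := by
    ext ζ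
    constructor
    · rintro ⟨⟨hn, hr, hi⟩, hq⟩
      by_cases hi0 : ζ.im = 0
      · refine Or.inl (Or.inl ⟨ζ.re, ⟨hr, ?_⟩, ?_⟩)
        · exact (Complex.re_le_norm ζ).trans hn
        · apply Complex.ext <;> simp [hi0]
      by_cases hr0 : ζ.re = 0
      · refine Or.inl (Or.inr ⟨ζ.im, ⟨hi, ?_⟩, ?_⟩)
        · exact ((le_abs_self _).trans (Complex.abs_im_le_norm ζ)).trans hn
        · apply Complex.ext <;> simp [hr0]
      · right
        have hn1 : ‖ζ‖ = 1 := by
          by_contra hne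
          exact hq ⟨lt_of_le_of_ne hn hne, lt_of_le_of_ne hr (Ne.symm hr0),
            lt_of_le_of_ne hi (Ne.symm hi0)⟩
        obtain ⟨t, ht, he⟩ := arcPar_surj hn1 hr hi
        exact ⟨t, ht, he⟩
    · intro h
      rcases h with (h | h) | h
      · refine ⟨hS0K h, ?_⟩
        obtain ⟨t, ht, rfl⟩ := h
        rintro ⟨-, -, h5⟩
        simp at h5
      · refine ⟨hT0K h, ?_⟩
        obtain ⟨t, ht, rfl⟩ := h
        rintro ⟨-, h5, -⟩
        simp at h5
      · refine ⟨hU0K h, ?_⟩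
        obtain ⟨t, ht, rfl⟩ := h
        rintro ⟨h5, -, -⟩
        rw [arcPar_norm] at h5
        exact lt_irrefl _ h5
  have hST : S0 ∩ T0 = {0} := by
    ext ζ
    constructor
    · rintro ⟨⟨t, ht, rfl⟩, ⟨s, hs, h⟩⟩
      have := congrArg Complex.re h
      simp at this
      simp [← this]
    · rintro rfl
      exact ⟨⟨0, by simp, by simp⟩, ⟨0, by simp, by simp⟩⟩
  have hTU : T0 ∩ U0 = {I} := by
    ext ζ
    constructor
    · rintro ⟨⟨t, ht, rfl⟩, ⟨s, hs, h⟩⟩
      have h5 := congrArg (fun z : ℂ => ‖z‖) h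
      simp only [arcPar_norm, norm_mul, Complex.norm_real, Complex.norm_I, mul_one,
        Real.norm_of_nonneg ht.1] at h5
      simp [← h5]
    · rintro rfl
      exact ⟨⟨1, by simp, by simp⟩, ⟨0, by simp, arcPar_zero⟩⟩
  have hSU : S0 ∩ U0 = {1} := by
    ext ζ
    constructor
    · rintro ⟨⟨t, ht, rfl⟩, ⟨s, hs, h⟩⟩
      have h5 := congrArg (fun z : ℂ => ‖z‖) h
      simp only [arcPar_norm, Complex.norm_real, Real.norm_of_nonneg ht.1] at h5
      simp [← h5]
    · rintro rfl
      exact ⟨⟨1, by simp, by simp⟩, ⟨1, by simp, arcPar_one⟩⟩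
  have hfr : frontier (M '' Q) = M '' S0 ∪ M '' T0 ∪ M '' U0 := by
    rw [hM, frontier_mobQ hdet hden, hKQ, image_union, image_union]
  have hSA : M '' S0 ⊆ (A i).pts := by
    rintro _ ⟨_, ⟨t, ht, rfl⟩, rfl⟩
    exact h1 t ht
  have hTA : M '' T0 ⊆ (A j).pts := by
    rintro _ ⟨_, ⟨t, ht, rfl⟩, rfl⟩
    exact h2 t ht
  have hUA : M '' U0 ⊆ (A k).pts := by
    rintro _ ⟨_, ⟨t, ht, rfl⟩, rfl⟩
    exact h3 _ (arcPar_norm t)
  constructor
  · -- face
    have hopen : IsOpen (M '' Q) := isOpen_mobQ hdet hden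
    have hpre : IsPreconnected (M '' Q) :=
      convex_Q.isPreconnected.image _ (hcont.mono Q_sub_K)
    have hz : M q0 ∈ M '' Q := ⟨q0, q0_mem, rfl⟩
    have hsub : M '' Q ⊆ (union A)ᶜ := by
      rintro _ ⟨ζ, hζ, rfl⟩
      exact h4 ζ hζ
    refine ⟨M q0, h4 q0 q0_mem, Subset.antisymm ?_ ?_⟩
    · exact hpre.subset_connectedComponentIn hz hsub
    · have hfrU : frontier (M '' Q) ⊆ union A := by
        rw [hfr]
        rintro x ((hx | hx) | hx)
        · exact mem_iUnion.2 ⟨i, hSA hx⟩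
        · exact mem_iUnion.2 ⟨j, hTA hx⟩
        · exact mem_iUnion.2 ⟨k, hUA hx⟩
      refine IsPreconnected.subset_left_of_subset_union hopen
        (isClosed_closure (s := M '' Q)).isOpen_compl ?_ ?_ ?_ isPreconnected_connectedComponentIn
      · exact disjoint_compl_right.mono_left subset_closure
      · intro x hx
        by_cases hxc : x ∈ closure (M '' Q)
        · left
          by_contra hxn
          have : x ∈ frontier (M '' Q) := by
            rw [frontier, hopen.interior_eq]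
            exact ⟨hxc, hxn⟩
          exact connectedComponentIn_subset _ _ hx (hfrU this)
        · exact Or.inr hxc
      · exact ⟨M q0, mem_connectedComponentIn (h4 q0 q0_mem), hz⟩
  · -- triangular
    refine ⟨i, j, k, M I, M 1, M 0, M '' S0, M '' T0, M '' U0, hij, hjk, hik, hSA, hTA, hUA,
      ?_, ?_, ?_, ?_, ?_, ?_, hfr⟩
    · refine ⟨fun t => M ((1 - t : ℝ) : ℂ), ?_, ?_, by simp, by simp, ?_⟩
      · refine hcont.comp (by fun_prop) fun t ht => hS0K ⟨1 - t, ⟨by linarith [ht.2], by linarith [ht.1]⟩, rfl⟩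
      · intro s hs t ht h
        have h5 := hinjK (hS0K ⟨1 - s, ⟨by linarith [hs.2], by linarith [hs.1]⟩, rfl⟩)
          (hS0K ⟨1 - t, ⟨by linarith [ht.2], by linarith [ht.1]⟩, rfl⟩) h
        have h6 := Complex.ofReal_injective h5
        linarith
      · ext x
        constructor
        · rintro ⟨t, ht, rfl⟩
          exact ⟨_, ⟨1 - t, ⟨by linarith [ht.2], by linarith [ht.1]⟩, rfl⟩, rfl⟩
        · rintro ⟨_, ⟨t, ht, rfl⟩, rfl⟩
          exact ⟨1 - t, ⟨by linarith [ht.2], by linarith [ht.1]⟩, by simp⟩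
    · refine ⟨fun t => M ((t : ℂ) * I), ?_, ?_, by simp, by simp, ?_⟩
      · refine hcont.comp (by fun_prop) fun t ht => hT0K ⟨t, ht, rfl⟩
      · intro s hs t ht h
        have h5 := hinjK (hT0K ⟨s, hs, rfl⟩) (hT0K ⟨t, ht, rfl⟩) h
        have h6 := congrArg Complex.im h5
        simpa using h6
      · rw [hT0, ← image_comp]; rfl
    · refine ⟨fun t => M (arcPar t), ?_, ?_, by simp [arcPar_zero], by simp [arcPar_one], ?_⟩
      · refine hcont.comp arcPar_cont.continuousOn fun t ht => hU0K ⟨t, ht, rfl⟩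
      · intro s hs t ht h
        exact arcPar_inj (hinjK (hU0K ⟨s, hs, rfl⟩) (hU0K ⟨t, ht, rfl⟩) h)
      · rw [hU0, ← image_comp]; rfl
    · rw [← hinjK.image_inter hS0K hT0K, hST, image_singleton]
    · rw [← hinjK.image_inter hT0K hU0K, hTU, image_singleton]
    · rw [← hinjK.image_inter hS0K hU0K, hSU, image_singleton]

/-- The algebraic criterion for orthogonality. -/
theorem orth_of_sq {C D : Circ} (h : ‖C.c - D.c‖ ^ 2 = C.r ^ 2 + D.r ^ 2) : Orth C D := by
  have hC := C.pos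
  have hD := D.pos
  have hpos : 0 < C.r ^ 2 + D.r ^ 2 := by positivity
  -- reduce to coordinates
  have key : ∀ z : ℂ, z ∈ C.pts ∩ D.pts ↔
      ((z.re - C.c.re) ^ 2 + (z.im - C.c.im) ^ 2 = C.r ^ 2 ∧
        (z.re - D.c.re) ^ 2 + (z.im - D.c.im) ^ 2 = D.r ^ 2) := by
    intro z
    have e1 : z ∈ C.pts ↔ (z.re - C.c.re) ^ 2 + (z.im - C.c.im) ^ 2 = C.r ^ 2 := by
      change ‖z - C.c‖ = C.r ↔ _
      rw [← sq_eq_sq₀ (norm_nonneg _) hC.le, Complex.sq_norm, Complex.normSq_apply]
      simp only [sub_re, sub_im]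
      constructor <;> intro h <;> linarith
    have e2 : z ∈ D.pts ↔ (z.re - D.c.re) ^ 2 + (z.im - D.c.im) ^ 2 = D.r ^ 2 := by
      change ‖z - D.c‖ = D.r ↔ _
      rw [← sq_eq_sq₀ (norm_nonneg _) hD.le, Complex.sq_norm, Complex.normSq_apply]
      simp only [sub_re, sub_im]
      constructor <;> intro h <;> linarith
    exact and_congr e1 e2
  rw [Complex.sq_norm, Complex.normSq_apply] at h
  simp only [sub_re, sub_im] at h
  set p := D.c.re - C.c.re with hp
  set q := D.c.im - C.c.im with hq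
  have hpq : p ^ 2 + q ^ 2 = C.r ^ 2 + D.r ^ 2 := by rw [hp, hq]; linarith
  have hpq' : p ^ 2 + q ^ 2 ≠ 0 := by rw [hpq]; exact hpos.ne'
  set l := C.r ^ 2 / (p ^ 2 + q ^ 2) with hl
  set m := C.r * D.r / (p ^ 2 + q ^ 2) with hm
  have hl' : l * (p ^ 2 + q ^ 2) = C.r ^ 2 := by rw [hl]; field_simp
  have hm' : m * (p ^ 2 + q ^ 2) = C.r * D.r := by rw [hm]; field_simp
  have hmpos : 0 < m := by rw [hm]; apply div_pos (by positivity); rw [hpq]; exact hpos
  have hlm : l ^ 2 + m ^ 2 = l := by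
    have : (l ^ 2 + m ^ 2) * (p ^ 2 + q ^ 2) ^ 2 = l * (p ^ 2 + q ^ 2) ^ 2 := by
      calc (l ^ 2 + m ^ 2) * (p ^ 2 + q ^ 2) ^ 2
          = (l * (p ^ 2 + q ^ 2)) ^ 2 + (m * (p ^ 2 + q ^ 2)) ^ 2 := by ring
        _ = (C.r ^ 2) ^ 2 + (C.r * D.r) ^ 2 := by rw [hl', hm']
        _ = C.r ^ 2 * (C.r ^ 2 + D.r ^ 2) := by ring
        _ = (l * (p ^ 2 + q ^ 2)) * (p ^ 2 + q ^ 2) := by rw [hl', hpq]
        _ = l * (p ^ 2 + q ^ 2) ^ 2 := by ring
    exact mul_right_cancel₀ (pow_ne_zero 2 hpq') this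
  refine ⟨⟨⟨C.c.re + l * p - m * q, C.c.im + l * q + m * p⟩,
    ⟨C.c.re + l * p + m * q, C.c.im + l * q - m * p⟩, ?_, ?_⟩, ?_⟩
  · intro he
    have e1 := congrArg Complex.re he
    have e2 := congrArg Complex.im he
    simp only at e1 e2
    have f1 : m * q = 0 := by linarith
    have f2 : m * p = 0 := by linarith
    have g1 : q = 0 := by
      rcases mul_eq_zero.1 f1 with h5 | h5
      · exact absurd h5 hmpos.ne'
      · exact h5
    have g2 : p = 0 := by
      rcases mul_eq_zero.1 f2 with h5 | h5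
      · exact absurd h5 hmpos.ne'
      · exact h5
    rw [g1, g2] at hpq'
    norm_num at hpq'
  · ext z
    rw [key, mem_insert_iff, mem_singleton_iff, Complex.ext_iff, Complex.ext_iff]
    constructor
    · rintro ⟨a1, a2⟩
      set X := z.re - C.c.re with hX
      set Y := z.im - C.c.im with hY
      have a1' : X ^ 2 + Y ^ 2 = C.r ^ 2 := a1
      have a2' : (X - p) ^ 2 + (Y - q) ^ 2 = D.r ^ 2 := by
        have e1 : X - p = z.re - D.c.re := by rw [hX, hp]; ring
        have e2 : Y - q = z.im - D.c.im := by rw [hY, hq]; ring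
        rw [e1, e2]; exact a2
      -- X p + Y q = r^2
      have b1 : X * p + Y * q = C.r ^ 2 := by nlinarith
      have b1' : X * p + Y * q = l * (p ^ 2 + q ^ 2) := by rw [hl', b1]
      -- (Y p - X q)^2 = (m (p^2+q^2))^2
      have b2 : (Y * p - X * q) ^ 2 = (m * (p ^ 2 + q ^ 2)) ^ 2 := by
        have : (Y * p - X * q) ^ 2 = (X ^ 2 + Y ^ 2) * (p ^ 2 + q ^ 2) - (X * p + Y * q) ^ 2 := by
          ring
        rw [this, a1', b1, hpq, ← hpq, hm']
        rw [hpq]; ring
      rcases sq_eq_sq_iff_eq_or_eq_neg.1 b2 with b3 | b3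
      · left
        have c1 : X * (p ^ 2 + q ^ 2) = (l * p - m * q) * (p ^ 2 + q ^ 2) := by
          linear_combination p * b1' - q * b3
        have c2 : Y * (p ^ 2 + q ^ 2) = (l * q + m * p) * (p ^ 2 + q ^ 2) := by
          linear_combination q * b1' + p * b3
        have d1 := mul_right_cancel₀ hpq' c1
        have d2 := mul_right_cancel₀ hpq' c2
        constructor
        · simp only; linarith
        · simp only; linarith
      · right
        have c1 : X * (p ^ 2 + q ^ 2) = (l * p + m * q) * (p ^ 2 + q ^ 2) := by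
          linear_combination p * b1' - q * b3
        have c2 : Y * (p ^ 2 + q ^ 2) = (l * q - m * p) * (p ^ 2 + q ^ 2) := by
          linear_combination q * b1' + p * b3
        have d1 := mul_right_cancel₀ hpq' c1
        have d2 := mul_right_cancel₀ hpq' c2
        constructor
        · simp only; linarith
        · simp only; linarith
    · have f1 : (l ^ 2 + m ^ 2) * (p ^ 2 + q ^ 2) = C.r ^ 2 := by rw [hlm, hl']
      have f2 : ((1 - l) ^ 2 + m ^ 2) * (p ^ 2 + q ^ 2) = D.r ^ 2 := by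
        have : (1 - l) ^ 2 + m ^ 2 = 1 - l := by nlinarith
        rw [this, sub_mul, hl', hpq]; ring
      rintro (⟨h1, h2⟩ | ⟨h1, h2⟩)
      · simp only at h1 h2
        constructor
        · rw [h1, h2]; linear_combination f1
        · have e1 : z.re - D.c.re = (l - 1) * p - m * q := by rw [h1, hp]; ring
          have e2 : z.im - D.c.im = (l - 1) * q + m * p := by rw [h2, hq]; ring
          rw [e1, e2]; linear_combination f2
      · simp only at h1 h2
        constructor
        · rw [h1, h2]; linear_combination f1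
        · have e1 : z.re - D.c.re = (l - 1) * p + m * q := by rw [h1, hp]; ring
          have e2 : z.im - D.c.im = (l - 1) * q - m * p := by rw [h2, hq]; ring
          rw [e1, e2]; linear_combination f2
  · intro z hz
    obtain ⟨a1, a2⟩ := (key z).1 hz
    simp only [mul_re, conj_re, conj_im, sub_re, sub_im]
    have e : (z.re - C.c.re) * (z.re - D.c.re) - (z.im - C.c.im) * -(z.im - D.c.im)
        = ((z.re - C.c.re) ^ 2 + (z.im - C.c.im) ^ 2 + ((z.re - D.c.re) ^ 2 + (z.im - D.c.im) ^ 2)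
            - (p ^ 2 + q ^ 2)) / 2 := by
      rw [hp, hq]; ring
    rw [e, a1, a2, hpq]; ring

end Pool.Agent.X129.OrthCirc
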