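import Pool.Agent.X129.OrthFam2

/-!
The triangular faces and their number.
-/

namespace Pool.Agent.X129.OrthCirc

open Complex Metric Set

/-- The axis through `u s`: `false` for the real axis, `true` for the imaginary axis. -/
def ax : Fin 4 → Bool := ![false, true, false, true]

lemma w0_sq : ‖w0‖ ^ 2 = 2 := by
  rw [Complex.sq_norm, Complex.normSq_apply]; simp [w0]; norm_num

lemma one_lt_w0 : 1 < ‖w0‖ := by nlinarith [w0_sq, norm_nonneg w0]

lemma w0_lt : ‖w0‖ < 3 / 2 := by nlinarith [w0_sq, norm_nonneg w0]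

/-! ### inner faces -/

lemma mob1 (j : Fin 4) (ζ : ℂ) : mob 0 1 (u j) (-w0) ζ = J (u j * ζ) := by
  unfold mob J
  congr 1
  ring

lemma norm_u_mul (j : Fin 4) (ζ : ℂ) : ‖u j * ζ‖ = ‖ζ‖ := by
  rw [norm_mul, u_norm, one_mul]

lemma ne1 {w : ℂ} (h : ‖w‖ ≤ 1) : w ≠ w0 := by
  rintro rfl
  linarith [one_lt_w0]

lemma uQ (j : Fin 4) {ζ : ℂ} (h : ζ ∈ Q) :
    ‖u j * ζ‖ < 1 ∧ (u j * ζ).re ≠ 0 ∧ (u j * ζ).im ≠ 0 := by
  refine ⟨by rw [norm_u_mul]; exact h.1, ?_, ?_⟩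
  · have h1 := h.2.1.ne'
    have h2 := h.2.2.ne'
    rw [mul_re]
    fin_cases j <;> simp [u, h1, h2]
  · have h1 := h.2.1.ne'
    have h2 := h.2.2.ne'
    rw [mul_im]
    fin_cases j <;> simp [u, h1, h2]

lemma quad {j j' : Fin 4} {ζ ζ' : ℂ} (h : ζ ∈ Q) (h' : ζ' ∈ Q) (he : u j * ζ = u j' * ζ') :
    j = j' := by
  have h1 := h.2.1
  have h2 := h.2.2
  have h3 := h'.2.1
  have h4 := h'.2.2
  have e1 := congrArg Complex.re he
  have e2 := congrArg Complex.im he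
  rw [mul_re, mul_re] at e1
  rw [mul_im, mul_im] at e2
  fin_cases j <;> fin_cases j' <;> first | rfl | (exfalso; simp [u] at e1 e2; linarith)

lemma on_ax_real {k L : ℕ} (j : Fin 4) (t : ℝ) :
    On (Sum.inl (ax j) : Idx k L) (u j * t) := by
  fin_cases j
  · change (u 0 * (t : ℂ)).im = 0; simp [u]
  · change (u 1 * (t : ℂ)).re = 0; simp [u]
  · change (u 2 * (t : ℂ)).im = 0; simp [u]
  · change (u 3 * (t : ℂ)).re = 0; simp [u]

lemma on_ax_imag {k L : ℕ} (j : Fin 4) (t : ℝ) :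
    On (Sum.inl (!(ax j)) : Idx k L) (u j * (t * I)) := by
  fin_cases j
  · change (u 0 * ((t : ℂ) * I)).re = 0; simp [u]
  · change (u 1 * ((t : ℂ) * I)).im = 0; simp [u]
  · change (u 2 * ((t : ℂ) * I)).re = 0; simp [u]
  · change (u 3 * ((t : ℂ) * I)).im = 0; simp [u]

lemma miss1 {k L : ℕ} (x : Idx k L) {w : ℂ} (h1 : ‖w‖ < 1) (h2 : w.re ≠ 0) (h3 : w.im ≠ 0) :
    ¬ On x w := by
  match x with
  | Sum.inl false => exact h3
  | Sum.inl true => exact h2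
  | Sum.inr (Sum.inl j) =>
    intro h
    have h' : ‖w‖ = rho j := h
    have := rho_one j
    linarith
  | Sum.inr (Sum.inr (i, s)) =>
    intro h
    have h' : ‖w - sc i s‖ = 3 / 4 * rho (i + 1) := h
    have h4 := small_range h'.le
    have h5 := rho_eight i
    linarith

theorem face1 {k L : ℕ} (hL : 0 < L) (j : Fin 4) :
    IsFace (fam k L) (mob 0 1 (u j) (-w0) '' Q) ∧
      IsTriangular (fam k L) (mob 0 1 (u j) (-w0) '' Q) := by
  refine face_of_mob (fam k L) (i := Sum.inl (ax j)) (j := Sum.inl (!(ax j)))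
    (k := Sum.inr (Sum.inl ⟨0, hL⟩)) ?_ ?_ ?_ ?_ ?_ ?_ ?_ ?_ ?_
  · simpa using u_ne j
  · intro ζ hζ
    have := ne1 (w := u j * ζ) (by rw [norm_u_mul]; exact hζ)
    intro h
    exact this (by linear_combination h)
  · cases ax j <;> simp
  · simp
  · simp
  · intro t ht
    rw [mob1, mem_fam]
    · exact on_ax_real j t
    · apply ne1
      rw [norm_u_mul, Complex.norm_real, Real.norm_of_nonneg ht.1]
      exact ht.2
  · intro t ht
    rw [mob1, mem_fam]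
    · exact on_ax_imag j t
    · apply ne1
      rw [norm_u_mul, norm_mul, Complex.norm_I, mul_one, Complex.norm_real,
        Real.norm_of_nonneg ht.1]
      exact ht.2
  · intro ζ hζ
    have h5 : ‖u j * ζ‖ = 1 := by rw [norm_u_mul, hζ]
    rw [mob1, mem_fam _ (ne1 h5.le)]
    change ‖u j * ζ‖ = rho 0
    rw [h5]; simp [rho]
  · intro ζ hζ
    obtain ⟨h5, h6, h7⟩ := uQ j hζ
    rw [mob1]
    intro hmem
    obtain ⟨x, hx⟩ := mem_iUnion.1 hmem
    rw [mem_fam x (ne1 h5.le)] at hx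
    exact miss1 x h5 h6 h7 hx

/-! ### outer faces -/

/-- The map `f`. -/
noncomputable def fm (ξ : ℂ) : ℂ := (3 + ξ) / (3 - ξ)

/-- The map onto the small disc. -/
noncomputable def W (i : ℕ) (s : Fin 4) (ξ : ℂ) : ℂ := (rho (i + 1) : ℂ) * u s * fm ξ

lemma three_sub_ne {ξ : ℂ} (h : ‖ξ‖ ≤ 1) : 3 - ξ ≠ 0 := by
  intro h1
  have h2 : ξ = 3 := by linear_combination -h1
  rw [h2] at h
  norm_num at h

lemma fm_norm_sub {ξ : ℂ} (h : ‖ξ‖ ≤ 1) :
    ‖fm ξ - 5 / 4‖ = 3 * ‖3 * ξ - 1‖ / (4 * ‖3 - ξ‖) := by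
  have h0 := three_sub_ne h
  have : fm ξ - 5 / 4 = 3 * (3 * ξ - 1) / (4 * (3 - ξ)) := by
    unfold fm
    field_simp
    ring
  rw [this, norm_div, norm_mul, norm_mul]
  norm_num

lemma sq_diff (ξ : ℂ) : ‖3 - ξ‖ ^ 2 - ‖3 * ξ - 1‖ ^ 2 = 8 * (1 - ‖ξ‖ ^ 2) := by
  rw [Complex.sq_norm, Complex.normSq_apply, Complex.sq_norm, Complex.normSq_apply,
    Complex.sq_norm, Complex.normSq_apply]
  simp
  ring

lemma fm_circ {ξ : ℂ} (h : ‖ξ‖ = 1) : ‖fm ξ - 5 / 4‖ = 3 / 4 := by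
  rw [fm_norm_sub h.le]
  have h0 : ‖3 - ξ‖ ≠ 0 := norm_ne_zero_iff.2 (three_sub_ne h.le)
  have h1 := sq_diff ξ
  rw [h] at h1
  have h2 : ‖3 - ξ‖ = ‖3 * ξ - 1‖ := by
    rw [← sq_eq_sq₀ (norm_nonneg _) (norm_nonneg _)]; linarith
  rw [← h2]
  field_simp

lemma fm_disc {ξ : ℂ} (h : ‖ξ‖ < 1) : ‖fm ξ - 5 / 4‖ < 3 / 4 := by
  rw [fm_norm_sub h.le]
  have h0 : 0 < ‖3 - ξ‖ := norm_pos_iff.2 (three_sub_ne h.le)
  have h1 := sq_diff ξ
  have h2 : ‖3 * ξ - 1‖ < ‖3 - ξ‖ := by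
    rw [← sq_lt_sq₀ (norm_nonneg _) (norm_nonneg _)]
    nlinarith [norm_nonneg ξ]
  rw [div_lt_iff₀ (by positivity)]
  linarith

lemma fm_le {ξ : ℂ} (h : ‖ξ‖ ≤ 1) : ‖fm ξ - 5 / 4‖ ≤ 3 / 4 := by
  rcases h.eq_or_lt with h1 | h1
  · exact (fm_circ h1).le
  · exact (fm_disc h1).le

lemma fm_norm {ξ : ℂ} (h : ‖ξ‖ ≤ 1) : ‖fm ξ‖ = 1 ↔ ξ.re = 0 := by
  have h0 : ‖3 - ξ‖ ≠ 0 := norm_ne_zero_iff.2 (three_sub_ne h)
  unfold fm
  rw [norm_div, div_eq_one_iff_eq h0, ← sq_eq_sq₀ (norm_nonneg _) (norm_nonneg _),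
    Complex.sq_norm, Complex.normSq_apply, Complex.sq_norm, Complex.normSq_apply]
  simp
  constructor
  · intro h; linarith
  · intro h; rw [h]; ring

lemma fm_re {ξ : ℂ} (h : ‖ξ‖ ≤ 1) : 0 < (fm ξ).re := by
  have h1 := fm_le h
  have h2 := Complex.abs_re_le_norm (fm ξ - 5 / 4)
  have h3 : (fm ξ - 5 / 4).re = (fm ξ).re - 5 / 4 := by simp
  rw [h3, abs_le] at h2
  have := h2.1
  linarith

lemma fm_im {ξ : ℂ} (h : ‖ξ‖ ≤ 1) : (fm ξ).im = 0 ↔ ξ.im = 0 := by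
  have h0 := three_sub_ne h
  have h1 : normSq (3 - ξ) ≠ 0 := by rwa [Ne, Complex.normSq_eq_zero]
  have h2 : (fm ξ).im = 6 * ξ.im / normSq (3 - ξ) := by
    unfold fm
    rw [Complex.div_im]
    simp
    field_simp
    ring
  rw [h2, div_eq_zero_iff]
  constructor
  · rintro (h | h)
    · linarith
    · exact absurd h h1
  · intro h; left; rw [h, mul_zero]

lemma fm_inj {ξ ξ' : ℂ} (h : ‖ξ‖ ≤ 1) (h' : ‖ξ'‖ ≤ 1) (he : fm ξ = fm ξ') : ξ = ξ' := by
  unfold fm at he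
  rw [div_eq_div_iff (three_sub_ne h) (three_sub_ne h')] at he
  linear_combination he / 6

lemma W_norm (i : ℕ) (s : Fin 4) (ξ : ℂ) : ‖W i s ξ‖ = rho (i + 1) * ‖fm ξ‖ := by
  unfold W
  rw [norm_mul, norm_mul, u_norm, mul_one, Complex.norm_real,
    Real.norm_of_nonneg (rho_pos _).le]

lemma W_sub (i : ℕ) (s : Fin 4) (ξ : ℂ) :
    ‖W i s ξ - sc i s‖ = rho (i + 1) * ‖fm ξ - 5 / 4‖ := by
  have : W i s ξ - sc i s = (rho (i + 1) : ℂ) * u s * (fm ξ - 5 / 4) := by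
    unfold W sc
    push_cast
    ring
  rw [this, norm_mul, norm_mul, u_norm, mul_one, Complex.norm_real,
    Real.norm_of_nonneg (rho_pos _).le]

lemma W_le (i : ℕ) (s : Fin 4) {ξ : ℂ} (h : ‖ξ‖ ≤ 1) :
    ‖W i s ξ - sc i s‖ ≤ 3 / 4 * rho (i + 1) := by
  rw [W_sub]
  nlinarith [fm_le h, rho_pos (i + 1)]

lemma W_big (i : ℕ) (s : Fin 4) {ξ : ℂ} (h : ‖ξ‖ ≤ 1) : 4 ≤ ‖W i s ξ‖ := by
  have h1 := small_range (W_le i s h)
  have h2 := rho_eight i
  linarith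

lemma W_ne (i : ℕ) (s : Fin 4) {ξ : ℂ} (h : ‖ξ‖ ≤ 1) : W i s ξ ≠ w0 := by
  intro he
  have := W_big i s h
  rw [he] at this
  linarith [w0_lt]

lemma den2 (i : ℕ) (s j : Fin 4) {ζ : ℂ} (h : ‖ζ‖ ≤ 1) :
    ((rho (i + 1) : ℂ) * u s + w0) * u j * ζ + 3 * ((rho (i + 1) : ℂ) * u s - w0)
      = (3 - u j * ζ) * (W i s (u j * ζ) - w0) := by
  have h0 : 3 - u j * ζ ≠ 0 := three_sub_ne (by rw [norm_u_mul]; exact h)
  have e : (3 - u j * ζ) * fm (u j * ζ) = 3 + u j * ζ := by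
    unfold fm
    rw [mul_div_cancel₀ _ h0]
  unfold W
  linear_combination (-((rho (i + 1) : ℂ) * u s)) * e

lemma mob2 (i : ℕ) (s j : Fin 4) {ζ : ℂ} (h : ‖ζ‖ ≤ 1) :
    mob (-(u j)) 3 (((rho (i + 1) : ℂ) * u s + w0) * u j) (3 * ((rho (i + 1) : ℂ) * u s - w0)) ζ
      = J (W i s (u j * ζ)) := by
  have h' : ‖u j * ζ‖ ≤ 1 := by rw [norm_u_mul]; exact h
  have h0 : 3 - u j * ζ ≠ 0 := three_sub_ne h'
  have h1 : W i s (u j * ζ) - w0 ≠ 0 := sub_ne_zero.2 (W_ne i s h')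
  unfold mob J
  rw [den2 i s j h, div_eq_div_iff (mul_ne_zero h0 h1) h1]
  ring

lemma on_axis {k L : ℕ} (i : ℕ) (s : Fin 4) {ξ : ℂ} (h : ‖ξ‖ ≤ 1) (hi : ξ.im = 0) :
    On (Sum.inl (ax s) : Idx k L) (W i s ξ) := by
  have h1 := (fm_im h).2 hi
  have h2 : W i s ξ = u s * ((rho (i + 1) * (fm ξ).re : ℝ) : ℂ) := by
    have h3 : fm ξ = ((fm ξ).re : ℂ) := by
      apply Complex.ext
      · simp
      · simp [h1]
    unfold W
    rw [h3]
    push_cast
    rw [Complex.ofReal_re]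
    ring
  rw [h2]
  exact on_ax_real s _

lemma miss2 {k L : ℕ} (x : Idx k L) (i : ℕ) (s : Fin 4) {ξ : ℂ} (h1 : ‖ξ‖ < 1)
    (h2 : ξ.re ≠ 0) (h3 : ξ.im ≠ 0) : ¬ On x (W i s ξ) := by
  have f1 := fm_re h1.le
  have f2 : (fm ξ).im ≠ 0 := fun h => h3 ((fm_im h1.le).1 h)
  have f3 : ‖fm ξ‖ ≠ 1 := fun h => h2 ((fm_norm h1.le).1 h)
  have f4 := small_range (W_le i s h1.le)
  have f5 := rho_pos (i + 1)
  have hre : (W i s ξ).re = rho (i + 1) * ((u s).re * (fm ξ).re - (u s).im * (fm ξ).im) := by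
    unfold W; rw [mul_assoc, Complex.re_ofReal_mul, mul_re]
  have him : (W i s ξ).im = rho (i + 1) * ((u s).re * (fm ξ).im + (u s).im * (fm ξ).re) := by
    unfold W; rw [mul_assoc, Complex.im_ofReal_mul, mul_im]
  match x with
  | Sum.inl false =>
    intro h
    have h' : (W i s ξ).im = 0 := h
    rw [him] at h'
    fin_cases s <;> simp [u, f1.ne', f2, f5.ne'] at h'
  | Sum.inl true =>
    intro h
    have h' : (W i s ξ).re = 0 := h
    rw [hre] at h'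
    fin_cases s <;> simp [u, f1.ne', f2, f5.ne'] at h'
  | Sum.inr (Sum.inl j) =>
    intro h
    have h' : ‖W i s ξ‖ = rho j := h
    have h5 := rho_pos j
    have h6 : (j : ℕ) = i + 1 := rho_eq (by linarith) (by linarith)
    rw [h6, W_norm] at h'
    apply f3
    have h7 : rho (i + 1) * ‖fm ξ‖ = rho (i + 1) * 1 := by rw [h', mul_one]
    exact mul_left_cancel₀ f5.ne' h7
  | Sum.inr (Sum.inr (i', s')) =>
    intro h
    have h' : ‖W i s ξ - sc i' s'‖ = 3 / 4 * rho (i' + 1) := h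
    have f6 := small_range h'.le
    have f7 := rho_pos (i' + 1)
    have f8 : 0 < ‖W i s ξ‖ := by linarith
    rcases Nat.lt_trichotomy i i' with h7 | h7 | h7
    · have h8 : 8 * rho (i + 1) ≤ rho (i' + 1) := by
        unfold rho
        rw [← pow_succ']
        exact pow_le_pow_right₀ (by norm_num) (by omega)
      linarith
    · rcases eq_or_ne s s' with h8 | h8
      · subst h8
        rw [← h7, W_sub] at h'
        have := fm_disc h1
        nlinarith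
      · rw [← h7] at h'
        exact small_disj h8 (W_le i s h1.le) h'.le
    · have h8 : 8 * rho (i' + 1) ≤ rho (i + 1) := by
        unfold rho
        rw [← pow_succ']
        exact pow_le_pow_right₀ (by norm_num) (by omega)
      linarith

theorem face2 {k L : ℕ} (hL : k < L) (i : Fin k) (s j : Fin 4) :
    IsFace (fam k L) (mob (-(u j)) 3 (((rho (i + 1) : ℂ) * u s + w0) * u j)
      (3 * ((rho (i + 1) : ℂ) * u s - w0)) '' Q) ∧
      IsTriangular (fam k L) (mob (-(u j)) 3 (((rho (i + 1) : ℂ) * u s + w0) * u j)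
      (3 * ((rho (i + 1) : ℂ) * u s - w0)) '' Q) := by
  have hi : (i : ℕ) + 1 < L := by have := i.2; omega
  have hdet : (-(u j)) * (3 * ((rho (i + 1) : ℂ) * u s - w0)) -
      3 * (((rho (i + 1) : ℂ) * u s + w0) * u j) ≠ 0 := by
    have h1 : ((rho (i + 1) : ℝ) : ℂ) ≠ 0 := by exact_mod_cast (rho_pos (i + 1)).ne'
    have e : (-(u j)) * (3 * ((rho (i + 1) : ℂ) * u s - w0)) -
      3 * (((rho (i + 1) : ℂ) * u s + w0) * u j) = -6 * (rho (i + 1) : ℂ) * u s * u j := by ring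
    rw [e]
    exact mul_ne_zero (mul_ne_zero (mul_ne_zero (by norm_num) h1) (u_ne s)) (u_ne j)
  have hden : ∀ ζ : ℂ, ‖ζ‖ ≤ 1 → ((rho (i + 1) : ℂ) * u s + w0) * u j * ζ +
      3 * ((rho (i + 1) : ℂ) * u s - w0) ≠ 0 := by
    intro ζ hζ
    have h' : ‖u j * ζ‖ ≤ 1 := by rw [norm_u_mul]; exact hζ
    rw [den2 i s j hζ]
    exact mul_ne_zero (three_sub_ne h') (sub_ne_zero.2 (W_ne i s h'))
  have hreal : ∀ t : ℝ, t ∈ Icc (0 : ℝ) 1 → ‖(t : ℂ)‖ ≤ 1 := by
    intro t ht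
    rw [Complex.norm_real, Real.norm_of_nonneg ht.1]; exact ht.2
  have himag : ∀ t : ℝ, t ∈ Icc (0 : ℝ) 1 → ‖(t : ℂ) * I‖ ≤ 1 := by
    intro t ht
    rw [norm_mul, Complex.norm_I, mul_one, Complex.norm_real, Real.norm_of_nonneg ht.1]
    exact ht.2
  have h3 : ∀ ζ : ℂ, ‖ζ‖ = 1 → mob (-(u j)) 3 (((rho (i + 1) : ℂ) * u s + w0) * u j)
      (3 * ((rho (i + 1) : ℂ) * u s - w0)) ζ ∈ (fam k L (Sum.inr (Sum.inr (i, s)))).pts := by
    intro ζ hζ
    have h' : ‖u j * ζ‖ = 1 := by rw [norm_u_mul]; exact hζ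
    rw [mob2 i s j hζ.le, mem_fam _ (W_ne i s h'.le)]
    change ‖W i s (u j * ζ) - sc i s‖ = 3 / 4 * rho (i + 1)
    rw [W_sub, fm_circ h', mul_comm]
  have h4 : ∀ ζ ∈ Q, mob (-(u j)) 3 (((rho (i + 1) : ℂ) * u s + w0) * u j)
      (3 * ((rho (i + 1) : ℂ) * u s - w0)) ζ ∉ union (fam k L) := by
    intro ζ hζ
    obtain ⟨h5, h6, h7⟩ := uQ j hζ
    rw [mob2 i s j hζ.1.le]
    intro hmem
    obtain ⟨x, hx⟩ := mem_iUnion.1 hmem
    rw [mem_fam x (W_ne i s h5.le)] at hx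
    exact miss2 x i s h5 h6 h7 hx
  have haxis : ∀ ζ : ℂ, ‖ζ‖ ≤ 1 → (u j * ζ).im = 0 →
      mob (-(u j)) 3 (((rho (i + 1) : ℂ) * u s + w0) * u j)
      (3 * ((rho (i + 1) : ℂ) * u s - w0)) ζ ∈ (fam k L (Sum.inl (ax s))).pts := by
    intro ζ hζ him
    have h' : ‖u j * ζ‖ ≤ 1 := by rw [norm_u_mul]; exact hζ
    rw [mob2 i s j hζ, mem_fam _ (W_ne i s h')]
    exact on_axis i s h' him
  have hconc : ∀ ζ : ℂ, ‖ζ‖ ≤ 1 → (u j * ζ).re = 0 →
      mob (-(u j)) 3 (((rho (i + 1) : ℂ) * u s + w0) * u j)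
      (3 * ((rho (i + 1) : ℂ) * u s - w0)) ζ ∈
        (fam k L (Sum.inr (Sum.inl ⟨(i : ℕ) + 1, hi⟩))).pts := by
    intro ζ hζ hre
    have h' : ‖u j * ζ‖ ≤ 1 := by rw [norm_u_mul]; exact hζ
    rw [mob2 i s j hζ, mem_fam _ (W_ne i s h')]
    change ‖W i s (u j * ζ)‖ = rho (i + 1)
    rw [W_norm, (fm_norm h').2 hre, mul_one]
  rcases u_prod j with hj | hj
  · -- `u j` is imaginary
    refine face_of_mob (fam k L) (i := Sum.inr (Sum.inl ⟨(i : ℕ) + 1, hi⟩))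
      (j := Sum.inl (ax s)) (k := Sum.inr (Sum.inr (i, s))) hdet hden (by simp) (by simp)
      (by simp) ?_ ?_ h3 h4
    · intro t ht
      exact hconc _ (hreal t ht) (by rw [mul_re, hj]; simp)
    · intro t ht
      exact haxis _ (himag t ht) (by rw [mul_im, hj]; simp)
  · refine face_of_mob (fam k L) (i := Sum.inl (ax s))
      (j := Sum.inr (Sum.inl ⟨(i : ℕ) + 1, hi⟩)) (k := Sum.inr (Sum.inr (i, s))) hdet hden
      (by simp) (by simp) (by simp) ?_ ?_ h3 h4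
    · intro t ht
      exact haxis _ (hreal t ht) (by rw [mul_im, hj]; simp)
    · intro t ht
      exact hconc _ (himag t ht) (by rw [mul_re, hj]; simp)

/-- The faces found. -/
noncomputable def faces (k : ℕ) : Fin 4 ⊕ (Fin k × Fin 4 × Fin 4) → Set ℂ
  | Sum.inl j => mob 0 1 (u j) (-w0) '' Q
  | Sum.inr (i, s, j) => mob (-(u j)) 3 (((rho (i + 1) : ℂ) * u s + w0) * u j)
      (3 * ((rho (i + 1) : ℂ) * u s - w0)) '' Q

lemma faces_inj (k : ℕ) : Function.Injective (faces k) := by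
  intro x y hxy
  have hq : ‖q0‖ ≤ 1 := norm_q0.le
  match x, y with
  | Sum.inl j, Sum.inl j' =>
    have h1 : mob 0 1 (u j) (-w0) q0 ∈ faces k (Sum.inl j') := by
      rw [← hxy]; exact ⟨q0, q0_mem, rfl⟩
    obtain ⟨ζ, hζ, h2⟩ := h1
    rw [mob1, mob1] at h2
    have h3 := J_inj (ne1 (by rw [norm_u_mul]; exact hζ.1.le))
      (ne1 (by rw [norm_u_mul]; exact hq)) h2
    rw [quad hζ q0_mem h3]
  | Sum.inl j, Sum.inr (i', s', j') =>
    exfalso
    have h1 : mob 0 1 (u j) (-w0) q0 ∈ faces k (Sum.inr (i', s', j')) := by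
      rw [← hxy]; exact ⟨q0, q0_mem, rfl⟩
    obtain ⟨ζ, hζ, h2⟩ := h1
    have h' : ‖u j' * ζ‖ ≤ 1 := by rw [norm_u_mul]; exact hζ.1.le
    rw [mob1, mob2 i' s' j' hζ.1.le] at h2
    have h3 := J_inj (W_ne i' s' h') (ne1 (by rw [norm_u_mul]; exact hq)) h2
    have h4 := W_big i' s' h'
    rw [h3, norm_u_mul] at h4
    linarith
  | Sum.inr (i', s', j'), Sum.inl j =>
    exfalso
    have h1 : mob 0 1 (u j) (-w0) q0 ∈ faces k (Sum.inr (i', s', j')) := by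
      rw [hxy]; exact ⟨q0, q0_mem, rfl⟩
    obtain ⟨ζ, hζ, h2⟩ := h1
    have h' : ‖u j' * ζ‖ ≤ 1 := by rw [norm_u_mul]; exact hζ.1.le
    rw [mob1, mob2 i' s' j' hζ.1.le] at h2
    have h3 := J_inj (W_ne i' s' h') (ne1 (by rw [norm_u_mul]; exact hq)) h2
    have h4 := W_big i' s' h'
    rw [h3, norm_u_mul] at h4
    linarith
  | Sum.inr (i, s, j), Sum.inr (i', s', j') =>
    have h1 : mob (-(u j)) 3 (((rho (i + 1) : ℂ) * u s + w0) * u j)
      (3 * ((rho (i + 1) : ℂ) * u s - w0)) q0 ∈ faces k (Sum.inr (i', s', j')) := by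
      rw [← hxy]; exact ⟨q0, q0_mem, rfl⟩
    obtain ⟨ζ, hζ, h2⟩ := h1
    have h' : ‖u j' * ζ‖ ≤ 1 := by rw [norm_u_mul]; exact hζ.1.le
    have h'' : ‖u j * q0‖ ≤ 1 := by rw [norm_u_mul]; exact hq
    rw [mob2 i s j hq, mob2 i' s' j' hζ.1.le] at h2
    have h3 := J_inj (W_ne i' s' h') (W_ne i s h'') h2
    have g1 := W_le i' s' h'
    have g2 := W_le i s h''
    rw [h3] at g1
    have g3 := small_range g1
    have g4 := small_range g2
    have g5 := rho_pos (i + 1)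
    have g6 : 0 < ‖W i s (u j * q0)‖ := by linarith
    have hii : i = i' := by
      apply Fin.ext
      rcases Nat.lt_trichotomy i i' with h7 | h7 | h7
      · have h8 : 8 * rho (i + 1) ≤ rho (i' + 1) := by
          unfold rho
          rw [← pow_succ']
          exact pow_le_pow_right₀ (by norm_num) (by omega)
        linarith
      · exact h7
      · have h8 : 8 * rho (i' + 1) ≤ rho (i + 1) := by
          unfold rho
          rw [← pow_succ']
          exact pow_le_pow_right₀ (by norm_num) (by omega)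
        linarith
    subst hii
    have hss : s = s' := by
      by_contra hne
      exact small_disj hne g2 g1
    subst hss
    have g7 : fm (u j' * ζ) = fm (u j * q0) := by
      unfold W at h3
      have h9 : (rho (i + 1) : ℂ) * u s ≠ 0 := by
        apply mul_ne_zero _ (u_ne s)
        exact_mod_cast g5.ne'
      exact mul_left_cancel₀ h9 h3
    have g8 := fm_inj h' h'' g7
    rw [quad hζ q0_mem g8]

/-- The number of triangular faces of the family is at least `16 k + 4`. -/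
theorem many_faces {k L : ℕ} (hL : k < L) :
    ((16 * k + 4 : ℕ) : ℕ∞) ≤ {F | IsFace (fam k L) F ∧ IsTriangular (fam k L) F}.encard := by
  have h1 : ((16 * k + 4 : ℕ) : ℕ∞) ≤ (range (faces k)).encard := by
    refine le_trans (le_of_eq ?_) (faces_inj k).encard_range
    rw [ENat.card_eq_coe_fintype_card]
    simp only [Fintype.card_sum, Fintype.card_prod, Fintype.card_fin]
    congr 1
    ring
  refine h1.trans (encard_le_encard ?_)
  rintro _ ⟨x, rfl⟩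
  match x with
  | Sum.inl j => exact face1 (by omega) j
  | Sum.inr (i, s, j) => exact face2 hL i s j

/-- Transfer of the family along a bijection of the index types. -/
theorem transfer {ι κ : Type} (e : κ ≃ ι) (A : ι → Circ) (hA : IsArrangement A) :
    IsArrangement (fun x => A (e x)) ∧
      {F | IsFace A F ∧ IsTriangular A F} ⊆
        {F | IsFace (fun x => A (e x)) F ∧ IsTriangular (fun x => A (e x)) F} := by
  have hU : union (fun x => A (e x)) = union A := by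
    unfold union
    exact e.surjective.iUnion_comp (fun i => (A i).pts)
  refine ⟨fun i j hij => hA _ _ (fun h => hij (e.injective h)), ?_⟩
  rintro F ⟨⟨z, hz, hF⟩, ⟨i, j, k, x, y, z', S, T, U, h1, h2, h3, h4, h5, h6, h7⟩⟩
  refine ⟨⟨z, by rw [hU]; exact hz, by rw [hU]; exact hF⟩, ?_⟩
  refine ⟨e.symm i, e.symm j, e.symm k, x, y, z', S, T, U, fun h => h1 (e.symm.injective h),
    fun h => h2 (e.symm.injective h), fun h => h3 (e.symm.injective h), ?_, ?_, ?_, h7⟩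
  · simpa using h4
  · simpa using h5
  · simpa using h6

/-- For `n ≥ 5 k + 3` there are arrangements of `n` orthogonal circles with at least `16 k + 4`
triangular faces. -/
theorem exists_arr (k n : ℕ) (hn : 5 * k + 3 ≤ n) :
    ∃ A : Fin n → Circ, IsArrangement A ∧
      ((16 * k + 4 : ℕ) : ℕ∞) ≤ {F | IsFace A F ∧ IsTriangular A F}.encard := by
  obtain ⟨L, hL, hn'⟩ : ∃ L, k < L ∧ n = 2 + (L + k * 4) := ⟨n - 2 - 4 * k, by omega, by omega⟩
  have hc : Fintype.card (Fin n) = Fintype.card (Idx k L) := by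
    simp only [Fintype.card_sum, Fintype.card_prod, Fintype.card_fin, Fintype.card_bool]
    exact hn'
  obtain ⟨h1, h2⟩ := transfer (Fintype.equivOfCardEq hc) (fam k L) (arr_fam k L)
  exact ⟨_, h1, (many_faces hL).trans (encard_le_encard h2)⟩

end Pool.Agent.X129.OrthCirc
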