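import Pool.Agent.X129.OrthCirc

/-!
The family: the two axes, `k+1` concentric circles and `4k` small circles in the `w`-plane,
carried to the plane by `z = 1 / (w - w0)`.
-/

namespace Pool.Agent.X129.OrthCirc

open Complex Metric Set

/-- The pole of the inversion. -/
noncomputable def w0 : ℂ := ⟨1, 1⟩

/-- The map `z = 1 / (w - w0)`. -/
noncomputable def J (w : ℂ) : ℂ := 1 / (w - w0)

/-- The circle which is the image of `‖w - m‖ = r` under `J`. -/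
noncomputable def invCirc (m : ℂ) (r : ℝ) (h : 0 < r) (hD : normSq (m - w0) - r ^ 2 ≠ 0) : Circ where
  c := (starRingEnd ℂ) (m - w0) / ((normSq (m - w0) - r ^ 2 : ℝ) : ℂ)
  r := r / |normSq (m - w0) - r ^ 2|
  pos := div_pos h (abs_pos.2 hD)

/-- Image of the real axis. -/
noncomputable def axR : Circ := ⟨⟨0, 1 / 2⟩, 1 / 2, by norm_num⟩

/-- Image of the imaginary axis. -/
noncomputable def axI : Circ := ⟨⟨-1 / 2, 0⟩, 1 / 2, by norm_num⟩

lemma norm_eq_iff_sq {z : ℂ} {r : ℝ} (hr : 0 ≤ r) :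
    ‖z‖ = r ↔ z.re ^ 2 + z.im ^ 2 = r ^ 2 := by
  rw [← sq_eq_sq₀ (norm_nonneg _) hr, Complex.sq_norm, Complex.normSq_apply]
  constructor <;> intro h <;> linarith

lemma J_re (w : ℂ) : (J w).re = (w.re - 1) / ((w.re - 1) ^ 2 + (w.im - 1) ^ 2) := by
  unfold J
  rw [one_div, Complex.inv_re, Complex.normSq_apply]
  simp only [sub_re, sub_im, w0]
  congr 1; ring

lemma J_im (w : ℂ) : (J w).im = -(w.im - 1) / ((w.re - 1) ^ 2 + (w.im - 1) ^ 2) := by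
  unfold J
  rw [one_div, Complex.inv_im, Complex.normSq_apply]
  simp only [sub_re, sub_im, w0]
  congr 1; ring

lemma den_pos {w : ℂ} (hw : w ≠ w0) : 0 < (w.re - 1) ^ 2 + (w.im - 1) ^ 2 := by
  by_contra hc
  apply hw
  have h1 : (w.re - 1) ^ 2 = 0 := by nlinarith [sq_nonneg (w.re - 1), sq_nonneg (w.im - 1)]
  have h2 : (w.im - 1) ^ 2 = 0 := by nlinarith [sq_nonneg (w.re - 1), sq_nonneg (w.im - 1)]
  have h3 : w.re - 1 = 0 := by simpa using h1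
  have h4 : w.im - 1 = 0 := by simpa using h2
  apply Complex.ext
  · simp only [w0]; linarith
  · simp only [w0]; linarith

lemma mem_axR {w : ℂ} (hw : w ≠ w0) : J w ∈ axR.pts ↔ w.im = 0 := by
  have hd := den_pos hw
  change ‖J w - axR.c‖ = axR.r ↔ _
  rw [norm_eq_iff_sq axR.pos.le, sub_re, sub_im, J_re, J_im]
  simp only [axR]
  set X := w.re - 1 with hX
  set Y := w.im - 1 with hY
  have hne : X ^ 2 + Y ^ 2 ≠ 0 := hd.ne'
  have e : (X / (X ^ 2 + Y ^ 2) - 0) ^ 2 + (-Y / (X ^ 2 + Y ^ 2) - 1 / 2) ^ 2 - (1 / 2) ^ 2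
      = (1 + Y) / (X ^ 2 + Y ^ 2) := by
    field_simp
    ring
  constructor
  · intro h
    rw [← sub_eq_zero, e, div_eq_zero_iff] at h
    rcases h with h | h
    · rw [hY] at h; linarith
    · exact absurd h hne
  · intro h
    rw [← sub_eq_zero, e, div_eq_zero_iff]
    left; rw [hY, h]; ring

lemma mem_axI {w : ℂ} (hw : w ≠ w0) : J w ∈ axI.pts ↔ w.re = 0 := by
  have hd := den_pos hw
  change ‖J w - axI.c‖ = axI.r ↔ _
  rw [norm_eq_iff_sq axI.pos.le, sub_re, sub_im, J_re, J_im]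
  simp only [axI]
  set X := w.re - 1 with hX
  set Y := w.im - 1 with hY
  have hne : X ^ 2 + Y ^ 2 ≠ 0 := hd.ne'
  have e : (X / (X ^ 2 + Y ^ 2) - -1 / 2) ^ 2 + (-Y / (X ^ 2 + Y ^ 2) - 0) ^ 2 - (1 / 2) ^ 2
      = (1 + X) / (X ^ 2 + Y ^ 2) := by
    field_simp
    ring
  constructor
  · intro h
    rw [← sub_eq_zero, e, div_eq_zero_iff] at h
    rcases h with h | h
    · rw [hX] at h; linarith
    · exact absurd h hne
  · intro h
    rw [← sub_eq_zero, e, div_eq_zero_iff]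
    left; rw [hX, h]; ring

lemma mem_inv {m : ℂ} {r : ℝ} (hr : 0 < r) (hD : normSq (m - w0) - r ^ 2 ≠ 0) {w : ℂ}
    (hw : w ≠ w0) : J w ∈ (invCirc m r hr hD).pts ↔ ‖w - m‖ = r := by
  have hd := den_pos hw
  change ‖J w - (invCirc m r hr hD).c‖ = (invCirc m r hr hD).r ↔ _
  rw [norm_eq_iff_sq (invCirc m r hr hD).pos.le, sub_re, sub_im, J_re, J_im,
    norm_eq_iff_sq hr.le]
  simp only [invCirc]
  rw [Complex.div_ofReal_re, Complex.div_ofReal_im, div_pow, sq_abs]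
  simp only [conj_re, conj_im, sub_re, sub_im]
  have hDe : normSq (m - w0) - r ^ 2 = (m.re - 1) ^ 2 + (m.im - 1) ^ 2 - r ^ 2 := by
    rw [Complex.normSq_apply]; simp only [sub_re, sub_im, w0]; ring
  rw [hDe] at hD ⊢
  have e1 : w.re - m.re = (w.re - 1) - (m.re - 1) := by ring
  have e2 : w.im - m.im = (w.im - 1) - (m.im - 1) := by ring
  have e3 : (w0 : ℂ).re = 1 := rfl
  have e4 : (w0 : ℂ).im = 1 := rfl
  rw [e1, e2, e3, e4]
  set X := w.re - 1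
  set Y := w.im - 1
  set p := m.re - 1
  set q := m.im - 1
  have hne : X ^ 2 + Y ^ 2 ≠ 0 := hd.ne'
  have e : (X / (X ^ 2 + Y ^ 2) - p / (p ^ 2 + q ^ 2 - r ^ 2)) ^ 2 +
      (-Y / (X ^ 2 + Y ^ 2) - -q / (p ^ 2 + q ^ 2 - r ^ 2)) ^ 2 -
      r ^ 2 / (p ^ 2 + q ^ 2 - r ^ 2) ^ 2
      = ((X - p) ^ 2 + (Y - q) ^ 2 - r ^ 2) /
        ((X ^ 2 + Y ^ 2) * (p ^ 2 + q ^ 2 - r ^ 2)) := by
    field_simp
    ring
  rw [← sub_eq_zero, e, div_eq_zero_iff, ← sub_eq_zero (a := (X - p) ^ 2 + (Y - q) ^ 2)]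
  constructor
  · rintro (h | h)
    · exact h
    · exact absurd h (mul_ne_zero hne hD)
  · exact Or.inl

lemma zero_notMem_inv {m : ℂ} {r : ℝ} (hr : 0 < r) (hD : normSq (m - w0) - r ^ 2 ≠ 0) :
    (0 : ℂ) ∉ (invCirc m r hr hD).pts := by
  intro h
  change ‖0 - (invCirc m r hr hD).c‖ = (invCirc m r hr hD).r at h
  rw [norm_eq_iff_sq (invCirc m r hr hD).pos.le] at h
  simp only [invCirc, sub_re, sub_im, zero_re, zero_im] at h
  rw [Complex.div_ofReal_re, Complex.div_ofReal_im, div_pow, sq_abs] at h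
  simp only [conj_re, conj_im, sub_re, sub_im] at h
  have hDe : normSq (m - w0) - r ^ 2 = (m.re - 1) ^ 2 + (m.im - 1) ^ 2 - r ^ 2 := by
    rw [Complex.normSq_apply]; simp only [sub_re, sub_im, w0]; ring
  rw [hDe] at hD h
  have e3 : (w0 : ℂ).re = 1 := rfl
  have e4 : (w0 : ℂ).im = 1 := rfl
  rw [e3, e4] at h
  set p := m.re - 1
  set q := m.im - 1
  have e : (0 - p / (p ^ 2 + q ^ 2 - r ^ 2)) ^ 2 + (0 - -q / (p ^ 2 + q ^ 2 - r ^ 2)) ^ 2 -
      r ^ 2 / (p ^ 2 + q ^ 2 - r ^ 2) ^ 2 = 1 / (p ^ 2 + q ^ 2 - r ^ 2) := by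
    field_simp
    ring
  rw [← sub_eq_zero, e] at h
  exact one_div_ne_zero hD h

/-- Every nonzero point is `J w` for some `w ≠ w0`. -/
lemma exists_J {z : ℂ} (hz : z ≠ 0) : ∃ w, w ≠ w0 ∧ J w = z := by
  refine ⟨w0 + 1 / z, ?_, ?_⟩
  · intro h
    have : (1 : ℂ) / z = 0 := by linear_combination h
    exact one_div_ne_zero hz this
  · unfold J
    rw [add_sub_cancel_left, one_div_one_div]

lemma J_inj {w w' : ℂ} (hw : w ≠ w0) (hw' : w' ≠ w0) (h : J w = J w') : w = w' := by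
  unfold J at h
  rw [div_eq_div_iff (sub_ne_zero.2 hw) (sub_ne_zero.2 hw')] at h
  linear_combination -h

lemma orth_axes : Orth axR axI := by
  apply orth_of_sq
  rw [Complex.sq_norm, Complex.normSq_apply]
  simp only [axR, axI, sub_re, sub_im]
  norm_num

lemma orth_axR_inv {m : ℂ} {r : ℝ} (hr : 0 < r) (hD : normSq (m - w0) - r ^ 2 ≠ 0)
    (hm : m.im = 0) : Orth axR (invCirc m r hr hD) := by
  apply orth_of_sq
  rw [Complex.sq_norm, Complex.normSq_apply]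
  simp only [axR, invCirc, sub_re, sub_im]
  rw [Complex.div_ofReal_re, Complex.div_ofReal_im, div_pow r, sq_abs]
  simp only [conj_re, conj_im, sub_re, sub_im]
  have hDe : normSq (m - w0) - r ^ 2 = (m.re - 1) ^ 2 + 1 - r ^ 2 := by
    rw [Complex.normSq_apply]; simp only [sub_re, sub_im, w0, hm]; ring
  rw [hDe] at hD ⊢
  have e3 : (w0 : ℂ).re = 1 := rfl
  have e4 : (w0 : ℂ).im = 1 := rfl
  rw [e3, e4, hm]
  set p := m.re - 1
  field_simp
  ring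

lemma orth_axI_inv {m : ℂ} {r : ℝ} (hr : 0 < r) (hD : normSq (m - w0) - r ^ 2 ≠ 0)
    (hm : m.re = 0) : Orth axI (invCirc m r hr hD) := by
  apply orth_of_sq
  rw [Complex.sq_norm, Complex.normSq_apply]
  simp only [axI, invCirc, sub_re, sub_im]
  rw [Complex.div_ofReal_re, Complex.div_ofReal_im, div_pow r, sq_abs]
  simp only [conj_re, conj_im, sub_re, sub_im]
  have hDe : normSq (m - w0) - r ^ 2 = 1 + (m.im - 1) ^ 2 - r ^ 2 := by
    rw [Complex.normSq_apply]; simp only [sub_re, sub_im, w0, hm]; ring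
  rw [hDe] at hD ⊢
  have e3 : (w0 : ℂ).re = 1 := rfl
  have e4 : (w0 : ℂ).im = 1 := rfl
  rw [e3, e4, hm]
  set p := m.im - 1
  field_simp
  ring

lemma orth_inv_inv {m m' : ℂ} {r r' : ℝ} (hr : 0 < r) (hD : normSq (m - w0) - r ^ 2 ≠ 0)
    (hr' : 0 < r') (hD' : normSq (m' - w0) - r' ^ 2 ≠ 0)
    (h : (m.re - m'.re) ^ 2 + (m.im - m'.im) ^ 2 = r ^ 2 + r' ^ 2) :
    Orth (invCirc m r hr hD) (invCirc m' r' hr' hD') := by
  apply orth_of_sq
  rw [Complex.sq_norm, Complex.normSq_apply]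
  simp only [invCirc, sub_re, sub_im]
  rw [Complex.div_ofReal_re, Complex.div_ofReal_im, Complex.div_ofReal_re,
    Complex.div_ofReal_im, div_pow, sq_abs, div_pow, sq_abs]
  simp only [conj_re, conj_im, sub_re, sub_im]
  have hDe : normSq (m - w0) - r ^ 2 = (m.re - 1) ^ 2 + (m.im - 1) ^ 2 - r ^ 2 := by
    rw [Complex.normSq_apply]; simp only [sub_re, sub_im, w0]; ring
  have hDe' : normSq (m' - w0) - r' ^ 2 = (m'.re - 1) ^ 2 + (m'.im - 1) ^ 2 - r' ^ 2 := by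
    rw [Complex.normSq_apply]; simp only [sub_re, sub_im, w0]; ring
  rw [hDe] at hD ⊢
  rw [hDe'] at hD' ⊢
  have e3 : (w0 : ℂ).re = 1 := rfl
  have e4 : (w0 : ℂ).im = 1 := rfl
  rw [e3, e4]
  have h' : ((m.re - 1) - (m'.re - 1)) ^ 2 + ((m.im - 1) - (m'.im - 1)) ^ 2 = r ^ 2 + r' ^ 2 := by
    rw [← h]; ring
  set p := m.re - 1
  set q := m.im - 1
  set p' := m'.re - 1
  set q' := m'.im - 1
  rw [← sub_eq_zero]
  have e : (p / (p ^ 2 + q ^ 2 - r ^ 2) - p' / (p' ^ 2 + q' ^ 2 - r' ^ 2)) *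
        (p / (p ^ 2 + q ^ 2 - r ^ 2) - p' / (p' ^ 2 + q' ^ 2 - r' ^ 2)) +
      (-q / (p ^ 2 + q ^ 2 - r ^ 2) - -q' / (p' ^ 2 + q' ^ 2 - r' ^ 2)) *
        (-q / (p ^ 2 + q ^ 2 - r ^ 2) - -q' / (p' ^ 2 + q' ^ 2 - r' ^ 2)) -
      (r ^ 2 / (p ^ 2 + q ^ 2 - r ^ 2) ^ 2 + r' ^ 2 / (p' ^ 2 + q' ^ 2 - r' ^ 2) ^ 2)
      = ((p - p') ^ 2 + (q - q') ^ 2 - (r ^ 2 + r' ^ 2)) /
        ((p ^ 2 + q ^ 2 - r ^ 2) * (p' ^ 2 + q' ^ 2 - r' ^ 2)) := by
    field_simp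
    ring
  rw [e, h', sub_self, zero_div]

end Pool.Agent.X129.OrthCirc
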