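import Pool.Agent.X129.OrthFam

/-!
The index type, the family and the proof that it is an arrangement of orthogonal circles.
-/

namespace Pool.Agent.X129.OrthCirc

open Complex Metric Set

/-- The four directions `1, I, -1, -I`. -/
noncomputable def u : Fin 4 → ℂ := ![⟨1, 0⟩, ⟨0, 1⟩, ⟨-1, 0⟩, ⟨0, -1⟩]

lemma u_sq (s : Fin 4) : (u s).re ^ 2 + (u s).im ^ 2 = 1 := by
  fin_cases s <;> simp [u]

lemma u_norm (s : Fin 4) : ‖u s‖ = 1 := by
  rw [norm_eq_iff_sq zero_le_one, u_sq]; norm_num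

lemma u_ne (s : Fin 4) : u s ≠ 0 := by
  intro h
  have := u_norm s
  rw [h, norm_zero] at this
  norm_num at this

lemma u_prod (s : Fin 4) : (u s).re = 0 ∨ (u s).im = 0 := by
  fin_cases s <;> simp [u]

lemma u_sum (s : Fin 4) : (u s).re + (u s).im ≤ 1 := by
  fin_cases s <;> simp [u]

lemma u_dist {s s' : Fin 4} (h : s ≠ s') :
    2 ≤ ((u s).re - (u s').re) ^ 2 + ((u s).im - (u s').im) ^ 2 := by
  fin_cases s <;> fin_cases s' <;> simp [u] at h ⊢ <;> norm_num

/-- Powers of `8`. -/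
noncomputable def rho (i : ℕ) : ℝ := 8 ^ i

lemma rho_pos (i : ℕ) : 0 < rho i := by unfold rho; positivity

lemma sr_pos (i : ℕ) : 0 < 3 / 4 * rho (i + 1) := by
  have := rho_pos (i + 1)
  positivity

lemma rho_one (i : ℕ) : 1 ≤ rho i := by
  unfold rho; exact one_le_pow₀ (by norm_num)

lemma rho_eight (i : ℕ) : 8 ≤ rho (i + 1) := by
  unfold rho
  rw [pow_succ]
  have : (1 : ℝ) ≤ 8 ^ i := one_le_pow₀ (by norm_num)
  linarith

lemma rho_eq {i j : ℕ} (h1 : rho i < 4 * rho j) (h2 : rho j < 4 * rho i) : i = j := by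
  unfold rho at h1 h2
  rcases lt_trichotomy i j with h | h | h
  · exfalso
    have h3 : (8 : ℝ) ^ (i + 1) ≤ 8 ^ j := pow_le_pow_right₀ (by norm_num) h
    rw [pow_succ] at h3
    have : (0 : ℝ) < 8 ^ i := by positivity
    linarith
  · exact h
  · exfalso
    have h3 : (8 : ℝ) ^ (j + 1) ≤ 8 ^ i := pow_le_pow_right₀ (by norm_num) h
    rw [pow_succ] at h3
    have : (0 : ℝ) < 8 ^ j := by positivity
    linarith

/-- Index type. -/
abbrev Idx (k L : ℕ) : Type := Bool ⊕ (Fin L ⊕ (Fin k × Fin 4))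

/-- Centre of the small circle. -/
noncomputable def sc (i : ℕ) (s : Fin 4) : ℂ := ((5 / 4 * rho (i + 1) : ℝ) : ℂ) * u s

lemma sc_re (i : ℕ) (s : Fin 4) : (sc i s).re = 5 / 4 * rho (i + 1) * (u s).re := by
  unfold sc; rw [Complex.re_ofReal_mul]

lemma sc_im (i : ℕ) (s : Fin 4) : (sc i s).im = 5 / 4 * rho (i + 1) * (u s).im := by
  unfold sc; rw [Complex.im_ofReal_mul]

lemma sc_norm (i : ℕ) (s : Fin 4) : ‖sc i s‖ = 5 / 4 * rho (i + 1) := by
  unfold sc
  rw [norm_mul, u_norm, mul_one, Complex.norm_real, Real.norm_of_nonneg]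
  have := rho_pos (i + 1)
  positivity

/-- Membership in the `w`-plane. -/
def On {k L : ℕ} : Idx k L → ℂ → Prop
  | Sum.inl false, w => w.im = 0
  | Sum.inl true, w => w.re = 0
  | Sum.inr (Sum.inl j), w => ‖w‖ = rho j
  | Sum.inr (Sum.inr (i, s)), w => ‖w - sc i s‖ = 3 / 4 * rho (i + 1)

lemma conc_D (j : ℕ) : normSq (0 - w0) - (rho j) ^ 2 ≠ 0 := by
  have h1 : normSq (0 - w0) = 2 := by
    rw [Complex.normSq_apply]; simp [w0]; norm_num
  rw [h1]
  rcases Nat.eq_zero_or_pos j with h | h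
  · subst h; unfold rho; norm_num
  · obtain ⟨m, rfl⟩ : ∃ m, j = m + 1 := ⟨j - 1, by omega⟩
    have := rho_eight m
    nlinarith

lemma small_D (i : ℕ) (s : Fin 4) : normSq (sc i s - w0) - (3 / 4 * rho (i + 1)) ^ 2 ≠ 0 := by
  have h1 : normSq (sc i s - w0) = (5 / 4 * rho (i + 1)) ^ 2 * ((u s).re ^ 2 + (u s).im ^ 2)
      - 2 * (5 / 4 * rho (i + 1)) * ((u s).re + (u s).im) + 2 := by
    rw [Complex.normSq_apply]
    simp only [sub_re, sub_im, sc_re, sc_im, w0]
    ring
  rw [h1, u_sq]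
  have h2 := rho_eight i
  have h3 := u_sum s
  apply ne_of_gt
  nlinarith [mul_nonneg (by linarith : (0:ℝ) ≤ rho (i + 1)) (by linarith : (0:ℝ) ≤ 1 - ((u s).re + (u s).im))]

/-- The family of circles. -/
noncomputable def fam (k L : ℕ) : Idx k L → Circ
  | Sum.inl false => axR
  | Sum.inl true => axI
  | Sum.inr (Sum.inl j) => invCirc 0 (rho j) (rho_pos j) (conc_D j)
  | Sum.inr (Sum.inr (i, s)) =>
      invCirc (sc i s) (3 / 4 * rho (i + 1)) (sr_pos i) (small_D i s)

lemma mem_fam {k L : ℕ} (x : Idx k L) {w : ℂ} (hw : w ≠ w0) :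
    J w ∈ (fam k L x).pts ↔ On x w := by
  match x with
  | Sum.inl false => exact mem_axR hw
  | Sum.inl true => exact mem_axI hw
  | Sum.inr (Sum.inl j) =>
    have := mem_inv (rho_pos j) (conc_D j) hw
    rw [sub_zero] at this
    exact this
  | Sum.inr (Sum.inr (i, s)) => exact mem_inv (sr_pos i) (small_D i s) hw

lemma disj_fam {k L : ℕ} (x : Fin L ⊕ (Fin k × Fin 4)) (y : Idx k L)
    (h : ∀ w, On (Sum.inr x : Idx k L) w → On y w → False) :
    Disjoint (fam k L (Sum.inr x)).pts (fam k L y).pts := by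
  rw [Set.disjoint_left]
  intro z hz hz'
  have h0 : z ≠ 0 := by
    rintro rfl
    match x with
    | Sum.inl j => exact zero_notMem_inv (rho_pos j) (conc_D j) hz
    | Sum.inr (i, s) => exact zero_notMem_inv (sr_pos i) (small_D i s) hz
  obtain ⟨w, hw, rfl⟩ := exists_J h0
  exact h w ((mem_fam _ hw).1 hz) ((mem_fam _ hw).1 hz')

lemma Orth.symm {C D : Circ} (h : Orth C D) : Orth D C := by
  obtain ⟨⟨z, w, hne, he⟩, h2⟩ := h
  refine ⟨⟨z, w, hne, by rw [inter_comm, he]⟩, ?_⟩
  intro z hz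
  have h3 := h2 z ⟨hz.2, hz.1⟩
  simp only [mul_re, conj_re, conj_im, sub_re, sub_im] at h3 ⊢
  linarith

/-- Points on the small circle have modulus between `rho/2` and `2 rho`. -/
lemma small_range {i : ℕ} {s : Fin 4} {w : ℂ} (h : ‖w - sc i s‖ ≤ 3 / 4 * rho (i + 1)) :
    rho (i + 1) ≤ 2 * ‖w‖ ∧ ‖w‖ ≤ 2 * rho (i + 1) := by
  have h1 : ‖sc i s‖ ≤ ‖w‖ + ‖w - sc i s‖ := by
    calc ‖sc i s‖ = ‖w - (w - sc i s)‖ := by congr 1; ring
      _ ≤ _ := norm_sub_le _ _
  have h2 : ‖w‖ ≤ ‖sc i s‖ + ‖w - sc i s‖ := by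
    calc ‖w‖ = ‖sc i s + (w - sc i s)‖ := by congr 1; ring
      _ ≤ _ := norm_add_le _ _
  rw [sc_norm] at h1 h2
  constructor <;> linarith

/-- Small closed discs at the same level are disjoint. -/
lemma small_disj {i : ℕ} {s s' : Fin 4} (hs : s ≠ s') {w : ℂ}
    (h : ‖w - sc i s‖ ≤ 3 / 4 * rho (i + 1)) (h' : ‖w - sc i s'‖ ≤ 3 / 4 * rho (i + 1)) :
    False := by
  have h1 : ‖sc i s - sc i s'‖ ≤ ‖w - sc i s'‖ + ‖w - sc i s‖ := by
    calc ‖sc i s - sc i s'‖ = ‖(w - sc i s') - (w - sc i s)‖ := by congr 1; ring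
      _ ≤ _ := norm_sub_le _ _
  have h2 : ‖sc i s - sc i s'‖ ≤ 3 / 2 * rho (i + 1) := by linarith
  have h3 : ‖sc i s - sc i s'‖ ^ 2 = (5 / 4 * rho (i + 1)) ^ 2 *
      (((u s).re - (u s').re) ^ 2 + ((u s).im - (u s').im) ^ 2) := by
    rw [Complex.sq_norm, Complex.normSq_apply]
    simp only [sub_re, sub_im, sc_re, sc_im]
    ring
  have h4 := u_dist hs
  have h5 := rho_pos (i + 1)
  have h6 : ‖sc i s - sc i s'‖ ^ 2 ≤ (3 / 2 * rho (i + 1)) ^ 2 :=
    pow_le_pow_left₀ (norm_nonneg _) h2 2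
  have h7 : 0 < rho (i + 1) ^ 2 := by positivity
  nlinarith [mul_nonneg h7.le (by linarith : (0:ℝ) ≤ ((u s).re - (u s').re) ^ 2 +
    ((u s).im - (u s').im) ^ 2 - 2)]

lemma arr_inl_inr {k L : ℕ} (b : Bool) (x : Fin L ⊕ (Fin k × Fin 4)) :
    Disjoint (fam k L (Sum.inr x)).pts (fam k L (Sum.inl b)).pts ∨
      Orth (fam k L (Sum.inr x)) (fam k L (Sum.inl b)) := by
  match b, x with
  | false, Sum.inl j => exact Or.inr (orth_axR_inv (rho_pos j) (conc_D j) (by simp)).symm
  | true, Sum.inl j => exact Or.inr (orth_axI_inv (rho_pos j) (conc_D j) (by simp)).symm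
  | false, Sum.inr (i, s) =>
    by_cases hs : (u s).im = 0
    · exact Or.inr (orth_axR_inv (sr_pos i) (small_D i s) (by rw [sc_im, hs, mul_zero])).symm
    · left
      apply disj_fam
      intro w h1 h2
      have h1' : ‖w - sc i s‖ = 3 / 4 * rho (i + 1) := h1
      have h2' : w.im = 0 := h2
      have h3 : (u s).im ^ 2 = 1 := by
        have := u_sq s
        rcases u_prod s with h4 | h4
        · rw [h4] at this; linarith
        · exact absurd h4 hs
      have h4 := rho_pos (i + 1)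
      rw [norm_eq_iff_sq (by positivity), sub_re, sub_im, h2', sc_im] at h1'
      nlinarith [sq_nonneg (w.re - (sc i s).re), sq_nonneg (rho (i+1)), mul_pos h4 h4]
  | true, Sum.inr (i, s) =>
    by_cases hs : (u s).re = 0
    · exact Or.inr (orth_axI_inv (sr_pos i) (small_D i s) (by rw [sc_re, hs, mul_zero])).symm
    · left
      apply disj_fam
      intro w h1 h2
      have h1' : ‖w - sc i s‖ = 3 / 4 * rho (i + 1) := h1
      have h2' : w.re = 0 := h2
      have h3 : (u s).re ^ 2 = 1 := by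
        have := u_sq s
        rcases u_prod s with h4 | h4
        · exact absurd h4 hs
        · rw [h4] at this; linarith
      have h4 := rho_pos (i + 1)
      rw [norm_eq_iff_sq (by positivity), sub_re, sub_im, h2', sc_re] at h1'
      nlinarith [sq_nonneg (w.im - (sc i s).im), sq_nonneg (rho (i+1)), mul_pos h4 h4]

lemma arr_conc_small {k L : ℕ} (j : Fin L) (x : Fin k × Fin 4) :
    Disjoint (fam k L (Sum.inr (Sum.inl j))).pts (fam k L (Sum.inr (Sum.inr x))).pts ∨
      Orth (fam k L (Sum.inr (Sum.inl j))) (fam k L (Sum.inr (Sum.inr x))) := by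
  obtain ⟨i, s⟩ := x
  by_cases h : (j : ℕ) = i + 1
  · right
    refine orth_inv_inv (rho_pos j) (conc_D j) (sr_pos i) (small_D i s) ?_
    rw [zero_re, zero_im, sc_re, sc_im, h]
    have := u_sq s
    linear_combination (5 / 4 * rho (i + 1)) ^ 2 * this
  · left
    apply disj_fam
    intro w h1 h2
    have h1' : ‖w‖ = rho j := h1
    have h2' : ‖w - sc i s‖ = 3 / 4 * rho (i + 1) := h2
    have h3 := small_range h2'.le
    have h4 := rho_pos (i + 1)
    have h5 := rho_pos j
    exact h (rho_eq (by linarith) (by linarith))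

theorem arr_fam (k L : ℕ) : IsArrangement (fam k L) := by
  intro x y hxy
  match x, y with
  | Sum.inl a, Sum.inl b =>
    right
    match a, b with
    | false, false => exact absurd rfl hxy
    | true, true => exact absurd rfl hxy
    | false, true => exact orth_axes
    | true, false => exact orth_axes.symm
  | Sum.inl a, Sum.inr y =>
    rcases arr_inl_inr a y with h | h
    · exact Or.inl h.symm
    · exact Or.inr h.symm
  | Sum.inr x, Sum.inl b => exact arr_inl_inr b x
  | Sum.inr (Sum.inl j), Sum.inr (Sum.inr y) => exact arr_conc_small j y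
  | Sum.inr (Sum.inr x), Sum.inr (Sum.inl j) =>
    rcases arr_conc_small j x with h | h
    · exact Or.inl h.symm
    · exact Or.inr h.symm
  | Sum.inr (Sum.inl j), Sum.inr (Sum.inl j') =>
    left
    apply disj_fam
    intro w h1 h2
    have h1' : ‖w‖ = rho j := h1
    have h2' : ‖w‖ = rho j' := h2
    have h4 := rho_pos j
    have h5 := rho_pos j'
    have : (j : ℕ) = j' := rho_eq (by linarith) (by linarith)
    exact hxy (by rw [Fin.ext this])
  | Sum.inr (Sum.inr (i, s)), Sum.inr (Sum.inr (i', s')) =>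
    left
    apply disj_fam
    intro w h1 h2
    have h1' : ‖w - sc i s‖ = 3 / 4 * rho (i + 1) := h1
    have h2' : ‖w - sc i' s'‖ = 3 / 4 * rho (i' + 1) := h2
    have h3 := small_range h1'.le
    have h3' := small_range h2'.le
    have h4 := rho_pos (i + 1)
    have h5 := rho_pos (i' + 1)
    have hw : 0 < ‖w‖ := by linarith
    rcases eq_or_ne i i' with h6 | h6
    · subst h6
      have hs : s ≠ s' := fun h => hxy (by rw [h])
      exact small_disj hs h1'.le h2'.le
    · -- ratio is at least 8, ranges overlap only if ratio ≤ 4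
      rcases Nat.lt_or_gt_of_ne (fun h => h6 (Fin.ext h)) with h7 | h7
      · have h8 : 8 * rho (i + 1) ≤ rho (i' + 1) := by
          unfold rho
          rw [← pow_succ']
          exact pow_le_pow_right₀ (by norm_num) (by omega)
        linarith
      · have h8 : 8 * rho (i' + 1) ≤ rho (i + 1) := by
          unfold rho
          rw [← pow_succ']
          exact pow_le_pow_right₀ (by norm_num) (by omega)
        linarith

end Pool.Agent.X129.OrthCirc
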