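import Pool.Agent.X129.OrthFaces

/-!
The general construction: putting a small circle round each crossing point of an arrangement.
-/

namespace Pool.Agent.X129.OrthCirc

open Complex Metric Set

lemma rad_perp {ι : Type} {A : ι → Circ} (hA : IsArrangement A) {i j : ι} (hij : i ≠ j) {p : ℂ}
    (hi : p ∈ (A i).pts) (hj : p ∈ (A j).pts) :
    (p.re - (A i).c.re) * (p.re - (A j).c.re) + (p.im - (A i).c.im) * (p.im - (A j).c.im) = 0 := by
  rcases hA i j hij with h | h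
  · exact absurd hj (Set.disjoint_left.1 h hi)
  · have := h.2 p ⟨hi, hj⟩
    simp only [mul_re, conj_re, conj_im, sub_re, sub_im] at this
    linarith

lemma rad_sq {C : Circ} {p : ℂ} (h : p ∈ C.pts) :
    (p.re - C.c.re) ^ 2 + (p.im - C.c.im) ^ 2 = C.r ^ 2 := by
  have h' : ‖p - C.c‖ = C.r := h
  rw [norm_eq_iff_sq C.pos.le, sub_re, sub_im] at h'
  exact h'

lemma no_three {ι : Type} {A : ι → Circ} (hA : IsArrangement A) {i j k : ι} (hij : i ≠ j)
    (hjk : j ≠ k) (hik : i ≠ k) {p : ℂ} (hi : p ∈ (A i).pts) (hj : p ∈ (A j).pts)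
    (hk : p ∈ (A k).pts) : False := by
  have h1 := rad_perp hA hij hi hj
  have h2 := rad_perp hA hjk hj hk
  have h3 := rad_perp hA hik hi hk
  have n1 := rad_sq hi
  have n2 := rad_sq hj
  have n3 := rad_sq hk
  have p1 := pow_pos (A i).pos 2
  have p2 := pow_pos (A j).pos 2
  have p3 := pow_pos (A k).pos 2
  set a1 := p.re - (A i).c.re
  set a2 := p.im - (A i).c.im
  set b1 := p.re - (A j).c.re
  set b2 := p.im - (A j).c.im
  set c1 := p.re - (A k).c.re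
  set c2 := p.im - (A k).c.im
  have e1 : (a1 * b2 - a2 * b1) * (a1 * c2 - a2 * c1) = 0 := by
    linear_combination (a1 ^ 2 + a2 ^ 2) * h2 - (a1 * c1 + a2 * c2) * h1
  rcases mul_eq_zero.1 e1 with h | h
  · have : (a1 ^ 2 + a2 ^ 2) * (b1 ^ 2 + b2 ^ 2) = 0 := by
      linear_combination (a1 * b1 + a2 * b2) * h1 + (a1 * b2 - a2 * b1) * h
    rw [n1, n2] at this
    exact (mul_pos p1 p2).ne' this
  · have : (a1 ^ 2 + a2 ^ 2) * (c1 ^ 2 + c2 ^ 2) = 0 := by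
      linear_combination (a1 * c1 + a2 * c2) * h3 + (a1 * c2 - a2 * c1) * h
    rw [n1, n3] at this
    exact (mul_pos p1 p3).ne' this

/-- The local chart at the crossing point `p`. -/
noncomputable def Z (p v w : ℂ) : ℂ := p + w / (1 + v * w)

lemma one_add_ne {v w : ℂ} {ε : ℝ} (hv : ε * ‖v‖ ≤ 1 / 2) (hw : ‖w‖ ≤ ε) : 1 + v * w ≠ 0 := by
  intro h
  have h1 : v * w = -1 := by linear_combination h
  have h2 : ‖v * w‖ = 1 := by rw [h1]; simp
  rw [norm_mul] at h2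
  nlinarith [norm_nonneg v, norm_nonneg w, mul_le_mul_of_nonneg_left hw (norm_nonneg v)]

lemma half_le {v w : ℂ} {ε : ℝ} (hv : ε * ‖v‖ ≤ 1 / 2) (hw : ‖w‖ ≤ ε) : 1 / 2 ≤ ‖1 + v * w‖ := by
  have h1 : ‖(1 : ℂ)‖ ≤ ‖1 + v * w‖ + ‖v * w‖ := by
    calc ‖(1 : ℂ)‖ = ‖(1 + v * w) - v * w‖ := by congr 1; ring
      _ ≤ _ := norm_sub_le _ _
  rw [norm_one, norm_mul] at h1
  nlinarith [norm_nonneg v, norm_nonneg w, mul_le_mul_of_nonneg_left hw (norm_nonneg v)]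

lemma Z_dist {p v w : ℂ} {ε : ℝ} (hv : ε * ‖v‖ ≤ 1 / 2) (hw : ‖w‖ ≤ ε) :
    ‖Z p v w - p‖ ≤ 2 * ε := by
  unfold Z
  rw [add_sub_cancel_left, norm_div]
  have h1 := half_le hv hw
  have h2 : 0 < ‖1 + v * w‖ := by linarith
  rw [div_le_iff₀ h2]
  nlinarith [norm_nonneg w]

lemma Z_inj {p v w w' : ℂ} (h : 1 + v * w ≠ 0) (h' : 1 + v * w' ≠ 0) (he : Z p v w = Z p v w') :
    w = w' := by
  unfold Z at he
  have := add_left_cancel he
  rw [div_eq_div_iff h h'] at this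
  linear_combination this

lemma half_of_mem {C : Circ} {p q : ℂ} (hne : p ≠ q) (hp : p ∈ C.pts) (hq : q ∈ C.pts) :
    2 * ((p - C.c) * (1 / (q - p))).re = -1 := by
  have h1 := rad_sq hp
  have h2 := rad_sq hq
  have hd : q - p ≠ 0 := sub_ne_zero.2 hne.symm
  have hn : normSq (q - p) ≠ 0 := by rwa [Ne, Complex.normSq_eq_zero]
  have h3 : ((p - C.c) * (1 / (q - p))).re =
      ((p.re - C.c.re) * (q.re - p.re) + (p.im - C.c.im) * (q.im - p.im)) / normSq (q - p) := by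
    rw [mul_one_div, Complex.div_re]
    simp only [sub_re, sub_im]
    ring
  rw [h3]
  have h4 : normSq (q - p) = (q.re - p.re) ^ 2 + (q.im - p.im) ^ 2 := by
    rw [Complex.normSq_apply]; simp only [sub_re, sub_im]; ring
  rw [← mul_div_assoc, div_eq_iff hn, h4]
  nlinarith

/-- Membership of a circle through `p` in the chart. -/
lemma Z_mem {C : Circ} {p v w : ℂ} (hp : p ∈ C.pts) (hv : 2 * ((p - C.c) * v).re = -1)
    (h : 1 + v * w ≠ 0) : Z p v w ∈ C.pts ↔ (w * (starRingEnd ℂ) (p - C.c)).re = 0 := by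
  have hp' : ‖p - C.c‖ = C.r := hp
  change ‖Z p v w - C.c‖ = C.r ↔ _
  rw [← hp']
  set a := p - C.c with ha
  have e1 : Z p v w - C.c = (a * (1 + v * w) + w) / (1 + v * w) := by
    unfold Z
    rw [eq_div_iff h, add_sub_right_comm, add_mul, div_mul_cancel₀ _ h]
  have hn : 0 < ‖1 + v * w‖ := norm_pos_iff.2 h
  rw [e1, norm_div, div_eq_iff hn.ne', ← norm_mul, ← sq_eq_sq₀ (norm_nonneg _) (norm_nonneg _),
    Complex.sq_norm, Complex.sq_norm, Complex.normSq_apply, Complex.normSq_apply]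
  simp only [mul_re, mul_im, add_re, add_im, one_re, one_im, conj_re, conj_im] at hv ⊢
  set a1 := a.re
  set a2 := a.im
  set v1 := v.re
  set v2 := v.im
  set w1 := w.re
  set w2 := w.im
  have key : (a1 * (1 + (v1 * w1 - v2 * w2)) - a2 * (0 + (v1 * w2 + v2 * w1)) + w1) *
        (a1 * (1 + (v1 * w1 - v2 * w2)) - a2 * (0 + (v1 * w2 + v2 * w1)) + w1) +
      (a1 * (0 + (v1 * w2 + v2 * w1)) + a2 * (1 + (v1 * w1 - v2 * w2)) + w2) *
        (a1 * (0 + (v1 * w2 + v2 * w1)) + a2 * (1 + (v1 * w1 - v2 * w2)) + w2) -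
      ((a1 * (1 + (v1 * w1 - v2 * w2)) - a2 * (0 + (v1 * w2 + v2 * w1))) *
        (a1 * (1 + (v1 * w1 - v2 * w2)) - a2 * (0 + (v1 * w2 + v2 * w1))) +
      (a1 * (0 + (v1 * w2 + v2 * w1)) + a2 * (1 + (v1 * w1 - v2 * w2))) *
        (a1 * (0 + (v1 * w2 + v2 * w1)) + a2 * (1 + (v1 * w1 - v2 * w2))))
      = 2 * (w1 * a1 - w2 * -a2) := by
    linear_combination (w1 ^ 2 + w2 ^ 2) * hv
  constructor
  · intro h5
    rw [h5] at key
    linarith
  · intro h5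
    rw [h5] at key
    linarith

/-- The small circle. -/
noncomputable def small (p v : ℂ) (ε : ℝ) (hε : 0 < ε) (hD : 0 < 1 - ε ^ 2 * normSq v) : Circ where
  c := p - ((ε ^ 2 / (1 - ε ^ 2 * normSq v) : ℝ) : ℂ) * (starRingEnd ℂ) v
  r := ε / (1 - ε ^ 2 * normSq v)
  pos := div_pos hε hD

lemma D_pos {v : ℂ} {ε : ℝ} (hε : 0 < ε) (hv : ε * ‖v‖ ≤ 1 / 2) : 0 < 1 - ε ^ 2 * normSq v := by
  rw [← Complex.sq_norm, ← mul_pow]
  nlinarith [mul_nonneg hε.le (norm_nonneg v)]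

lemma small_mem {p v w : ℂ} {ε : ℝ} (hε : 0 < ε) (hD : 0 < 1 - ε ^ 2 * normSq v)
    (h : 1 + v * w ≠ 0) : Z p v w ∈ (small p v ε hε hD).pts ↔ ‖w‖ = ε := by
  change ‖Z p v w - (small p v ε hε hD).c‖ = (small p v ε hε hD).r ↔ _
  simp only [small]
  set D : ℝ := 1 - ε ^ 2 * normSq v with hDdef
  have hDc : (D : ℂ) ≠ 0 := by exact_mod_cast hD.ne'
  have hvv : v * (starRingEnd ℂ) v = (normSq v : ℂ) := Complex.mul_conj v
  have hDc' : (D : ℂ) = 1 - (ε : ℂ) ^ 2 * (v * (starRingEnd ℂ) v) := by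
    rw [hvv, hDdef]; push_cast; ring
  have e1 : Z p v w - (p - ((ε ^ 2 / D : ℝ) : ℂ) * (starRingEnd ℂ) v) =
      (w + (ε : ℂ) ^ 2 * (starRingEnd ℂ) v) / ((1 + v * w) * (D : ℂ)) := by
    unfold Z
    rw [eq_div_iff (mul_ne_zero h hDc)]
    have f1 : w / (1 + v * w) * (1 + v * w) = w := div_mul_cancel₀ _ h
    have f2 : ((ε ^ 2 / D : ℝ) : ℂ) * (D : ℂ) = (ε : ℂ) ^ 2 := by
      rw [Complex.ofReal_div, div_mul_cancel₀ _ hDc]; push_cast; ring
    calc (p + w / (1 + v * w) - (p - ((ε ^ 2 / D : ℝ) : ℂ) * (starRingEnd ℂ) v)) *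
          ((1 + v * w) * (D : ℂ))
        = (w / (1 + v * w) * (1 + v * w)) * D + (((ε ^ 2 / D : ℝ) : ℂ) * (D : ℂ)) *
          (starRingEnd ℂ) v * (1 + v * w) := by ring
      _ = w * D + (ε : ℂ) ^ 2 * (starRingEnd ℂ) v * (1 + v * w) := by rw [f1, f2]
      _ = _ := by rw [hDc']; ring
  have hn : 0 < ‖1 + v * w‖ := norm_pos_iff.2 h
  rw [e1, norm_div, norm_mul, Complex.norm_real, Real.norm_of_nonneg hD.le,
    div_eq_div_iff (mul_ne_zero hn.ne' hD.ne') hD.ne', ← mul_assoc,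
    mul_left_inj' hD.ne']
  rw [← sq_eq_sq₀ (norm_nonneg _) (mul_nonneg hε.le hn.le),
    ← sq_eq_sq₀ (norm_nonneg _) hε.le, mul_pow, Complex.sq_norm, Complex.sq_norm, Complex.sq_norm,
    Complex.normSq_apply, Complex.normSq_apply, Complex.normSq_apply]
  rw [Complex.normSq_apply] at hDdef
  have hre : ((ε : ℂ) ^ 2 * (starRingEnd ℂ) v).re = ε ^ 2 * v.re := by
    rw [← Complex.ofReal_pow, Complex.re_ofReal_mul, conj_re]
  have him : ((ε : ℂ) ^ 2 * (starRingEnd ℂ) v).im = -(ε ^ 2 * v.im) := by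
    rw [← Complex.ofReal_pow, Complex.im_ofReal_mul, conj_im]; ring
  simp only [add_re, add_im, mul_re v w, mul_im v w, one_re, one_im, hre, him]
  have key : (w.re + ε ^ 2 * v.re) * (w.re + ε ^ 2 * v.re) +
        (w.im + -(ε ^ 2 * v.im)) * (w.im + -(ε ^ 2 * v.im)) -
      ε ^ 2 * ((1 + (v.re * w.re - v.im * w.im)) * (1 + (v.re * w.re - v.im * w.im)) +
        (0 + (v.re * w.im + v.im * w.re)) * (0 + (v.re * w.im + v.im * w.re)))
      = D * (w.re * w.re + w.im * w.im - ε ^ 2) := by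
    rw [hDdef]; ring
  constructor
  · intro h5
    have h6 : D * (w.re * w.re + w.im * w.im - ε ^ 2) = 0 := by rw [← key, h5]; ring
    rcases mul_eq_zero.1 h6 with h7 | h7
    · exact absurd h7 hD.ne'
    · linarith
  · intro h5
    rw [h5, sub_self, mul_zero] at key
    linarith

lemma small_orth {C : Circ} {p v : ℂ} {ε : ℝ} (hε : 0 < ε) (hD : 0 < 1 - ε ^ 2 * normSq v)
    (hp : p ∈ C.pts) (hv : 2 * ((p - C.c) * v).re = -1) : Orth (small p v ε hε hD) C := by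
  apply orth_of_sq
  have hp' := rad_sq hp
  simp only [small]
  rw [Complex.sq_norm, Complex.normSq_apply]
  rw [Complex.normSq_apply] at hD
  simp only [sub_re, sub_im, Complex.re_ofReal_mul, Complex.im_ofReal_mul, conj_re, conj_im,
    Complex.normSq_apply]
  simp only [mul_re, sub_re, sub_im] at hv
  rw [← hp']
  set D : ℝ := 1 - ε ^ 2 * (v.re * v.re + v.im * v.im) with hDdef
  set a1 := p.re - C.c.re with ha1
  set a2 := p.im - C.c.im with ha2
  have f1 : p.re - ε ^ 2 / D * v.re - C.c.re = a1 - ε ^ 2 / D * v.re := by rw [ha1]; ring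
  have f2 : p.im - ε ^ 2 / D * -v.im - C.c.im = a2 - ε ^ 2 / D * -v.im := by rw [ha2]; ring
  rw [f1, f2]
  have hDne := hD.ne'
  have f3 : ε / D = ε / D := rfl
  have g : (ε ^ 2 / D) * D = ε ^ 2 := by field_simp
  have g2 : (ε / D) ^ 2 = (ε ^ 2 / D) / D := by field_simp
  have g3 : (ε ^ 2 / D) / D = (ε ^ 2 / D) + (ε ^ 2 / D) ^ 2 * (v.re * v.re + v.im * v.im) := by
    have : (1 : ℝ) = D + ε ^ 2 * (v.re * v.re + v.im * v.im) := by rw [hDdef]; ring
    rw [div_eq_iff hDne]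
    linear_combination (ε ^ 2 / D) * this - (ε ^ 2 / D) * (v.re * v.re + v.im * v.im) * g
  rw [g2, g3]
  linear_combination (-(ε ^ 2 / D)) * hv

lemma small_dist {p v z : ℂ} {ε : ℝ} (hε : 0 < ε) (hv : ε * ‖v‖ ≤ 1 / 2)
    (hD : 0 < 1 - ε ^ 2 * normSq v) (h : z ∈ (small p v ε hε hD).pts) : ‖z - p‖ ≤ 2 * ε := by
  have h' : ‖z - (small p v ε hε hD).c‖ = ε / (1 - ε ^ 2 * normSq v) := h
  have h1 : ‖z - p‖ ≤ ‖z - (small p v ε hε hD).c‖ + ‖(small p v ε hε hD).c - p‖ := by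
    calc ‖z - p‖ = ‖(z - (small p v ε hε hD).c) + ((small p v ε hε hD).c - p)‖ := by
          congr 1; ring
      _ ≤ _ := norm_add_le _ _
  have h2 : ‖(small p v ε hε hD).c - p‖ = ε ^ 2 / (1 - ε ^ 2 * normSq v) * ‖v‖ := by
    simp only [small]
    rw [sub_sub_cancel_left, norm_neg, norm_mul, Complex.norm_real, Complex.norm_conj,
      Real.norm_of_nonneg (div_nonneg (sq_nonneg _) hD.le)]
  rw [h', h2] at h1
  refine h1.trans ?_
  have h3 : ε / (1 - ε ^ 2 * normSq v) + ε ^ 2 / (1 - ε ^ 2 * normSq v) * ‖v‖ =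
      ε * (1 + ε * ‖v‖) / (1 - ε ^ 2 * normSq v) := by ring
  rw [h3, div_le_iff₀ hD, ← Complex.sq_norm]
  have h4 : 0 ≤ ε * ‖v‖ := mul_nonneg hε.le (norm_nonneg _)
  have h5 : 0 ≤ (1 - 2 * (ε * ‖v‖)) * (1 + ε * ‖v‖) := mul_nonneg (by linarith) (by linarith)
  nlinarith [mul_nonneg hε.le h5]

end Pool.Agent.X129.OrthCirc
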