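import Pool.Agent.X129.OrthGen

/-!
The general theorem: an arrangement of `m` orthogonal circles with `E` orthogonal pairs gives an
arrangement of `m + 2 E` orthogonal circles with at least `8 E` triangular faces.
-/

namespace Pool.Agent.X129.OrthCirc

open Complex Metric Set

lemma exists_below {T : Type} [Finite T] (g : T → ℝ) :
    ∃ δ : ℝ, 0 < δ ∧ ∀ x, 0 < g x → δ < g x := by
  have h1 : ∀ᶠ δ in nhdsWithin (0 : ℝ) (Ioi 0), ∀ x : T, 0 < g x → δ < g x := by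
    rw [Filter.eventually_all]
    intro x
    by_cases h : 0 < g x
    · filter_upwards [Ioo_mem_nhdsGT h] with δ hδ _
      exact hδ.2
    · exact Filter.Eventually.of_forall fun _ h' => absurd h' h
  obtain ⟨δ, h2, h3⟩ := (h1.and self_mem_nhdsWithin).exists
  exact ⟨δ, h3, h2⟩

/-- Mutually orthogonal radii at `p`: membership of the second circle in terms of the first
radius. -/
lemma perp_mem {a b ξ : ℂ} {ε : ℝ} (hε : 0 < ε) (ha : a ≠ 0) (hb : b ≠ 0)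
    (hab : a.re * b.re + a.im * b.im = 0) :
    ((((ε : ℝ) : ℂ) * (a / (‖a‖ : ℝ)) * ξ * (starRingEnd ℂ) a).re = 0 ↔ ξ.re = 0) ∧
    ((((ε : ℝ) : ℂ) * (a / (‖a‖ : ℝ)) * ξ * (starRingEnd ℂ) b).re = 0 ↔ ξ.im = 0) := by
  have hn : 0 < ‖a‖ := norm_pos_iff.2 ha
  have hsa : 0 < normSq a := Complex.normSq_pos.2 ha
  have hsb : 0 < normSq b := Complex.normSq_pos.2 hb
  constructor
  · have e : ((ε : ℝ) : ℂ) * (a / (‖a‖ : ℝ)) * ξ * (starRingEnd ℂ) a =
        ((ε / ‖a‖ * normSq a : ℝ) : ℂ) * ξ := by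
      have : a * (starRingEnd ℂ) a = (normSq a : ℂ) := Complex.mul_conj a
      push_cast
      rw [← this]; ring
    rw [e, Complex.re_ofReal_mul]
    constructor
    · intro h
      rcases mul_eq_zero.1 h with h1 | h1
      · exact absurd h1 (mul_pos (div_pos hε hn) hsa).ne'
      · exact h1
    · intro h; rw [h, mul_zero]
  · have hk : (a * (starRingEnd ℂ) b).re = 0 := by
      simp only [mul_re, conj_re, conj_im]; linarith
    have hkne : (a * (starRingEnd ℂ) b).im ≠ 0 := by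
      intro h
      have h1 : a * (starRingEnd ℂ) b = 0 := Complex.ext hk h
      rcases mul_eq_zero.1 h1 with h2 | h2
      · exact ha h2
      · exact hb ((map_eq_zero _).1 h2)
    have e : ((ε : ℝ) : ℂ) * (a / (‖a‖ : ℝ)) * ξ * (starRingEnd ℂ) b =
        ((ε / ‖a‖ : ℝ) : ℂ) * ((a * (starRingEnd ℂ) b) * ξ) := by
      push_cast; ring
    rw [e, Complex.re_ofReal_mul, mul_re, hk, zero_mul, zero_sub]
    have h3 : ε / ‖a‖ ≠ 0 := (div_pos hε hn).ne'
    constructor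
    · intro h
      rcases mul_eq_zero.1 h with h1 | h1
      · exact absurd h1 h3
      · rcases mul_eq_zero.1 (neg_eq_zero.1 h1) with h4 | h4
        · exact absurd h4 hkne
        · exact h4
    · intro h; rw [h]; ring

section chart

variable {ι : Type} {B : ι → Circ} {p v a b : ℂ} {ε : ℝ}

/-- The parameters of the Moebius map. -/
noncomputable def em (a : ℂ) (ε : ℝ) (j : Fin 4) : ℂ := ((ε : ℝ) : ℂ) * (a / (‖a‖ : ℝ)) * u j

lemma em_norm (hε : 0 < ε) (ha : a ≠ 0) (j : Fin 4) (ζ : ℂ) : ‖em a ε j * ζ‖ = ε * ‖ζ‖ := by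
  unfold em
  have hn : ‖a‖ ≠ 0 := norm_ne_zero_iff.2 ha
  rw [norm_mul, norm_mul, norm_mul, u_norm, norm_div, Complex.norm_real, Complex.norm_real,
    norm_norm, div_self hn, Real.norm_of_nonneg hε.le]
  ring

lemma mobZ (j : Fin 4) {ζ : ℂ} (h : 1 + v * (em a ε j * ζ) ≠ 0) :
    mob ((p * v + 1) * em a ε j) p (v * em a ε j) 1 ζ = Z p v (em a ε j * ζ) := by
  have h' : v * em a ε j * ζ + 1 ≠ 0 := by
    intro h1; apply h; linear_combination h1
  unfold mob Z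
  have e := div_mul_cancel₀ (em a ε j * ζ) h
  rw [div_eq_iff h']
  linear_combination (-1 : ℂ) * e

/-- The four faces at a crossing point. -/
theorem face_local {x y z : ι} (hxy : x ≠ y) (hyz : y ≠ z) (hxz : x ≠ z)
    (hε : 0 < ε) (hv : ε * ‖v‖ ≤ 1 / 2) (hD : 0 < 1 - ε ^ 2 * normSq v)
    (hpx : p ∈ (B x).pts) (hpy : p ∈ (B y).pts)
    (hvx : 2 * ((p - (B x).c) * v).re = -1) (hvy : 2 * ((p - (B y).c) * v).re = -1)
    (hperp : (p - (B x).c).re * (p - (B y).c).re + (p - (B x).c).im * (p - (B y).c).im = 0)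
    (hz : B z = small p v ε hε hD)
    (hmiss : ∀ k, k ≠ x → k ≠ y → k ≠ z → ∀ w, ‖w - p‖ ≤ 2 * ε → w ∉ (B k).pts) (j : Fin 4) :
    IsFace B (mob ((p * v + 1) * em (p - (B x).c) ε j) p (v * em (p - (B x).c) ε j) 1 '' Q) ∧
    IsTriangular B
      (mob ((p * v + 1) * em (p - (B x).c) ε j) p (v * em (p - (B x).c) ε j) 1 '' Q) := by
  set a := p - (B x).c with ha_def
  set b := p - (B y).c with hb_def
  have ha : a ≠ 0 := by
    intro h
    have h1 : ‖p - (B x).c‖ = (B x).r := hpx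
    rw [← ha_def, h, norm_zero] at h1
    exact (B x).pos.ne h1
  have hb : b ≠ 0 := by
    intro h
    have h1 : ‖p - (B y).c‖ = (B y).r := hpy
    rw [← hb_def, h, norm_zero] at h1
    exact (B y).pos.ne h1
  have hemne : em a ε j ≠ 0 := by
    intro h
    have h1 := em_norm hε ha j 1
    rw [h] at h1
    simp at h1
    exact hε.ne h1
  have hne : ∀ ζ : ℂ, ‖ζ‖ ≤ 1 → 1 + v * (em a ε j * ζ) ≠ 0 := by
    intro ζ hζ
    refine one_add_ne hv ?_
    rw [em_norm hε ha]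
    nlinarith
  have hemle : ∀ ζ : ℂ, ‖ζ‖ ≤ 1 → ‖em a ε j * ζ‖ ≤ ε := by
    intro ζ hζ
    rw [em_norm hε ha]
    nlinarith
  have hem : ∀ ζ : ℂ, em a ε j * ζ = ((ε : ℝ) : ℂ) * (a / (‖a‖ : ℝ)) * (u j * ζ) := by
    intro ζ; unfold em; ring
  have memx : ∀ ζ : ℂ, ‖ζ‖ ≤ 1 → (mob ((p * v + 1) * em a ε j) p (v * em a ε j) 1 ζ ∈ (B x).pts ↔
      (u j * ζ).re = 0) := by
    intro ζ hζ
    rw [mobZ j (hne ζ hζ), Z_mem hpx hvx (hne ζ hζ), hem ζ]
    exact (perp_mem hε ha hb hperp).1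
  have memy : ∀ ζ : ℂ, ‖ζ‖ ≤ 1 → (mob ((p * v + 1) * em a ε j) p (v * em a ε j) 1 ζ ∈ (B y).pts ↔
      (u j * ζ).im = 0) := by
    intro ζ hζ
    rw [mobZ j (hne ζ hζ), Z_mem hpy hvy (hne ζ hζ), hem ζ]
    exact (perp_mem hε ha hb hperp).2
  have memz : ∀ ζ : ℂ, ‖ζ‖ ≤ 1 → (mob ((p * v + 1) * em a ε j) p (v * em a ε j) 1 ζ ∈ (B z).pts ↔
      ‖ζ‖ = 1) := by
    intro ζ hζ
    rw [mobZ j (hne ζ hζ), hz, small_mem hε hD (hne ζ hζ), em_norm hε ha]
    constructor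
    · intro h
      have h1 : ε * ‖ζ‖ = ε * 1 := by rw [h, mul_one]
      exact mul_left_cancel₀ hε.ne' h1
    · intro h; rw [h, mul_one]
  have hdet : (p * v + 1) * em a ε j * 1 - p * (v * em a ε j) ≠ 0 := by
    have e : (p * v + 1) * em a ε j * 1 - p * (v * em a ε j) = em a ε j := by ring
    rw [e]; exact hemne
  have hden : ∀ ζ : ℂ, ‖ζ‖ ≤ 1 → v * em a ε j * ζ + 1 ≠ 0 := by
    intro ζ hζ h
    exact hne ζ hζ (by linear_combination h)
  have hreal : ∀ t : ℝ, t ∈ Icc (0 : ℝ) 1 → ‖(t : ℂ)‖ ≤ 1 := by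
    intro t ht
    rw [Complex.norm_real, Real.norm_of_nonneg ht.1]; exact ht.2
  have himag : ∀ t : ℝ, t ∈ Icc (0 : ℝ) 1 → ‖(t : ℂ) * I‖ ≤ 1 := by
    intro t ht
    rw [norm_mul, Complex.norm_I, mul_one, Complex.norm_real, Real.norm_of_nonneg ht.1]
    exact ht.2
  have h3 : ∀ ζ : ℂ, ‖ζ‖ = 1 → mob ((p * v + 1) * em a ε j) p (v * em a ε j) 1 ζ ∈ (B z).pts :=
    fun ζ hζ => (memz ζ hζ.le).2 hζ
  have h4 : ∀ ζ ∈ Q, mob ((p * v + 1) * em a ε j) p (v * em a ε j) 1 ζ ∉ union B := by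
    intro ζ hζ hmem
    obtain ⟨k, hk⟩ := mem_iUnion.1 hmem
    obtain ⟨h5, h6, h7⟩ := uQ j hζ
    by_cases kx : k = x
    · rw [kx] at hk
      exact h6 ((memx ζ hζ.1.le).1 hk)
    by_cases ky : k = y
    · rw [ky] at hk
      exact h7 ((memy ζ hζ.1.le).1 hk)
    by_cases kz : k = z
    · rw [kz] at hk
      exact hζ.1.ne ((memz ζ hζ.1.le).1 hk)
    · refine hmiss k kx ky kz _ ?_ hk
      rw [mobZ j (hne ζ hζ.1.le)]
      exact Z_dist hv (hemle ζ hζ.1.le)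
  rcases u_prod j with hj | hj
  · refine face_of_mob B hdet hden hxy hyz hxz ?_ ?_ h3 h4
    · intro t ht
      exact (memx _ (hreal t ht)).2 (by rw [mul_re, hj]; simp)
    · intro t ht
      exact (memy _ (himag t ht)).2 (by rw [mul_im, hj]; simp)
  · refine face_of_mob B hdet hden hxy.symm hxz hyz ?_ ?_ h3 h4
    · intro t ht
      exact (memy _ (hreal t ht)).2 (by rw [mul_im, hj]; simp)
    · intro t ht
      exact (memx _ (himag t ht)).2 (by rw [mul_re, hj]; simp)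

end chart

/-- The general theorem. -/
theorem general {ι S : Type} [Fintype ι] [Fintype S] (A : ι → Circ) (hA : IsArrangement A)
    (e1 e2 : S → ι) (hne : ∀ s, e1 s ≠ e2 s) (ho : ∀ s, Orth (A (e1 s)) (A (e2 s)))
    (hinj : ∀ s s', (e1 s = e1 s' ∧ e2 s = e2 s') ∨ (e1 s = e2 s' ∧ e2 s = e1 s') → s = s') :
    ∃ B : ι ⊕ (S × Bool) → Circ, IsArrangement B ∧
      ((8 * Fintype.card S : ℕ) : ℕ∞) ≤ {F | IsFace B F ∧ IsTriangular B F}.encard := by
  classical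
  have hcr : ∀ s, ∃ z w : ℂ, z ≠ w ∧ (A (e1 s)).pts ∩ (A (e2 s)).pts = {z, w} :=
    fun s => (ho s).1
  choose pz pw hpne hint using hcr
  set P : S × Bool → ℂ := fun σ => if σ.2 then pz σ.1 else pw σ.1 with hP
  set P' : S × Bool → ℂ := fun σ => if σ.2 then pw σ.1 else pz σ.1 with hP'
  have hPP' : ∀ σ, P σ ≠ P' σ := by
    rintro ⟨s, b⟩
    cases b
    · simpa [hP, hP'] using (hpne s).symm
    · simpa [hP, hP'] using hpne s
  have hPin : ∀ σ, P σ ∈ (A (e1 σ.1)).pts ∩ (A (e2 σ.1)).pts := by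
    rintro ⟨s, b⟩
    rw [hint]
    cases b <;> simp [hP]
  have hPin' : ∀ σ, P' σ ∈ (A (e1 σ.1)).pts ∩ (A (e2 σ.1)).pts := by
    rintro ⟨s, b⟩
    rw [hint]
    cases b <;> simp [hP']
  -- other circles miss the crossing points
  have hmissP : ∀ σ k, k ≠ e1 σ.1 → k ≠ e2 σ.1 → P σ ∉ (A k).pts := fun σ k h1 h2 h3 =>
    no_three hA (hne σ.1) h2.symm h1.symm (hPin σ).1 (hPin σ).2 h3
  have hPinj : Function.Injective P := by
    intro σ σ' h
    by_cases hs : σ.1 = σ'.1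
    · obtain ⟨s, b⟩ := σ
      obtain ⟨s', b'⟩ := σ'
      simp only at hs
      subst hs
      have := hpne s
      cases b <;> cases b' <;> simp_all
    · exfalso
      have g1 : e1 σ'.1 = e1 σ.1 ∨ e1 σ'.1 = e2 σ.1 := by
        by_contra hc
        push Not at hc
        exact hmissP σ _ hc.1 hc.2 (by rw [h]; exact (hPin σ').1)
      have g2 : e2 σ'.1 = e1 σ.1 ∨ e2 σ'.1 = e2 σ.1 := by
        by_contra hc
        push Not at hc
        exact hmissP σ _ hc.1 hc.2 (by rw [h]; exact (hPin σ').2)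
      have g3 := hne σ'.1
      rcases g1 with g1 | g1 <;> rcases g2 with g2 | g2
      · exact g3 (g1.trans g2.symm)
      · exact hs (hinj _ _ (Or.inl ⟨g1.symm, g2.symm⟩))
      · exact hs (hinj _ _ (Or.inr ⟨g2.symm, g1.symm⟩))
      · exact g3 (g1.trans g2.symm)
  -- the radius `δ`
  obtain ⟨δ1, hδ1, hd1⟩ := exists_below (fun x : (S × Bool) × ι =>
    |‖P x.1 - (A x.2).c‖ - (A x.2).r|)
  obtain ⟨δ2, hδ2, hd2⟩ := exists_below (fun x : (S × Bool) × (S × Bool) =>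
    ‖P x.1 - P x.2‖ / 2)
  set δ := min δ1 δ2 with hδ
  have hδpos : 0 < δ := lt_min hδ1 hδ2
  have far1 : ∀ σ k, k ≠ e1 σ.1 → k ≠ e2 σ.1 → ∀ w, ‖w - P σ‖ < δ → w ∉ (A k).pts := by
    intro σ k h1 h2 w hw hmem
    have h3 : ‖P σ - (A k).c‖ ≠ (A k).r := hmissP σ k h1 h2
    have h4 := hd1 (σ, k) (abs_pos.2 (sub_ne_zero.2 h3))
    have h5 : ‖w - (A k).c‖ = (A k).r := hmem
    have h6 : |‖P σ - (A k).c‖ - ‖w - (A k).c‖| ≤ ‖P σ - w‖ := by
      have := abs_norm_sub_norm_le (P σ - (A k).c) (w - (A k).c)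
      rwa [sub_sub_sub_cancel_right] at this
    rw [h5, norm_sub_rev (P σ) w] at h6
    have h7 : δ ≤ δ1 := min_le_left _ _
    simp only at h4
    linarith
  have far2 : ∀ σ σ', σ ≠ σ' → ∀ w, ‖w - P σ‖ < δ → ¬ ‖w - P σ'‖ < δ := by
    intro σ σ' h w hw hw'
    have h3 : P σ ≠ P σ' := fun h' => h (hPinj h')
    have h4 := hd2 (σ, σ') (by
      have := norm_pos_iff.2 (sub_ne_zero.2 h3)
      simp only
      linarith)
    simp only at h4
    have h5 : ‖P σ - P σ'‖ ≤ ‖w - P σ'‖ + ‖w - P σ‖ := by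
      calc ‖P σ - P σ'‖ = ‖(w - P σ') - (w - P σ)‖ := by congr 1; ring
        _ ≤ _ := norm_sub_le _ _
    have h7 : δ ≤ δ2 := min_le_right _ _
    linarith
  set V : S × Bool → ℂ := fun σ => 1 / (P' σ - P σ) with hV
  have hVx : ∀ σ, 2 * ((P σ - (A (e1 σ.1)).c) * V σ).re = -1 := fun σ =>
    half_of_mem (hPP' σ) (hPin σ).1 (hPin' σ).1
  have hVy : ∀ σ, 2 * ((P σ - (A (e2 σ.1)).c) * V σ).re = -1 := fun σ =>
    half_of_mem (hPP' σ) (hPin σ).2 (hPin' σ).2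
  have hex : ∀ σ, ∃ ε : ℝ, 0 < ε ∧ 2 * ε < δ ∧ ε * ‖V σ‖ ≤ 1 / 2 := by
    intro σ
    have hn := norm_nonneg (V σ)
    have hden : 0 < 3 * (1 + δ * ‖V σ‖) := by positivity
    refine ⟨δ / (3 * (1 + δ * ‖V σ‖)), by positivity, ?_, ?_⟩
    · rw [← mul_div_assoc, div_lt_iff₀ hden]
      nlinarith [mul_nonneg hδpos.le hn, mul_nonneg hδpos.le (mul_nonneg hδpos.le hn)]
    · rw [div_mul_eq_mul_div, div_le_iff₀ hden]
      nlinarith [mul_nonneg hδpos.le hn]
  choose ε hε hεδ hεv using hex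
  have hD : ∀ σ, 0 < 1 - (ε σ) ^ 2 * normSq (V σ) := fun σ => D_pos (hε σ) (hεv σ)
  set B : ι ⊕ (S × Bool) → Circ := Sum.elim A
    (fun σ => small (P σ) (V σ) (ε σ) (hε σ) (hD σ)) with hB
  have Bl : ∀ i, B (Sum.inl i) = A i := fun i => rfl
  have Br : ∀ σ, B (Sum.inr σ) = small (P σ) (V σ) (ε σ) (hε σ) (hD σ) := fun σ => rfl
  have hsm : ∀ σ w, w ∈ (B (Sum.inr σ)).pts → ‖w - P σ‖ < δ := by
    intro σ w hw
    rw [Br] at hw
    exact (small_dist (hε σ) (hεv σ) (hD σ) hw).trans_lt (hεδ σ)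
  have hmix : ∀ σ i, Disjoint (B (Sum.inr σ)).pts (B (Sum.inl i)).pts ∨
      Orth (B (Sum.inr σ)) (B (Sum.inl i)) := by
    intro σ i
    by_cases h1 : i = e1 σ.1
    · right
      rw [Br, Bl, h1]
      exact small_orth (hε σ) (hD σ) (hPin σ).1 (hVx σ)
    by_cases h2 : i = e2 σ.1
    · right
      rw [Br, Bl, h2]
      exact small_orth (hε σ) (hD σ) (hPin σ).2 (hVy σ)
    · left
      rw [Set.disjoint_left]
      intro w hw
      exact far1 σ i h1 h2 w (hsm σ w hw)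
  have hBarr : IsArrangement B := by
    intro x y hxy
    match x, y with
    | Sum.inl i, Sum.inl k => exact hA i k (fun h => hxy (by rw [h]))
    | Sum.inr σ, Sum.inl i => exact hmix σ i
    | Sum.inl i, Sum.inr σ =>
      rcases hmix σ i with h | h
      · exact Or.inl h.symm
      · exact Or.inr h.symm
    | Sum.inr σ, Sum.inr σ' =>
      left
      rw [Set.disjoint_left]
      intro w hw hw'
      exact far2 σ σ' (fun h => hxy (by rw [h])) w (hsm σ w hw) (hsm σ' w hw')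
  refine ⟨B, hBarr, ?_⟩
  -- the faces
  set Fc : (S × Bool) × Fin 4 → Set ℂ := fun x =>
    mob ((P x.1 * V x.1 + 1) * em (P x.1 - (A (e1 x.1.1)).c) (ε x.1) x.2) (P x.1)
      (V x.1 * em (P x.1 - (A (e1 x.1.1)).c) (ε x.1) x.2) 1 '' Q with hFc
  have hface : ∀ x, IsFace B (Fc x) ∧ IsTriangular B (Fc x) := by
    rintro ⟨σ, j⟩
    have hperp := rad_perp hA (hne σ.1) (hPin σ).1 (hPin σ).2
    have := face_local (B := B) (x := Sum.inl (e1 σ.1)) (y := Sum.inl (e2 σ.1))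
      (z := Sum.inr σ) (p := P σ) (v := V σ) (ε := ε σ)
      (fun h => hne σ.1 (Sum.inl_injective h)) (by simp) (by simp)
      (hε σ) (hεv σ) (hD σ) (hPin σ).1 (hPin σ).2 (hVx σ) (hVy σ)
      (by simp only [sub_re, sub_im, Bl]; exact hperp) (Br σ) ?_ j
    · exact this
    · intro k h1 h2 h3 w hw
      have hw' : ‖w - P σ‖ < δ := hw.trans_lt (hεδ σ)
      match k with
      | Sum.inl i =>
        rw [Bl]
        exact far1 σ i (fun h => h1 (by rw [h])) (fun h => h2 (by rw [h])) w hw'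
      | Sum.inr σ' =>
        intro hmem
        exact far2 σ σ' (fun h => h3 (by rw [h])) w hw' (hsm σ' w hmem)
  have hFcinj : Function.Injective Fc := by
    rintro ⟨σ, j⟩ ⟨σ', j'⟩ h
    have hane : ∀ σ, P σ - (A (e1 σ.1)).c ≠ 0 := by
      intro σ h0
      have h1 : ‖P σ - (A (e1 σ.1)).c‖ = (A (e1 σ.1)).r := (hPin σ).1
      rw [h0, norm_zero] at h1
      exact (A (e1 σ.1)).pos.ne h1
    have hle : ∀ σ j (ζ : ℂ), ‖ζ‖ ≤ 1 → ‖em (P σ - (A (e1 σ.1)).c) (ε σ) j * ζ‖ ≤ ε σ := by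
      intro σ j ζ hζ
      rw [em_norm (hε σ) (hane σ)]
      nlinarith [hε σ]
    have h1 : mob ((P σ * V σ + 1) * em (P σ - (A (e1 σ.1)).c) (ε σ) j) (P σ)
      (V σ * em (P σ - (A (e1 σ.1)).c) (ε σ) j) 1 q0 ∈ Fc (σ', j') := by
      rw [← h]; exact ⟨q0, q0_mem, rfl⟩
    obtain ⟨ζ, hζ, h2⟩ := h1
    simp only at h2
    rw [mobZ j' (one_add_ne (hεv σ') (hle σ' j' ζ hζ.1.le)),
      mobZ j (one_add_ne (hεv σ) (hle σ j q0 norm_q0.le))] at h2
    have hσ : σ = σ' := by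
      by_contra hne'
      refine far2 σ σ' hne' (Z (P σ) (V σ) (em (P σ - (A (e1 σ.1)).c) (ε σ) j * q0))
        ((Z_dist (hεv σ) (hle σ j q0 norm_q0.le)).trans_lt (hεδ σ)) ?_
      rw [← h2]
      exact (Z_dist (hεv σ') (hle σ' j' ζ hζ.1.le)).trans_lt (hεδ σ')
    subst hσ
    have h3 := Z_inj (one_add_ne (hεv σ) (hle σ j' ζ hζ.1.le))
      (one_add_ne (hεv σ) (hle σ j q0 norm_q0.le)) h2
    unfold em at h3
    have hc : ((ε σ : ℝ) : ℂ) * ((P σ - (A (e1 σ.1)).c) / (‖P σ - (A (e1 σ.1)).c‖ : ℝ)) ≠ 0 := by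
      refine mul_ne_zero ?_ (div_ne_zero (hane σ) ?_)
      · exact_mod_cast (hε σ).ne'
      · exact_mod_cast norm_ne_zero_iff.2 (hane σ)
    rw [mul_assoc, mul_assoc _ (u j)] at h3
    have h4 := mul_left_cancel₀ hc h3
    rw [quad hζ q0_mem h4]
  have h1 : ((8 * Fintype.card S : ℕ) : ℕ∞) ≤ (range Fc).encard := by
    refine le_trans (le_of_eq ?_) hFcinj.encard_range
    rw [ENat.card_eq_coe_fintype_card]
    simp only [Fintype.card_prod, Fintype.card_fin, Fintype.card_bool]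
    congr 1
    ring
  refine h1.trans (encard_le_encard ?_)
  rintro _ ⟨x, rfl⟩
  exact hface x

end Pool.Agent.X129.OrthCirc
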