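import Pool.Agent.X129.OrthGen2

/-!
The ring lattice: rings of `N` circles, consecutive rings turned by half a step and scaled by
`lam`, together with one concentric circle per ring.
-/

namespace Pool.Agent.X129.OrthCirc

open Complex Metric Set

/-- The parameters of the ring lattice. -/
structure Par (N : ℕ) (x c h r lam : ℝ) : Prop where
  hN : 5 ≤ N
  hx : N * x = Real.pi
  hc : c = Real.cos (2 * x)
  hh : h = Real.cos x
  cpos : 0 < c
  clt : c < 1
  hlt : h < 1
  hhalf : 1 / 2 < h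
  hch : c = 2 * h ^ 2 - 1
  rpos : 0 < r
  rsq : r ^ 2 = 1 - c
  lam1 : 1 < lam
  hR : c * (1 + lam ^ 2) = 2 * h * lam

lemma exists_par {N : ℕ} (hN : 5 ≤ N) : ∃ x c h r lam, Par N x c h r lam := by
  have hN' : (5 : ℝ) ≤ N := by exact_mod_cast hN
  have hNpos : (0 : ℝ) < N := by linarith
  set x : ℝ := Real.pi / N with hx
  have hxN : N * x = Real.pi := by rw [hx]; field_simp
  have hpi := Real.pi_pos
  have hxpos : 0 < x := div_pos hpi hNpos
  have hxle : x ≤ Real.pi / 5 := by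
    rw [hx]; exact div_le_div_of_nonneg_left hpi.le (by norm_num) hN'
  have hcpos : 0 < Real.cos (2 * x) := Real.cos_pos_of_mem_Ioo ⟨by linarith, by linarith⟩
  have hhpos : 0 < Real.cos x := Real.cos_pos_of_mem_Ioo ⟨by linarith, by linarith⟩
  have hch : Real.cos (2 * x) = 2 * Real.cos x ^ 2 - 1 := Real.cos_two_mul x
  have hhlt : Real.cos x < 1 := by
    rw [← Real.cos_zero]
    exact Real.cos_lt_cos_of_nonneg_of_le_pi le_rfl (by linarith) hxpos
  have hclt : Real.cos (2 * x) < 1 := by rw [hch]; nlinarith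
  have hhalf : 1 / 2 < Real.cos x := by
    by_contra hc
    push Not at hc
    rw [hch] at hcpos
    nlinarith
  set c := Real.cos (2 * x) with hc
  set h := Real.cos x with hh
  have hg : 1 < h / c := by
    rw [lt_div_iff₀ hcpos, hch]; nlinarith
  have hg2 : 0 < (h / c) ^ 2 - 1 := by nlinarith
  refine ⟨x, c, h, Real.sqrt (1 - c), h / c + Real.sqrt ((h / c) ^ 2 - 1),
    ⟨hN, hxN, hc, hh, hcpos, hclt, hhlt, hhalf, hch, Real.sqrt_pos.2 (by linarith),
      Real.sq_sqrt (by linarith), ?_, ?_⟩⟩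
  · have := Real.sqrt_nonneg ((h / c) ^ 2 - 1)
    linarith
  · set g := h / c with hgdef
    have e : h = g * c := by rw [hgdef]; field_simp
    have hs := Real.sq_sqrt hg2.le
    set q := Real.sqrt (g ^ 2 - 1)
    rw [e]
    linear_combination c * hs

section par

variable {N : ℕ} {x c h r lam : ℝ} (hp : Par N x c h r lam)

include hp

lemma Par.rlt : r < 1 := by
  have h1 := hp.rsq
  have h2 := hp.cpos
  have h3 := hp.rpos
  nlinarith

/-- The key inequality. -/
lemma Par.key : 1 + r < lam ^ 2 * (1 - r) := by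
  by_contra hcon
  push Not at hcon
  have h1 := hp.rsq
  have h2 := hp.cpos
  have h3 := hp.rpos
  have h4 := hp.rlt
  have h5 := hp.lam1
  have h6 := hp.hR
  have h7 := hp.hch
  have h8 := hp.clt
  set A := lam ^ 2 with hA
  have hA1 : 1 < A := by rw [hA]; nlinarith
  have h9 : 0 ≤ ((1 + r) - A * (1 - r)) * (A * (1 + r) - (1 - r)) := by
    apply mul_nonneg (by linarith)
    nlinarith
  have h10 : c * (1 + A ^ 2) ≤ 2 * A * (2 - c) := by nlinarith
  have h11 : c ^ 2 * (1 + A) ^ 2 = 2 * (1 + c) * A := by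
    have : c ^ 2 * (1 + A) ^ 2 = (c * (1 + A)) ^ 2 := by ring
    rw [this, h6]
    have : h ^ 2 = (1 + c) / 2 := by rw [h7]; ring
    rw [mul_pow, mul_pow, this, ← hA]; ring
  have h12 : c * (c * (1 + A ^ 2)) ≤ c * (2 * A * (2 - c)) := mul_le_mul_of_nonneg_left h10 h2.le
  have h13 : 2 * A * 1 ≤ 2 * A * c := by nlinarith
  have h14 := le_of_mul_le_mul_left h13 (by linarith : 0 < 2 * A)
  linarith

lemma Par.xpos : 0 < x := by
  have h1 := hp.hx
  have h2 : (5 : ℝ) ≤ N := by exact_mod_cast hp.hN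
  have h3 := Real.pi_pos
  by_contra hc
  push Not at hc
  nlinarith

/-- Angles. -/
lemma Par.cos_le {D k : ℕ} (h1 : k ≤ D) (h2 : D + k ≤ 2 * N) (h3 : k ≤ N) :
    Real.cos (x * D) ≤ Real.cos (x * k) := by
  have hx := hp.hx
  have hxp := hp.xpos
  have h1' : (k : ℝ) ≤ D := by exact_mod_cast h1
  have h2' : (D : ℝ) + k ≤ 2 * N := by exact_mod_cast h2
  have h3' : (k : ℝ) ≤ N := by exact_mod_cast h3
  have hk : (0 : ℝ) ≤ k := Nat.cast_nonneg k
  have a1 : x * k ≤ x * D := mul_le_mul_of_nonneg_left h1' hxp.le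
  have a2 : x * (D + k) ≤ x * (2 * N) := mul_le_mul_of_nonneg_left h2' hxp.le
  have a3 : x * k ≤ Real.pi := by rw [← hx]; nlinarith
  have a4 : 0 ≤ x * k := mul_nonneg hxp.le hk
  rcases le_total (x * D) Real.pi with h4 | h4
  · exact Real.cos_le_cos_of_nonneg_of_le_pi a4 h4 a1
  · have e : Real.cos (x * D) = Real.cos (2 * Real.pi - x * D) := by
      rw [Real.cos_two_pi_sub]
    rw [e]
    refine Real.cos_le_cos_of_nonneg_of_le_pi a4 (by linarith) ?_
    nlinarith

lemma Par.cos_eq {D k : ℕ} (h2 : D + k = 2 * N) : Real.cos (x * D) = Real.cos (x * k) := by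
  have h2' : (D : ℝ) + k = 2 * N := by exact_mod_cast h2
  have e : x * D = 2 * Real.pi - x * k := by
    rw [← hp.hx]
    linear_combination x * h2'
  rw [e, Real.cos_two_pi_sub]

end par

/-- Centres of the lattice circles. -/
noncomputable def cen (x lam : ℝ) (j a : ℕ) : ℂ :=
  ⟨lam ^ j * Real.cos (x * (2 * a + j)), lam ^ j * Real.sin (x * (2 * a + j))⟩

/-- The index difference. -/
def dd (j a j' b : ℕ) : ℕ := ((2 * (a : ℤ) + j) - (2 * b + j')).natAbs

lemma cen_dist (x lam : ℝ) (j a j' b : ℕ) :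
    ‖cen x lam j a - cen x lam j' b‖ ^ 2 =
      (lam ^ j) ^ 2 + (lam ^ j') ^ 2 - 2 * lam ^ j * lam ^ j' * Real.cos (x * dd j a j' b) := by
  have e : Real.cos (x * dd j a j' b) = Real.cos (x * (2 * a + j) - x * (2 * b + j')) := by
    have h1 : x * (2 * a + j) - x * (2 * b + j') =
        x * (((2 * (a : ℤ) + j) - (2 * b + j') : ℤ) : ℝ) := by push_cast; ring
    rw [h1, dd, Nat.cast_natAbs, Int.cast_abs]
    rcases abs_choice ((((2 * (a : ℤ) + j) - (2 * b + j') : ℤ) : ℝ)) with h2 | h2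
    · rw [h2]
    · rw [h2, mul_neg, Real.cos_neg]
  rw [e, Real.cos_sub, Complex.sq_norm, Complex.normSq_apply]
  simp only [cen, sub_re, sub_im]
  have s1 := Real.sin_sq_add_cos_sq (x * (2 * a + j))
  have s2 := Real.sin_sq_add_cos_sq (x * (2 * b + j'))
  linear_combination (lam ^ j) ^ 2 * s1 + (lam ^ j') ^ 2 * s2

lemma cen_norm {x lam : ℝ} (hl : 0 < lam) (j a : ℕ) : ‖cen x lam j a‖ = lam ^ j := by
  have hP : 0 < lam ^ j := pow_pos hl j
  rw [norm_eq_iff_sq hP.le]
  simp only [cen]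
  have s1 := Real.sin_sq_add_cos_sq (x * (2 * a + j))
  linear_combination (lam ^ j) ^ 2 * s1

/-- Lattice circle. -/
noncomputable def latC (x r lam : ℝ) (hr : 0 < r) (hl : 0 < lam) (j a : ℕ) : Circ :=
  ⟨cen x lam j a, lam ^ j * r, mul_pos (pow_pos hl j) hr⟩

/-- Ring circle. -/
noncomputable def rngC (c lam : ℝ) (hc : 0 < c) (hl : 0 < lam) (j : ℕ) : Circ :=
  ⟨0, lam ^ j * Real.sqrt c, mul_pos (pow_pos hl j) (Real.sqrt_pos.2 hc)⟩

lemma disj_of_far {C D : Circ} (h : C.r + D.r < ‖C.c - D.c‖) : Disjoint C.pts D.pts := by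
  rw [Set.disjoint_left]
  intro z hz hz'
  have h1 : ‖z - C.c‖ = C.r := hz
  have h2 : ‖z - D.c‖ = D.r := hz'
  have h3 : ‖C.c - D.c‖ ≤ ‖z - D.c‖ + ‖z - C.c‖ := by
    calc ‖C.c - D.c‖ = ‖(z - D.c) - (z - C.c)‖ := by congr 1; ring
      _ ≤ _ := norm_sub_le _ _
  linarith

section par2

variable {N : ℕ} {x c h r lam : ℝ} (hp : Par N x c h r lam) (hl : 0 < lam)

include hp

/-- Same ring. -/
lemma same_ring {j a b : ℕ} (ha : a < N) (hb : b < N) (hab : a ≠ b) :
    Disjoint (latC x r lam hp.rpos hl j a).pts (latC x r lam hp.rpos hl j b).pts ∨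
      Orth (latC x r lam hp.rpos hl j a) (latC x r lam hp.rpos hl j b) := by
  have hN := hp.hN
  have hP : 0 < lam ^ j := pow_pos hl j
  have hd := cen_dist x lam j a j b
  have hr := hp.rsq
  have hDval : dd j a j b = 2 * ((a : ℤ) - b).natAbs := by unfold dd; omega
  have hc2 : Real.cos (x * (2 : ℕ)) = c := by rw [hp.hc]; push_cast; rw [mul_comm]
  by_cases hD : dd j a j b = 2 ∨ dd j a j b + 2 = 2 * N
  · right
    apply orth_of_sq
    simp only [latC]
    have hcos : Real.cos (x * dd j a j b) = c := by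
      rcases hD with hD | hD
      · rw [hD]; exact hc2
      · rw [hp.cos_eq hD]; exact hc2
    rw [hd, hcos]
    linear_combination (-2 * (lam ^ j) ^ 2) * hr
  · left
    have h4 : 4 ≤ dd j a j b := by omega
    have h5 : dd j a j b + 4 ≤ 2 * N := by omega
    have hcos := hp.cos_le h4 h5 (by omega)
    have hc4 : Real.cos (x * (4 : ℕ)) = 2 * c ^ 2 - 1 := by
      have : x * ((4 : ℕ) : ℝ) = 2 * (2 * x) := by push_cast; ring
      rw [this, Real.cos_two_mul, ← hp.hc]
    rw [hc4] at hcos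
    apply disj_of_far
    simp only [latC]
    have hcp := hp.cpos
    have hclt := hp.clt
    have hrp := hp.rpos
    rw [← sq_lt_sq₀ (by positivity) (norm_nonneg _), hd]
    have h6 : 0 < (lam ^ j) ^ 2 := by positivity
    have h7 : (lam ^ j * r + lam ^ j * r) ^ 2 = (lam ^ j) ^ 2 * (4 * (1 - c)) := by
      rw [← hr]; ring
    have h8 : (lam ^ j) ^ 2 + (lam ^ j) ^ 2 - 2 * lam ^ j * lam ^ j * Real.cos (x * dd j a j b) =
        (lam ^ j) ^ 2 * (2 - 2 * Real.cos (x * dd j a j b)) := by ring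
    rw [h7, h8]
    apply mul_lt_mul_of_pos_left _ h6
    nlinarith

/-- Adjacent rings. -/
lemma adj_ring {j a b : ℕ} (ha : a < N) (hb : b < N) :
    Disjoint (latC x r lam hp.rpos hl j a).pts (latC x r lam hp.rpos hl (j + 1) b).pts ∨
      Orth (latC x r lam hp.rpos hl j a) (latC x r lam hp.rpos hl (j + 1) b) := by
  have hN := hp.hN
  have hP : 0 < lam ^ j := pow_pos hl j
  have hd := cen_dist x lam j a (j + 1) b
  have hr := hp.rsq
  have hR := hp.hR
  have hc1 : Real.cos (x * (1 : ℕ)) = h := by rw [hp.hh]; push_cast; rw [mul_one]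
  have hpow : lam ^ (j + 1) = lam ^ j * lam := pow_succ _ _
  by_cases hD : dd j a (j + 1) b = 1 ∨ dd j a (j + 1) b + 1 = 2 * N
  · right
    apply orth_of_sq
    simp only [latC]
    have hcos : Real.cos (x * dd j a (j + 1) b) = h := by
      rcases hD with hD | hD
      · rw [hD]; exact hc1
      · rw [hp.cos_eq hD]; exact hc1
    rw [hd, hcos, hpow]
    linear_combination (-(lam ^ j) ^ 2 * (1 + lam ^ 2)) * hr + (lam ^ j) ^ 2 * hR
  · left
    have h4 : 3 ≤ dd j a (j + 1) b := by unfold dd at hD ⊢; omega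
    have h5 : dd j a (j + 1) b + 3 ≤ 2 * N := by unfold dd at hD ⊢; omega
    have hcos := hp.cos_le h4 h5 (by omega)
    have hc3 : Real.cos (x * (3 : ℕ)) = 4 * h ^ 3 - 3 * h := by
      have : x * ((3 : ℕ) : ℝ) = 3 * x := by push_cast; ring
      rw [this, Real.cos_three_mul, ← hp.hh]
    rw [hc3] at hcos
    apply disj_of_far
    simp only [latC]
    have hcp := hp.cpos
    have hclt := hp.clt
    have hrp := hp.rpos
    have hP' : 0 < lam ^ (j + 1) := pow_pos hl _
    rw [← sq_lt_sq₀ (by positivity) (norm_nonneg _), hd, hpow]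
    have h6 : 0 < (lam ^ j) ^ 2 := by positivity
    set C := Real.cos (x * dd j a (j + 1) b) with hC
    have h7 : (lam ^ j * r + lam ^ j * lam * r) ^ 2 = (lam ^ j) ^ 2 * ((1 - c) * (1 + lam) ^ 2) := by
      rw [← hr]; ring
    have h8 : (lam ^ j) ^ 2 + (lam ^ j * lam) ^ 2 - 2 * lam ^ j * (lam ^ j * lam) * C =
        (lam ^ j) ^ 2 * (1 + lam ^ 2 - 2 * lam * C) := by ring
    rw [h7, h8]
    apply mul_lt_mul_of_pos_left _ h6
    -- C < h + c - 1
    have h9 : C < h + c - 1 := by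
      have := hp.hch
      have a1 := hp.hlt
      have a2 := hp.hhalf
      have h10 : 0 < (2 * h - 1) * (1 - h ^ 2) := mul_pos (by linarith) (by nlinarith)
      nlinarith
    have h10 : 0 < 2 * lam * (h + c - 1 - C) := mul_pos (by linarith) (by linarith)
    nlinarith

/-- Far rings. -/
lemma far_ring {j j' a b : ℕ} (hj : j + 2 ≤ j') :
    Disjoint (latC x r lam hp.rpos hl j a).pts (latC x r lam hp.rpos hl j' b).pts := by
  apply disj_of_far
  simp only [latC]
  have h1 : ‖cen x lam j' b‖ ≤ ‖cen x lam j a‖ + ‖cen x lam j a - cen x lam j' b‖ := by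
    calc ‖cen x lam j' b‖ = ‖cen x lam j a - (cen x lam j a - cen x lam j' b)‖ := by
          congr 1; ring
      _ ≤ _ := norm_sub_le _ _
  rw [cen_norm hl, cen_norm hl] at h1
  have hP : 0 < lam ^ j := pow_pos hl j
  have h2 : lam ^ (j + 2) ≤ lam ^ j' := pow_le_pow_right₀ hp.lam1.le hj
  have h3 : lam ^ (j + 2) = lam ^ j * lam ^ 2 := pow_add _ _ _
  have h4 := hp.key
  have h5 := hp.rlt
  have h6 : lam ^ j * (1 + r) < lam ^ j' * (1 - r) := by
    calc lam ^ j * (1 + r) < lam ^ j * (lam ^ 2 * (1 - r)) := mul_lt_mul_of_pos_left h4 hP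
      _ = lam ^ (j + 2) * (1 - r) := by rw [h3]; ring
      _ ≤ lam ^ j' * (1 - r) := mul_le_mul_of_nonneg_right h2 (by linarith)
  linarith

include hl in
lemma sqrt_key1 : Real.sqrt c < lam * (1 - r) := by
  have h4 := hp.key
  have h5 := hp.rlt
  have h6 := hp.rsq
  have h7 := hp.rpos
  rw [Real.sqrt_lt' (mul_pos hl (by linarith))]
  have : c = (1 + r) * (1 - r) := by linarith [h6, (by ring : (1 + r) * (1 - r) = 1 - r ^ 2)]
  rw [this]
  nlinarith [mul_pos (sub_pos.2 h4) (sub_pos.2 h5)]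

include hl in
lemma sqrt_key2 : 1 + r < lam * Real.sqrt c := by
  have h4 := hp.key
  have h5 := hp.rlt
  have h6 := hp.rsq
  have h7 := hp.rpos
  have h8 := Real.sq_sqrt hp.cpos.le
  have h9 : 0 ≤ lam * Real.sqrt c := mul_nonneg hl.le (Real.sqrt_nonneg _)
  rw [← sq_lt_sq₀ (by linarith) h9, mul_pow, h8]
  have : c = (1 + r) * (1 - r) := by linarith [h6, (by ring : (1 + r) * (1 - r) = 1 - r ^ 2)]
  rw [this]
  nlinarith [mul_pos (sub_pos.2 h4) (by linarith : 0 < 1 + r)]

/-- Ring circle and lattice circle. -/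
lemma ring_lat {j j' a : ℕ} :
    Disjoint (rngC c lam hp.cpos hl j).pts (latC x r lam hp.rpos hl j' a).pts ∨
      Orth (rngC c lam hp.cpos hl j) (latC x r lam hp.rpos hl j' a) := by
  have hP : 0 < lam ^ j := pow_pos hl j
  have hP' : 0 < lam ^ j' := pow_pos hl j'
  have h5 := hp.rlt
  have h6 := hp.rpos
  rcases Nat.lt_trichotomy j j' with hj | hj | hj
  · left
    rw [Set.disjoint_left]
    intro z hz hz'
    have h1 : ‖z - 0‖ = lam ^ j * Real.sqrt c := hz
    have h2 : ‖z - cen x lam j' a‖ = lam ^ j' * r := hz'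
    rw [sub_zero] at h1
    have h3 : ‖cen x lam j' a‖ ≤ ‖z‖ + ‖z - cen x lam j' a‖ := by
      calc ‖cen x lam j' a‖ = ‖z - (z - cen x lam j' a)‖ := by congr 1; ring
        _ ≤ _ := norm_sub_le _ _
    rw [cen_norm hl, h1, h2] at h3
    have h7 : lam ^ (j + 1) ≤ lam ^ j' := pow_le_pow_right₀ hp.lam1.le hj
    have h8 : lam ^ j * Real.sqrt c < lam ^ j' * (1 - r) := by
      calc lam ^ j * Real.sqrt c < lam ^ j * (lam * (1 - r)) :=
            mul_lt_mul_of_pos_left (sqrt_key1 hp hl) hP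
        _ = lam ^ (j + 1) * (1 - r) := by rw [pow_succ]; ring
        _ ≤ lam ^ j' * (1 - r) := mul_le_mul_of_nonneg_right h7 (by linarith)
    linarith
  · right
    subst hj
    apply orth_of_sq
    simp only [rngC, latC]
    rw [zero_sub, norm_neg, cen_norm hl, mul_pow, Real.sq_sqrt hp.cpos.le]
    linear_combination (-(lam ^ j) ^ 2) * hp.rsq
  · left
    rw [Set.disjoint_left]
    intro z hz hz'
    have h1 : ‖z - 0‖ = lam ^ j * Real.sqrt c := hz
    have h2 : ‖z - cen x lam j' a‖ = lam ^ j' * r := hz'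
    rw [sub_zero] at h1
    have h3 : ‖z‖ ≤ ‖cen x lam j' a‖ + ‖z - cen x lam j' a‖ := by
      calc ‖z‖ = ‖cen x lam j' a + (z - cen x lam j' a)‖ := by congr 1; ring
        _ ≤ _ := norm_add_le _ _
    rw [cen_norm hl, h1, h2] at h3
    have h7 : lam ^ (j' + 1) ≤ lam ^ j := pow_le_pow_right₀ hp.lam1.le hj
    have h8 : lam ^ j' * (1 + r) < lam ^ j * Real.sqrt c := by
      calc lam ^ j' * (1 + r) < lam ^ j' * (lam * Real.sqrt c) :=
            mul_lt_mul_of_pos_left (sqrt_key2 hp hl) hP'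
        _ = lam ^ (j' + 1) * Real.sqrt c := by rw [pow_succ]; ring
        _ ≤ lam ^ j * Real.sqrt c := mul_le_mul_of_nonneg_right h7 (Real.sqrt_nonneg _)
    linarith

lemma ring_ring {j j' : ℕ} (hj : j ≠ j') :
    Disjoint (rngC c lam hp.cpos hl j).pts (rngC c lam hp.cpos hl j').pts := by
  rw [Set.disjoint_left]
  intro z hz hz'
  have h1 : ‖z - 0‖ = lam ^ j * Real.sqrt c := hz
  have h2 : ‖z - 0‖ = lam ^ j' * Real.sqrt c := hz'
  rw [h1] at h2
  have h3 := mul_right_cancel₀ (Real.sqrt_pos.2 hp.cpos).ne' h2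
  exact hj (pow_right_injective₀ hl hp.lam1.ne' h3)

end par2

end Pool.Agent.X129.OrthCirc
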