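import Pool.Agent.X129.OrthRing

/-!
The ring lattice as an arrangement, its orthogonal pairs, and the resulting number of triangular
faces.
-/

namespace Pool.Agent.X129.OrthCirc

open Complex Metric Set

/-- Index type of the ring lattice: `K+1` rings of `M+1` circles, and `L` concentric circles. -/
abbrev LIdx (K M L : ℕ) : Type := (Fin (K + 1) × Fin (M + 1)) ⊕ Fin L

/-- Index type of the orthogonal pairs used. -/
abbrev SIdx (K M : ℕ) : Type :=
  ((Fin K × Fin M) ⊕ (Fin K × Fin M)) ⊕ ((Fin K × Fin M) ⊕ (Fin K × Fin M))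

/-- First members of the pairs. -/
def pr1 (K M L : ℕ) : SIdx K M → LIdx K M L
  | Sum.inl (Sum.inl (j, a)) => Sum.inl (⟨j, by omega⟩, ⟨a, by omega⟩)
  | Sum.inl (Sum.inr (j, a)) => Sum.inl (⟨j, by omega⟩, ⟨a, by omega⟩)
  | Sum.inr (Sum.inl (j, a)) => Sum.inl (⟨j, by omega⟩, ⟨a + 1, by omega⟩)
  | Sum.inr (Sum.inr (j, a)) => Sum.inl (⟨j, by omega⟩, ⟨a, by omega⟩)

/-- Second members of the pairs. -/
def pr2 (K M L : ℕ) (hL : K + 1 ≤ L) : SIdx K M → LIdx K M L
  | Sum.inl (Sum.inl (j, a)) => Sum.inl (⟨j, by omega⟩, ⟨a + 1, by omega⟩)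
  | Sum.inl (Sum.inr (j, a)) => Sum.inl (⟨j + 1, by omega⟩, ⟨a, by omega⟩)
  | Sum.inr (Sum.inl (j, a)) => Sum.inl (⟨j + 1, by omega⟩, ⟨a, by omega⟩)
  | Sum.inr (Sum.inr (j, _)) => Sum.inr ⟨j, by omega⟩

lemma pr_ne (K M L : ℕ) (hL : K + 1 ≤ L) (s : SIdx K M) : pr1 K M L s ≠ pr2 K M L hL s := by
  rcases s with (⟨j, a⟩ | ⟨j, a⟩) | (⟨j, a⟩ | ⟨j, a⟩) <;> simp [pr1, pr2]

lemma pr_inj (K M L : ℕ) (hL : K + 1 ≤ L) (s s' : SIdx K M)
    (h : (pr1 K M L s = pr1 K M L s' ∧ pr2 K M L hL s = pr2 K M L hL s') ∨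
      (pr1 K M L s = pr2 K M L hL s' ∧ pr2 K M L hL s = pr1 K M L s')) : s = s' := by
  rcases s with (⟨j, a⟩ | ⟨j, a⟩) | (⟨j, a⟩ | ⟨j, a⟩) <;>
    rcases s' with (⟨j', a'⟩ | ⟨j', a'⟩) | (⟨j', a'⟩ | ⟨j', a'⟩) <;>
    simp only [pr1, pr2, Sum.inl.injEq, Sum.inr.injEq, Prod.mk.injEq, Fin.mk.injEq, Fin.ext_iff,
      reduceCtorEq, and_false, false_and, or_false, false_or] at h ⊢ <;> omega

section par3

variable {N : ℕ} {x c h r lam : ℝ} (hp : Par N x c h r lam) (hl : 0 < lam)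

/-- The ring lattice. -/
noncomputable def lat (K M L : ℕ) : LIdx K M L → Circ
  | Sum.inl (j, a) => latC x r lam hp.rpos hl j a
  | Sum.inr j => rngC c lam hp.cpos hl j

lemma lat_lat {j a j' b : ℕ} (hj : j ≤ j') (ha : a < N) (hb : b < N) (hne : j ≠ j' ∨ a ≠ b) :
    Disjoint (latC x r lam hp.rpos hl j a).pts (latC x r lam hp.rpos hl j' b).pts ∨
      Orth (latC x r lam hp.rpos hl j a) (latC x r lam hp.rpos hl j' b) := by
  rcases Nat.lt_or_ge (j + 1) j' with h1 | h1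
  · exact Or.inl (far_ring hp hl h1)
  · rcases Nat.lt_or_ge j j' with h2 | h2
    · have h3 : j' = j + 1 := by omega
      subst h3
      exact adj_ring hp hl ha hb
    · have h3 : j' = j := by omega
      subst h3
      exact same_ring hp hl ha hb (by tauto)

lemma lat_arr (K M L : ℕ) (hN : N = M + 1) : IsArrangement (lat hp hl K M L) := by
  intro s t hst
  match s, t with
  | Sum.inl (j, a), Sum.inl (j', b) =>
    have ha : (a : ℕ) < N := by have := a.2; omega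
    have hb : (b : ℕ) < N := by have := b.2; omega
    have hne : (j : ℕ) ≠ j' ∨ (a : ℕ) ≠ b := by
      by_contra hc
      push Not at hc
      exact hst (by rw [Fin.ext hc.1, Fin.ext hc.2])
    rcases Nat.le_total (j : ℕ) j' with h1 | h1
    · exact lat_lat hp hl h1 ha hb hne
    · rcases lat_lat hp hl h1 hb ha (by tauto) with h2 | h2
      · exact Or.inl h2.symm
      · exact Or.inr h2.symm
  | Sum.inl (j, a), Sum.inr j' =>
    rcases ring_lat hp hl (j := j') (j' := j) (a := a) with h2 | h2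
    · exact Or.inl h2.symm
    · exact Or.inr h2.symm
  | Sum.inr j', Sum.inl (j, a) => exact ring_lat hp hl
  | Sum.inr j, Sum.inr j' =>
    left
    exact ring_ring hp hl (fun h => hst (by rw [Fin.ext h]))

include hp in
lemma orth_lat {j a j' b : ℕ} (hj : (j' = j ∧ dd j a j' b = 2) ∨ (j' = j + 1 ∧ dd j a j' b = 1)) :
    Orth (latC x r lam hp.rpos hl j a) (latC x r lam hp.rpos hl j' b) := by
  apply orth_of_sq
  simp only [latC]
  rcases hj with ⟨rfl, hD⟩ | ⟨rfl, hD⟩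
  · have hc2 : Real.cos (x * (2 : ℕ)) = c := by rw [hp.hc]; push_cast; rw [mul_comm]
    rw [cen_dist, hD, hc2]
    linear_combination (-2 * (lam ^ j') ^ 2) * hp.rsq
  · have hc1 : Real.cos (x * (1 : ℕ)) = h := by rw [hp.hh]; push_cast; rw [mul_one]
    rw [cen_dist, hD, hc1, pow_succ]
    linear_combination (-(lam ^ j) ^ 2 * (1 + lam ^ 2)) * hp.rsq + (lam ^ j) ^ 2 * hp.hR

lemma lat_orth (K M L : ℕ) (hL : K + 1 ≤ L) (s : SIdx K M) :
    Orth (lat hp hl K M L (pr1 K M L s)) (lat hp hl K M L (pr2 K M L hL s)) := by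
  rcases s with (⟨j, a⟩ | ⟨j, a⟩) | (⟨j, a⟩ | ⟨j, a⟩)
  · exact orth_lat hp hl (Or.inl ⟨rfl, by unfold dd; push_cast; omega⟩)
  · exact orth_lat hp hl (Or.inr ⟨rfl, by unfold dd; push_cast; omega⟩)
  · exact orth_lat hp hl (Or.inr ⟨rfl, by unfold dd; push_cast; omega⟩)
  · change Orth (latC x r lam hp.rpos hl j a) (rngC c lam hp.cpos hl j)
    refine Orth.symm (orth_of_sq ?_)
    simp only [rngC, latC]
    rw [zero_sub, norm_neg, cen_norm hl, mul_pow, Real.sq_sqrt hp.cpos.le]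
    linear_combination (-(lam ^ (j : ℕ)) ^ 2) * hp.rsq

end par3

/-- For `n ≥ (K+1)(M+2) + 8KM`, `M ≥ 4`, there is an arrangement of `n` orthogonal circles with
at least `32 K M` triangular faces. -/
theorem exists_ring (K M n : ℕ) (hM : 4 ≤ M) (hn : (K + 1) * (M + 2) + 8 * (K * M) ≤ n) :
    ∃ A : Fin n → Circ, IsArrangement A ∧
      ((32 * (K * M) : ℕ) : ℕ∞) ≤ {F | IsFace A F ∧ IsTriangular A F}.encard := by
  obtain ⟨L, hL, hn'⟩ : ∃ L, K + 1 ≤ L ∧ n = (K + 1) * (M + 1) + L + 8 * (K * M) := by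
    have e : (K + 1) * (M + 2) = (K + 1) * (M + 1) + (K + 1) := by ring
    exact ⟨n - (K + 1) * (M + 1) - 8 * (K * M), by omega, by omega⟩
  obtain ⟨x, c, h, r, lam, hp⟩ := exists_par (N := M + 1) (by omega)
  have hl : 0 < lam := by linarith [hp.lam1]
  obtain ⟨B, hB, hcount⟩ := general (lat hp hl K M L) (lat_arr hp hl K M L rfl)
    (pr1 K M L) (pr2 K M L hL) (pr_ne K M L hL) (lat_orth hp hl K M L hL) (pr_inj K M L hL)
  have hc : Fintype.card (Fin n) = Fintype.card (LIdx K M L ⊕ (SIdx K M × Bool)) := by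
    simp only [Fintype.card_sum, Fintype.card_prod, Fintype.card_fin, Fintype.card_bool]
    rw [hn']; ring
  have hcS : 8 * Fintype.card (SIdx K M) = 32 * (K * M) := by
    simp only [Fintype.card_sum, Fintype.card_prod, Fintype.card_fin]
    ring
  rw [hcS] at hcount
  obtain ⟨h1, h2⟩ := transfer (Fintype.equivOfCardEq hc) B hB
  exact ⟨_, h1, hcount.trans (encard_le_encard h2)⟩

end Pool.Agent.X129.OrthCirc
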