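import Mathlib

/-!
Simple games, types of voters, trade robustness; a family of complete simple games with four types
of voters which are `k`-trade robust but not `(k+1)`-trade robust.
-/

namespace Pool.Agent.X129.Trade

open Finset

/-- A simple game on the voter set `N`. -/
structure Game (N : Type) [Fintype N] [DecidableEq N] where
  win : Finset N → Prop
  empty_lose : ¬ win ∅
  univ_win : win univ
  mono : ∀ S T : Finset N, S ⊆ T → win S → win T

variable {N : Type} [Fintype N] [DecidableEq N]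

/-- `i ⪰ j`. -/
def Game.geq (G : Game N) (i j : N) : Prop :=
  ∀ S : Finset N, i ∉ S → j ∉ S → G.win (insert j S) → G.win (insert i S)

/-- Complete games. -/
def Game.Complete (G : Game N) : Prop := ∀ i j, G.geq i j ∨ G.geq j i

/-- The type of a voter: the set of all voters `j` with `i ⪰ j` and `j ⪰ i`. -/
def Game.cls (G : Game N) (i : N) : Set N := {j | G.geq i j ∧ G.geq j i}

/-- The number of types. -/
noncomputable def Game.numTypes (G : Game N) : ℕ := (Set.range G.cls).ncard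

/-- `k`-trade robustness. -/
def Game.Robust (G : Game N) (k : ℕ) : Prop :=
  ¬ ∃ j : ℕ, 1 ≤ j ∧ j ≤ k ∧ ∃ X Y : Fin j → Finset N, (∀ m, G.win (X m)) ∧
    (∀ m, ¬ G.win (Y m)) ∧
    ∀ v, (univ.filter fun m => v ∈ X m).card = (univ.filter fun m => v ∈ Y m).card

/-- The voters of the base family. -/
abbrev V (J : ℕ) : Type := (Fin (J + 1) ⊕ Fin (J + 2)) ⊕ (Fin (J + 3) ⊕ Fin (J + 3))

/-- The type (number) of a voter. -/
def ty {J : ℕ} : V J → Fin 4
  | Sum.inl (Sum.inl _) => 0
  | Sum.inl (Sum.inr _) => 1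
  | Sum.inr (Sum.inl _) => 2
  | Sum.inr (Sum.inr _) => 3

/-- The weights. -/
def wg (J : ℕ) : Fin 4 → ℕ := ![J ^ 2 + 5 * J + 7, J ^ 2 + 5 * J + 5, J ^ 2 + 3 * J + 3,
  J ^ 2 + 3 * J + 1]

/-- The quota. -/
def qu (J : ℕ) : ℕ := (J + 2) * (J ^ 2 + 5 * J + 5)

/-- The weight of a coalition. -/
def wt {J : ℕ} (S : Finset (V J)) : ℕ := ∑ v ∈ S, wg J (ty v)

/-- The number of voters of a given type in a coalition. -/
def cnt {J : ℕ} (t : Fin 4) (S : Finset (V J)) : ℕ := (S.filter fun v => ty v = t).card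

lemma wg_pos (J : ℕ) (t : Fin 4) : 0 < wg J t := by
  fin_cases t <;> simp [wg]

lemma wt_eq {J : ℕ} (S : Finset (V J)) : wt S = wg J 0 * cnt 0 S + wg J 1 * cnt 1 S +
    wg J 2 * cnt 2 S + wg J 3 * cnt 3 S := by
  unfold wt
  rw [← Finset.sum_fiberwise S ty (fun v => wg J (ty v))]
  have h : ∀ t : Fin 4, ∑ v ∈ S with ty v = t, wg J (ty v) = wg J t * cnt t S := by
    intro t
    rw [Finset.sum_congr rfl (g := fun _ => wg J t)]
    · rw [Finset.sum_const, smul_eq_mul, mul_comm]; rfl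
    · intro v hv
      rw [(Finset.mem_filter.1 hv).2]
  rw [Fin.sum_univ_four, h, h, h, h]

lemma cnt3_le {J : ℕ} (S : Finset (V J)) : cnt 3 S ≤ J + 3 := by
  have h1 : cnt 3 S ≤ cnt 3 (univ : Finset (V J)) :=
    Finset.card_le_card (Finset.filter_subset_filter _ (Finset.subset_univ S))
  refine h1.trans (le_of_eq ?_)
  unfold cnt
  rw [Finset.card_filter]
  simp [Fintype.sum_sum_type, ty]

/-- The key arithmetic fact. -/
lemma key (k x1 x2 x3 x4 : ℤ) (hk : 2 ≤ k) (h1 : 0 ≤ x1) (h2 : 0 ≤ x2) (h3 : 0 ≤ x3)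
    (h4 : 0 ≤ x4) (h4' : x4 ≤ k + 1)
    (h : (k ^ 2 + k + 1) * x1 + (k ^ 2 + k - 1) * x2 + (k ^ 2 - k + 1) * x3 +
      (k ^ 2 - k - 1) * x4 = k * (k ^ 2 + k - 1)) : x3 = 0 ∨ x3 = 1 ∨ x3 = k + 1 := by
  rcases eq_or_lt_of_le hk with hk2 | hk2
  · subst hk2
    norm_num at h h4'
    have a1 : x1 ≤ 1 := by omega
    have a2 : x2 ≤ 2 := by omega
    interval_cases x1 <;> interval_cases x2 <;> omega
  rcases eq_or_lt_of_le (show (3 : ℤ) ≤ k by linarith) with hk3 | hk3
  · subst hk3
    norm_num at h h4'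
    have a1 : x1 ≤ 2 := by omega
    have a2 : x2 ≤ 3 := by omega
    interval_cases x1 <;> interval_cases x2 <;> omega
  have hk4 : 4 ≤ k := by linarith
  -- `P - Q = k d`
  obtain ⟨d, hd⟩ : ∃ d, (x1 + x3) - (x2 + x4) = k * d :=
    ⟨k ^ 2 + k - 1 - k * (x1 + x2 + x3 + x4) - (x1 + x2 - x3 - x4), by linear_combination h⟩
  obtain ⟨m, hm⟩ : ∃ m, m = k + 2 - (x1 + x2 + x3 + x4) := ⟨_, rfl⟩
  have hA : 2 * (x1 + x2) = (k - 1) * m + 1 - d := by
    have h5 : k * (2 * (x1 + x2)) = k * ((k - 1) * m + 1 - d) := by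
      rw [hm]; linear_combination h - hd
    exact mul_left_cancel₀ (by linarith) h5
  have hm0 : 0 ≤ m := by
    by_contra hc
    push Not at hc
    have e1 : (k - 1) * m + 1 - d ≥ 0 := by rw [← hA]; linarith
    have e2 : k * (-d) ≤ x1 + x2 + x3 + x4 := by
      have : k * (-d) = (x2 + x4) - (x1 + x3) := by linear_combination hd
      rw [this]; linarith
    have e3 : k * (-(k - 1) * m - 1) ≤ k * (-d) := by
      apply mul_le_mul_of_nonneg_left _ (by linarith)
      linarith
    have e4 : x1 + x2 + x3 + x4 = k + 2 - m := by rw [hm]; ring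
    have e5 : (-m) * (k ^ 2 - k - 1) ≤ 2 * k + 2 := by nlinarith
    have e6 : 1 ≤ -m := by omega
    have e7 : 1 * (k ^ 2 - k - 1) ≤ (-m) * (k ^ 2 - k - 1) :=
      mul_le_mul_of_nonneg_right e6 (by nlinarith)
    nlinarith
  have hs : x1 + x2 + x3 + x4 ≤ k + 2 := by linarith
  have hd1 : d ≤ 1 := by
    by_contra hc
    push Not at hc
    have e1 : 2 ≤ d := by omega
    have : k * 2 ≤ k * d := mul_le_mul_of_nonneg_left e1 (by linarith)
    linarith
  have hd2 : -1 ≤ d := by
    by_contra hc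
    push Not at hc
    have e1 : d ≤ -2 := by omega
    have : k * d ≤ k * (-2) := mul_le_mul_of_nonneg_left e1 (by linarith)
    linarith
  have hm2 : m ≤ 2 := by
    by_contra hc
    push Not at hc
    have e1 : 3 ≤ m := by omega
    have e2 : (k + 1) * 3 ≤ (k + 1) * m := mul_le_mul_of_nonneg_left e1 (by linarith)
    nlinarith
  have hd' : d = -1 ∨ d = 0 ∨ d = 1 := by omega
  have hm' : m = 0 ∨ m = 1 ∨ m = 2 := by omega
  rcases hd' with rfl | rfl | rfl <;> rcases hm' with rfl | rfl | rfl <;> omega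

/-- At weight exactly the quota, the number of voters of the third type is `0`, `1` or `J + 3`. -/
lemma slice {J : ℕ} (S : Finset (V J)) (h : wt S = qu J) :
    cnt 2 S = 0 ∨ cnt 2 S = 1 ∨ cnt 2 S = J + 3 := by
  have h3 := cnt3_le S
  rw [wt_eq] at h
  simp only [wg, qu, Matrix.cons_val_zero, Matrix.cons_val_one, Matrix.cons_val] at h
  have := key (J + 2) (cnt 0 S) (cnt 1 S) (cnt 2 S) (cnt 3 S) (by linarith [(Nat.cast_nonneg J : (0:ℤ) ≤ J)])
    (by positivity) (by positivity) (by positivity) (by positivity) (by exact_mod_cast (by omega : cnt 3 S ≤ J + 2 + 1))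
    (by
      have h' : ((J ^ 2 + 5 * J + 7 : ℕ) : ℤ) * (cnt 0 S) + ((J ^ 2 + 5 * J + 5 : ℕ) : ℤ) * (cnt 1 S) +
        ((J ^ 2 + 3 * J + 3 : ℕ) : ℤ) * (cnt 2 S) + ((J ^ 2 + 3 * J + 1 : ℕ) : ℤ) * (cnt 3 S) =
        (((J + 2) * (J ^ 2 + 5 * J + 5) : ℕ) : ℤ) := by exact_mod_cast h
      push_cast at h'
      linear_combination h')
  omega

lemma wt_strict {J : ℕ} {S T : Finset (V J)} (h : S ⊂ T) : wt S < wt T := by
  obtain ⟨v, hv, hv'⟩ := Finset.exists_of_ssubset h
  exact Finset.sum_lt_sum_of_subset h.1 hv hv' (wg_pos J (ty v)) (fun _ _ _ => Nat.zero_le _)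

/-- The base game. -/
def base (J : ℕ) : Game (V J) where
  win S := qu J < wt S ∨ (wt S = qu J ∧ cnt 2 S ≠ 1)
  empty_lose := by
    have h1 : wt (∅ : Finset (V J)) = 0 := by simp [wt]
    have h2 : 0 < qu J := by unfold qu; positivity
    rw [h1]
    rintro (h | h)
    · omega
    · omega
  univ_win := by
    left
    unfold wt qu
    simp only [Fintype.sum_sum_type, ty, Finset.sum_const, Finset.card_univ, Fintype.card_fin,
      smul_eq_mul, wg, Matrix.cons_val_zero, Matrix.cons_val_one, Matrix.cons_val]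
    nlinarith
  mono := by
    intro S T hST h
    rcases hST.eq_or_ssubset with h1 | h1
    · rw [← h1]; exact h
    · left
      have := wt_strict h1
      rcases h with h | h
      · omega
      · omega

lemma wt_insert {J : ℕ} {S : Finset (V J)} {i : V J} (h : i ∉ S) :
    wt (insert i S) = wg J (ty i) + wt S := by
  unfold wt; rw [Finset.sum_insert h]

lemma cnt_insert {J : ℕ} {S : Finset (V J)} {i : V J} (h : i ∉ S) (t : Fin 4) :
    cnt t (insert i S) = (if ty i = t then 1 else 0) + cnt t S := by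
  unfold cnt
  rw [Finset.filter_insert]
  split_ifs with h1
  · rw [Finset.card_insert_of_notMem (by simp [h]), add_comm]
  · simp

lemma geq_of_ty {J : ℕ} {i j : V J} (h : ty i = ty j) : (base J).geq i j := by
  intro S hi hj hw
  change qu J < wt (insert j S) ∨ (wt (insert j S) = qu J ∧ cnt 2 (insert j S) ≠ 1) at hw
  change qu J < wt (insert i S) ∨ (wt (insert i S) = qu J ∧ cnt 2 (insert i S) ≠ 1)
  rw [wt_insert hi, cnt_insert hi, h]
  rw [wt_insert hj, cnt_insert hj] at hw
  exact hw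

lemma geq_of_lt {J : ℕ} {i j : V J} (h : wg J (ty j) < wg J (ty i)) : (base J).geq i j := by
  intro S hi hj hw
  change qu J < wt (insert j S) ∨ (wt (insert j S) = qu J ∧ cnt 2 (insert j S) ≠ 1) at hw
  change qu J < wt (insert i S) ∨ (wt (insert i S) = qu J ∧ cnt 2 (insert i S) ≠ 1)
  rw [wt_insert hi]
  rw [wt_insert hj] at hw
  left; omega

lemma wg_anti {J : ℕ} {s t : Fin 4} (h : s < t) : wg J t < wg J s := by
  fin_cases s <;> fin_cases t <;> simp [wg] at h ⊢ <;> nlinarith

lemma base_complete (J : ℕ) : (base J).Complete := by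
  intro i j
  rcases lt_trichotomy (ty i) (ty j) with h | h | h
  · exact Or.inl (geq_of_lt (wg_anti h))
  · exact Or.inl (geq_of_ty h)
  · exact Or.inr (geq_of_lt (wg_anti h))

end Pool.Agent.X129.Trade
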