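import Pool.Agent.X129.Trade

/-!
The base family is `(J+2)`-trade robust, not `(J+3)`-trade robust, and has four types of voters.
-/

namespace Pool.Agent.X129.Trade

open Finset

lemma sum_swap {N : Type} [Fintype N] [DecidableEq N] {j : ℕ} (X : Fin j → Finset N) (f : N → ℕ) :
    ∑ m, ∑ v ∈ X m, f v = ∑ v, (univ.filter fun m => v ∈ X m).card * f v := by
  have h1 : ∀ m, ∑ v ∈ X m, f v = ∑ v, if v ∈ X m then f v else 0 := by
    intro m
    rw [Finset.sum_ite_mem, Finset.univ_inter]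
  simp_rw [h1]
  rw [Finset.sum_comm]
  refine Finset.sum_congr rfl fun v _ => ?_
  rw [← Finset.sum_filter, Finset.sum_const, smul_eq_mul]

theorem base_robust (J : ℕ) : (base J).Robust (J + 2) := by
  rintro ⟨j, hj1, hj2, X, Y, hX, hY, hb⟩
  have hsum : ∀ f : V J → ℕ, ∑ m, ∑ v ∈ X m, f v = ∑ m, ∑ v ∈ Y m, f v := by
    intro f
    rw [sum_swap, sum_swap]
    exact Finset.sum_congr rfl fun v _ => by rw [hb v]
  have hw : ∑ m, wt (X m) = ∑ m, wt (Y m) := hsum _
  have hXq : ∀ m, qu J ≤ wt (X m) := by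
    intro m
    rcases hX m with h | h
    · exact h.le
    · exact h.1.symm.le
  have hYq : ∀ m, wt (Y m) ≤ qu J := by
    intro m
    by_contra hc
    push Not at hc
    exact hY m (Or.inl hc)
  have hconst : ∑ _m : Fin j, qu J = ∑ m, wt (X m) := by
    apply le_antisymm
    · exact Finset.sum_le_sum fun m _ => hXq m
    · rw [hw]; exact Finset.sum_le_sum fun m _ => hYq m
  have hXe : ∀ m, wt (X m) = qu J := by
    intro m
    exact (((Finset.sum_eq_sum_iff_of_le fun m _ => hXq m).1 hconst) m (Finset.mem_univ m)).symm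
  have hYe : ∀ m, wt (Y m) = qu J := by
    intro m
    have h2 : ∑ m, wt (Y m) = ∑ _m : Fin j, qu J := by rw [← hw, hconst]
    exact ((Finset.sum_eq_sum_iff_of_le fun m _ => hYq m).1 h2) m (Finset.mem_univ m)
  have hYc : ∀ m, cnt 2 (Y m) = 1 := by
    intro m
    by_contra hc
    exact hY m (Or.inr ⟨hYe m, hc⟩)
  have hXc : ∀ m, J + 3 ∣ cnt 2 (X m) := by
    intro m
    rcases slice (X m) (hXe m) with h | h | h
    · rw [h]; exact dvd_zero _
    · rcases hX m with h' | h'
      · rw [hXe m] at h'; exact absurd h' (lt_irrefl _)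
      · exact absurd h h'.2
    · rw [h]
  have hc : ∀ S : Finset (V J), cnt 2 S = ∑ v ∈ S, if ty v = 2 then 1 else 0 := by
    intro S; unfold cnt; rw [Finset.card_filter]
  have h5 : ∑ m, cnt 2 (X m) = j := by
    simp_rw [hc]
    rw [hsum]
    simp_rw [← hc, hYc]
    simp
  have h6 : J + 3 ∣ j := by
    rw [← h5]; exact Finset.dvd_sum fun m _ => hXc m
  have := Nat.le_of_dvd (by omega) h6
  omega

/-- A coalition given by its four parts. -/
def mk4 {J : ℕ} (A : Finset (Fin (J + 1))) (B : Finset (Fin (J + 2))) (C : Finset (Fin (J + 3)))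
    (D : Finset (Fin (J + 3))) : Finset (V J) := (A.disjSum B).disjSum (C.disjSum D)

lemma wt_mk4 {J : ℕ} (A : Finset (Fin (J + 1))) (B : Finset (Fin (J + 2)))
    (C : Finset (Fin (J + 3))) (D : Finset (Fin (J + 3))) : wt (mk4 A B C D) =
    wg J 0 * A.card + wg J 1 * B.card + (wg J 2 * C.card + wg J 3 * D.card) := by
  unfold wt mk4
  rw [Finset.sum_disjSum, Finset.sum_disjSum, Finset.sum_disjSum]
  simp only [ty, Finset.sum_const, smul_eq_mul]
  ring

lemma cnt_mk4 {J : ℕ} (A : Finset (Fin (J + 1))) (B : Finset (Fin (J + 2)))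
    (C : Finset (Fin (J + 3))) (D : Finset (Fin (J + 3))) : cnt 2 (mk4 A B C D) = C.card := by
  unfold cnt mk4
  rw [Finset.card_filter, Finset.sum_disjSum, Finset.sum_disjSum, Finset.sum_disjSum]
  simp [ty]

lemma cE {n : ℕ} {p : Fin n → Prop} [DecidablePred p] (a : ℕ) (h : a < n)
    (hp : ∀ i : Fin n, p i ↔ (i : ℕ) = a) : (univ.filter p).card = 1 := by
  have : univ.filter p = {⟨a, h⟩} := by
    ext i; simp [Fin.ext_iff, hp]
  rw [this, Finset.card_singleton]

lemma c0 {n : ℕ} {p : Fin n → Prop} [DecidablePred p] (hp : ∀ i : Fin n, ¬ p i) :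
    (univ.filter p).card = 0 := by
  rw [Finset.card_eq_zero, Finset.filter_eq_empty_iff]
  intro i _; exact hp i

lemma cU {n : ℕ} {p : Fin n → Prop} [DecidablePred p] (hp : ∀ i : Fin n, p i) :
    (univ.filter p).card = n := by
  rw [Finset.filter_true_of_mem fun i _ => hp i]; simp

lemma cN {n : ℕ} {p : Fin (n + 1) → Prop} [DecidablePred p] (a : ℕ) (h : a < n + 1)
    (hp : ∀ i : Fin (n + 1), p i ↔ (i : ℕ) ≠ a) : (univ.filter p).card = n := by
  have : univ.filter p = univ.erase ⟨a, h⟩ := by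
    ext i; simp [Fin.ext_iff, hp]
  rw [this, Finset.card_erase_of_mem (Finset.mem_univ _)]
  simp

lemma cN2 {n : ℕ} {p : Fin (n + 2) → Prop} [DecidablePred p] (a b : ℕ) (h : a < n + 2)
    (h' : b < n + 2) (hab : a ≠ b) (hp : ∀ i : Fin (n + 2), p i ↔ ((i : ℕ) ≠ a ∧ (i : ℕ) ≠ b)) :
    (univ.filter p).card = n := by
  have : univ.filter p = (univ.erase ⟨a, h⟩).erase ⟨b, h'⟩ := by
    ext i
    simp only [mem_filter, mem_univ, true_and, mem_erase, ne_eq, Fin.ext_iff, hp]
    tauto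
  rw [this, Finset.card_erase_of_mem (by simp [Fin.ext_iff, hab.symm]),
    Finset.card_erase_of_mem (Finset.mem_univ _)]
  simp

/-- Winning coalitions of the trade. -/
def tX {J : ℕ} (m : Fin (J + 3)) : Finset (V J) :=
  mk4 (univ.filter fun i => (i : ℕ) = m) (univ.filter fun _ => (m : ℕ) = J + 1)
    (univ.filter fun _ => (m : ℕ) = J + 2)
    (univ.filter fun i => (m : ℕ) < J + 1 ∨ ((m : ℕ) = J + 2 ∧ (i : ℕ) = J + 2))

/-- Losing coalitions of the trade. -/
def tY {J : ℕ} (m : Fin (J + 3)) : Finset (V J) :=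
  mk4 (univ.filter fun _ => (m : ℕ) = J + 2) (univ.filter fun i => (i : ℕ) = m)
    (univ.filter fun i => (i : ℕ) = m)
    (univ.filter fun i => (m : ℕ) < J + 2 ∧ (i : ℕ) ≠ m)

lemma wg0 (J : ℕ) : wg J 0 = J ^ 2 + 5 * J + 7 := rfl
lemma wg1 (J : ℕ) : wg J 1 = J ^ 2 + 5 * J + 5 := rfl
lemma wg2 (J : ℕ) : wg J 2 = J ^ 2 + 3 * J + 3 := rfl
lemma wg3 (J : ℕ) : wg J 3 = J ^ 2 + 3 * J + 1 := rfl

theorem base_not_robust (J : ℕ) : ¬ (base J).Robust (J + 3) := by
  intro hrob
  apply hrob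
  refine ⟨J + 3, by omega, le_rfl, tX, tY, ?_, ?_, ?_⟩
  · intro m
    have hm := m.2
    right
    unfold tX
    rw [wt_mk4, cnt_mk4, wg0, wg1, wg2, wg3, qu]
    rcases Nat.lt_trichotomy (m : ℕ) (J + 1) with h | h | h
    · rw [cE (n := J + 1) (m : ℕ) h (fun i => Iff.rfl), c0 (n := J + 2) (fun i => by omega),
        c0 (n := J + 3) (fun i => by omega), cU (n := J + 3) (fun i => Or.inl h)]
      exact ⟨by ring, by norm_num⟩
    · rw [c0 (n := J + 1) (fun i => by have := i.2; omega), cU (n := J + 2) (fun i => h),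
        c0 (n := J + 3) (fun i => by omega), c0 (n := J + 3) (fun i => by omega)]
      exact ⟨by ring, by norm_num⟩
    · rw [c0 (n := J + 1) (fun i => by have := i.2; omega), c0 (n := J + 2) (fun i => by omega),
        cU (n := J + 3) (fun i => by omega), cE (n := J + 3) (J + 2) (by omega) (fun i => by omega)]
      exact ⟨by ring, by omega⟩
  · intro m
    have hm := m.2
    rintro (hlt | ⟨-, hne⟩)
    · unfold tY at hlt
      rw [wt_mk4, wg0, wg1, wg2, wg3, qu] at hlt
      rcases Nat.lt_or_ge (m : ℕ) (J + 2) with h | h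
      · rw [c0 (n := J + 1) (fun i => by omega), cE (n := J + 2) (m : ℕ) h (fun i => Iff.rfl),
          cE (n := J + 3) (m : ℕ) hm (fun i => Iff.rfl),
          cN (n := J + 2) (m : ℕ) hm (fun i => by omega)] at hlt
        nlinarith
      · rw [cU (n := J + 1) (fun i => by omega), c0 (n := J + 2) (fun i => by have := i.2; omega),
          cE (n := J + 3) (m : ℕ) hm (fun i => Iff.rfl),
          c0 (n := J + 3) (fun i => by omega)] at hlt
        nlinarith
    · apply hne
      unfold tY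
      rw [cnt_mk4]
      exact cE (m : ℕ) hm (fun i => Iff.rfl)
  · rintro ((i | i) | (i | i))
    · have hi := i.2
      rw [cE (i : ℕ) (by omega) (fun m => by simp [tX, mk4, eq_comm]),
        cE (J + 2) (by omega) (fun m => by simp only [tY, mk4, Finset.inl_mem_disjSum, Finset.inr_mem_disjSum, Finset.mem_filter, Finset.mem_univ, true_and])]
    · have hi := i.2
      rw [cE (J + 1) (by omega) (fun m => by simp only [tX, mk4, Finset.inl_mem_disjSum, Finset.inr_mem_disjSum, Finset.mem_filter, Finset.mem_univ, true_and]),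
        cE (i : ℕ) (by omega) (fun m => by simp [tY, mk4, eq_comm])]
    · have hi := i.2
      rw [cE (J + 2) (by omega) (fun m => by simp only [tX, mk4, Finset.inl_mem_disjSum, Finset.inr_mem_disjSum, Finset.mem_filter, Finset.mem_univ, true_and]),
        cE (i : ℕ) (by omega) (fun m => by simp [tY, mk4, eq_comm])]
    · have hi := i.2
      have hX : ∀ m : Fin (J + 3), (Sum.inr (Sum.inr i) : V J) ∈ tX m ↔
          ((m : ℕ) < J + 1 ∨ ((m : ℕ) = J + 2 ∧ (i : ℕ) = J + 2)) := by
        intro m; simp [tX, mk4]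
      have hY : ∀ m : Fin (J + 3), (Sum.inr (Sum.inr i) : V J) ∈ tY m ↔
          ((m : ℕ) < J + 2 ∧ (i : ℕ) ≠ m) := by
        intro m; simp [tY, mk4]
      by_cases h : (i : ℕ) = J + 2
      · rw [cN (n := J + 2) (J + 1) (by omega) (fun m => by rw [hX]; have := m.2; omega),
          cN (n := J + 2) (J + 2) (by omega) (fun m => by rw [hY]; have := m.2; omega)]
      · rw [cN2 (n := J + 1) (J + 1) (J + 2) (by omega) (by omega) (by omega)
            (fun m => by rw [hX]; have := m.2; omega),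
          cN2 (n := J + 1) (i : ℕ) (J + 2) (by omega) (by omega) h
            (fun m => by rw [hY]; have := m.2; omega)]

/-- Types with different weights are different. -/
lemma strict {J : ℕ} {a b : V J} (h : ty a < ty b) : ¬ (base J).geq b a := by
  -- it suffices to find a coalition `S`
  suffices hs : ∃ S : Finset (V J), a ∉ S ∧ b ∉ S ∧
      ((wg J (ty a) + wt S = qu J ∧ cnt 2 (insert a S) ≠ 1 ∧ True) ∨
        (wg J (ty b) + wt S = qu J ∧ cnt 2 (insert b S) = 1)) by
    obtain ⟨S, ha, hb, hc⟩ := hs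
    intro hg
    have hw := wg_anti (J := J) h
    rcases hc with ⟨h1, h2, -⟩ | ⟨h1, h2⟩
    · have h3 : (base J).win (insert a S) := Or.inr ⟨by rw [wt_insert ha]; exact h1, h2⟩
      have h4 := hg S hb ha h3
      rcases h4 with h4 | h4
      · rw [wt_insert hb] at h4; omega
      · rw [wt_insert hb] at h4; omega
    · have h3 : (base J).win (insert a S) := Or.inl (by rw [wt_insert ha]; omega)
      have h4 := hg S hb ha h3
      rcases h4 with h4 | h4
      · rw [wt_insert hb] at h4; omega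
      · exact h4.2 h2
  match a, b with
  | Sum.inl (Sum.inl a), Sum.inl (Sum.inl b) => exact absurd h (lt_irrefl _)
  | Sum.inl (Sum.inr a), Sum.inl (Sum.inr b) => exact absurd h (lt_irrefl _)
  | Sum.inr (Sum.inl a), Sum.inr (Sum.inl b) => exact absurd h (lt_irrefl _)
  | Sum.inr (Sum.inr a), Sum.inr (Sum.inr b) => exact absurd h (lt_irrefl _)
  | Sum.inl (Sum.inr a), Sum.inl (Sum.inl b) => exact absurd h (by simp [ty])
  | Sum.inr (Sum.inl a), Sum.inl (Sum.inl b) => exact absurd h (by simp [ty])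
  | Sum.inr (Sum.inr a), Sum.inl (Sum.inl b) => exact absurd h (by simp [ty])
  | Sum.inr (Sum.inl a), Sum.inl (Sum.inr b) => exact absurd h (by simp [ty])
  | Sum.inr (Sum.inr a), Sum.inl (Sum.inr b) => exact absurd h (by simp [ty])
  | Sum.inr (Sum.inr a), Sum.inr (Sum.inl b) => exact absurd h (by simp [ty])
  | Sum.inl (Sum.inl a), Sum.inl (Sum.inr b) =>
    have ha : (Sum.inl (Sum.inl a) : V J) ∉ mk4 ∅ ∅ ∅ univ := by simp [mk4]
    refine ⟨mk4 ∅ ∅ ∅ univ, ha, by simp [mk4], Or.inl ⟨?_, ?_, trivial⟩⟩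
    · rw [wt_mk4]
      simp only [ty, wg0, wg1, wg2, wg3, qu, Finset.card_empty, Finset.card_univ, Fintype.card_fin]
      ring
    · rw [cnt_insert ha, cnt_mk4]; simp [ty]
  | Sum.inl (Sum.inl a), Sum.inr (Sum.inl b) =>
    have ha : (Sum.inl (Sum.inl a) : V J) ∉ mk4 ∅ ∅ ∅ univ := by simp [mk4]
    refine ⟨mk4 ∅ ∅ ∅ univ, ha, by simp [mk4], Or.inl ⟨?_, ?_, trivial⟩⟩
    · rw [wt_mk4]
      simp only [ty, wg0, wg1, wg2, wg3, qu, Finset.card_empty, Finset.card_univ, Fintype.card_fin]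
      ring
    · rw [cnt_insert ha, cnt_mk4]; simp [ty]
  | Sum.inl (Sum.inl a), Sum.inr (Sum.inr b) =>
    obtain ⟨z, hz⟩ : ∃ z : Fin (J + 3), z ≠ b := by
      rcases eq_or_ne b 0 with h0 | h0
      · exact ⟨1, by rw [h0]; simp⟩
      · exact ⟨0, h0.symm⟩
    have hb : (Sum.inr (Sum.inr b) : V J) ∉ mk4 ∅ {0} {0} ((univ.erase b).erase z) := by
      simp [mk4]
    refine ⟨mk4 ∅ {0} {0} ((univ.erase b).erase z), by simp [mk4], hb, Or.inr ⟨?_, ?_⟩⟩
    · rw [wt_mk4, Finset.card_erase_of_mem (by simp [hz]),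
        Finset.card_erase_of_mem (Finset.mem_univ _)]
      simp only [ty, wg0, wg1, wg2, wg3, qu, Finset.card_empty, Finset.card_univ, Fintype.card_fin,
        Finset.card_singleton]
      have : J + 3 - 1 - 1 = J + 1 := by omega
      rw [this]; ring
    · rw [cnt_insert hb, cnt_mk4]; simp [ty]
  | Sum.inl (Sum.inr a), Sum.inr (Sum.inl b) =>
    have ha : (Sum.inl (Sum.inr a) : V J) ∉ mk4 ∅ (univ.erase a) ∅ ∅ := by simp [mk4]
    refine ⟨mk4 ∅ (univ.erase a) ∅ ∅, ha, by simp [mk4], Or.inl ⟨?_, ?_, trivial⟩⟩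
    · rw [wt_mk4, Finset.card_erase_of_mem (Finset.mem_univ _)]
      simp only [ty, wg0, wg1, wg2, wg3, qu, Finset.card_empty, Finset.card_univ, Fintype.card_fin]
      have : J + 2 - 1 = J + 1 := by omega
      rw [this]; ring
    · rw [cnt_insert ha, cnt_mk4]; simp [ty]
  | Sum.inl (Sum.inr a), Sum.inr (Sum.inr b) =>
    have ha : (Sum.inl (Sum.inr a) : V J) ∉ mk4 ∅ (univ.erase a) ∅ ∅ := by simp [mk4]
    refine ⟨mk4 ∅ (univ.erase a) ∅ ∅, ha, by simp [mk4], Or.inl ⟨?_, ?_, trivial⟩⟩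
    · rw [wt_mk4, Finset.card_erase_of_mem (Finset.mem_univ _)]
      simp only [ty, wg0, wg1, wg2, wg3, qu, Finset.card_empty, Finset.card_univ, Fintype.card_fin]
      have : J + 2 - 1 = J + 1 := by omega
      rw [this]; ring
    · rw [cnt_insert ha, cnt_mk4]; simp [ty]
  | Sum.inr (Sum.inl a), Sum.inr (Sum.inr b) =>
    obtain ⟨z, hz⟩ : ∃ z : Fin (J + 3), z ≠ b := by
      rcases eq_or_ne b 0 with h0 | h0
      · exact ⟨1, by rw [h0]; simp⟩
      · exact ⟨0, h0.symm⟩
    have ha : (Sum.inr (Sum.inl a) : V J) ∉ mk4 ∅ ∅ (univ.erase a) {z} := by simp [mk4]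
    refine ⟨mk4 ∅ ∅ (univ.erase a) {z}, ha, by simp [mk4, hz.symm], Or.inl ⟨?_, ?_, trivial⟩⟩
    · rw [wt_mk4, Finset.card_erase_of_mem (Finset.mem_univ _)]
      simp only [ty, wg0, wg1, wg2, wg3, qu, Finset.card_empty, Finset.card_univ, Fintype.card_fin,
        Finset.card_singleton]
      have : J + 3 - 1 = J + 2 := by omega
      rw [this]; ring
    · rw [cnt_insert ha, cnt_mk4, Finset.card_erase_of_mem (Finset.mem_univ _)]
      simp only [ty, Finset.card_univ, Fintype.card_fin, if_true]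
      omega

lemma base_cls {J : ℕ} (i : V J) : (base J).cls i = {v | ty v = ty i} := by
  ext v
  constructor
  · rintro ⟨h1, h2⟩
    rcases lt_trichotomy (ty v) (ty i) with h | h | h
    · exact absurd h1 (strict h)
    · exact h
    · exact absurd h2 (strict h)
  · intro h
    have h' : ty v = ty i := h
    exact ⟨geq_of_ty h'.symm, geq_of_ty h'⟩

lemma ty_surj {J : ℕ} (t : Fin 4) : ∃ v : V J, ty v = t := by
  fin_cases t
  · exact ⟨Sum.inl (Sum.inl 0), rfl⟩
  · exact ⟨Sum.inl (Sum.inr 0), rfl⟩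
  · exact ⟨Sum.inr (Sum.inl 0), rfl⟩
  · exact ⟨Sum.inr (Sum.inr 0), rfl⟩

theorem base_types (J : ℕ) : (base J).numTypes = 4 := by
  unfold Game.numTypes
  have h1 : Set.range (base J).cls = Set.range (fun t : Fin 4 => {v : V J | ty v = t}) := by
    ext s
    constructor
    · rintro ⟨i, rfl⟩; exact ⟨ty i, (base_cls i).symm⟩
    · rintro ⟨t, rfl⟩
      obtain ⟨v, hv⟩ := ty_surj (J := J) t
      exact ⟨v, by rw [base_cls, hv]⟩
  have h2 : Function.Injective (fun t : Fin 4 => {v : V J | ty v = t}) := by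
    intro s t h
    obtain ⟨v, hv⟩ := ty_surj (J := J) s
    have : v ∈ {v : V J | ty v = t} := by
      rw [← (show {v : V J | ty v = s} = {v : V J | ty v = t} from h)]; exact hv
    have h3 : ty v = t := this
    rw [← hv, h3]
  rw [h1, ← Set.image_univ, Set.ncard_image_of_injective _ h2, Set.ncard_univ, Nat.card_fin]

end Pool.Agent.X129.Trade
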