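import Pool.Agent.X129.Trade2

/-!
Adding a veto player or a passer to a simple game: one more type of voters, the same trade
robustness.
-/

namespace Pool.Agent.X129.Trade

open Finset

variable {N : Type} [Fintype N] [DecidableEq N]

/-- No veto player. -/
def NoVeto (G : Game N) : Prop := ∀ v, G.win (univ.erase v)

/-- No passer. -/
def NoPass (G : Game N) : Prop := ∀ v, ¬ G.win {v}

lemma en_insert (i : N) (S : Finset (Option N)) :
    eraseNone (insert (some i) S) = insert i (eraseNone S) := by
  ext x; simp

lemma en_map (S : Finset N) : eraseNone (S.map Function.Embedding.some) = S := by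
  ext x; simp

lemma en_ins (S : Finset N) : eraseNone (insertNone S) = S := by
  ext x; simp

lemma en_insN (S : Finset (Option N)) : eraseNone (insert none S) = eraseNone S := by
  ext x; simp

/-- The game with an additional veto player. -/
def vet (G : Game N) : Game (Option N) where
  win S := none ∈ S ∧ G.win (eraseNone S)
  empty_lose := by rintro ⟨h, -⟩; simp at h
  univ_win := by
    refine ⟨Finset.mem_univ _, ?_⟩
    have : eraseNone (univ : Finset (Option N)) = univ := by ext x; simp
    rw [this]; exact G.univ_win
  mono S T h := by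
    rintro ⟨h1, h2⟩
    exact ⟨h h1, G.mono _ _ (eraseNone.monotone h) h2⟩

/-- The game with an additional passer. -/
def pas (G : Game N) : Game (Option N) where
  win S := none ∈ S ∨ G.win (eraseNone S)
  empty_lose := by
    rintro (h | h)
    · simp at h
    · have : eraseNone (∅ : Finset (Option N)) = ∅ := by ext x; simp
      rw [this] at h; exact G.empty_lose h
  univ_win := Or.inl (Finset.mem_univ _)
  mono S T h := by
    rintro (h1 | h2)
    · exact Or.inl (h h1)
    · exact Or.inr (G.mono _ _ (eraseNone.monotone h) h2)

lemma vet_geq (G : Game N) (i j : N) : (vet G).geq (some i) (some j) ↔ G.geq i j := by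
  constructor
  · intro h S hi hj hw
    have h1 := h (insertNone S) (by simpa using hi) (by simpa using hj)
      ⟨by simp, by rw [en_insert, en_ins]; exact hw⟩
    have h2 := h1.2
    rwa [en_insert, en_ins] at h2
  · intro h S hi hj hw
    have h1 := hw.1
    have h2 := hw.2
    rw [en_insert] at h2
    refine ⟨?_, ?_⟩
    · simp only [Finset.mem_insert, reduceCtorEq, false_or] at h1 ⊢
      exact h1
    · rw [en_insert]
      exact h _ (by simpa using hi) (by simpa using hj) h2

lemma pas_geq (G : Game N) (i j : N) : (pas G).geq (some i) (some j) ↔ G.geq i j := by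
  constructor
  · intro h S hi hj hw
    have h1 := h (S.map Function.Embedding.some) (by simpa using hi) (by simpa using hj)
      (Or.inr (by rw [en_insert, en_map]; exact hw))
    rcases h1 with h2 | h2
    · simp at h2
    · rwa [en_insert, en_map] at h2
  · intro h S hi hj hw
    rcases hw with h1 | h2
    · left
      simp only [Finset.mem_insert, reduceCtorEq, false_or] at h1 ⊢
      exact h1
    · right
      rw [en_insert] at h2 ⊢
      exact h _ (by simpa using hi) (by simpa using hj) h2

lemma vet_none (G : Game N) (j : Option N) : (vet G).geq none j := by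
  intro S hS hj hw
  have h1 := hw.1
  cases j with
  | none => exact hw
  | some j =>
    simp only [Finset.mem_insert, reduceCtorEq, false_or] at h1
    exact absurd h1 hS

lemma pas_none (G : Game N) (j : Option N) : (pas G).geq none j := by
  intro S _ _ _
  exact Or.inl (by simp)

lemma vet_not (G : Game N) (h : NoVeto G) (i : N) : ¬ (vet G).geq (some i) none := by
  intro hg
  have h1 := hg ((univ.erase i).map Function.Embedding.some) (by simp) (by simp)
    ⟨by simp, by rw [en_insN, en_map]; exact h i⟩
  have h2 := h1.1
  simp at h2

lemma pas_not (G : Game N) (h : NoPass G) (i : N) : ¬ (pas G).geq (some i) none := by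
  intro hg
  have h1 := hg ∅ (by simp) (by simp) (Or.inl (by simp))
  rcases h1 with h2 | h2
  · simp at h2
  · rw [en_insert] at h2
    have : insert i (eraseNone (∅ : Finset (Option N))) = {i} := by ext x; simp
    rw [this] at h2
    exact h i h2

/-- Counting the types of an extension. -/
lemma types_ext (G : Game N) (G' : Game (Option N))
    (h1 : ∀ i j, G'.geq (some i) (some j) ↔ G.geq i j) (h2 : ∀ j, G'.geq none j)
    (h3 : ∀ i, ¬ G'.geq (some i) none) : G'.numTypes = G.numTypes + 1 := by
  have c1 : G'.cls none = {none} := by
    ext x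
    cases x with
    | none => exact ⟨fun _ => rfl, fun _ => ⟨h2 _, h2 _⟩⟩
    | some x =>
      constructor
      · rintro ⟨-, h⟩; exact absurd h (h3 x)
      · intro h; simp at h
  have c2 : ∀ i, G'.cls (some i) = some '' (G.cls i) := by
    intro i
    ext x
    cases x with
    | none =>
      constructor
      · rintro ⟨h, -⟩; exact absurd h (h3 i)
      · rintro ⟨y, -, hy⟩; simp at hy
    | some x =>
      constructor
      · rintro ⟨ha, hb⟩
        exact ⟨x, ⟨(h1 _ _).1 ha, (h1 _ _).1 hb⟩, rfl⟩
      · rintro ⟨y, ⟨ha, hb⟩, hy⟩
        obtain rfl := Option.some_injective _ hy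
        exact ⟨(h1 _ _).2 ha, (h1 _ _).2 hb⟩
  unfold Game.numTypes
  have hr : Set.range G'.cls = insert {none} ((fun s : Set N => some '' s) '' Set.range G.cls) := by
    ext s
    constructor
    · rintro ⟨x, rfl⟩
      cases x with
      | none => left; exact c1
      | some x => right; exact ⟨G.cls x, ⟨x, rfl⟩, (c2 x).symm⟩
    · rintro (h | ⟨_, ⟨x, rfl⟩, rfl⟩)
      · exact ⟨none, by rw [c1]; exact h.symm⟩
      · exact ⟨some x, c2 x⟩
  rw [hr, Set.ncard_insert_of_notMem, Set.ncard_image_of_injective]
  · exact Set.image_injective.2 (Option.some_injective _)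
  · rintro ⟨s, -, hs⟩
    have : (none : Option N) ∈ (some '' s : Set (Option N)) := by
      rw [show (some '' s : Set (Option N)) = {none} from hs]; rfl
    obtain ⟨y, -, hy⟩ := this
    simp at hy

lemma complete_ext (G : Game N) (G' : Game (Option N)) (hG : G.Complete)
    (h1 : ∀ i j, G'.geq (some i) (some j) ↔ G.geq i j) (h2 : ∀ j, G'.geq none j) :
    G'.Complete := by
  intro i j
  cases i with
  | none => exact Or.inl (h2 j)
  | some i =>
    cases j with
    | none => exact Or.inr (h2 _)
    | some j =>
      rcases hG i j with h | h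
      · exact Or.inl ((h1 _ _).2 h)
      · exact Or.inr ((h1 _ _).2 h)

lemma vet_robust (G : Game N) (k : ℕ) : (vet G).Robust k ↔ G.Robust k := by
  unfold Game.Robust
  rw [not_iff_not]
  constructor
  · rintro ⟨j, hj1, hj2, X, Y, hX, hY, hb⟩
    have hall : ∀ m, none ∈ Y m := by
      have h1 := hb none
      have h2 : (univ.filter fun m => none ∈ X m) = univ :=
        Finset.filter_true_of_mem fun m _ => (hX m).1
      rw [h2] at h1
      have h3 : (univ.filter fun m => none ∈ Y m) = univ :=
        Finset.eq_univ_of_card _ (by rw [← h1, Finset.card_univ])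
      intro m
      have : m ∈ univ.filter fun m => none ∈ Y m := by rw [h3]; exact Finset.mem_univ m
      exact (Finset.mem_filter.1 this).2
    refine ⟨j, hj1, hj2, fun m => eraseNone (X m), fun m => eraseNone (Y m), fun m => (hX m).2,
      fun m h => hY m ⟨hall m, h⟩, fun v => ?_⟩
    have := hb (some v)
    simpa using this
  · rintro ⟨j, hj1, hj2, X, Y, hX, hY, hb⟩
    refine ⟨j, hj1, hj2, fun m => insertNone (X m), fun m => insertNone (Y m),
      fun m => ⟨by simp, by rw [en_ins]; exact hX m⟩,
      fun m h => hY m (by have := h.2; rwa [en_ins] at this), fun v => ?_⟩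
    cases v with
    | none => simp
    | some v => simpa using hb v

lemma pas_robust (G : Game N) (k : ℕ) : (pas G).Robust k ↔ G.Robust k := by
  unfold Game.Robust
  rw [not_iff_not]
  constructor
  · rintro ⟨j, hj1, hj2, X, Y, hX, hY, hb⟩
    have hall : ∀ m, none ∉ X m := by
      have h1 := hb none
      have h2 : (univ.filter fun m => none ∈ Y m) = ∅ :=
        Finset.filter_eq_empty_iff.2 fun m _ h => hY m (Or.inl h)
      rw [h2, Finset.card_empty, Finset.card_eq_zero, Finset.filter_eq_empty_iff] at h1
      exact fun m => h1 (Finset.mem_univ m)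
    refine ⟨j, hj1, hj2, fun m => eraseNone (X m), fun m => eraseNone (Y m),
      fun m => (hX m).resolve_left (hall m), fun m h => hY m (Or.inr h), fun v => ?_⟩
    have := hb (some v)
    simpa using this
  · rintro ⟨j, hj1, hj2, X, Y, hX, hY, hb⟩
    refine ⟨j, hj1, hj2, fun m => (X m).map Function.Embedding.some,
      fun m => (Y m).map Function.Embedding.some,
      fun m => Or.inr (by rw [en_map]; exact hX m), ?_, fun v => ?_⟩
    · rintro m (h | h)
      · simp at h
      · rw [en_map] at h; exact hY m h
    · cases v with
      | none => simp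
      | some v => simpa using hb v

lemma vet_noPass (G : Game N) : NoPass (vet G) := by
  rintro v ⟨h1, h2⟩
  have hv : v = none := by simpa [eq_comm] using h1
  subst hv
  have : eraseNone ({none} : Finset (Option N)) = ∅ := by ext x; simp
  rw [this] at h2
  exact G.empty_lose h2

lemma pas_noVeto (G : Game N) : NoVeto (pas G) := by
  intro v
  cases v with
  | none =>
    right
    have : eraseNone ((univ : Finset (Option N)).erase none) = univ := by ext x; simp
    rw [this]; exact G.univ_win
  | some v => left; simp

lemma base_noVeto (J : ℕ) : NoVeto (base J) := by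
  intro v
  left
  have h1 : wt (univ.erase v) + wg J (ty v) = wt (univ : Finset (V J)) :=
    Finset.sum_erase_add _ _ (Finset.mem_univ v)
  have h2 : wg J (ty v) ≤ wg J 0 := by
    rcases eq_or_ne (ty v) 0 with h | h
    · rw [h]
    · exact (wg_anti (Fin.pos_iff_ne_zero.2 h)).le
  have h3 : wt (univ : Finset (V J)) = (J + 1) * wg J 0 + (J + 2) * wg J 1 +
      ((J + 3) * wg J 2 + (J + 3) * wg J 3) := by
    unfold wt
    simp only [Fintype.sum_sum_type, ty, Finset.sum_const, Finset.card_univ, Fintype.card_fin,
      smul_eq_mul]
  have h4 : qu J = (J + 2) * wg J 1 := rfl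
  have h5 := wg_pos J 2
  have h6 : wg J 0 ≤ (J + 1) * wg J 0 := Nat.le_mul_of_pos_left _ (by omega)
  have h7 : 0 < (J + 3) * wg J 2 := by positivity
  omega

/-- The property proved by induction on the number of types. -/
def HasGame (t k : ℕ) : Prop :=
  ∃ (N : Type) (_ : Fintype N) (_ : DecidableEq N) (G : Game N), G.Complete ∧ G.numTypes = t ∧
    G.Robust k ∧ ¬ G.Robust (k + 1)

lemma all_types (J t : ℕ) : ∃ (N : Type) (_ : Fintype N) (_ : DecidableEq N) (G : Game N),
    G.Complete ∧ G.numTypes = t + 4 ∧ G.Robust (J + 2) ∧ ¬ G.Robust (J + 3) ∧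
    (NoVeto G ∨ NoPass G) := by
  induction t with
  | zero => exact ⟨V J, inferInstance, inferInstance, base J, base_complete J, base_types J,
      base_robust J, base_not_robust J, Or.inl (base_noVeto J)⟩
  | succ t ih =>
    obtain ⟨N, i1, i2, G, h1, h2, h3, h4, h5⟩ := ih
    rcases h5 with h5 | h5
    · exact ⟨Option N, inferInstance, inferInstance, vet G,
        complete_ext G _ h1 (vet_geq G) (vet_none G),
        by rw [types_ext G _ (vet_geq G) (vet_none G) (vet_not G h5), h2],
        (vet_robust G _).2 h3, fun h => h4 ((vet_robust G _).1 h), Or.inr (vet_noPass G)⟩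
    · exact ⟨Option N, inferInstance, inferInstance, pas G,
        complete_ext G _ h1 (pas_geq G) (pas_none G),
        by rw [types_ext G _ (pas_geq G) (pas_none G) (pas_not G h5), h2],
        (pas_robust G _).2 h3, fun h => h4 ((pas_robust G _).1 h), Or.inl (pas_noVeto G)⟩

end Pool.Agent.X129.Trade
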