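import Pool.Agent.X129.Trade3

/-!
Shift-minimal winning types, invariant trade robustness, and their behaviour when a veto player or
a passer is added.
-/

namespace Pool.Agent.X129.Trade

open Finset Classical

variable {N : Type} [Fintype N] [DecidableEq N]

/-- The number of members of `S` which are at least as desirable as `v`. -/
noncomputable def Game.pre (G : Game N) (S : Finset N) (v : N) : ℕ :=
  (S.filter fun u => G.geq u v).card

/-- `S` is a shift-minimal winning coalition: it wins, and every coalition of strictly smaller
type loses. -/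
def Game.SMW (G : Game N) (S : Finset N) : Prop :=
  G.win S ∧ ∀ T : Finset N, (∀ v, G.pre T v ≤ G.pre S v) → G.pre T ≠ G.pre S → ¬ G.win T

/-- The number of shift-minimal winning types. -/
noncomputable def Game.numSMW (G : Game N) : ℕ := (G.pre '' {S | G.SMW S}).ncard

/-- `m`-invariant trade robustness. -/
def Game.Inv (G : Game N) (m : ℕ) : Prop :=
  ¬ ∃ j : ℕ, 1 ≤ j ∧ j ≤ m ∧ ∃ X Y : Fin j → Finset N, (∀ i, G.SMW (X i)) ∧
    (∀ i, ¬ G.win (Y i)) ∧
    ∀ v, (univ.filter fun i => v ∈ X i).card = (univ.filter fun i => v ∈ Y i).card

section ext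

variable {G : Game N} {G' : Game (Option N)}
  (h1 : ∀ i j, G'.geq (some i) (some j) ↔ G.geq i j) (h2 : ∀ j, G'.geq none j)
  (h3 : ∀ i, ¬ G'.geq (some i) none)

include h3 h2 in
lemma pre_none (S : Finset (Option N)) : G'.pre S none = if none ∈ S then 1 else 0 := by
  unfold Game.pre
  split_ifs with h
  · have : S.filter (fun u => G'.geq u none) = {none} := by
      ext x
      cases x with
      | none => simp [h, h2]
      | some x => simp [h3]
    rw [this, Finset.card_singleton]
  · rw [Finset.card_eq_zero, Finset.filter_eq_empty_iff]
    intro x hx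
    cases x with
    | none => exact absurd hx h
    | some x => exact h3 x

include h1 h2 in
lemma pre_some (S : Finset (Option N)) (v : N) :
    G'.pre S (some v) = (if none ∈ S then 1 else 0) + G.pre (eraseNone S) v := by
  unfold Game.pre
  have e : ((eraseNone S).filter fun u => G.geq u v).card =
      ((S.erase none).filter fun u => G'.geq u (some v)).card := by
    rw [← Finset.card_map Function.Embedding.some]
    congr 1
    ext x
    cases x with
    | none => simp
    | some x => simp [h1]
  rw [e]
  split_ifs with h
  · have : S.filter (fun u => G'.geq u (some v)) =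
        insert none ((S.erase none).filter fun u => G'.geq u (some v)) := by
      ext x
      cases x with
      | none => simp [h, h2]
      | some x => simp
    rw [this, Finset.card_insert_of_notMem (by simp), add_comm]
  · rw [Finset.erase_eq_of_notMem h, zero_add]

end ext

lemma map_en {S : Finset (Option N)} (h : none ∉ S) :
    S = (eraseNone S).map Function.Embedding.some := by
  ext x
  cases x with
  | none => simp [h]
  | some x => simp

lemma ins_en {S : Finset (Option N)} (h : none ∈ S) : S = insertNone (eraseNone S) := by
  ext x
  cases x with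
  | none => simp [h]
  | some x => simp

/-! ### passer -/

lemma pas_pre_map (G : Game N) (h : NoPass G) (S : Finset N) :
    (pas G).pre (S.map Function.Embedding.some) = fun x => x.elim 0 (G.pre S) := by
  funext x
  cases x with
  | none => rw [pre_none (pas_none G) (pas_not G h)]; simp
  | some v =>
    rw [pre_some (G := G) (pas_geq G) (pas_none G), en_map]; simp

lemma pas_pre_none (G : Game N) (h : NoPass G) :
    (pas G).pre {none} = fun _ => 1 := by
  funext x
  cases x with
  | none => rw [pre_none (pas_none G) (pas_not G h)]; simp
  | some v =>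
    rw [pre_some (G := G) (pas_geq G) (pas_none G)]
    have : eraseNone ({none} : Finset (Option N)) = ∅ := by ext x; simp
    rw [this]; simp [Game.pre]

lemma pas_SMW_map (G : Game N) (h : NoPass G) (S : Finset N) :
    (pas G).SMW (S.map Function.Embedding.some) ↔ G.SMW S := by
  constructor
  · rintro ⟨hw, hm⟩
    refine ⟨?_, ?_⟩
    · rcases hw with hw | hw
      · simp at hw
      · rwa [en_map] at hw
    · intro T hT hne hwin
      refine hm (T.map Function.Embedding.some) ?_ ?_ (Or.inr (by rw [en_map]; exact hwin))
      · intro v
        rw [pas_pre_map G h, pas_pre_map G h]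
        cases v with
        | none => simp
        | some v => simpa using hT v
      · intro he
        apply hne
        rw [pas_pre_map G h, pas_pre_map G h] at he
        funext v
        simpa using congrFun he (some v)
  · rintro ⟨hw, hm⟩
    refine ⟨Or.inr (by rw [en_map]; exact hw), ?_⟩
    intro T hT hne hwin
    have hn : none ∉ T := by
      intro hn
      have := hT none
      rw [pas_pre_map G h, pre_none (pas_none G) (pas_not G h), if_pos hn] at this
      simp at this
    rw [map_en hn] at hT hne hwin
    rcases hwin with hwin | hwin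
    · simp at hwin
    · rw [en_map] at hwin
      refine hm _ ?_ ?_ hwin
      · intro v
        have := hT (some v)
        rw [pas_pre_map G h, pas_pre_map G h] at this
        simpa using this
      · intro he
        apply hne
        rw [pas_pre_map G h, pas_pre_map G h, he]

lemma pas_SMW_none (G : Game N) (hc : G.Complete) (h : NoPass G) : (pas G).SMW {none} := by
  refine ⟨Or.inl (by simp), ?_⟩
  intro T hT hne hwin
  rw [pas_pre_none G h] at hT hne
  by_cases hn : none ∈ T
  · apply hne
    funext x
    apply le_antisymm (hT x)
    cases x with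
    | none => rw [pre_none (pas_none G) (pas_not G h), if_pos hn]
    | some v =>
      rw [pre_some (G := G) (pas_geq G) (pas_none G), if_pos hn]
      exact Nat.le_add_right 1 _
  · rcases hwin with hwin | hwin
    · exact hn hwin
    · -- `eraseNone T` has at most one element
      set S := eraseNone T with hS
      have hle : ∀ v, G.pre S v ≤ 1 := by
        intro v
        have := hT (some v)
        rw [pre_some (G := G) (pas_geq G) (pas_none G), if_neg hn] at this
        simpa using this
      have hgood : ∀ a b, a ∈ S → b ∈ S → a ≠ b → ¬ G.geq a b := by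
        intro a b ha hb hab hg
        have h1 := hle b
        have h2 : ({a, b} : Finset N) ⊆ S.filter fun u => G.geq u b := by
          intro x hx
          rw [Finset.mem_insert, Finset.mem_singleton] at hx
          rcases hx with rfl | rfl
          · exact Finset.mem_filter.2 ⟨ha, hg⟩
          · exact Finset.mem_filter.2 ⟨hb, fun _ _ _ hw => hw⟩
        have h3 := Finset.card_le_card h2
        rw [Finset.card_pair hab] at h3
        unfold Game.pre at h1
        omega
      have hsub : ∀ a b, a ∈ S → b ∈ S → a = b := by
        intro a b ha hb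
        by_contra hab
        rcases hc a b with h4 | h4
        · exact hgood a b ha hb hab h4
        · exact hgood b a hb ha (Ne.symm hab) h4
      rcases S.eq_empty_or_nonempty with h5 | ⟨a, ha⟩
      · rw [h5] at hwin; exact G.empty_lose hwin
      · have h6 : S = {a} := by
          ext x
          rw [Finset.mem_singleton]
          exact ⟨fun hx => hsub x a hx ha, fun hx => by rw [hx]; exact ha⟩
        rw [h6] at hwin
        exact h a hwin

lemma pas_SMW_cases (G : Game N) (h : NoPass G) {S : Finset (Option N)}
    (hS : (pas G).SMW S) (hn : none ∈ S) : S = {none} := by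
  by_contra hne
  have hex : ∃ a, some a ∈ S := by
    by_contra hc
    push Not at hc
    apply hne
    ext x
    cases x with
    | none => simp [hn]
    | some x => simp [hc x]
  obtain ⟨a, ha⟩ := hex
  have hpos : 1 ≤ G.pre (eraseNone S) a := by
    unfold Game.pre
    exact Finset.card_pos.2 ⟨a, Finset.mem_filter.2 ⟨by simpa using ha, fun _ _ _ hw => hw⟩⟩
  refine hS.2 {none} ?_ ?_ (Or.inl (by simp))
  · intro v
    rw [pas_pre_none G h]
    cases v with
    | none => rw [pre_none (pas_none G) (pas_not G h), if_pos hn]
    | some v =>
      rw [pre_some (G := G) (pas_geq G) (pas_none G), if_pos hn]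
      exact Nat.le_add_right 1 _
  · intro he
    have h4 := congrFun he (some a)
    rw [pas_pre_none G h, pre_some (G := G) (pas_geq G) (pas_none G), if_pos hn] at h4
    change 1 = 1 + _ at h4
    omega

lemma pas_num (G : Game N) (hc : G.Complete) (h : NoPass G) :
    (pas G).numSMW = G.numSMW + 1 := by
  unfold Game.numSMW
  have e : (pas G).pre '' {S | (pas G).SMW S} =
      insert (fun _ => 1) ((fun f : N → ℕ => fun x : Option N => x.elim 0 f) ''
        (G.pre '' {S | G.SMW S})) := by
    ext f
    constructor
    · rintro ⟨S, hS, rfl⟩
      by_cases hn : none ∈ S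
      · left
        rw [pas_SMW_cases G h hS hn, pas_pre_none G h]
      · right
        have hS' : (pas G).SMW S := hS
        rw [map_en hn] at hS' ⊢
        exact ⟨_, ⟨_, (pas_SMW_map G h _).1 hS', rfl⟩, (pas_pre_map G h _).symm⟩
    · rintro (hf | ⟨_, ⟨S, hS, rfl⟩, rfl⟩)
      · exact ⟨{none}, pas_SMW_none G hc h, by rw [pas_pre_none G h]; exact hf.symm⟩
      · exact ⟨_, (pas_SMW_map G h _).2 hS, pas_pre_map G h _⟩
  rw [e, Set.ncard_insert_of_notMem, Set.ncard_image_of_injective]
  · intro f g hfg
    funext v
    simpa using congrFun hfg (some v)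
  · rintro ⟨f, -, hf⟩
    have := congrFun hf none
    simp at this

lemma pas_Inv (G : Game N) (h : NoPass G) (m : ℕ) : (pas G).Inv m ↔ G.Inv m := by
  unfold Game.Inv
  rw [not_iff_not]
  constructor
  · rintro ⟨j, hj1, hj2, X, Y, hX, hY, hb⟩
    have hall : ∀ i, none ∉ X i := by
      have h1 := hb none
      have h2 : (univ.filter fun i => none ∈ Y i) = ∅ :=
        Finset.filter_eq_empty_iff.2 fun i _ h => hY i (Or.inl h)
      rw [h2, Finset.card_empty, Finset.card_eq_zero, Finset.filter_eq_empty_iff] at h1
      exact fun i => h1 (Finset.mem_univ i)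
    refine ⟨j, hj1, hj2, fun i => eraseNone (X i), fun i => eraseNone (Y i), fun i => ?_,
      fun i h => hY i (Or.inr h), fun v => ?_⟩
    · rw [← pas_SMW_map G h, ← map_en (hall i)]; exact hX i
    · have := hb (some v)
      simpa using this
  · rintro ⟨j, hj1, hj2, X, Y, hX, hY, hb⟩
    refine ⟨j, hj1, hj2, fun i => (X i).map Function.Embedding.some,
      fun i => (Y i).map Function.Embedding.some,
      fun i => (pas_SMW_map G h _).2 (hX i), ?_, fun v => ?_⟩
    · rintro i (h | h)
      · simp at h
      · rw [en_map] at h; exact hY i h
    · cases v with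
      | none => simp
      | some v => simpa using hb v

/-! ### veto player -/

lemma vet_pre_ins (G : Game N) (h : NoVeto G) (S : Finset N) :
    (vet G).pre (insertNone S) = fun x => x.elim 1 (fun v => 1 + G.pre S v) := by
  funext x
  cases x with
  | none => rw [pre_none (vet_none G) (vet_not G h)]; simp
  | some v =>
    rw [pre_some (G := G) (vet_geq G) (vet_none G), en_ins]; simp

lemma vet_SMW_ins (G : Game N) (h : NoVeto G) (S : Finset N) :
    (vet G).SMW (insertNone S) ↔ G.SMW S := by
  constructor
  · rintro ⟨hw, hm⟩
    refine ⟨?_, ?_⟩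
    · have := hw.2
      rwa [en_ins] at this
    · intro T hT hne hwin
      refine hm (insertNone T) ?_ ?_ ⟨by simp, by rw [en_ins]; exact hwin⟩
      · intro v
        rw [vet_pre_ins G h, vet_pre_ins G h]
        cases v with
        | none => simp
        | some v => simpa using hT v
      · intro he
        apply hne
        rw [vet_pre_ins G h, vet_pre_ins G h] at he
        funext v
        simpa using congrFun he (some v)
  · rintro ⟨hw, hm⟩
    refine ⟨⟨by simp, by rw [en_ins]; exact hw⟩, ?_⟩
    intro T hT hne hwin
    have hn : none ∈ T := hwin.1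
    rw [ins_en hn] at hT hne hwin
    have hwin2 := hwin.2
    rw [en_ins] at hwin2
    refine hm _ ?_ ?_ hwin2
    · intro v
      have := hT (some v)
      rw [vet_pre_ins G h, vet_pre_ins G h] at this
      simpa using this
    · intro he
      apply hne
      rw [vet_pre_ins G h, vet_pre_ins G h, he]

lemma vet_num (G : Game N) (h : NoVeto G) : (vet G).numSMW = G.numSMW := by
  unfold Game.numSMW
  have e : (vet G).pre '' {S | (vet G).SMW S} =
      (fun f : N → ℕ => fun x : Option N => x.elim 1 (fun v => 1 + f v)) ''
        (G.pre '' {S | G.SMW S}) := by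
    ext f
    constructor
    · rintro ⟨S, hS, rfl⟩
      have hS' : (vet G).SMW S := hS
      have hn : none ∈ S := hS'.1.1
      rw [ins_en hn] at hS' ⊢
      exact ⟨_, ⟨_, (vet_SMW_ins G h _).1 hS', rfl⟩, (vet_pre_ins G h _).symm⟩
    · rintro ⟨_, ⟨S, hS, rfl⟩, rfl⟩
      exact ⟨_, (vet_SMW_ins G h _).2 hS, vet_pre_ins G h _⟩
  rw [e, Set.ncard_image_of_injective]
  intro f g hfg
  funext v
  have := congrFun hfg (some v)
  simpa using this

lemma vet_Inv (G : Game N) (h : NoVeto G) (m : ℕ) : (vet G).Inv m ↔ G.Inv m := by
  unfold Game.Inv
  rw [not_iff_not]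
  constructor
  · rintro ⟨j, hj1, hj2, X, Y, hX, hY, hb⟩
    have hXn : ∀ i, none ∈ X i := fun i => (hX i).1.1
    have hall : ∀ i, none ∈ Y i := by
      have h1 := hb none
      have h2 : (univ.filter fun i => none ∈ X i) = univ :=
        Finset.filter_true_of_mem fun i _ => hXn i
      rw [h2] at h1
      have h3 : (univ.filter fun i => none ∈ Y i) = univ :=
        Finset.eq_univ_of_card _ (by rw [← h1, Finset.card_univ])
      intro i
      have : i ∈ univ.filter fun i => none ∈ Y i := by rw [h3]; exact Finset.mem_univ i
      exact (Finset.mem_filter.1 this).2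
    refine ⟨j, hj1, hj2, fun i => eraseNone (X i), fun i => eraseNone (Y i), fun i => ?_,
      fun i h => hY i ⟨hall i, h⟩, fun v => ?_⟩
    · rw [← vet_SMW_ins G h, ← ins_en (hXn i)]; exact hX i
    · have := hb (some v)
      simpa using this
  · rintro ⟨j, hj1, hj2, X, Y, hX, hY, hb⟩
    refine ⟨j, hj1, hj2, fun i => insertNone (X i), fun i => insertNone (Y i),
      fun i => (vet_SMW_ins G h _).2 (hX i),
      fun i h => hY i (by have := h.2; rwa [en_ins] at this), fun v => ?_⟩
    cases v with
    | none => simp
    | some v => simpa using hb v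

/-- A game with a passer in which some trading transform as in `Inv` exists has no veto player. -/
lemma noVeto_of (G : Game N) {p : N} (hp : G.win {p}) {m : ℕ} (hm : ¬ G.Inv m) : NoVeto G := by
  intro v
  by_contra hv
  -- `v` is a veto player
  have hveto : ∀ S : Finset N, G.win S → v ∈ S := by
    intro S hS
    by_contra hn
    apply hv
    refine G.mono S _ ?_ hS
    intro x hx
    exact Finset.mem_erase.2 ⟨fun h => hn (h ▸ hx), Finset.mem_univ x⟩
  have hvp : v = p := by simpa using hveto {p} hp
  subst hvp
  apply hm
  rintro ⟨j, hj1, hj2, X, Y, hX, hY, hb⟩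
  have h1 := hb v
  have h2 : (univ.filter fun i => v ∈ X i) = univ :=
    Finset.filter_true_of_mem fun i _ => hveto _ (hX i).1
  have h3 : (univ.filter fun i => v ∈ Y i) = ∅ :=
    Finset.filter_eq_empty_iff.2 fun i _ h => hY i (G.mono {v} _ (by simpa using h) hp)
  rw [h2, h3, Finset.card_univ, Fintype.card_fin, Finset.card_empty] at h1
  omega

/-- There is a complete simple game with exactly `r` shift-minimal winning types which is
`m`-invariant trade robust but not `(m+1)`-invariant trade robust. -/
def HasInv (r m : ℕ) : Prop :=
  ∃ (N : Type) (_ : Fintype N) (_ : DecidableEq N) (G : Game N), G.Complete ∧ G.numSMW = r ∧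
    G.Inv m ∧ ¬ G.Inv (m + 1)

theorem step (r m : ℕ) (h : HasInv r m) : HasInv (r + 1) m := by
  obtain ⟨N, i1, i2, G, h1, h2, h3, h4⟩ := h
  by_cases hp : NoPass G
  · exact ⟨Option N, inferInstance, inferInstance, pas G,
      complete_ext G _ h1 (pas_geq G) (pas_none G), by rw [pas_num G h1 hp, h2],
      (pas_Inv G hp _).2 h3, fun h => h4 ((pas_Inv G hp _).1 h)⟩
  · have hp' : ∃ p, G.win {p} := by
      unfold NoPass at hp
      push Not at hp
      exact hp
    obtain ⟨p, hp'⟩ := hp'
    have hv : NoVeto G := noVeto_of G hp' h4
    have hc : (vet G).Complete := complete_ext G _ h1 (vet_geq G) (vet_none G)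
    have hq : NoPass (vet G) := vet_noPass G
    exact ⟨Option (Option N), inferInstance, inferInstance, pas (vet G),
      complete_ext (vet G) _ hc (pas_geq _) (pas_none _),
      by rw [pas_num _ hc hq, vet_num G hv, h2],
      (pas_Inv _ hq _).2 ((vet_Inv G hv _).2 h3),
      fun h => h4 ((vet_Inv G hv _).1 ((pas_Inv _ hq _).1 h))⟩

end Pool.Agent.X129.Trade
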