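import Pool.Agent.X129.Trade4

/-!
The step `r → r + 1` for trade robustness.
-/

namespace Pool.Agent.X129.Trade

open Finset Classical

variable {N : Type} [Fintype N] [DecidableEq N]

lemma noVeto_of_robust (G : Game N) {p : N} (hp : G.win {p}) {m : ℕ} (hm : ¬ G.Robust m) :
    NoVeto G := by
  intro v
  by_contra hv
  have hveto : ∀ S : Finset N, G.win S → v ∈ S := by
    intro S hS
    by_contra hn
    apply hv
    refine G.mono S _ ?_ hS
    intro x hx
    exact Finset.mem_erase.2 ⟨fun h => hn (h ▸ hx), Finset.mem_univ x⟩
  have hvp : v = p := by simpa using hveto {p} hp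
  subst hvp
  apply hm
  rintro ⟨j, hj1, hj2, X, Y, hX, hY, hb⟩
  have h1 := hb v
  have h2 : (univ.filter fun i => v ∈ X i) = univ :=
    Finset.filter_true_of_mem fun i _ => hveto _ (hX i)
  have h3 : (univ.filter fun i => v ∈ Y i) = ∅ :=
    Finset.filter_eq_empty_iff.2 fun i _ h => hY i (G.mono {v} _ (by simpa using h) hp)
  rw [h2, h3, Finset.card_univ, Fintype.card_fin, Finset.card_empty] at h1
  omega

/-- There is a complete simple game with exactly `r` shift-minimal winning types which is
`k`-trade robust but not `(k+1)`-trade robust. -/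
def HasRob (r k : ℕ) : Prop :=
  ∃ (N : Type) (_ : Fintype N) (_ : DecidableEq N) (G : Game N), G.Complete ∧ G.numSMW = r ∧
    G.Robust k ∧ ¬ G.Robust (k + 1)

theorem step_rob (r k : ℕ) (h : HasRob r k) : HasRob (r + 1) k := by
  obtain ⟨N, i1, i2, G, h1, h2, h3, h4⟩ := h
  by_cases hp : NoPass G
  · exact ⟨Option N, inferInstance, inferInstance, pas G,
      complete_ext G _ h1 (pas_geq G) (pas_none G), by rw [pas_num G h1 hp, h2],
      (pas_robust G _).2 h3, fun h => h4 ((pas_robust G _).1 h)⟩
  · have hp' : ∃ p, G.win {p} := by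
      unfold NoPass at hp
      push Not at hp
      exact hp
    obtain ⟨p, hp'⟩ := hp'
    have hv : NoVeto G := noVeto_of_robust G hp' h4
    have hc : (vet G).Complete := complete_ext G _ h1 (vet_geq G) (vet_none G)
    have hq : NoPass (vet G) := vet_noPass G
    exact ⟨Option (Option N), inferInstance, inferInstance, pas (vet G),
      complete_ext (vet G) _ hc (pas_geq _) (pas_none _),
      by rw [pas_num _ hc hq, vet_num G hv, h2],
      (pas_robust _ _).2 ((vet_robust G _).2 h3),
      fun h => h4 ((vet_robust G _).1 ((pas_robust _ _).1 h))⟩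

/-- For every `k ≥ 2` some number of shift-minimal winning types occurs. -/
theorem exists_rob (J : ℕ) : HasRob ((base J).numSMW) (J + 2) :=
  ⟨V J, inferInstance, inferInstance, base J, base_complete J, rfl, base_robust J,
    base_not_robust J⟩

end Pool.Agent.X129.Trade
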