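import Pool.Agent.X129.Trade5

/-!
A second base family (`k = J + 3`), with at most six shift-minimal winning types.
-/

namespace Pool.Agent.X129.TradeB

open Finset
open Pool.Agent.X129.Trade (Game sum_swap)

/-- The voters of the base family. -/
abbrev V (J : ℕ) : Type := (Fin (J + 2) ⊕ Fin (J + 3)) ⊕ (Fin (J + 4) ⊕ Fin (J + 3))

/-- The type (number) of a voter. -/
def ty {J : ℕ} : V J → Fin 4
  | Sum.inl (Sum.inl _) => 0
  | Sum.inl (Sum.inr _) => 1
  | Sum.inr (Sum.inl _) => 2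
  | Sum.inr (Sum.inr _) => 3

/-- The weights. -/
def wg (J : ℕ) : Fin 4 → ℕ := ![J ^ 2 + 6 * J + 9, J ^ 2 + 6 * J + 8, J ^ 2 + 5 * J + 6,
  J ^ 2 + 5 * J + 5]

/-- The quota. -/
def qu (J : ℕ) : ℕ := (J + 3) * (J ^ 2 + 6 * J + 8)

/-- The weight of a coalition. -/
def wt {J : ℕ} (S : Finset (V J)) : ℕ := ∑ v ∈ S, wg J (ty v)

/-- The number of voters of a given type in a coalition. -/
def cnt {J : ℕ} (t : Fin 4) (S : Finset (V J)) : ℕ := (S.filter fun v => ty v = t).card

lemma wg_pos (J : ℕ) (t : Fin 4) : 0 < wg J t := by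
  fin_cases t <;> simp [wg]

lemma wt_eq {J : ℕ} (S : Finset (V J)) : wt S = wg J 0 * cnt 0 S + wg J 1 * cnt 1 S +
    wg J 2 * cnt 2 S + wg J 3 * cnt 3 S := by
  unfold wt
  rw [← Finset.sum_fiberwise S ty (fun v => wg J (ty v))]
  have h : ∀ t : Fin 4, ∑ v ∈ S with ty v = t, wg J (ty v) = wg J t * cnt t S := by
    intro t
    rw [Finset.sum_congr rfl (g := fun _ => wg J t)]
    · rw [Finset.sum_const, smul_eq_mul, mul_comm]; rfl
    · intro v hv
      rw [(Finset.mem_filter.1 hv).2]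
  rw [Fin.sum_univ_four, h, h, h, h]

lemma key (k x1 x2 x3 x4 : ℤ) (hk : 3 ≤ k) (h1 : 0 ≤ x1) (h2 : 0 ≤ x2) (h3 : 0 ≤ x3)
    (h4 : 0 ≤ x4)
    (h : k ^ 2 * x1 + (k ^ 2 - 1) * x2 + (k ^ 2 - k) * x3 + (k ^ 2 - k - 1) * x4 =
      k * (k ^ 2 - 1)) : x3 = 0 ∨ x3 = 1 ∨ x3 = k + 1 := by
  obtain ⟨m, hm⟩ : ∃ m, m = x1 + x2 + x3 + x4 - k := ⟨_, rfl⟩
  have e1 : k ^ 2 * m = x2 + k * x3 + (k + 1) * x4 - k := by rw [hm]; linear_combination h
  have e2 : (k + 1) * x1 + k * x2 + x3 = k ^ 2 + (k + 1) * m - k ^ 2 * m := by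
    rw [e1, hm]; ring
  have f1 : 0 ≤ k * x3 := mul_nonneg (by linarith) h3
  have f2 : 0 ≤ (k + 1) * x4 := mul_nonneg (by linarith) h4
  have f3 : 0 ≤ (k + 1) * x1 := mul_nonneg (by linarith) h1
  have f4 : 0 ≤ k * x2 := mul_nonneg (by linarith) h2
  have hm0 : 0 ≤ m := by
    by_contra hc
    push Not at hc
    have g1 : m ≤ -1 := by omega
    have g2 : k ^ 2 * m ≤ k ^ 2 * (-1) := mul_le_mul_of_nonneg_left g1 (by positivity)
    nlinarith
  have hm1 : m ≤ 1 := by
    by_contra hc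
    push Not at hc
    have g1 : 2 ≤ m := by omega
    have g2 : (k ^ 2 - k - 1) * 2 ≤ (k ^ 2 - k - 1) * m :=
      mul_le_mul_of_nonneg_left g1 (by nlinarith)
    nlinarith
  have hmm : m = 0 ∨ m = 1 := by omega
  rcases hmm with rfl | rfl
  · have g3 : x3 ≤ 1 := by
      by_contra hc
      push Not at hc
      have : k * 2 ≤ k * x3 := mul_le_mul_of_nonneg_left (by omega) (by linarith)
      linarith
    omega
  · have g4 : (k + 1) * x1 + k * x2 + x3 = k + 1 := by rw [e2]; ring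
    rcases eq_or_lt_of_le h1 with g5 | g5
    · rw [← g5] at g4
      rcases eq_or_lt_of_le h2 with g6 | g6
      · rw [← g6] at g4; right; right; linarith
      · have g7 : x2 = 1 := by
          by_contra hc
          have : k * 2 ≤ k * x2 := mul_le_mul_of_nonneg_left (by omega) (by linarith)
          linarith
        rw [g7] at g4; right; left; linarith
    · have : (k + 1) * 1 ≤ (k + 1) * x1 := mul_le_mul_of_nonneg_left (by omega) (by linarith)
      left; linarith

lemma slice {J : ℕ} (S : Finset (V J)) (h : wt S = qu J) :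
    cnt 2 S = 0 ∨ cnt 2 S = 1 ∨ cnt 2 S = J + 4 := by
  rw [wt_eq] at h
  simp only [wg, qu, Matrix.cons_val_zero, Matrix.cons_val_one, Matrix.cons_val] at h
  have := key (J + 3) (cnt 0 S) (cnt 1 S) (cnt 2 S) (cnt 3 S) (by linarith [(Nat.cast_nonneg J : (0:ℤ) ≤ J)])
    (by positivity) (by positivity) (by positivity) (by positivity)
    (by
      have h' : ((J ^ 2 + 6 * J + 9 : ℕ) : ℤ) * (cnt 0 S) + ((J ^ 2 + 6 * J + 8 : ℕ) : ℤ) * (cnt 1 S) +
        ((J ^ 2 + 5 * J + 6 : ℕ) : ℤ) * (cnt 2 S) + ((J ^ 2 + 5 * J + 5 : ℕ) : ℤ) * (cnt 3 S) =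
        (((J + 3) * (J ^ 2 + 6 * J + 8) : ℕ) : ℤ) := by exact_mod_cast h
      push_cast at h'
      linear_combination h')
  omega

lemma wt_strict {J : ℕ} {S T : Finset (V J)} (h : S ⊂ T) : wt S < wt T := by
  obtain ⟨v, hv, hv'⟩ := Finset.exists_of_ssubset h
  exact Finset.sum_lt_sum_of_subset h.1 hv hv' (wg_pos J (ty v)) (fun _ _ _ => Nat.zero_le _)

/-- The base game. -/
def base (J : ℕ) : Game (V J) where
  win S := qu J < wt S ∨ (wt S = qu J ∧ cnt 2 S ≠ 1)
  empty_lose := by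
    have h1 : wt (∅ : Finset (V J)) = 0 := by simp [wt]
    have h2 : 0 < qu J := by unfold qu; positivity
    rw [h1]
    rintro (h | h)
    · omega
    · omega
  univ_win := by
    left
    unfold wt qu
    simp only [Fintype.sum_sum_type, ty, Finset.sum_const, Finset.card_univ, Fintype.card_fin,
      smul_eq_mul, wg, Matrix.cons_val_zero, Matrix.cons_val_one, Matrix.cons_val]
    nlinarith
  mono := by
    intro S T hST h
    rcases hST.eq_or_ssubset with h1 | h1
    · rw [← h1]; exact h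
    · left
      have := wt_strict h1
      rcases h with h | h
      · omega
      · omega

lemma wt_insert {J : ℕ} {S : Finset (V J)} {i : V J} (h : i ∉ S) :
    wt (insert i S) = wg J (ty i) + wt S := by
  unfold wt; rw [Finset.sum_insert h]

lemma cnt_insert {J : ℕ} {S : Finset (V J)} {i : V J} (h : i ∉ S) (t : Fin 4) :
    cnt t (insert i S) = (if ty i = t then 1 else 0) + cnt t S := by
  unfold cnt
  rw [Finset.filter_insert]
  split_ifs with h1
  · rw [Finset.card_insert_of_notMem (by simp [h]), add_comm]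
  · simp

lemma geq_of_ty {J : ℕ} {i j : V J} (h : ty i = ty j) : (base J).geq i j := by
  intro S hi hj hw
  change qu J < wt (insert j S) ∨ (wt (insert j S) = qu J ∧ cnt 2 (insert j S) ≠ 1) at hw
  change qu J < wt (insert i S) ∨ (wt (insert i S) = qu J ∧ cnt 2 (insert i S) ≠ 1)
  rw [wt_insert hi, cnt_insert hi, h]
  rw [wt_insert hj, cnt_insert hj] at hw
  exact hw

lemma geq_of_lt {J : ℕ} {i j : V J} (h : wg J (ty j) < wg J (ty i)) : (base J).geq i j := by
  intro S hi hj hw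
  change qu J < wt (insert j S) ∨ (wt (insert j S) = qu J ∧ cnt 2 (insert j S) ≠ 1) at hw
  change qu J < wt (insert i S) ∨ (wt (insert i S) = qu J ∧ cnt 2 (insert i S) ≠ 1)
  rw [wt_insert hi]
  rw [wt_insert hj] at hw
  left; omega

lemma wg_anti {J : ℕ} {s t : Fin 4} (h : s < t) : wg J t < wg J s := by
  fin_cases s <;> fin_cases t <;> simp [wg] at h ⊢ <;> nlinarith

lemma base_complete (J : ℕ) : (base J).Complete := by
  intro i j
  rcases lt_trichotomy (ty i) (ty j) with h | h | h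
  · exact Or.inl (geq_of_lt (wg_anti h))
  · exact Or.inl (geq_of_ty h)
  · exact Or.inr (geq_of_lt (wg_anti h))

theorem base_robust (J : ℕ) : (base J).Robust (J + 3) := by
  rintro ⟨j, hj1, hj2, X, Y, hX, hY, hb⟩
  have hsum : ∀ f : V J → ℕ, ∑ m, ∑ v ∈ X m, f v = ∑ m, ∑ v ∈ Y m, f v := by
    intro f
    rw [sum_swap, sum_swap]
    exact Finset.sum_congr rfl fun v _ => by rw [hb v]
  have hw : ∑ m, wt (X m) = ∑ m, wt (Y m) := hsum _
  have hXq : ∀ m, qu J ≤ wt (X m) := by
    intro m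
    rcases hX m with h | h
    · exact h.le
    · exact h.1.symm.le
  have hYq : ∀ m, wt (Y m) ≤ qu J := by
    intro m
    by_contra hc
    push Not at hc
    exact hY m (Or.inl hc)
  have hconst : ∑ _m : Fin j, qu J = ∑ m, wt (X m) := by
    apply le_antisymm
    · exact Finset.sum_le_sum fun m _ => hXq m
    · rw [hw]; exact Finset.sum_le_sum fun m _ => hYq m
  have hXe : ∀ m, wt (X m) = qu J := by
    intro m
    exact (((Finset.sum_eq_sum_iff_of_le fun m _ => hXq m).1 hconst) m (Finset.mem_univ m)).symm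
  have hYe : ∀ m, wt (Y m) = qu J := by
    intro m
    have h2 : ∑ m, wt (Y m) = ∑ _m : Fin j, qu J := by rw [← hw, hconst]
    exact ((Finset.sum_eq_sum_iff_of_le fun m _ => hYq m).1 h2) m (Finset.mem_univ m)
  have hYc : ∀ m, cnt 2 (Y m) = 1 := by
    intro m
    by_contra hc
    exact hY m (Or.inr ⟨hYe m, hc⟩)
  have hXc : ∀ m, J + 4 ∣ cnt 2 (X m) := by
    intro m
    rcases slice (X m) (hXe m) with h | h | h
    · rw [h]; exact dvd_zero _
    · rcases hX m with h' | h'
      · rw [hXe m] at h'; exact absurd h' (lt_irrefl _)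
      · exact absurd h h'.2
    · rw [h]
  have hc : ∀ S : Finset (V J), cnt 2 S = ∑ v ∈ S, if ty v = 2 then 1 else 0 := by
    intro S; unfold cnt; rw [Finset.card_filter]
  have h5 : ∑ m, cnt 2 (X m) = j := by
    simp_rw [hc]
    rw [hsum]
    simp_rw [← hc, hYc]
    simp
  have h6 : J + 4 ∣ j := by
    rw [← h5]; exact Finset.dvd_sum fun m _ => hXc m
  have := Nat.le_of_dvd (by omega) h6
  omega

/-- A coalition given by its four parts. -/
def mk4 {J : ℕ} (A : Finset (Fin (J + 2))) (B : Finset (Fin (J + 3))) (C : Finset (Fin (J + 4)))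
    (D : Finset (Fin (J + 3))) : Finset (V J) := (A.disjSum B).disjSum (C.disjSum D)

lemma wt_mk4 {J : ℕ} (A : Finset (Fin (J + 2))) (B : Finset (Fin (J + 3)))
    (C : Finset (Fin (J + 4))) (D : Finset (Fin (J + 3))) : wt (mk4 A B C D) =
    wg J 0 * A.card + wg J 1 * B.card + (wg J 2 * C.card + wg J 3 * D.card) := by
  unfold wt mk4
  rw [Finset.sum_disjSum, Finset.sum_disjSum, Finset.sum_disjSum]
  simp only [ty, Finset.sum_const, smul_eq_mul]
  ring

lemma cnt_mk4 {J : ℕ} (A : Finset (Fin (J + 2))) (B : Finset (Fin (J + 3)))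
    (C : Finset (Fin (J + 4))) (D : Finset (Fin (J + 3))) : cnt 2 (mk4 A B C D) = C.card := by
  unfold cnt mk4
  rw [Finset.card_filter, Finset.sum_disjSum, Finset.sum_disjSum, Finset.sum_disjSum]
  simp [ty]

lemma cE {n : ℕ} {p : Fin n → Prop} [DecidablePred p] (a : ℕ) (h : a < n)
    (hp : ∀ i : Fin n, p i ↔ (i : ℕ) = a) : (univ.filter p).card = 1 := by
  have : univ.filter p = {⟨a, h⟩} := by
    ext i; simp [Fin.ext_iff, hp]
  rw [this, Finset.card_singleton]

lemma c0 {n : ℕ} {p : Fin n → Prop} [DecidablePred p] (hp : ∀ i : Fin n, ¬ p i) :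
    (univ.filter p).card = 0 := by
  rw [Finset.card_eq_zero, Finset.filter_eq_empty_iff]
  intro i _; exact hp i

lemma cU {n : ℕ} {p : Fin n → Prop} [DecidablePred p] (hp : ∀ i : Fin n, p i) :
    (univ.filter p).card = n := by
  rw [Finset.filter_true_of_mem fun i _ => hp i]; simp

lemma cN {n : ℕ} {p : Fin (n + 1) → Prop} [DecidablePred p] (a : ℕ) (h : a < n + 1)
    (hp : ∀ i : Fin (n + 1), p i ↔ (i : ℕ) ≠ a) : (univ.filter p).card = n := by
  have : univ.filter p = univ.erase ⟨a, h⟩ := by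
    ext i; simp [Fin.ext_iff, hp]
  rw [this, Finset.card_erase_of_mem (Finset.mem_univ _)]
  simp

lemma cN2 {n : ℕ} {p : Fin (n + 2) → Prop} [DecidablePred p] (a b : ℕ) (h : a < n + 2)
    (h' : b < n + 2) (hab : a ≠ b) (hp : ∀ i : Fin (n + 2), p i ↔ ((i : ℕ) ≠ a ∧ (i : ℕ) ≠ b)) :
    (univ.filter p).card = n := by
  have : univ.filter p = (univ.erase ⟨a, h⟩).erase ⟨b, h'⟩ := by
    ext i
    simp only [mem_filter, mem_univ, true_and, mem_erase, ne_eq, Fin.ext_iff, hp]
    tauto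
  rw [this, Finset.card_erase_of_mem (by simp [Fin.ext_iff, hab.symm]),
    Finset.card_erase_of_mem (Finset.mem_univ _)]
  simp

/-- Winning coalitions of the trade. -/
def tX {J : ℕ} (m : Fin (J + 4)) : Finset (V J) :=
  mk4 (univ.filter fun i => (i : ℕ) = m) (univ.filter fun _ => (m : ℕ) = J + 2)
    (univ.filter fun _ => (m : ℕ) = J + 3) (univ.filter fun _ => (m : ℕ) < J + 2)

/-- Losing coalitions of the trade. -/
def tY {J : ℕ} (m : Fin (J + 4)) : Finset (V J) :=
  mk4 (univ.filter fun _ => (m : ℕ) = J + 3) (univ.filter fun i => (i : ℕ) = m)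
    (univ.filter fun i => (i : ℕ) = m)
    (univ.filter fun i => (m : ℕ) < J + 3 ∧ (i : ℕ) ≠ m)

lemma wg0 (J : ℕ) : wg J 0 = J ^ 2 + 6 * J + 9 := rfl
lemma wg1 (J : ℕ) : wg J 1 = J ^ 2 + 6 * J + 8 := rfl
lemma wg2 (J : ℕ) : wg J 2 = J ^ 2 + 5 * J + 6 := rfl
lemma wg3 (J : ℕ) : wg J 3 = J ^ 2 + 5 * J + 5 := rfl

theorem base_not_robust (J : ℕ) : ¬ (base J).Robust (J + 4) := by
  intro hrob
  apply hrob
  refine ⟨J + 4, by omega, le_rfl, tX, tY, ?_, ?_, ?_⟩
  · intro m
    have hm := m.2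
    right
    unfold tX
    rw [wt_mk4, cnt_mk4, wg0, wg1, wg2, wg3, qu]
    rcases Nat.lt_trichotomy (m : ℕ) (J + 2) with h | h | h
    · rw [cE (n := J + 2) (m : ℕ) h (fun i => Iff.rfl), c0 (n := J + 3) (fun i => by omega),
        c0 (n := J + 4) (fun i => by omega), cU (n := J + 3) (fun i => h)]
      exact ⟨by ring, by norm_num⟩
    · rw [c0 (n := J + 2) (fun i => by have := i.2; omega), cU (n := J + 3) (fun i => h),
        c0 (n := J + 4) (fun i => by omega), c0 (n := J + 3) (fun i => by omega)]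
      exact ⟨by ring, by norm_num⟩
    · rw [c0 (n := J + 2) (fun i => by have := i.2; omega), c0 (n := J + 3) (fun i => by omega),
        cU (n := J + 4) (fun i => by omega), c0 (n := J + 3) (fun i => by omega)]
      exact ⟨by ring, by omega⟩
  · intro m
    have hm := m.2
    rintro (hlt | ⟨-, hne⟩)
    · unfold tY at hlt
      rw [wt_mk4, wg0, wg1, wg2, wg3, qu] at hlt
      rcases Nat.lt_or_ge (m : ℕ) (J + 3) with h | h
      · rw [c0 (n := J + 2) (fun i => by omega), cE (n := J + 3) (m : ℕ) h (fun i => Iff.rfl),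
          cE (n := J + 4) (m : ℕ) hm (fun i => Iff.rfl),
          cN (n := J + 2) (m : ℕ) h (fun i => by omega)] at hlt
        nlinarith
      · rw [cU (n := J + 2) (fun i => by omega), c0 (n := J + 3) (fun i => by have := i.2; omega),
          cE (n := J + 4) (m : ℕ) hm (fun i => Iff.rfl),
          c0 (n := J + 3) (fun i => by omega)] at hlt
        nlinarith
    · apply hne
      unfold tY
      rw [cnt_mk4]
      exact cE (m : ℕ) hm (fun i => Iff.rfl)
  · rintro ((i | i) | (i | i))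
    · have hi := i.2
      rw [cE (i : ℕ) (by omega) (fun m => by simp [tX, mk4, eq_comm]),
        cE (J + 3) (by omega) (fun m => by simp only [tY, mk4, Finset.inl_mem_disjSum, Finset.inr_mem_disjSum, Finset.mem_filter, Finset.mem_univ, true_and])]
    · have hi := i.2
      rw [cE (J + 2) (by omega) (fun m => by simp only [tX, mk4, Finset.inl_mem_disjSum, Finset.inr_mem_disjSum, Finset.mem_filter, Finset.mem_univ, true_and]),
        cE (i : ℕ) (by omega) (fun m => by simp [tY, mk4, eq_comm])]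
    · have hi := i.2
      rw [cE (J + 3) (by omega) (fun m => by simp only [tX, mk4, Finset.inl_mem_disjSum, Finset.inr_mem_disjSum, Finset.mem_filter, Finset.mem_univ, true_and]),
        cE (i : ℕ) (by omega) (fun m => by simp [tY, mk4, eq_comm])]
    · have hi := i.2
      have hX : ∀ m : Fin (J + 4), (Sum.inr (Sum.inr i) : V J) ∈ tX m ↔ (m : ℕ) < J + 2 := by
        intro m; simp only [tX, mk4, Finset.inl_mem_disjSum, Finset.inr_mem_disjSum, Finset.mem_filter, Finset.mem_univ, true_and]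
      have hY : ∀ m : Fin (J + 4), (Sum.inr (Sum.inr i) : V J) ∈ tY m ↔
          ((m : ℕ) < J + 3 ∧ (i : ℕ) ≠ m) := by
        intro m; simp [tY, mk4]
      rw [cN2 (n := J + 2) (J + 2) (J + 3) (by omega) (by omega) (by omega)
            (fun m => by rw [hX]; have := m.2; omega),
          cN2 (n := J + 2) (i : ℕ) (J + 3) (by omega) (by omega) (by omega)
            (fun m => by rw [hY]; have := m.2; omega)]

/-- Types with different weights are different. -/
lemma strict {J : ℕ} {a b : V J} (h : ty a < ty b) : ¬ (base J).geq b a := by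
  -- it suffices to find a coalition `S`
  suffices hs : ∃ S : Finset (V J), a ∉ S ∧ b ∉ S ∧
      ((wg J (ty a) + wt S = qu J ∧ cnt 2 (insert a S) ≠ 1 ∧ True) ∨
        (wg J (ty b) + wt S = qu J ∧ cnt 2 (insert b S) = 1)) by
    obtain ⟨S, ha, hb, hc⟩ := hs
    intro hg
    have hw := wg_anti (J := J) h
    rcases hc with ⟨h1, h2, -⟩ | ⟨h1, h2⟩
    · have h3 : (base J).win (insert a S) := Or.inr ⟨by rw [wt_insert ha]; exact h1, h2⟩
      have h4 := hg S hb ha h3
      rcases h4 with h4 | h4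
      · rw [wt_insert hb] at h4; omega
      · rw [wt_insert hb] at h4; omega
    · have h3 : (base J).win (insert a S) := Or.inl (by rw [wt_insert ha]; omega)
      have h4 := hg S hb ha h3
      rcases h4 with h4 | h4
      · rw [wt_insert hb] at h4; omega
      · exact h4.2 h2
  match a, b with
  | Sum.inl (Sum.inl a), Sum.inl (Sum.inl b) => exact absurd h (lt_irrefl _)
  | Sum.inl (Sum.inr a), Sum.inl (Sum.inr b) => exact absurd h (lt_irrefl _)
  | Sum.inr (Sum.inl a), Sum.inr (Sum.inl b) => exact absurd h (lt_irrefl _)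
  | Sum.inr (Sum.inr a), Sum.inr (Sum.inr b) => exact absurd h (lt_irrefl _)
  | Sum.inl (Sum.inr a), Sum.inl (Sum.inl b) => exact absurd h (by simp [ty])
  | Sum.inr (Sum.inl a), Sum.inl (Sum.inl b) => exact absurd h (by simp [ty])
  | Sum.inr (Sum.inr a), Sum.inl (Sum.inl b) => exact absurd h (by simp [ty])
  | Sum.inr (Sum.inl a), Sum.inl (Sum.inr b) => exact absurd h (by simp [ty])
  | Sum.inr (Sum.inr a), Sum.inl (Sum.inr b) => exact absurd h (by simp [ty])
  | Sum.inr (Sum.inr a), Sum.inr (Sum.inl b) => exact absurd h (by simp [ty])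
  | Sum.inl (Sum.inl a), Sum.inl (Sum.inr b) =>
    have ha : (Sum.inl (Sum.inl a) : V J) ∉ mk4 ∅ ∅ ∅ univ := by simp [mk4]
    refine ⟨mk4 ∅ ∅ ∅ univ, ha, by simp [mk4], Or.inl ⟨?_, ?_, trivial⟩⟩
    · rw [wt_mk4]
      simp only [ty, wg0, wg1, wg2, wg3, qu, Finset.card_empty, Finset.card_univ, Fintype.card_fin]
      ring
    · rw [cnt_insert ha, cnt_mk4]; simp [ty]
  | Sum.inl (Sum.inl a), Sum.inr (Sum.inl b) =>
    have ha : (Sum.inl (Sum.inl a) : V J) ∉ mk4 ∅ ∅ ∅ univ := by simp [mk4]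
    refine ⟨mk4 ∅ ∅ ∅ univ, ha, by simp [mk4], Or.inl ⟨?_, ?_, trivial⟩⟩
    · rw [wt_mk4]
      simp only [ty, wg0, wg1, wg2, wg3, qu, Finset.card_empty, Finset.card_univ, Fintype.card_fin]
      ring
    · rw [cnt_insert ha, cnt_mk4]; simp [ty]
  | Sum.inl (Sum.inl a), Sum.inr (Sum.inr b) =>
    obtain ⟨z, hz⟩ : ∃ z : Fin (J + 3), z ≠ b := by
      rcases eq_or_ne b 0 with h0 | h0
      · exact ⟨1, by rw [h0]; simp⟩
      · exact ⟨0, h0.symm⟩
    have hb : (Sum.inr (Sum.inr b) : V J) ∉ mk4 ∅ {0} {0} ((univ.erase b).erase z) := by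
      simp [mk4]
    refine ⟨mk4 ∅ {0} {0} ((univ.erase b).erase z), by simp [mk4], hb, Or.inr ⟨?_, ?_⟩⟩
    · rw [wt_mk4, Finset.card_erase_of_mem (by simp [hz]),
        Finset.card_erase_of_mem (Finset.mem_univ _)]
      simp only [ty, wg0, wg1, wg2, wg3, qu, Finset.card_empty, Finset.card_univ, Fintype.card_fin,
        Finset.card_singleton]
      have : J + 3 - 1 - 1 = J + 1 := by omega
      rw [this]; ring
    · rw [cnt_insert hb, cnt_mk4]; simp [ty]
  | Sum.inl (Sum.inr a), Sum.inr (Sum.inl b) =>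
    have ha : (Sum.inl (Sum.inr a) : V J) ∉ mk4 ∅ (univ.erase a) ∅ ∅ := by simp [mk4]
    refine ⟨mk4 ∅ (univ.erase a) ∅ ∅, ha, by simp [mk4], Or.inl ⟨?_, ?_, trivial⟩⟩
    · rw [wt_mk4, Finset.card_erase_of_mem (Finset.mem_univ _)]
      simp only [ty, wg0, wg1, wg2, wg3, qu, Finset.card_empty, Finset.card_univ, Fintype.card_fin]
      have : J + 3 - 1 = J + 2 := by omega
      rw [this]; ring
    · rw [cnt_insert ha, cnt_mk4]; simp [ty]
  | Sum.inl (Sum.inr a), Sum.inr (Sum.inr b) =>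
    have ha : (Sum.inl (Sum.inr a) : V J) ∉ mk4 ∅ (univ.erase a) ∅ ∅ := by simp [mk4]
    refine ⟨mk4 ∅ (univ.erase a) ∅ ∅, ha, by simp [mk4], Or.inl ⟨?_, ?_, trivial⟩⟩
    · rw [wt_mk4, Finset.card_erase_of_mem (Finset.mem_univ _)]
      simp only [ty, wg0, wg1, wg2, wg3, qu, Finset.card_empty, Finset.card_univ, Fintype.card_fin]
      have : J + 3 - 1 = J + 2 := by omega
      rw [this]; ring
    · rw [cnt_insert ha, cnt_mk4]; simp [ty]
  | Sum.inr (Sum.inl a), Sum.inr (Sum.inr b) =>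
    have ha : (Sum.inr (Sum.inl a) : V J) ∉ mk4 ∅ ∅ (univ.erase a) ∅ := by simp [mk4]
    refine ⟨mk4 ∅ ∅ (univ.erase a) ∅, ha, by simp [mk4], Or.inl ⟨?_, ?_, trivial⟩⟩
    · rw [wt_mk4, Finset.card_erase_of_mem (Finset.mem_univ _)]
      simp only [ty, wg0, wg1, wg2, wg3, qu, Finset.card_empty, Finset.card_univ, Fintype.card_fin]
      have : J + 4 - 1 = J + 3 := by omega
      rw [this]; ring
    · rw [cnt_insert ha, cnt_mk4, Finset.card_erase_of_mem (Finset.mem_univ _)]
      simp only [ty, Finset.card_univ, Fintype.card_fin, if_true]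
      omega

end Pool.Agent.X129.TradeB
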