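import Pool.Agent.X129.Trade6

/-!
The second base family has at most six shift-minimal winning types.
-/

namespace Pool.Agent.X129.TradeB

open Finset
open Pool.Agent.X129.Trade (Game HasRob step_rob)

lemma geq_iff {J : ℕ} (a b : V J) : (base J).geq a b ↔ ty a ≤ ty b := by
  constructor
  · intro h
    by_contra hc
    exact strict (lt_of_not_ge hc) h
  · intro h
    rcases h.lt_or_eq with h | h
    · exact geq_of_lt (wg_anti h)
    · exact geq_of_ty h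

/-- Prefix counts. -/
def pf {J : ℕ} (t : Fin 4) (S : Finset (V J)) : ℕ := (S.filter fun a => ty a ≤ t).card

lemma pre_eq {J : ℕ} (S : Finset (V J)) (v : V J) : (base J).pre S v = pf (ty v) S := by
  unfold Game.pre pf
  congr 1
  ext a
  simp [geq_iff]

lemma pf0 {J : ℕ} (S : Finset (V J)) : pf 0 S = cnt 0 S := by
  unfold pf cnt
  rw [card_filter, card_filter]
  apply sum_congr rfl; intro a _; generalize ty a = t; revert t; decide

lemma pf1 {J : ℕ} (S : Finset (V J)) : pf 1 S = cnt 0 S + cnt 1 S := by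
  unfold pf cnt
  rw [card_filter, card_filter, card_filter, ← sum_add_distrib]
  apply sum_congr rfl; intro a _; generalize ty a = t; revert t; decide

lemma pf2 {J : ℕ} (S : Finset (V J)) : pf 2 S = cnt 0 S + cnt 1 S + cnt 2 S := by
  unfold pf cnt
  rw [card_filter, card_filter, card_filter, card_filter, ← sum_add_distrib, ← sum_add_distrib]
  apply sum_congr rfl; intro a _; generalize ty a = t; revert t; decide

lemma pf3 {J : ℕ} (S : Finset (V J)) : pf 3 S = cnt 0 S + cnt 1 S + cnt 2 S + cnt 3 S := by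
  unfold pf cnt
  rw [card_filter, card_filter, card_filter, card_filter, card_filter, ← sum_add_distrib,
    ← sum_add_distrib, ← sum_add_distrib]
  apply sum_congr rfl; intro a _; generalize ty a = t; revert t; decide

lemma cnt3_le {J : ℕ} (S : Finset (V J)) : cnt 3 S ≤ J + 3 := by
  have h1 : cnt 3 S ≤ cnt 3 (univ : Finset (V J)) :=
    Finset.card_le_card (Finset.filter_subset_filter _ (Finset.subset_univ S))
  refine h1.trans (le_of_eq ?_)
  unfold cnt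
  rw [Finset.card_filter]
  simp [Fintype.sum_sum_type, ty]

lemma domA (k x0 x1 x2 x3 : ℤ) (hk : 3 ≤ k) (h0 : 0 ≤ x0) (h1 : 0 ≤ x1) (h2 : 0 ≤ x2)
    (h3 : 0 ≤ x3) (h3' : x3 ≤ k)
    (h : k * (k ^ 2 - 1) < k ^ 2 * x0 + (k ^ 2 - 1) * x1 + (k ^ 2 - k) * x2 + (k ^ 2 - k - 1) * x3 ∨
      (k ^ 2 * x0 + (k ^ 2 - 1) * x1 + (k ^ 2 - k) * x2 + (k ^ 2 - k - 1) * x3 = k * (k ^ 2 - 1) ∧
        x2 ≠ 1)) :
    (2 ≤ x0 + x1 + x2 ∧ k + 2 ≤ x0 + x1 + x2 + x3) ∨ (k + 1 ≤ x0 + x1 + x2) ∨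
    (1 ≤ x0 + x1 ∧ 3 ≤ x0 + x1 + x2 ∧ k + 1 ≤ x0 + x1 + x2 + x3) ∨
    (2 ≤ x0 + x1 ∧ k + 1 ≤ x0 + x1 + x2 + x3) ∨ (k ≤ x0 + x1) ∨
    (1 ≤ x0 ∧ k + 1 ≤ x0 + x1 + x2 + x3) := by
  obtain ⟨s, hs⟩ : ∃ s, s = x0 + x1 + x2 + x3 := ⟨_, rfl⟩
  obtain ⟨R, hR⟩ : ∃ R, R = x1 + k * x2 + (k + 1) * x3 := ⟨_, rfl⟩
  have e : k ^ 2 * x0 + (k ^ 2 - 1) * x1 + (k ^ 2 - k) * x2 + (k ^ 2 - k - 1) * x3 =
      k ^ 2 * s - R := by rw [hs, hR]; ring
  rw [e] at h
  have f1 : 0 ≤ k * x2 := mul_nonneg (by linarith) h2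
  have f2 : 0 ≤ (k + 1) * x3 := mul_nonneg (by linarith) h3
  have hR0 : 0 ≤ R := by rw [hR]; linarith
  have hge : k * (k ^ 2 - 1) ≤ k ^ 2 * s - R := by
    rcases h with h | h
    · exact h.le
    · exact h.1.symm.le
  have hsk : k ≤ s := by
    by_contra hc
    push Not at hc
    have g1 : s ≤ k - 1 := by omega
    have g2 : k ^ 2 * s ≤ k ^ 2 * (k - 1) := mul_le_mul_of_nonneg_left g1 (by positivity)
    nlinarith
  rcases eq_or_lt_of_le hsk with g | g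
  · rw [← g] at h hge
    have g1 : R ≤ k := by nlinarith
    have g3 : x3 = 0 := by
      by_contra hc
      have : (k + 1) * 1 ≤ (k + 1) * x3 := mul_le_mul_of_nonneg_left (by omega) (by linarith)
      linarith
    rcases eq_or_lt_of_le h2 with g4 | g4
    · omega
    · exfalso
      have g5 : x2 = 1 := by
        by_contra hc
        have : k * 2 ≤ k * x2 := mul_le_mul_of_nonneg_left (by omega) (by linarith)
        linarith
      have g6 : R = k := by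
        rw [g3, g5] at hR; linarith
      rw [g6] at h
      rcases h with h | h
      · nlinarith
      · exact h.2 g5
  · rcases eq_or_lt_of_le (show k + 1 ≤ s by omega) with g' | g'
    · rw [← g'] at h hge
      have g1 : R ≤ k ^ 2 + k := by nlinarith
      by_cases c0 : 1 ≤ x0
      · omega
      by_cases c1 : 2 ≤ x1
      · omega
      have c0' : x0 = 0 := by omega
      rcases eq_or_lt_of_le h1 with c2 | c2
      · -- x1 = 0
        have g7 : x2 = k + 1 - x3 := by omega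
        have g8 : x3 ≤ 0 := by rw [g7, ← c2] at hR; nlinarith
        omega
      · have c3 : x1 = 1 := by omega
        by_cases c4 : 2 ≤ x2
        · omega
        exfalso
        rcases eq_or_lt_of_le h2 with c5 | c5
        · have g9 : x3 = k := by omega
          rw [c3, ← c5, g9] at hR; nlinarith
        · have c6 : x2 = 1 := by omega
          have g9 : x3 = k - 1 := by omega
          rw [c3, c6, g9] at hR
          have g10 : R = k ^ 2 + k := by rw [hR]; ring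
          rw [g10] at h
          rcases h with h | h
          · nlinarith
          · exact h.2 c6
    · omega

lemma cnts {J : ℕ} (A : Finset (Fin (J + 2))) (B : Finset (Fin (J + 3)))
    (C : Finset (Fin (J + 4))) (D : Finset (Fin (J + 3))) : cnt 0 (mk4 A B C D) = A.card ∧
    cnt 1 (mk4 A B C D) = B.card ∧ cnt 2 (mk4 A B C D) = C.card ∧
    cnt 3 (mk4 A B C D) = D.card := by
  unfold cnt mk4
  refine ⟨?_, ?_, ?_, ?_⟩ <;>
    rw [Finset.card_filter, Finset.sum_disjSum, Finset.sum_disjSum, Finset.sum_disjSum] <;>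
    simp [ty]

/-- The six coalitions. -/
def T6 (J : ℕ) : Fin 6 → Finset (V J) := ![mk4 ∅ ∅ {0, 1} univ, mk4 ∅ ∅ univ ∅,
  mk4 ∅ {0} {0, 1} ((univ.erase 0).erase 1), mk4 ∅ {0, 1} ∅ (univ.erase 0), mk4 ∅ univ ∅ ∅,
  mk4 {0} ∅ ∅ univ]

lemma c01 {n : ℕ} : ({0, 1} : Finset (Fin (n + 2))).card = 2 := by
  rw [Finset.card_pair (by simp)]

lemma T6_cnt (J : ℕ) (i : Fin 6) : cnt 0 (T6 J i) = (![0, 0, 0, 0, 0, 1] : Fin 6 → ℕ) i ∧
    cnt 1 (T6 J i) = (![0, 0, 1, 2, J + 3, 0] : Fin 6 → ℕ) i ∧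
    cnt 2 (T6 J i) = (![2, J + 4, 2, 0, 0, 0] : Fin 6 → ℕ) i ∧
    cnt 3 (T6 J i) = (![J + 3, 0, J + 1, J + 2, 0, J + 3] : Fin 6 → ℕ) i := by
  have e1 : ((univ.erase (0 : Fin (J + 3))).erase 1).card = J + 1 := by
    rw [Finset.card_erase_of_mem (by simp), Finset.card_erase_of_mem (Finset.mem_univ _)]; simp
  have e2 : (univ.erase (0 : Fin (J + 3))).card = J + 2 := by
    rw [Finset.card_erase_of_mem (Finset.mem_univ _)]; simp
  have e3 : ({0, 1} : Finset (Fin (J + 4))).card = 2 := c01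
  have e4 : ({0, 1} : Finset (Fin (J + 3))).card = 2 := c01
  fin_cases i
  · have := cnts (J := J) ∅ ∅ {0, 1} univ; simpa [T6, e3] using this
  · have := cnts (J := J) ∅ ∅ univ ∅; simpa [T6] using this
  · have := cnts (J := J) ∅ {0} {0, 1} ((univ.erase 0).erase 1); simpa [T6, e1, e3] using this
  · have := cnts (J := J) ∅ {0, 1} ∅ (univ.erase 0); simpa [T6, e2, e4] using this
  · have := cnts (J := J) ∅ univ ∅ ∅; simpa [T6] using this
  · have := cnts (J := J) {0} ∅ ∅ univ; simpa [T6] using this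

lemma T6_win (J : ℕ) (i : Fin 6) : (base J).win (T6 J i) := by
  obtain ⟨h0, h1, h2, h3⟩ := T6_cnt J i
  change qu J < wt (T6 J i) ∨ (wt (T6 J i) = qu J ∧ cnt 2 (T6 J i) ≠ 1)
  rw [wt_eq, h0, h1, h2, h3, wg0, wg1, wg2, wg3, qu]
  fin_cases i
  · left; simp; nlinarith
  · right; refine ⟨?_, ?_⟩
    · simp; ring
    · simp
  · left; simp; nlinarith
  · left; simp; nlinarith
  · right; refine ⟨?_, ?_⟩
    · simp; ring
    · simp
  · right; refine ⟨?_, ?_⟩
    · simp; ring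
    · simp

lemma dom {J : ℕ} {S : Finset (V J)} (h : (base J).win S) :
    ∃ i : Fin 6, ∀ t, pf t (T6 J i) ≤ pf t S := by
  have h3 := cnt3_le S
  have h' : ((J : ℤ) + 3) * (((J : ℤ) + 3) ^ 2 - 1) < ((J : ℤ) + 3) ^ 2 * cnt 0 S +
      (((J : ℤ) + 3) ^ 2 - 1) * cnt 1 S + (((J : ℤ) + 3) ^ 2 - ((J : ℤ) + 3)) * cnt 2 S +
      (((J : ℤ) + 3) ^ 2 - ((J : ℤ) + 3) - 1) * cnt 3 S ∨
      (((J : ℤ) + 3) ^ 2 * cnt 0 S +
      (((J : ℤ) + 3) ^ 2 - 1) * cnt 1 S + (((J : ℤ) + 3) ^ 2 - ((J : ℤ) + 3)) * cnt 2 S +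
      (((J : ℤ) + 3) ^ 2 - ((J : ℤ) + 3) - 1) * cnt 3 S = ((J : ℤ) + 3) * (((J : ℤ) + 3) ^ 2 - 1) ∧
      (cnt 2 S : ℤ) ≠ 1) := by
    have hq : ((qu J : ℕ) : ℤ) = ((J : ℤ) + 3) * (((J : ℤ) + 3) ^ 2 - 1) := by
      unfold qu; push_cast; ring
    have hw : ((wt S : ℕ) : ℤ) = ((J : ℤ) + 3) ^ 2 * cnt 0 S +
      (((J : ℤ) + 3) ^ 2 - 1) * cnt 1 S + (((J : ℤ) + 3) ^ 2 - ((J : ℤ) + 3)) * cnt 2 S +
      (((J : ℤ) + 3) ^ 2 - ((J : ℤ) + 3) - 1) * cnt 3 S := by
      rw [wt_eq, wg0, wg1, wg2, wg3]; push_cast; ring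
    rw [← hq, ← hw]
    rcases h with h | h
    · left; exact_mod_cast h
    · right; exact ⟨by exact_mod_cast h.1, by exact_mod_cast h.2⟩
  have hd := domA (J + 3) (cnt 0 S) (cnt 1 S) (cnt 2 S) (cnt 3 S)
    (by linarith [(Nat.cast_nonneg J : (0:ℤ) ≤ J)]) (by positivity) (by positivity)
    (by positivity) (by positivity) (by exact_mod_cast h3) h'
  have key : ∀ i : Fin 6, (pf 0 (T6 J i) ≤ pf 0 S ∧ pf 1 (T6 J i) ≤ pf 1 S ∧
      pf 2 (T6 J i) ≤ pf 2 S ∧ pf 3 (T6 J i) ≤ pf 3 S) → ∀ t, pf t (T6 J i) ≤ pf t S := by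
    intro i hi t
    fin_cases t
    · exact hi.1
    · exact hi.2.1
    · exact hi.2.2.1
    · exact hi.2.2.2
  have val : ∀ i : Fin 6, pf 0 (T6 J i) = (![0, 0, 0, 0, 0, 1] : Fin 6 → ℕ) i ∧
      pf 1 (T6 J i) = (![0, 0, 1, 2, J + 3, 1] : Fin 6 → ℕ) i ∧
      pf 2 (T6 J i) = (![2, J + 4, 3, 2, J + 3, 1] : Fin 6 → ℕ) i ∧
      pf 3 (T6 J i) = (![J + 5, J + 4, J + 4, J + 4, J + 3, J + 4] : Fin 6 → ℕ) i := by
    intro i
    obtain ⟨h0, h1, h2, h3⟩ := T6_cnt J i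
    rw [pf0, pf1, pf2, pf3, h0, h1, h2, h3]
    fin_cases i <;> simp <;> omega
  rcases hd with hd | hd | hd | hd | hd | hd
  · refine ⟨0, key 0 ?_⟩
    obtain ⟨v0, v1, v2, v3⟩ := val 0
    rw [v0, v1, v2, v3, pf0, pf1, pf2, pf3]; simp; omega
  · refine ⟨1, key 1 ?_⟩
    obtain ⟨v0, v1, v2, v3⟩ := val 1
    rw [v0, v1, v2, v3, pf0, pf1, pf2, pf3]; simp; omega
  · refine ⟨2, key 2 ?_⟩
    obtain ⟨v0, v1, v2, v3⟩ := val 2
    rw [v0, v1, v2, v3, pf0, pf1, pf2, pf3]; simp; omega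
  · refine ⟨3, key 3 ?_⟩
    obtain ⟨v0, v1, v2, v3⟩ := val 3
    rw [v0, v1, v2, v3, pf0, pf1, pf2, pf3]; simp; omega
  · refine ⟨4, key 4 ?_⟩
    obtain ⟨v0, v1, v2, v3⟩ := val 4
    rw [v0, v1, v2, v3, pf0, pf1, pf2, pf3]; simp; omega
  · refine ⟨5, key 5 ?_⟩
    obtain ⟨v0, v1, v2, v3⟩ := val 5
    rw [v0, v1, v2, v3, pf0, pf1, pf2, pf3]; simp; omega

theorem numSMW_le (J : ℕ) : (base J).numSMW ≤ 6 := by
  unfold Game.numSMW
  have hsub : (base J).pre '' {S | (base J).SMW S} ⊆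
      (fun i : Fin 6 => (base J).pre (T6 J i)) '' Set.univ := by
    rintro _ ⟨S, hS, rfl⟩
    obtain ⟨i, hi⟩ := dom hS.1
    refine ⟨i, Set.mem_univ _, ?_⟩
    by_contra hne
    exact hS.2 (T6 J i) (fun v => by rw [pre_eq, pre_eq]; exact hi _) hne (T6_win J i)
  calc _ ≤ _ := Set.ncard_le_ncard hsub (Set.toFinite _)
    _ ≤ (Set.univ : Set (Fin 6)).ncard := Set.ncard_image_le (Set.toFinite _)
    _ = 6 := by rw [Set.ncard_univ, Nat.card_fin]

theorem hasRob_six (r k : ℕ) (hr : 6 ≤ r) (hk : 3 ≤ k) : HasRob r k := by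
  obtain ⟨J, rfl⟩ : ∃ J, k = J + 3 := ⟨k - 3, by omega⟩
  have h1 : HasRob (base J).numSMW (J + 3) :=
    ⟨V J, inferInstance, inferInstance, base J, base_complete J, rfl, base_robust J,
      base_not_robust J⟩
  have h2 : (base J).numSMW ≤ r := (numSMW_le J).trans hr
  induction r, h2 using Nat.le_induction with
  | base => exact h1
  | succ s h3 ih =>
    clear hr
    have : ∀ s, (base J).numSMW ≤ s → HasRob s (J + 3) := by
      intro s hs
      induction s, hs using Nat.le_induction with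
      | base => exact h1
      | succ s _ ih => exact step_rob s _ ih
    exact this _ (by omega)

end Pool.Agent.X129.TradeB
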