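import Pool.Agent.X129.Trade7

/-!
The case `k = 2`: the first base game with `J = 0` has at most six shift-minimal winning types.
-/

namespace Pool.Agent.X129.Trade

open Finset

lemma geq_iff {J : ℕ} (a b : V J) : (base J).geq a b ↔ ty a ≤ ty b := by
  constructor
  · intro h
    by_contra hc
    exact strict (lt_of_not_ge hc) h
  · intro h
    rcases h.lt_or_eq with h | h
    · exact geq_of_lt (wg_anti h)
    · exact geq_of_ty h

/-- Prefix counts. -/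
def pf {J : ℕ} (t : Fin 4) (S : Finset (V J)) : ℕ := (S.filter fun a => ty a ≤ t).card

lemma pre_eq {J : ℕ} (S : Finset (V J)) (v : V J) : (base J).pre S v = pf (ty v) S := by
  unfold Game.pre pf
  congr 1
  ext a
  simp [geq_iff]

lemma pf0 {J : ℕ} (S : Finset (V J)) : pf 0 S = cnt 0 S := by
  unfold pf cnt
  rw [card_filter, card_filter]
  apply sum_congr rfl; intro a _; generalize ty a = t; revert t; decide

lemma pf1 {J : ℕ} (S : Finset (V J)) : pf 1 S = cnt 0 S + cnt 1 S := by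
  unfold pf cnt
  rw [card_filter, card_filter, card_filter, ← sum_add_distrib]
  apply sum_congr rfl; intro a _; generalize ty a = t; revert t; decide

lemma pf2 {J : ℕ} (S : Finset (V J)) : pf 2 S = cnt 0 S + cnt 1 S + cnt 2 S := by
  unfold pf cnt
  rw [card_filter, card_filter, card_filter, card_filter, ← sum_add_distrib, ← sum_add_distrib]
  apply sum_congr rfl; intro a _; generalize ty a = t; revert t; decide

lemma pf3 {J : ℕ} (S : Finset (V J)) : pf 3 S = cnt 0 S + cnt 1 S + cnt 2 S + cnt 3 S := by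
  unfold pf cnt
  rw [card_filter, card_filter, card_filter, card_filter, card_filter, ← sum_add_distrib,
    ← sum_add_distrib, ← sum_add_distrib]
  apply sum_congr rfl; intro a _; generalize ty a = t; revert t; decide

lemma cnt_bd (S : Finset (V 0)) : cnt 0 S ≤ 1 ∧ cnt 1 S ≤ 2 ∧ cnt 2 S ≤ 3 ∧ cnt 3 S ≤ 3 := by
  have h1 : ∀ t, cnt t S ≤ cnt t (univ : Finset (V 0)) := fun t =>
    Finset.card_le_card (Finset.filter_subset_filter _ (Finset.subset_univ S))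
  have e0 : cnt 0 (univ : Finset (V 0)) = 1 := by decide
  have e1 : cnt 1 (univ : Finset (V 0)) = 2 := by decide
  have e2 : cnt 2 (univ : Finset (V 0)) = 3 := by decide
  have e3 : cnt 3 (univ : Finset (V 0)) = 3 := by decide
  exact ⟨(h1 0).trans e0.le, (h1 1).trans e1.le, (h1 2).trans e2.le, (h1 3).trans e3.le⟩

/-- The six coalitions. -/
def T6 : Fin 6 → Finset (V 0) := ![mk4 ∅ ∅ univ {0}, mk4 ∅ {0} {0} univ,
  mk4 ∅ {0} {0, 1} ∅, mk4 ∅ univ ∅ ∅, mk4 univ ∅ ∅ univ, mk4 univ ∅ {0} {0}]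

lemma T6_pf (i : Fin 6) : pf 0 (T6 i) = (![0, 0, 0, 0, 1, 1] : Fin 6 → ℕ) i ∧
    pf 1 (T6 i) = (![0, 1, 1, 2, 1, 1] : Fin 6 → ℕ) i ∧
    pf 2 (T6 i) = (![3, 2, 3, 2, 1, 2] : Fin 6 → ℕ) i ∧
    pf 3 (T6 i) = (![4, 5, 3, 2, 4, 3] : Fin 6 → ℕ) i := by
  fin_cases i <;> decide

lemma T6_win (i : Fin 6) : (base 0).win (T6 i) := by
  change qu 0 < wt (T6 i) ∨ (wt (T6 i) = qu 0 ∧ cnt 2 (T6 i) ≠ 1)
  fin_cases i <;> decide

lemma dom0 {S : Finset (V 0)} (h : (base 0).win S) :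
    ∃ i : Fin 6, ∀ t, pf t (T6 i) ≤ pf t S := by
  obtain ⟨b0, b1, b2, b3⟩ := cnt_bd S
  have h' : 10 < 7 * cnt 0 S + 5 * cnt 1 S + 3 * cnt 2 S + 1 * cnt 3 S ∨
      (7 * cnt 0 S + 5 * cnt 1 S + 3 * cnt 2 S + 1 * cnt 3 S = 10 ∧ cnt 2 S ≠ 1) := by
    have hw : wt S = 7 * cnt 0 S + 5 * cnt 1 S + 3 * cnt 2 S + 1 * cnt 3 S := by
      rw [wt_eq]; rfl
    rw [← hw]; exact h
  have key : ∀ i : Fin 6, (pf 0 (T6 i) ≤ pf 0 S ∧ pf 1 (T6 i) ≤ pf 1 S ∧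
      pf 2 (T6 i) ≤ pf 2 S ∧ pf 3 (T6 i) ≤ pf 3 S) → ∀ t, pf t (T6 i) ≤ pf t S := by
    intro i hi t
    fin_cases t
    · exact hi.1
    · exact hi.2.1
    · exact hi.2.2.1
    · exact hi.2.2.2
  have hd : (3 ≤ cnt 0 S + cnt 1 S + cnt 2 S ∧ 4 ≤ cnt 0 S + cnt 1 S + cnt 2 S + cnt 3 S) ∨
      (1 ≤ cnt 0 S + cnt 1 S ∧ 2 ≤ cnt 0 S + cnt 1 S + cnt 2 S ∧
        5 ≤ cnt 0 S + cnt 1 S + cnt 2 S + cnt 3 S) ∨
      (1 ≤ cnt 0 S + cnt 1 S ∧ 3 ≤ cnt 0 S + cnt 1 S + cnt 2 S) ∨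
      (2 ≤ cnt 0 S + cnt 1 S) ∨
      (1 ≤ cnt 0 S ∧ 4 ≤ cnt 0 S + cnt 1 S + cnt 2 S + cnt 3 S) ∨
      (1 ≤ cnt 0 S ∧ 2 ≤ cnt 0 S + cnt 1 S + cnt 2 S ∧
        3 ≤ cnt 0 S + cnt 1 S + cnt 2 S + cnt 3 S) := by omega
  rcases hd with hd | hd | hd | hd | hd | hd
  · refine ⟨0, key 0 ?_⟩
    obtain ⟨v0, v1, v2, v3⟩ := T6_pf 0
    rw [v0, v1, v2, v3, pf0, pf1, pf2, pf3]; simp; omega
  · refine ⟨1, key 1 ?_⟩
    obtain ⟨v0, v1, v2, v3⟩ := T6_pf 1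
    rw [v0, v1, v2, v3, pf0, pf1, pf2, pf3]; simp; omega
  · refine ⟨2, key 2 ?_⟩
    obtain ⟨v0, v1, v2, v3⟩ := T6_pf 2
    rw [v0, v1, v2, v3, pf0, pf1, pf2, pf3]; simp; omega
  · refine ⟨3, key 3 ?_⟩
    obtain ⟨v0, v1, v2, v3⟩ := T6_pf 3
    rw [v0, v1, v2, v3, pf0, pf1, pf2, pf3]; simp; omega
  · refine ⟨4, key 4 ?_⟩
    obtain ⟨v0, v1, v2, v3⟩ := T6_pf 4
    rw [v0, v1, v2, v3, pf0, pf1, pf2, pf3]; simp; omega
  · refine ⟨5, key 5 ?_⟩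
    obtain ⟨v0, v1, v2, v3⟩ := T6_pf 5
    rw [v0, v1, v2, v3, pf0, pf1, pf2, pf3]; simp; omega

theorem numSMW_le0 : (base 0).numSMW ≤ 6 := by
  unfold Game.numSMW
  have hsub : (base 0).pre '' {S | (base 0).SMW S} ⊆
      (fun i : Fin 6 => (base 0).pre (T6 i)) '' Set.univ := by
    rintro _ ⟨S, hS, rfl⟩
    obtain ⟨i, hi⟩ := dom0 hS.1
    refine ⟨i, Set.mem_univ _, ?_⟩
    by_contra hne
    exact hS.2 (T6 i) (fun v => by rw [pre_eq, pre_eq]; exact hi _) hne (T6_win i)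
  calc _ ≤ _ := Set.ncard_le_ncard hsub (Set.toFinite _)
    _ ≤ (Set.univ : Set (Fin 6)).ncard := Set.ncard_image_le (Set.toFinite _)
    _ = 6 := by rw [Set.ncard_univ, Nat.card_fin]

theorem hasRob_all (r k : ℕ) (hr : 6 ≤ r) (hk : 2 ≤ k) : HasRob r k := by
  rcases Nat.lt_or_ge 2 k with h | h
  · exact TradeB.hasRob_six r k hr h
  · have h2 : k = 2 := by omega
    subst h2
    have h1 : HasRob (base 0).numSMW 2 := exists_rob 0
    have : ∀ s, (base 0).numSMW ≤ s → HasRob s 2 := by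
      intro s hs
      induction s, hs using Nat.le_induction with
      | base => exact h1
      | succ s _ ih => exact step_rob s _ ih
    exact this _ (numSMW_le0.trans hr)

end Pool.Agent.X129.Trade
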