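import Pool.Agent.X129.Trade8

/-!
Invariant trade robustness of the second base family.
-/

namespace Pool.Agent.X129.TradeB

open Finset
open Pool.Agent.X129.Trade (Game HasInv step)

lemma cnt_tX {J : ℕ} (m : Fin (J + 4)) : ∃ i : Fin 6,
    (∀ t, cnt t (tX m) = cnt t (T6 J i)) ∧ (i = 5 ∨ i = 4 ∨ i = 1) := by
  have hm := m.2
  have hh : ∀ (S : Finset (V J)) (i : Fin 6), cnt 0 S = cnt 0 (T6 J i) → cnt 1 S = cnt 1 (T6 J i) →
      cnt 2 S = cnt 2 (T6 J i) → cnt 3 S = cnt 3 (T6 J i) → ∀ t, cnt t S = cnt t (T6 J i) := by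
    intro S i a b c d t
    fin_cases t
    · exact a
    · exact b
    · exact c
    · exact d
  rcases Nat.lt_trichotomy (m : ℕ) (J + 2) with h | h | h
  · refine ⟨5, hh _ _ ?_ ?_ ?_ ?_, by simp⟩ <;> obtain ⟨e0, e1, e2, e3⟩ := T6_cnt J 5 <;>
      simp only [e0, e1, e2, e3] <;> unfold tX <;>
      simp only [cnts]
    · rw [cE (n := J + 2) (m : ℕ) h (fun i => Iff.rfl)]; rfl
    · rw [c0 (n := J + 3) (fun i => by omega)]; rfl
    · rw [c0 (n := J + 4) (fun i => by omega)]; rfl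
    · rw [cU (n := J + 3) (fun i => h)]; rfl
  · refine ⟨4, hh _ _ ?_ ?_ ?_ ?_, by simp⟩ <;> obtain ⟨e0, e1, e2, e3⟩ := T6_cnt J 4 <;>
      simp only [e0, e1, e2, e3] <;> unfold tX <;>
      simp only [cnts]
    · rw [c0 (n := J + 2) (fun i => by have := i.2; omega)]; rfl
    · rw [cU (n := J + 3) (fun i => h)]; rfl
    · rw [c0 (n := J + 4) (fun i => by omega)]; rfl
    · rw [c0 (n := J + 3) (fun i => by omega)]; rfl
  · refine ⟨1, hh _ _ ?_ ?_ ?_ ?_, by simp⟩ <;> obtain ⟨e0, e1, e2, e3⟩ := T6_cnt J 1 <;>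
      simp only [e0, e1, e2, e3] <;> unfold tX <;>
      simp only [cnts]
    · rw [c0 (n := J + 2) (fun i => by have := i.2; omega)]; rfl
    · rw [c0 (n := J + 3) (fun i => by omega)]; rfl
    · rw [cU (n := J + 4) (fun i => by omega)]; rfl
    · rw [c0 (n := J + 3) (fun i => by omega)]; rfl

lemma wt_tX {J : ℕ} (m : Fin (J + 4)) : (base J).win (tX m) := by
  obtain ⟨i, hi, -⟩ := cnt_tX m
  have := T6_win J i
  change qu J < wt (T6 J i) ∨ (wt (T6 J i) = qu J ∧ cnt 2 (T6 J i) ≠ 1) at this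
  change qu J < wt (tX m) ∨ (wt (tX m) = qu J ∧ cnt 2 (tX m) ≠ 1)
  rw [wt_eq, hi, hi, hi, hi]
  rw [wt_eq] at this
  exact this

lemma surj {J : ℕ} (t : Fin 4) : ∃ v : V J, ty v = t := by
  fin_cases t
  · exact ⟨Sum.inl (Sum.inl 0), rfl⟩
  · exact ⟨Sum.inl (Sum.inr 0), rfl⟩
  · exact ⟨Sum.inr (Sum.inl 0), rfl⟩
  · exact ⟨Sum.inr (Sum.inr 0), rfl⟩

lemma SMW_tX {J : ℕ} (m : Fin (J + 4)) : (base J).SMW (tX m) := by
  refine ⟨wt_tX m, ?_⟩
  intro T hT hne hwin
  obtain ⟨i, hi, hi'⟩ := cnt_tX m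
  obtain ⟨l, hl⟩ := dom hwin
  have hT' : ∀ t, pf t T ≤ pf t (tX m) := by
    intro t
    obtain ⟨v, hv⟩ := surj (J := J) t
    have := hT v
    rwa [pre_eq, pre_eq, hv] at this
  apply hne
  funext v
  rw [pre_eq, pre_eq]
  have a0 := hT' 0
  have a1 := hT' 1
  have a2 := hT' 2
  have a3 := hT' 3
  have b0 := hl 0
  have b1 := hl 1
  have b2 := hl 2
  have b3 := hl 3
  have hall : pf 0 T = pf 0 (tX m) ∧ pf 1 T = pf 1 (tX m) ∧ pf 2 T = pf 2 (tX m) ∧
      pf 3 T = pf 3 (tX m) := by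
    obtain ⟨e0, e1, e2, e3⟩ := T6_cnt J i
    obtain ⟨f0, f1, f2, f3⟩ := T6_cnt J l
    rw [pf0 (T6 J l), f0] at b0
    rw [pf1 (T6 J l), f0, f1] at b1
    rw [pf2 (T6 J l), f0, f1, f2] at b2
    rw [pf3 (T6 J l), f0, f1, f2, f3] at b3
    rw [pf0 (tX m), hi, e0] at a0 ⊢
    rw [pf1 (tX m), hi, hi, e0, e1] at a1 ⊢
    rw [pf2 (tX m), hi, hi, hi, e0, e1, e2] at a2 ⊢
    rw [pf3 (tX m), hi, hi, hi, hi, e0, e1, e2, e3] at a3 ⊢
    clear e0 e1 e2 e3 f0 f1 f2 f3 hl hT' hi hT hne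
    rcases hi' with rfl | rfl | rfl <;> fin_cases l <;>
      (try simp at a0 a1 a2 a3 b0 b1 b2 b3 ⊢) <;> (try omega)
  generalize ty v = t
  fin_cases t
  · exact hall.1
  · exact hall.2.1
  · exact hall.2.2.1
  · exact hall.2.2.2

theorem base_not_inv (J : ℕ) : ¬ (base J).Inv (J + 4) := by
  intro hrob
  apply hrob
  refine ⟨J + 4, by omega, le_rfl, tX, tY, ?_, ?_, ?_⟩
  · exact SMW_tX
  · intro m
    have hm := m.2
    rintro (hlt | ⟨-, hne⟩)
    · unfold tY at hlt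
      rw [wt_mk4, wg0, wg1, wg2, wg3, qu] at hlt
      rcases Nat.lt_or_ge (m : ℕ) (J + 3) with h | h
      · rw [c0 (n := J + 2) (fun i => by omega), cE (n := J + 3) (m : ℕ) h (fun i => Iff.rfl),
          cE (n := J + 4) (m : ℕ) hm (fun i => Iff.rfl),
          cN (n := J + 2) (m : ℕ) h (fun i => by omega)] at hlt
        nlinarith
      · rw [cU (n := J + 2) (fun i => by omega), c0 (n := J + 3) (fun i => by have := i.2; omega),
          cE (n := J + 4) (m : ℕ) hm (fun i => Iff.rfl),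
          c0 (n := J + 3) (fun i => by omega)] at hlt
        nlinarith
    · apply hne
      unfold tY
      rw [cnt_mk4]
      exact cE (m : ℕ) hm (fun i => Iff.rfl)
  · rintro ((i | i) | (i | i))
    · have hi := i.2
      rw [cE (i : ℕ) (by omega) (fun m => by simp [tX, mk4, eq_comm]),
        cE (J + 3) (by omega) (fun m => by simp only [tY, mk4, Finset.inl_mem_disjSum, Finset.inr_mem_disjSum, Finset.mem_filter, Finset.mem_univ, true_and])]
    · have hi := i.2
      rw [cE (J + 2) (by omega) (fun m => by simp only [tX, mk4, Finset.inl_mem_disjSum, Finset.inr_mem_disjSum, Finset.mem_filter, Finset.mem_univ, true_and]),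
        cE (i : ℕ) (by omega) (fun m => by simp [tY, mk4, eq_comm])]
    · have hi := i.2
      rw [cE (J + 3) (by omega) (fun m => by simp only [tX, mk4, Finset.inl_mem_disjSum, Finset.inr_mem_disjSum, Finset.mem_filter, Finset.mem_univ, true_and]),
        cE (i : ℕ) (by omega) (fun m => by simp [tY, mk4, eq_comm])]
    · have hi := i.2
      have hX : ∀ m : Fin (J + 4), (Sum.inr (Sum.inr i) : V J) ∈ tX m ↔ (m : ℕ) < J + 2 := by
        intro m; simp only [tX, mk4, Finset.inl_mem_disjSum, Finset.inr_mem_disjSum, Finset.mem_filter, Finset.mem_univ, true_and]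
      have hY : ∀ m : Fin (J + 4), (Sum.inr (Sum.inr i) : V J) ∈ tY m ↔
          ((m : ℕ) < J + 3 ∧ (i : ℕ) ≠ m) := by
        intro m; simp [tY, mk4]
      rw [cN2 (n := J + 2) (J + 2) (J + 3) (by omega) (by omega) (by omega)
            (fun m => by rw [hX]; have := m.2; omega),
          cN2 (n := J + 2) (i : ℕ) (J + 3) (by omega) (by omega) (by omega)
            (fun m => by rw [hY]; have := m.2; omega)]

theorem inv_of_robust {N : Type} [Fintype N] [DecidableEq N] (G : Game N) (k : ℕ)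
    (h : G.Robust k) : G.Inv k := by
  rintro ⟨j, h1, h2, X, Y, hX, hY, hb⟩
  exact h ⟨j, h1, h2, X, Y, fun i => (hX i).1, hY, hb⟩

theorem hasInv_six (r m : ℕ) (hr : 6 ≤ r) (hm : 3 ≤ m) : HasInv r m := by
  obtain ⟨J, rfl⟩ : ∃ J, m = J + 3 := ⟨m - 3, by omega⟩
  have h1 : HasInv (base J).numSMW (J + 3) :=
    ⟨V J, inferInstance, inferInstance, base J, base_complete J, rfl,
      inv_of_robust _ _ (base_robust J), base_not_inv J⟩
  have : ∀ s, (base J).numSMW ≤ s → HasInv s (J + 3) := by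
    intro s hs
    induction s, hs using Nat.le_induction with
    | base => exact h1
    | succ s _ ih => exact step s _ ih
  exact this _ ((numSMW_le J).trans hr)

end Pool.Agent.X129.TradeB
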